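import Pool.Agent.Helper89.TQ.Ctx

set_option autoImplicit false
set_option linter.all false
set_option maxHeartbeats 4000000

namespace Pool.Agent.Helper13.TQ

open Pool.Agent.Helper89.TQ

theorem c0_11_13_23_k3 {n1 n2 n3 A1 A2 A3 B1 B2 B3 m11_1 m11_2 m11_3 m13_1 m13_2 m13_3 m22_1 m22_2 m22_3 m23_1 m23_2 m23_3 m33_1 m33_2 m33_3 : ℤ}
    (C : Ctx0 n1 n2 n3 A1 A2 A3 B1 B2 B3 m11_1 m11_2 m11_3 m13_1 m13_2 m13_3 m22_1 m22_2 m22_3 m23_1 m23_2 m23_3 m33_1 m33_2 m33_3)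
    (e0 : 0 < B1)
    (e1 : 0 < A1)
    (e2 : 0 < B3)
    (e3 : 0 < A2)
    (s1 : 3 * A1 + 0 * B1 ≤ m11_1 + m13_1 + m23_1)
    (s2 : 3 * A2 + 0 * B2 ≤ m11_2 + m13_2 + m23_2)
    (s3 : 3 * A3 + 0 * B3 ≤ m11_3 + m13_3 + m23_3) : False := by
  have d_f13_8 : (-m13_2 + m13_3 - n3 ≤ 0 ∧ m13_2 - m13_3 + n3 ≤ 0) ∨ (-B3 + m13_3 + 1 ≤ 0 ∧ B3 - m13_3 - 1 ≤ 0) := by
    have h := C.f13_8
    omega
  have d_f23_7 : (-m23_1 + m23_2 - n2 ≤ 0 ∧ m23_1 - m23_2 + n2 ≤ 0) ∨ (-A2 + m23_2 + 1 ≤ 0 ∧ A2 - m23_2 - 1 ≤ 0) ∨ (-B3 + m23_2 + 1 ≤ 0 ∧ B3 - m23_2 - 1 ≤ 0) := by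
    have h := C.f23_7
    omega
  have d_f23_10 : (-m23_2 + m23_3 - n3 ≤ 0 ∧ m23_2 - m23_3 + n3 ≤ 0) ∨ (-B3 + m23_3 + 1 ≤ 0 ∧ B3 - m23_3 - 1 ≤ 0) := by
    have h := C.f23_10
    omega
  have d_p13_23A : A1 ≤ 0 ∨ B3 ≤ 0 ∨ A2 ≤ 0 ∨ (-2) * A1 + m13_1 + m23_1 + 1 ≤ 0 ∨ (-2) * A2 + m13_2 + m23_2 + 1 ≤ 0 ∨ (-2) * A3 + m13_3 + m23_3 + 1 ≤ 0 := by
    have h := C.p13_23A
    omega
  have d_tmpp : -A1 + n1 ≤ 0 ∨ -A1 + A2 - 1 ≤ 0 ∨ B1 ≤ 0 ∨ B1 - B2 + n2 - 1 ≤ 0 := by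
    have h := C.tmpp
    omega
  rcases d_tmpp with x1_0_0 | x1_1_0 | x1_2_0 | x1_3_0
  · linarith only [C.f11_0, C.f13_0, C.f23_0, C.o0, s1, x1_0_0]
  · linarith only [C.f11_0, C.f13_0, C.f23_1, C.o0, s1, x1_1_0]
  · linarith only [e0, x1_2_0]
  · rcases d_f23_10 with ⟨x2_0_0, x2_0_1⟩ | ⟨x2_1_0, x2_1_1⟩
    · rcases d_f13_8 with ⟨x3_0_0, x3_0_1⟩ | ⟨x3_1_0, x3_1_1⟩
      · linarith only [C.b5, C.f11_0, C.f11_1, C.f13_7, C.f23_5, C.o1, s2, x1_3_0, x3_0_1]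
      · rcases d_p13_23A with x4_0_0 | x4_1_0 | x4_2_0 | x4_3_0 | x4_4_0 | x4_5_0
        · linarith only [C.o0, e0, x4_0_0]
        · linarith only [C.f11_0, C.f11_1, C.f13_1, C.f13_4, C.f23_1, C.f23_6, C.o0, C.o1, e0, s1, s2, x1_3_0, x4_1_0]
        · linarith only [C.f11_0, C.f13_0, C.f23_1, C.o0, e0, s1, x4_2_0]
        · linarith only [C.f11_0, C.o0, s1, x4_3_0]
        · linarith only [C.f11_0, C.f11_1, C.o1, s2, x1_3_0, x4_4_0]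
        · rcases d_f23_7 with ⟨x5_0_0, x5_0_1⟩ | ⟨x5_1_0, x5_1_1⟩ | ⟨x5_2_0, x5_2_1⟩
          · linarith only [C.f11_0, C.f11_1, C.f13_0, C.f13_3, C.f23_5, C.o0, s1, s2, x5_0_1]
          · linarith only [C.f11_0, C.f11_1, C.f11_2, C.f23_9, C.o1, s3, x1_3_0, x2_0_1, x3_1_1, x4_5_0, x5_1_1]
          · linarith only [C.f11_0, C.f11_1, C.f13_4, C.f23_5, C.o1, s2, x1_3_0, x5_2_1]
    · rcases d_f13_8 with ⟨x6_0_0, x6_0_1⟩ | ⟨x6_1_0, x6_1_1⟩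
      · linarith only [C.b5, C.f11_0, C.f11_1, C.f13_7, C.f23_5, C.o1, s2, x1_3_0, x6_0_1]
      · rcases d_p13_23A with x7_0_0 | x7_1_0 | x7_2_0 | x7_3_0 | x7_4_0 | x7_5_0
        · linarith only [C.o0, e0, x7_0_0]
        · linarith only [C.f11_0, C.f11_1, C.f13_1, C.f13_4, C.f23_1, C.f23_6, C.o0, C.o1, e0, s1, s2, x1_3_0, x7_1_0]
        · linarith only [C.f11_0, C.f13_0, C.f23_1, C.o0, e0, s1, x7_2_0]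
        · linarith only [C.f11_0, C.o0, s1, x7_3_0]
        · linarith only [C.f11_0, C.f11_1, C.o1, s2, x1_3_0, x7_4_0]
        · linarith only [C.o2, x2_1_1, x6_1_1, x7_5_0]

end Pool.Agent.Helper13.TQ
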