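import Pool.Agent.Helper89.TQ.Ctx

set_option autoImplicit false
set_option linter.all false
set_option maxHeartbeats 4000000

namespace Pool.Agent.Helper13.TQ

open Pool.Agent.Helper89.TQ

theorem c0_11_13_33_k2 {n1 n2 n3 A1 A2 A3 B1 B2 B3 m11_1 m11_2 m11_3 m13_1 m13_2 m13_3 m22_1 m22_2 m22_3 m23_1 m23_2 m23_3 m33_1 m33_2 m33_3 : ℤ}
    (C : Ctx0 n1 n2 n3 A1 A2 A3 B1 B2 B3 m11_1 m11_2 m11_3 m13_1 m13_2 m13_3 m22_1 m22_2 m22_3 m23_1 m23_2 m23_3 m33_1 m33_2 m33_3)
    (e0 : 0 < B1)
    (e1 : 0 < A1)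
    (e2 : 0 < B3)
    (e3 : 0 < A3)
    (s1 : 2 * A1 + 1 * B1 ≤ m11_1 + m13_1 + m33_1)
    (s2 : 2 * A2 + 1 * B2 ≤ m11_2 + m13_2 + m33_2)
    (s3 : 2 * A3 + 1 * B3 ≤ m11_3 + m13_3 + m33_3) : False := by
  have d_t12 : (-A1 + 1 ≤ 0 ∧ -A1 + A2 - n2 + 1 ≤ 0) ∨ (-B1 + 1 ≤ 0 ∧ -B1 + B2 - n2 + 1 ≤ 0) := by
    have h := C.t12
    omega
  have d_t23 : (A1 - A2 + 1 ≤ 0 ∧ -A2 + A3 - n3 + 1 ≤ 0) ∨ (B1 - B2 + 1 ≤ 0 ∧ -B2 + B3 - n3 + 1 ≤ 0) := by
    have h := C.t23
    omega
  have d_f13_2 : (-A1 + m13_1 + 1 ≤ 0 ∧ A1 - m13_1 - 1 ≤ 0) ∨ (-B3 + m13_1 + 1 ≤ 0 ∧ B3 - m13_1 - 1 ≤ 0) := by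
    have h := C.f13_2
    omega
  have d_f13_5 : (-m13_1 + m13_2 - n2 ≤ 0 ∧ m13_1 - m13_2 + n2 ≤ 0) ∨ (-B3 + m13_2 + 1 ≤ 0 ∧ B3 - m13_2 - 1 ≤ 0) := by
    have h := C.f13_5
    omega
  have d_f13_8 : (-m13_2 + m13_3 - n3 ≤ 0 ∧ m13_2 - m13_3 + n3 ≤ 0) ∨ (-B3 + m13_3 + 1 ≤ 0 ∧ B3 - m13_3 - 1 ≤ 0) := by
    have h := C.f13_8
    omega
  have d_f23_3 : (m23_1 - n1 ≤ 0 ∧ -m23_1 + n1 ≤ 0) ∨ (-A2 + m23_1 + 1 ≤ 0 ∧ A2 - m23_1 - 1 ≤ 0) ∨ (-B3 + m23_1 + 1 ≤ 0 ∧ B3 - m23_1 - 1 ≤ 0) := by
    have h := C.f23_3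
    omega
  have d_f23_7 : (-m23_1 + m23_2 - n2 ≤ 0 ∧ m23_1 - m23_2 + n2 ≤ 0) ∨ (-A2 + m23_2 + 1 ≤ 0 ∧ A2 - m23_2 - 1 ≤ 0) ∨ (-B3 + m23_2 + 1 ≤ 0 ∧ B3 - m23_2 - 1 ≤ 0) := by
    have h := C.f23_7
    omega
  have d_f23_10 : (-m23_2 + m23_3 - n3 ≤ 0 ∧ m23_2 - m23_3 + n3 ≤ 0) ∨ (-B3 + m23_3 + 1 ≤ 0 ∧ B3 - m23_3 - 1 ≤ 0) := by
    have h := C.f23_10
    omega
  have d_f33_5 : (-m33_1 + m33_2 - n2 ≤ 0 ∧ m33_1 - m33_2 + n2 ≤ 0) ∨ (-A3 + m33_2 + 1 ≤ 0 ∧ A3 - m33_2 - 1 ≤ 0) := by
    have h := C.f33_5
    omega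
  have d_p11_13B : B1 ≤ 0 ∨ A1 ≤ 0 ∨ B3 ≤ 0 ∨ (-2) * B1 + m11_1 + m13_1 + 1 ≤ 0 ∨ (-2) * B2 + m11_2 + m13_2 + 1 ≤ 0 ∨ (-2) * B3 + m11_3 + m13_3 + 1 ≤ 0 := by
    have h := C.p11_13B
    omega
  have d_p11_23B : B1 ≤ 0 ∨ A2 ≤ 0 ∨ B3 ≤ 0 ∨ (-2) * B1 + m11_1 + m23_1 + 1 ≤ 0 ∨ (-2) * B2 + m11_2 + m23_2 + 1 ≤ 0 ∨ (-2) * B3 + m11_3 + m23_3 + 1 ≤ 0 := by
    have h := C.p11_23B
    omega
  have d_p11_33A : B1 ≤ 0 ∨ A3 ≤ 0 ∨ (-2) * A1 + m11_1 + m33_1 + 1 ≤ 0 ∨ (-2) * A2 + m11_2 + m33_2 + 1 ≤ 0 ∨ (-2) * A3 + m11_3 + m33_3 + 1 ≤ 0 := by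
    have h := C.p11_33A
    omega
  have d_p13_23A : A1 ≤ 0 ∨ B3 ≤ 0 ∨ A2 ≤ 0 ∨ (-2) * A1 + m13_1 + m23_1 + 1 ≤ 0 ∨ (-2) * A2 + m13_2 + m23_2 + 1 ≤ 0 ∨ (-2) * A3 + m13_3 + m23_3 + 1 ≤ 0 := by
    have h := C.p13_23A
    omega
  have d_p13_33A : A1 ≤ 0 ∨ B3 ≤ 0 ∨ A3 ≤ 0 ∨ (-2) * A1 + m13_1 + m33_1 + 1 ≤ 0 ∨ (-2) * A2 + m13_2 + m33_2 + 1 ≤ 0 ∨ (-2) * A3 + m13_3 + m33_3 + 1 ≤ 0 := by
    have h := C.p13_33A
    omega
  have d_tmzp : -A1 + n1 ≤ 0 ∨ -A1 + A2 ≤ 0 ∨ -A2 + A3 ≤ 0 ∨ B1 ≤ 0 ∨ B1 - B2 + n2 ≤ 0 ∨ B2 - B3 + n3 ≤ 0 := by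
    have h := C.tmzp
    omega
  have d_tmpp : -A1 + n1 ≤ 0 ∨ -A1 + A2 - 1 ≤ 0 ∨ B1 ≤ 0 ∨ B1 - B2 + n2 - 1 ≤ 0 := by
    have h := C.tmpp
    omega
  have d_tzmp : A1 - A2 + n2 ≤ 0 ∨ -A2 + A3 - 1 ≤ 0 ∨ -B1 + B2 ≤ 0 ∨ B2 - B3 + n3 - 1 ≤ 0 := by
    have h := C.tzmp
    omega
  have d_tpmm : A1 ≤ 0 ∨ A1 - A2 + n2 - 1 ≤ 0 ∨ -B1 + n1 ≤ 0 ∨ -B1 + B2 - 1 ≤ 0 ∨ -A3 + B3 - 1 ≤ 0 := by
    have h := C.tpmm
    omega
  have d_tpmz : A1 ≤ 0 ∨ A1 - A2 + n2 - 1 ≤ 0 ∨ -A2 + A3 ≤ 0 ∨ -B1 + n1 ≤ 0 ∨ -B1 + B2 - 1 ≤ 0 ∨ B2 - B3 + n3 ≤ 0 := by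
    have h := C.tpmz
    omega
  rcases d_f13_2 with ⟨x1_0_0, x1_0_1⟩ | ⟨x1_1_0, x1_1_1⟩
  · rcases d_f13_8 with ⟨x2_0_0, x2_0_1⟩ | ⟨x2_1_0, x2_1_1⟩
    · rcases d_f13_5 with ⟨x3_0_0, x3_0_1⟩ | ⟨x3_1_0, x3_1_1⟩
      · linarith only [C.b3, C.b5, C.f13_7, C.o0, x1_0_1, x2_0_1, x3_0_1]
      · linarith only [C.a4, C.b5, C.f13_7, C.o1, C.o2, x2_0_1, x3_1_1]
    · rcases d_f23_3 with ⟨x4_0_0, x4_0_1⟩ | ⟨x4_1_0, x4_1_1⟩ | ⟨x4_2_0, x4_2_1⟩
      · rcases d_tmpp with x5_0_0 | x5_1_0 | x5_2_0 | x5_3_0
        · linarith only [C.f11_0, C.f13_0, C.f33_0, s1, x5_0_0]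
        · linarith only [C.f11_0, C.f13_0, C.f23_1, C.f33_0, s1, x4_0_1, x5_1_0]
        · linarith only [e0, x5_2_0]
        · rcases d_p13_33A with x6_0_0 | x6_1_0 | x6_2_0 | x6_3_0 | x6_4_0 | x6_5_0
          · linarith only [C.o0, e0, x6_0_0]
          · linarith only [C.f11_0, C.f13_1, C.f33_1, C.o0, C.o2, e0, s1, x6_1_0]
          · linarith only [C.f11_0, C.f13_0, C.f33_1, C.o0, e0, s1, x6_2_0]
          · linarith only [C.f11_0, s1, x6_3_0]
          · linarith only [C.f11_0, C.f11_1, s2, x5_3_0, x6_4_0]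
          · rcases d_f23_7 with ⟨x7_0_0, x7_0_1⟩ | ⟨x7_1_0, x7_1_1⟩ | ⟨x7_2_0, x7_2_1⟩
            · linarith only [C.f11_0, C.f11_1, C.f13_0, C.f13_3, C.f23_5, C.f33_0, C.f33_3, s1, s2, x4_0_1, x5_3_0, x7_0_1]
            · rcases d_f23_10 with ⟨x8_0_0, x8_0_1⟩ | ⟨x8_1_0, x8_1_1⟩
              · linarith only [C.f11_0, C.f11_1, C.f11_2, C.f23_9, C.o1, s3, x5_3_0, x6_5_0, x7_1_1, x8_0_1]
              · rcases d_p13_23A with x9_0_0 | x9_1_0 | x9_2_0 | x9_3_0 | x9_4_0 | x9_5_0
                · linarith only [C.o0, e0, x9_0_0]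
                · linarith only [C.f11_0, C.f13_1, C.f33_1, C.o0, C.o2, e0, s1, x9_1_0]
                · linarith only [C.f11_0, C.f13_0, C.f23_1, C.f33_0, C.o0, e0, s1, x4_0_1, x9_2_0]
                · linarith only [C.f11_0, C.f33_0, s1, x4_0_1, x9_3_0]
                · rcases d_f13_5 with ⟨x10_0_0, x10_0_1⟩ | ⟨x10_1_0, x10_1_1⟩
                  · rcases d_p11_23B with x11_0_0 | x11_1_0 | x11_2_0 | x11_3_0 | x11_4_0 | x11_5_0
                    · linarith only [e0, x11_0_0]
                    · linarith only [C.f11_0, C.f13_0, C.f23_1, C.f33_0, C.o0, e0, s1, x11_1_0, x4_0_1]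
                    · linarith only [C.f11_0, C.f13_1, C.f33_1, C.o0, C.o2, e0, s1, x11_2_0]
                    · linarith only [C.f13_0, C.f33_0, C.o0, s1, x11_3_0, x4_0_1]
                    · rcases d_tmzp with x12_0_0 | x12_1_0 | x12_2_0 | x12_3_0 | x12_4_0 | x12_5_0
                      · linarith only [C.f11_0, C.f13_0, C.f33_0, s1, x12_0_0]
                      · linarith only [C.f11_0, C.f13_0, C.f23_1, C.f33_0, s1, x12_1_0, x4_0_1]
                      · linarith only [C.f11_0, C.f11_1, C.f33_4, C.o0, s2, x10_0_1, x11_4_0, x12_2_0, x1_0_1, x7_1_1, x9_4_0]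
                      · linarith only [e0, x12_3_0]
                      · rcases d_tzmp with x13_0_0 | x13_1_0 | x13_2_0 | x13_3_0
                        · rcases d_t12 with ⟨x14_0_0, x14_0_1⟩ | ⟨x14_1_0, x14_1_1⟩
                          · linarith only [x13_0_0, x14_0_1]
                          · linarith only [C.f11_0, C.f11_1, C.o0, x11_4_0, x13_0_0, x14_1_1, x7_1_1]
                        · linarith only [C.f11_0, C.f11_1, C.f33_4, s2, x12_4_0, x13_1_0, x7_1_1, x9_4_0]
                        · linarith only [C.f11_0, C.f13_0, C.f13_3, C.f23_1, C.f33_0, C.f33_3, C.o0, s1, s2, x11_4_0, x12_4_0, x13_2_0, x4_0_1, x7_1_1]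
                        · linarith only [C.f11_0, C.f11_1, C.f11_2, s3, x12_4_0, x13_3_0, x6_5_0]
                      · linarith only [C.f11_0, C.f11_1, C.f11_2, C.o0, s3, x10_0_1, x11_4_0, x12_5_0, x1_0_1, x6_5_0, x7_1_1, x9_4_0]
                    · linarith only [s3, x11_5_0, x6_5_0, x8_1_1]
                  · linarith only [C.f11_0, C.f11_1, C.f33_4, C.o2, s2, x10_1_1, x5_3_0, x7_1_1, x9_4_0]
                · linarith only [C.o2, x2_1_1, x8_1_1, x9_5_0]
            · linarith only [C.f11_0, C.f11_1, C.f13_4, C.f23_5, C.f33_4, C.o2, s2, x5_3_0, x7_2_1]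
      · rcases d_f23_10 with ⟨x15_0_0, x15_0_1⟩ | ⟨x15_1_0, x15_1_1⟩
        · rcases d_f23_7 with ⟨x16_0_0, x16_0_1⟩ | ⟨x16_1_0, x16_1_1⟩ | ⟨x16_2_0, x16_2_1⟩
          · linarith only [C.a2, C.b3, C.b5, C.f23_9, C.o0, x15_0_1, x16_0_1, x4_1_1]
          · rcases d_f33_5 with ⟨x17_0_0, x17_0_1⟩ | ⟨x17_1_0, x17_1_1⟩
            · rcases d_t23 with ⟨x18_0_0, x18_0_1⟩ | ⟨x18_1_0, x18_1_1⟩
              · rcases d_f13_5 with ⟨x19_0_0, x19_0_1⟩ | ⟨x19_1_0, x19_1_1⟩
                · rcases d_p11_33A with x20_0_0 | x20_1_0 | x20_2_0 | x20_3_0 | x20_4_0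
                  · linarith only [e0, x20_0_0]
                  · linarith only [C.b2, C.f11_0, C.f11_1, C.f13_0, C.f13_3, C.f33_4, C.o0, e0, s1, s2, x17_0_1, x18_0_0, x20_1_0]
                  · rcases d_p13_33A with x21_0_0 | x21_1_0 | x21_2_0 | x21_3_0 | x21_4_0 | x21_5_0
                    · linarith only [C.o0, e0, x21_0_0]
                    · linarith only [C.b2, C.f11_0, C.f11_1, C.f13_1, C.f13_3, C.f33_4, C.o0, C.o2, e0, s1, s2, x17_0_1, x18_0_0, x21_1_0]
                    · linarith only [C.b2, C.f11_0, C.f11_1, C.f13_0, C.f13_3, C.f33_4, C.o0, e0, s1, s2, x17_0_1, x18_0_0, x21_2_0]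
                    · linarith only [C.f11_0, s1, x21_3_0]
                    · linarith only [C.b5, C.f11_0, C.f11_1, C.f23_9, C.o0, s1, s2, x15_0_1, x16_1_1, x17_0_1, x19_0_1, x21_4_0]
                    · rcases d_p11_13B with x22_0_0 | x22_1_0 | x22_2_0 | x22_3_0 | x22_4_0 | x22_5_0
                      · linarith only [e0, x22_0_0]
                      · linarith only [C.o0, e0, x22_1_0]
                      · linarith only [C.b2, C.f11_0, C.f11_1, C.f13_1, C.f13_3, C.f33_4, C.o0, C.o2, e0, s1, s2, x17_0_1, x18_0_0, x22_2_0]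
                      · linarith only [C.f11_0, s1, x20_2_0, x22_3_0]
                      · linarith only [C.f11_0, C.f11_1, C.f11_2, C.f23_9, C.o1, s1, s3, x15_0_1, x16_1_1, x19_0_1, x20_2_0, x21_5_0, x22_4_0]
                      · linarith only [s3, x21_5_0, x22_5_0, x2_1_1]
                  · linarith only [C.b3, C.b5, C.f11_1, C.f13_0, C.f13_3, C.f23_9, s1, s2, x15_0_1, x16_1_1, x17_0_1, x20_3_0]
                  · linarith only [C.f13_7, s3, x20_4_0]
                · linarith only [C.f11_0, C.f13_0, C.f13_3, C.f33_4, C.o2, s1, x17_0_1, x19_1_1]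
              · linarith only [C.f23_9, C.o1, x15_0_1, x16_1_1, x18_1_1]
            · rcases d_t23 with ⟨x23_0_0, x23_0_1⟩ | ⟨x23_1_0, x23_1_1⟩
              · rcases d_p11_33A with x24_0_0 | x24_1_0 | x24_2_0 | x24_3_0 | x24_4_0
                · linarith only [e0, x24_0_0]
                · linarith only [C.f11_0, C.f13_0, C.f33_1, C.o0, e0, s1, x24_1_0]
                · rcases d_tpmm with x25_0_0 | x25_1_0 | x25_2_0 | x25_3_0 | x25_4_0
                  · linarith only [C.o0, e0, x25_0_0]
                  · linarith only [C.b3, C.b5, C.f13_0, C.f23_9, s1, x15_0_1, x16_1_1, x24_2_0, x25_1_0]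
                  · linarith only [C.f11_0, C.f13_0, C.f33_0, C.o0, s1, x25_2_0]
                  · linarith only [C.b5, C.f23_9, C.o0, x15_0_1, x16_1_1, x23_0_0, x25_3_0]
                  · rcases d_p11_13B with x26_0_0 | x26_1_0 | x26_2_0 | x26_3_0 | x26_4_0 | x26_5_0
                    · linarith only [e0, x26_0_0]
                    · linarith only [C.o0, e0, x26_1_0]
                    · linarith only [C.f11_0, C.f13_1, C.f33_1, C.o0, C.o2, e0, s1, x26_2_0]
                    · linarith only [C.f11_0, s1, x24_2_0, x26_3_0]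
                    · linarith only [C.f11_2, C.f13_6, C.f23_9, C.f33_7, C.o1, s3, x15_0_1, x16_1_1, x25_4_0, x26_4_0]
                    · linarith only [C.f33_7, s3, x25_4_0, x26_5_0]
                · rcases d_p13_23A with x27_0_0 | x27_1_0 | x27_2_0 | x27_3_0 | x27_4_0 | x27_5_0
                  · linarith only [C.o0, e0, x27_0_0]
                  · linarith only [C.f11_0, C.f13_1, C.f33_1, C.o0, C.o2, e0, s1, x27_1_0]
                  · linarith only [C.o0, e0, x23_0_0, x27_2_0]
                  · linarith only [C.b3, C.b5, C.f11_1, C.f23_9, C.f33_1, s1, x15_0_1, x16_1_1, x17_1_1, x24_3_0, x27_3_0, x4_1_1]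
                  · linarith only [C.b5, C.f23_9, s2, x15_0_1, x16_1_1, x24_3_0, x27_4_0]
                  · linarith only [C.b5, C.f11_2, C.f13_4, C.f23_9, C.f33_7, s2, s3, x15_0_1, x16_1_1, x17_1_1, x24_3_0, x27_5_0]
                · linarith only [C.f13_7, s3, x24_4_0]
              · linarith only [C.f23_9, C.o1, x15_0_1, x16_1_1, x23_1_1]
          · linarith only [C.a4, C.b5, C.f23_9, C.o1, C.o2, x15_0_1, x16_2_1]
        · rcases d_f33_5 with ⟨x28_0_0, x28_0_1⟩ | ⟨x28_1_0, x28_1_1⟩
          · rcases d_t12 with ⟨x29_0_0, x29_0_1⟩ | ⟨x29_1_0, x29_1_1⟩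
            · rcases d_f13_5 with ⟨x30_0_0, x30_0_1⟩ | ⟨x30_1_0, x30_1_1⟩
              · rcases d_p11_33A with x31_0_0 | x31_1_0 | x31_2_0 | x31_3_0 | x31_4_0
                · linarith only [e0, x31_0_0]
                · linarith only [C.f11_0, C.f13_0, C.f33_1, C.o0, e0, s1, x31_1_0]
                · rcases d_p11_13B with x32_0_0 | x32_1_0 | x32_2_0 | x32_3_0 | x32_4_0 | x32_5_0
                  · linarith only [e0, x32_0_0]
                  · linarith only [C.o0, e0, x32_1_0]
                  · linarith only [C.f11_0, C.f13_1, C.f33_1, C.o0, C.o2, e0, s1, x32_2_0]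
                  · linarith only [C.f11_0, s1, x31_2_0, x32_3_0]
                  · linarith only [C.b3, C.f11_0, C.f11_1, s1, x30_0_1, x31_2_0, x32_4_0]
                  · rcases d_p13_33A with x33_0_0 | x33_1_0 | x33_2_0 | x33_3_0 | x33_4_0 | x33_5_0
                    · linarith only [C.o0, e0, x33_0_0]
                    · linarith only [C.f11_0, C.f13_1, C.f33_1, C.f33_7, C.o0, e0, s1, s3, x32_5_0, x33_1_0]
                    · linarith only [C.f11_0, C.f13_0, C.f33_1, C.o0, e0, s1, x33_2_0]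
                    · linarith only [C.f11_0, s1, x33_3_0]
                    · linarith only [C.f11_0, s1, x28_0_1, x29_0_1, x30_0_1, x33_4_0]
                    · linarith only [s3, x2_1_1, x32_5_0, x33_5_0]
                · rcases d_p11_13B with x34_0_0 | x34_1_0 | x34_2_0 | x34_3_0 | x34_4_0 | x34_5_0
                  · linarith only [e0, x34_0_0]
                  · linarith only [C.o0, e0, x34_1_0]
                  · linarith only [C.f11_0, C.f13_1, C.f33_1, C.o0, C.o2, e0, s1, x34_2_0]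
                  · linarith only [C.f11_0, C.f11_1, s1, x28_0_1, x29_0_1, x31_3_0, x34_3_0]
                  · linarith only [C.b3, C.f11_0, C.f11_1, s1, x28_0_1, x29_0_1, x30_0_1, x31_3_0, x34_4_0]
                  · rcases d_p13_33A with x35_0_0 | x35_1_0 | x35_2_0 | x35_3_0 | x35_4_0 | x35_5_0
                    · linarith only [C.o0, e0, x35_0_0]
                    · linarith only [C.f11_0, C.f13_1, C.f33_1, C.f33_7, C.o0, e0, s1, s3, x34_5_0, x35_1_0]
                    · linarith only [C.f11_0, C.f13_0, C.f33_1, C.o0, e0, s1, x35_2_0]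
                    · linarith only [C.f11_0, s1, x35_3_0]
                    · linarith only [C.f11_0, s1, x28_0_1, x29_0_1, x30_0_1, x35_4_0]
                    · linarith only [s3, x2_1_1, x34_5_0, x35_5_0]
                · linarith only [C.f13_7, s3, x31_4_0]
              · linarith only [C.f11_0, C.f13_0, C.f13_3, C.f33_4, C.o2, s1, x28_0_1, x30_1_1]
            · rcases d_f13_5 with ⟨x36_0_0, x36_0_1⟩ | ⟨x36_1_0, x36_1_1⟩
              · rcases d_p11_33A with x37_0_0 | x37_1_0 | x37_2_0 | x37_3_0 | x37_4_0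
                · linarith only [e0, x37_0_0]
                · linarith only [C.f11_0, C.f13_0, C.f33_1, C.o0, e0, s1, x37_1_0]
                · rcases d_p11_13B with x38_0_0 | x38_1_0 | x38_2_0 | x38_3_0 | x38_4_0 | x38_5_0
                  · linarith only [e0, x38_0_0]
                  · linarith only [C.o0, e0, x38_1_0]
                  · linarith only [C.f11_0, C.f13_1, C.f33_1, C.o0, C.o2, e0, s1, x38_2_0]
                  · linarith only [C.f11_0, s1, x37_2_0, x38_3_0]
                  · linarith only [C.f11_0, C.f11_1, s1, x29_1_1, x36_0_1, x37_2_0, x38_4_0]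
                  · rcases d_p13_33A with x39_0_0 | x39_1_0 | x39_2_0 | x39_3_0 | x39_4_0 | x39_5_0
                    · linarith only [C.o0, e0, x39_0_0]
                    · linarith only [C.f11_0, C.f13_1, C.f33_1, C.f33_7, C.o0, e0, s1, s3, x38_5_0, x39_1_0]
                    · linarith only [C.f11_0, C.f13_0, C.f33_1, C.o0, e0, s1, x39_2_0]
                    · linarith only [C.f11_0, s1, x39_3_0]
                    · linarith only [C.a3, C.f11_0, s1, x28_0_1, x36_0_1, x39_4_0]
                    · linarith only [s3, x2_1_1, x38_5_0, x39_5_0]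
                · rcases d_p11_13B with x40_0_0 | x40_1_0 | x40_2_0 | x40_3_0 | x40_4_0 | x40_5_0
                  · linarith only [e0, x40_0_0]
                  · linarith only [C.o0, e0, x40_1_0]
                  · linarith only [C.f11_0, C.f13_1, C.f33_1, C.o0, C.o2, e0, s1, x40_2_0]
                  · linarith only [C.a3, C.f11_0, C.f11_1, s1, x28_0_1, x37_3_0, x40_3_0]
                  · linarith only [C.f11_0, C.f11_1, s2, x29_1_1, x37_3_0, x40_4_0]
                  · rcases d_p13_33A with x41_0_0 | x41_1_0 | x41_2_0 | x41_3_0 | x41_4_0 | x41_5_0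
                    · linarith only [C.o0, e0, x41_0_0]
                    · linarith only [C.f11_0, C.f13_1, C.f33_1, C.f33_7, C.o0, e0, s1, s3, x40_5_0, x41_1_0]
                    · linarith only [C.f11_0, C.f13_0, C.f33_1, C.o0, e0, s1, x41_2_0]
                    · linarith only [C.f11_0, s1, x41_3_0]
                    · linarith only [C.a3, C.f11_0, s1, x28_0_1, x36_0_1, x41_4_0]
                    · linarith only [s3, x2_1_1, x40_5_0, x41_5_0]
                · linarith only [C.f13_7, s3, x37_4_0]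
              · linarith only [C.f11_0, C.f13_0, C.f13_3, C.f33_4, C.o2, s1, x28_0_1, x36_1_1]
          · rcases d_tmpp with x42_0_0 | x42_1_0 | x42_2_0 | x42_3_0
            · linarith only [C.f11_0, C.f13_0, C.f33_0, s1, x42_0_0]
            · rcases d_p11_23B with x43_0_0 | x43_1_0 | x43_2_0 | x43_3_0 | x43_4_0 | x43_5_0
              · linarith only [e0, x43_0_0]
              · linarith only [C.a2, C.o0, e0, x43_1_0]
              · linarith only [C.f11_0, C.f13_1, C.f33_1, C.o0, C.o2, e0, s1, x43_2_0]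
              · rcases d_p11_33A with x44_0_0 | x44_1_0 | x44_2_0 | x44_3_0 | x44_4_0
                · linarith only [e0, x44_0_0]
                · linarith only [C.f11_0, C.f13_0, C.f33_1, C.o0, e0, s1, x44_1_0]
                · linarith only [C.a2, C.f11_0, C.f13_0, s1, x43_3_0, x44_2_0, x4_1_1]
                · linarith only [C.b2, C.f11_0, C.f11_1, C.f13_0, C.f13_3, C.f33_1, s1, s2, x28_1_1, x43_3_0, x44_3_0, x4_1_1]
                · linarith only [C.f13_7, s3, x44_4_0]
              · rcases d_t12 with ⟨x45_0_0, x45_0_1⟩ | ⟨x45_1_0, x45_1_1⟩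
                · rcases d_tzmp with x46_0_0 | x46_1_0 | x46_2_0 | x46_3_0
                  · linarith only [x45_0_1, x46_0_0]
                  · linarith only [C.f11_0, C.f13_0, C.f33_1, s1, x42_1_0, x46_1_0]
                  · rcases d_f23_7 with ⟨x47_0_0, x47_0_1⟩ | ⟨x47_1_0, x47_1_1⟩ | ⟨x47_2_0, x47_2_1⟩
                    · linarith only [C.a2, C.f23_5, x45_0_1, x47_0_1, x4_1_1]
                    · linarith only [C.a2, C.f11_0, C.f11_1, C.o0, x43_4_0, x45_0_1, x46_2_0, x47_1_1]
                    · linarith only [C.f11_0, C.f11_1, C.f13_0, C.f13_3, C.f23_1, C.f23_4, C.f33_1, C.f33_3, C.o0, C.o2, s1, s2, x43_4_0, x46_2_0, x47_2_1]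
                  · rcases d_f13_5 with ⟨x48_0_0, x48_0_1⟩ | ⟨x48_1_0, x48_1_1⟩
                    · rcases d_p13_33A with x49_0_0 | x49_1_0 | x49_2_0 | x49_3_0 | x49_4_0 | x49_5_0
                      · linarith only [C.o0, e0, x49_0_0]
                      · linarith only [C.f11_0, C.f13_1, C.f33_1, C.o0, C.o2, e0, s1, x49_1_0]
                      · linarith only [C.f11_0, C.f13_0, C.f33_1, C.o0, e0, s1, x49_2_0]
                      · linarith only [C.f11_0, s1, x49_3_0]
                      · linarith only [C.b2, C.f11_0, C.f11_1, C.f33_1, s1, s2, x28_1_1, x42_1_0, x48_0_1, x49_4_0]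
                      · rcases d_f23_7 with ⟨x50_0_0, x50_0_1⟩ | ⟨x50_1_0, x50_1_1⟩ | ⟨x50_2_0, x50_2_1⟩
                        · linarith only [C.a2, C.f11_0, C.f11_1, C.f11_2, C.o0, s3, x43_4_0, x46_3_0, x49_5_0, x4_1_1, x50_0_1]
                        · rcases d_p11_33A with x51_0_0 | x51_1_0 | x51_2_0 | x51_3_0 | x51_4_0
                          · linarith only [e0, x51_0_0]
                          · linarith only [C.f11_0, C.f13_0, C.f33_1, C.o0, e0, s1, x51_1_0]
                          · rcases d_p11_13B with x52_0_0 | x52_1_0 | x52_2_0 | x52_3_0 | x52_4_0 | x52_5_0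
                            · linarith only [e0, x52_0_0]
                            · linarith only [C.o0, e0, x52_1_0]
                            · linarith only [C.f11_0, C.f13_1, C.f33_1, C.o0, C.o2, e0, s1, x52_2_0]
                            · linarith only [C.f11_0, s1, x51_2_0, x52_3_0]
                            · linarith only [C.f11_0, C.f11_1, C.f11_2, s1, s3, x46_3_0, x48_0_1, x49_5_0, x51_2_0, x52_4_0]
                            · linarith only [s3, x2_1_1, x49_5_0, x52_5_0]
                          · linarith only [C.f11_0, C.f11_2, C.f13_0, C.f33_1, s1, s3, x28_1_1, x42_1_0, x43_4_0, x46_3_0, x49_5_0, x50_1_1, x51_3_0]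
                          · linarith only [C.f13_7, s3, x51_4_0]
                        · linarith only [C.f11_0, C.f11_1, C.f13_4, C.f23_5, C.f33_1, C.f33_4, C.o0, C.o2, s1, s2, x42_1_0, x43_4_0, x48_0_1, x50_2_1]
                    · rcases d_tpmz with x53_0_0 | x53_1_0 | x53_2_0 | x53_3_0 | x53_4_0 | x53_5_0
                      · linarith only [C.o0, e0, x53_0_0]
                      · linarith only [C.f11_0, C.f13_0, C.f13_3, C.f33_1, C.o2, s1, x42_1_0, x48_1_1, x53_1_0]
                      · linarith only [C.f11_0, C.f13_0, C.f33_1, s1, x42_1_0, x53_2_0]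
                      · linarith only [C.f11_0, C.f13_0, C.f33_0, C.o0, s1, x53_3_0]
                      · linarith only [C.f11_1, C.f13_0, C.f13_3, C.f23_8, C.f33_1, C.o2, s1, x15_1_1, x43_4_0, x46_3_0, x48_1_1, x53_4_0]
                      · rcases d_p13_33A with x54_0_0 | x54_1_0 | x54_2_0 | x54_3_0 | x54_4_0 | x54_5_0
                        · linarith only [C.o0, e0, x54_0_0]
                        · linarith only [C.f11_0, C.f13_1, C.f33_1, C.o0, C.o2, e0, s1, x54_1_0]
                        · linarith only [C.f11_0, C.f13_0, C.f33_1, C.o0, e0, s1, x54_2_0]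
                        · linarith only [C.f11_0, s1, x54_3_0]
                        · linarith only [C.f11_0, C.f11_2, C.f13_0, C.f13_7, C.f23_8, C.f33_1, C.f33_7, s1, s3, x15_1_1, x28_1_1, x42_1_0, x43_4_0, x48_1_1, x53_5_0, x54_4_0]
                        · linarith only [C.f11_2, C.f23_8, s3, x15_1_1, x43_4_0, x53_5_0, x54_5_0]
                · rcases d_f13_5 with ⟨x55_0_0, x55_0_1⟩ | ⟨x55_1_0, x55_1_1⟩
                  · rcases d_f23_7 with ⟨x56_0_0, x56_0_1⟩ | ⟨x56_1_0, x56_1_1⟩ | ⟨x56_2_0, x56_2_1⟩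
                    · linarith only [C.a2, C.f11_0, C.f11_1, C.o0, x43_4_0, x45_1_1, x4_1_1, x56_0_1]
                    · rcases d_p11_33A with x57_0_0 | x57_1_0 | x57_2_0 | x57_3_0 | x57_4_0
                      · linarith only [e0, x57_0_0]
                      · linarith only [C.f11_0, C.f13_0, C.f33_1, C.o0, e0, s1, x57_1_0]
                      · rcases d_p11_13B with x58_0_0 | x58_1_0 | x58_2_0 | x58_3_0 | x58_4_0 | x58_5_0
                        · linarith only [e0, x58_0_0]
                        · linarith only [C.o0, e0, x58_1_0]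
                        · linarith only [C.f11_0, C.f13_1, C.f33_1, C.o0, C.o2, e0, s1, x58_2_0]
                        · linarith only [C.f11_0, s1, x57_2_0, x58_3_0]
                        · linarith only [C.f11_0, C.f11_1, s1, x45_1_1, x55_0_1, x57_2_0, x58_4_0]
                        · rcases d_p13_33A with x59_0_0 | x59_1_0 | x59_2_0 | x59_3_0 | x59_4_0 | x59_5_0
                          · linarith only [C.o0, e0, x59_0_0]
                          · linarith only [C.f11_0, C.f13_1, C.f33_1, C.f33_7, C.o0, e0, s1, s3, x58_5_0, x59_1_0]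
                          · linarith only [C.f11_0, C.f13_0, C.f33_1, C.o0, e0, s1, x59_2_0]
                          · linarith only [C.f11_0, s1, x59_3_0]
                          · linarith only [C.f11_0, C.f11_1, C.f33_1, C.o0, s1, s2, x28_1_1, x42_1_0, x43_4_0, x55_0_1, x56_1_1, x59_4_0]
                          · linarith only [s3, x2_1_1, x58_5_0, x59_5_0]
                      · linarith only [C.f11_0, C.f11_1, C.f13_0, C.f33_1, s1, x28_1_1, x42_1_0, x43_4_0, x45_1_1, x56_1_1, x57_3_0]
                      · linarith only [C.f13_7, s3, x57_4_0]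
                    · linarith only [C.f11_0, C.f13_0, C.f23_5, C.f33_1, C.o2, s1, x42_1_0, x56_2_1]
                  · rcases d_p11_13B with x60_0_0 | x60_1_0 | x60_2_0 | x60_3_0 | x60_4_0 | x60_5_0
                    · linarith only [e0, x60_0_0]
                    · linarith only [C.o0, e0, x60_1_0]
                    · linarith only [C.f11_0, C.f13_1, C.f33_1, C.o0, C.o2, e0, s1, x60_2_0]
                    · rcases d_f23_7 with ⟨x61_0_0, x61_0_1⟩ | ⟨x61_1_0, x61_1_1⟩ | ⟨x61_2_0, x61_2_1⟩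
                      · linarith only [C.f11_0, C.f13_3, C.f23_5, C.f33_1, C.o0, C.o2, s1, x4_1_1, x55_1_1, x60_3_0, x61_0_1]
                      · linarith only [C.f11_0, C.f11_1, C.f13_3, C.f33_1, C.o0, C.o1, C.o2, s1, x42_1_0, x43_4_0, x55_1_1, x60_3_0, x61_1_1]
                      · linarith only [C.f23_5, C.f33_1, C.o0, C.o2, s1, x42_1_0, x60_3_0, x61_2_1]
                    · linarith only [C.f11_1, C.f13_0, C.f33_1, C.o1, C.o2, s1, x42_1_0, x45_1_1, x55_1_1, x60_4_0]
                    · rcases d_p13_33A with x62_0_0 | x62_1_0 | x62_2_0 | x62_3_0 | x62_4_0 | x62_5_0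
                      · linarith only [C.f11_1, C.f11_2, C.f13_0, C.f13_3, C.f23_5, C.f23_8, C.f33_1, C.f33_7, e0, s1, s3, x15_1_1, x2_1_1, x42_1_0, x55_1_1, x60_5_0, x62_0_0]
                      · linarith only [C.f11_0, C.f13_1, C.f33_1, C.f33_7, C.o0, e0, s1, s3, x60_5_0, x62_1_0]
                      · linarith only [C.f11_0, C.f13_0, C.f33_1, C.o0, e0, s1, x62_2_0]
                      · linarith only [C.f11_0, s1, x62_3_0]
                      · linarith only [C.f11_0, C.f13_0, C.f33_1, C.f33_7, s1, s3, x28_1_1, x42_1_0, x55_1_1, x60_5_0, x62_4_0]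
                      · linarith only [s3, x2_1_1, x60_5_0, x62_5_0]
              · rcases d_p13_33A with x63_0_0 | x63_1_0 | x63_2_0 | x63_3_0 | x63_4_0 | x63_5_0
                · linarith only [C.o0, e0, x63_0_0]
                · linarith only [C.f11_0, C.f13_1, C.f33_1, C.o0, C.o2, e0, s1, x63_1_0]
                · linarith only [C.f11_0, C.f13_0, C.f33_1, C.o0, e0, s1, x63_2_0]
                · linarith only [C.f11_0, s1, x63_3_0]
                · linarith only [C.b5, C.f11_2, s2, x15_1_1, x43_5_0, x63_4_0]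
                · linarith only [s3, x15_1_1, x43_5_0, x63_5_0]
            · linarith only [e0, x42_2_0]
            · rcases d_p13_23A with x64_0_0 | x64_1_0 | x64_2_0 | x64_3_0 | x64_4_0 | x64_5_0
              · linarith only [C.o0, e0, x64_0_0]
              · linarith only [C.f11_0, C.f13_1, C.f33_1, C.o0, C.o2, e0, s1, x64_1_0]
              · linarith only [C.a2, C.o0, e0, x64_2_0]
              · rcases d_p11_23B with x65_0_0 | x65_1_0 | x65_2_0 | x65_3_0 | x65_4_0 | x65_5_0
                · linarith only [e0, x65_0_0]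
                · linarith only [C.a2, C.o0, e0, x65_1_0]
                · linarith only [C.f11_0, C.f13_1, C.f33_1, C.o0, C.o2, e0, s1, x65_2_0]
                · rcases d_p11_33A with x66_0_0 | x66_1_0 | x66_2_0 | x66_3_0 | x66_4_0
                  · linarith only [e0, x66_0_0]
                  · linarith only [C.a2, C.f13_0, C.f33_1, C.o0, e0, s1, x4_1_1, x65_3_0, x66_1_0]
                  · linarith only [C.a2, C.f11_0, C.f13_0, s1, x4_1_1, x65_3_0, x66_2_0]
                  · linarith only [C.b2, C.f11_0, C.f11_1, C.f13_0, C.f13_3, C.f33_1, s1, s2, x28_1_1, x4_1_1, x65_3_0, x66_3_0]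
                  · linarith only [C.f13_7, s3, x66_4_0]
                · rcases d_t12 with ⟨x67_0_0, x67_0_1⟩ | ⟨x67_1_0, x67_1_1⟩
                  · rcases d_tzmp with x68_0_0 | x68_1_0 | x68_2_0 | x68_3_0
                    · linarith only [x67_0_1, x68_0_0]
                    · linarith only [C.f11_0, C.f33_1, s1, x4_1_1, x64_3_0, x68_1_0]
                    · rcases d_t23 with ⟨x69_0_0, x69_0_1⟩ | ⟨x69_1_0, x69_1_1⟩
                      · linarith only [x42_3_0, x67_0_1, x68_2_0, x69_0_0]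
                      · linarith only [x68_2_0, x69_1_0]
                    · rcases d_f13_5 with ⟨x70_0_0, x70_0_1⟩ | ⟨x70_1_0, x70_1_1⟩
                      · rcases d_p13_33A with x71_0_0 | x71_1_0 | x71_2_0 | x71_3_0 | x71_4_0 | x71_5_0
                        · linarith only [C.o0, e0, x71_0_0]
                        · linarith only [C.f11_0, C.f13_1, C.f33_1, C.o0, C.o2, e0, s1, x71_1_0]
                        · linarith only [C.f11_0, C.f13_0, C.f33_1, C.o0, e0, s1, x71_2_0]
                        · linarith only [C.f11_0, s1, x71_3_0]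
                        · linarith only [C.b2, C.f11_0, C.f11_1, C.f33_1, s1, s2, x1_0_1, x28_1_1, x4_1_1, x64_3_0, x70_0_1, x71_4_0]
                        · rcases d_f23_7 with ⟨x72_0_0, x72_0_1⟩ | ⟨x72_1_0, x72_1_1⟩ | ⟨x72_2_0, x72_2_1⟩
                          · linarith only [C.a2, C.f11_0, C.f11_1, C.f11_2, C.o0, s3, x4_1_1, x65_4_0, x68_3_0, x71_5_0, x72_0_1]
                          · rcases d_p11_33A with x73_0_0 | x73_1_0 | x73_2_0 | x73_3_0 | x73_4_0
                            · linarith only [e0, x73_0_0]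
                            · linarith only [C.f11_0, C.f13_0, C.f33_1, C.o0, e0, s1, x73_1_0]
                            · rcases d_p11_13B with x74_0_0 | x74_1_0 | x74_2_0 | x74_3_0 | x74_4_0 | x74_5_0
                              · linarith only [e0, x74_0_0]
                              · linarith only [C.o0, e0, x74_1_0]
                              · linarith only [C.f11_0, C.f13_1, C.f33_1, C.o0, C.o2, e0, s1, x74_2_0]
                              · linarith only [C.f11_1, C.f11_2, s1, s3, x42_3_0, x68_3_0, x71_5_0, x73_2_0, x74_3_0]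
                              · linarith only [C.f11_0, C.f11_1, C.f11_2, s1, s3, x68_3_0, x70_0_1, x71_5_0, x73_2_0, x74_4_0]
                              · linarith only [s3, x2_1_1, x71_5_0, x74_5_0]
                            · linarith only [C.f11_0, C.f11_2, C.f33_1, s1, s3, x28_1_1, x4_1_1, x64_3_0, x65_4_0, x68_3_0, x71_5_0, x72_1_1, x73_3_0]
                            · linarith only [C.f13_7, s3, x73_4_0]
                          · linarith only [C.f11_0, C.f11_1, C.f13_4, C.f23_5, C.f33_4, C.o0, C.o2, s2, x1_0_1, x65_4_0, x70_0_1, x72_2_1]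
                      · rcases d_p11_13B with x75_0_0 | x75_1_0 | x75_2_0 | x75_3_0 | x75_4_0 | x75_5_0
                        · linarith only [e0, x75_0_0]
                        · linarith only [C.o0, e0, x75_1_0]
                        · linarith only [C.f11_0, C.f13_1, C.f33_1, C.o0, C.o2, e0, s1, x75_2_0]
                        · linarith only [C.f11_0, C.f11_1, C.f11_2, C.f13_3, C.f13_7, C.f33_1, C.f33_7, C.o1, s1, s3, x42_3_0, x4_1_1, x64_3_0, x68_3_0, x70_1_1, x75_3_0]
                        · linarith only [C.f11_0, C.f11_2, C.f13_7, C.f33_1, C.f33_7, C.o1, s1, s3, x4_1_1, x64_3_0, x68_3_0, x70_1_1, x75_4_0]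
                        · rcases d_p13_33A with x76_0_0 | x76_1_0 | x76_2_0 | x76_3_0 | x76_4_0 | x76_5_0
                          · linarith only [C.f11_0, C.f13_3, C.f33_1, C.f33_7, C.o1, e0, s1, s3, x1_0_0, x42_3_0, x4_1_1, x64_3_0, x70_1_1, x75_5_0, x76_0_0]
                          · linarith only [C.f11_0, C.f13_1, C.f33_1, C.f33_7, C.o0, e0, s1, s3, x75_5_0, x76_1_0]
                          · linarith only [C.f11_0, C.f13_0, C.f33_1, C.o0, e0, s1, x76_2_0]
                          · linarith only [C.f11_0, s1, x76_3_0]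
                          · linarith only [C.f11_0, C.f33_1, C.f33_7, s1, s3, x28_1_1, x4_1_1, x64_3_0, x70_1_1, x75_5_0, x76_4_0]
                          · linarith only [s3, x2_1_1, x75_5_0, x76_5_0]
                  · rcases d_f13_5 with ⟨x77_0_0, x77_0_1⟩ | ⟨x77_1_0, x77_1_1⟩
                    · rcases d_f23_7 with ⟨x78_0_0, x78_0_1⟩ | ⟨x78_1_0, x78_1_1⟩ | ⟨x78_2_0, x78_2_1⟩
                      · linarith only [C.a2, C.f11_0, C.f11_1, C.o0, x4_1_1, x65_4_0, x67_1_1, x78_0_1]
                      · rcases d_p11_33A with x79_0_0 | x79_1_0 | x79_2_0 | x79_3_0 | x79_4_0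
                        · linarith only [e0, x79_0_0]
                        · linarith only [C.f11_0, C.f13_0, C.f33_1, C.o0, e0, s1, x79_1_0]
                        · rcases d_p11_13B with x80_0_0 | x80_1_0 | x80_2_0 | x80_3_0 | x80_4_0 | x80_5_0
                          · linarith only [e0, x80_0_0]
                          · linarith only [C.o0, e0, x80_1_0]
                          · linarith only [C.f11_0, C.f13_1, C.f33_1, C.o0, C.o2, e0, s1, x80_2_0]
                          · linarith only [C.f11_0, s1, x79_2_0, x80_3_0]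
                          · linarith only [C.f11_0, C.f11_1, s1, x67_1_1, x77_0_1, x79_2_0, x80_4_0]
                          · rcases d_p13_33A with x81_0_0 | x81_1_0 | x81_2_0 | x81_3_0 | x81_4_0 | x81_5_0
                            · linarith only [C.o0, e0, x81_0_0]
                            · linarith only [C.f11_0, C.f13_1, C.f33_1, C.f33_7, C.o0, e0, s1, s3, x80_5_0, x81_1_0]
                            · linarith only [C.f11_0, C.f13_0, C.f33_1, C.o0, e0, s1, x81_2_0]
                            · linarith only [C.f11_0, s1, x81_3_0]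
                            · linarith only [C.f11_0, C.f11_1, C.f33_1, s1, s2, x28_1_1, x4_1_1, x64_3_0, x65_4_0, x77_0_1, x78_1_1, x79_2_0, x81_4_0]
                            · linarith only [s3, x2_1_1, x80_5_0, x81_5_0]
                        · linarith only [C.f11_0, C.f11_1, C.f33_1, s1, x28_1_1, x4_1_1, x64_3_0, x65_4_0, x67_1_1, x78_1_1, x79_3_0]
                        · linarith only [C.f13_7, s3, x79_4_0]
                      · linarith only [C.f11_0, C.f11_1, C.f13_4, C.f23_5, C.f33_4, C.o0, C.o2, s2, x1_0_1, x65_4_0, x77_0_1, x78_2_1]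
                    · rcases d_p11_13B with x82_0_0 | x82_1_0 | x82_2_0 | x82_3_0 | x82_4_0 | x82_5_0
                      · linarith only [e0, x82_0_0]
                      · linarith only [C.o0, e0, x82_1_0]
                      · linarith only [C.f11_0, C.f13_1, C.f33_1, C.o0, C.o2, e0, s1, x82_2_0]
                      · linarith only [C.f13_3, C.f33_1, C.o1, C.o2, s1, x42_3_0, x4_1_1, x64_3_0, x77_1_1, x82_3_0]
                      · linarith only [C.f11_1, C.f33_1, C.o1, C.o2, s1, x4_1_1, x64_3_0, x67_1_1, x77_1_1, x82_4_0]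
                      · rcases d_p13_33A with x83_0_0 | x83_1_0 | x83_2_0 | x83_3_0 | x83_4_0 | x83_5_0
                        · linarith only [C.f11_1, C.f11_2, C.f13_0, C.f13_3, C.f23_5, C.f23_8, C.f33_1, C.f33_7, e0, s1, s3, x15_1_1, x2_1_1, x4_1_1, x64_3_0, x77_1_1, x82_5_0, x83_0_0]
                        · linarith only [C.f11_0, C.f13_1, C.f33_1, C.f33_7, C.o0, e0, s1, s3, x82_5_0, x83_1_0]
                        · linarith only [C.f11_0, C.f13_0, C.f33_1, C.o0, e0, s1, x83_2_0]
                        · linarith only [C.f11_0, s1, x83_3_0]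
                        · linarith only [C.f11_0, C.f33_1, C.f33_7, s1, s3, x28_1_1, x4_1_1, x64_3_0, x77_1_1, x82_5_0, x83_4_0]
                        · linarith only [s3, x2_1_1, x82_5_0, x83_5_0]
                · rcases d_p13_33A with x84_0_0 | x84_1_0 | x84_2_0 | x84_3_0 | x84_4_0 | x84_5_0
                  · linarith only [C.o0, e0, x84_0_0]
                  · linarith only [C.f11_0, C.f13_1, C.f33_1, C.o0, C.o2, e0, s1, x84_1_0]
                  · linarith only [C.f11_0, C.f13_0, C.f33_1, C.o0, e0, s1, x84_2_0]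
                  · linarith only [C.f11_0, s1, x84_3_0]
                  · linarith only [C.b5, C.f11_2, s2, x15_1_1, x65_5_0, x84_4_0]
                  · linarith only [s3, x15_1_1, x65_5_0, x84_5_0]
              · rcases d_p11_23B with x85_0_0 | x85_1_0 | x85_2_0 | x85_3_0 | x85_4_0 | x85_5_0
                · linarith only [e0, x85_0_0]
                · linarith only [C.a2, C.o0, e0, x85_1_0]
                · linarith only [C.f11_0, C.f13_1, C.f33_1, C.o0, C.o2, e0, s1, x85_2_0]
                · rcases d_p11_33A with x86_0_0 | x86_1_0 | x86_2_0 | x86_3_0 | x86_4_0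
                  · linarith only [e0, x86_0_0]
                  · linarith only [C.f11_0, C.f13_0, C.f33_1, C.o0, e0, s1, x86_1_0]
                  · linarith only [C.a2, C.f11_0, C.f13_0, s1, x4_1_1, x85_3_0, x86_2_0]
                  · linarith only [C.b2, C.f11_0, C.f11_1, C.f13_0, C.f13_3, C.f33_1, s1, s2, x28_1_1, x4_1_1, x85_3_0, x86_3_0]
                  · linarith only [C.f13_7, s3, x86_4_0]
                · rcases d_p13_33A with x87_0_0 | x87_1_0 | x87_2_0 | x87_3_0 | x87_4_0 | x87_5_0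
                  · linarith only [C.o0, e0, x87_0_0]
                  · linarith only [C.f11_0, C.f13_1, C.f33_1, C.o0, C.o2, e0, s1, x87_1_0]
                  · linarith only [C.f11_0, C.f13_0, C.f33_1, C.o0, e0, s1, x87_2_0]
                  · linarith only [C.f11_0, s1, x87_3_0]
                  · linarith only [C.f11_0, C.f11_1, s2, x42_3_0, x87_4_0]
                  · rcases d_f23_7 with ⟨x88_0_0, x88_0_1⟩ | ⟨x88_1_0, x88_1_1⟩ | ⟨x88_2_0, x88_2_1⟩
                    · rcases d_t12 with ⟨x89_0_0, x89_0_1⟩ | ⟨x89_1_0, x89_1_1⟩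
                      · linarith only [C.a2, C.f23_5, x4_1_1, x88_0_1, x89_0_1]
                      · linarith only [C.a2, C.f11_0, C.f11_1, C.o0, x4_1_1, x85_4_0, x88_0_1, x89_1_1]
                    · rcases d_f13_5 with ⟨x90_0_0, x90_0_1⟩ | ⟨x90_1_0, x90_1_1⟩
                      · rcases d_p11_33A with x91_0_0 | x91_1_0 | x91_2_0 | x91_3_0 | x91_4_0
                        · linarith only [e0, x91_0_0]
                        · linarith only [C.f11_0, C.f13_0, C.f33_1, C.o0, e0, s1, x91_1_0]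
                        · rcases d_p11_13B with x92_0_0 | x92_1_0 | x92_2_0 | x92_3_0 | x92_4_0 | x92_5_0
                          · linarith only [e0, x92_0_0]
                          · linarith only [C.o0, e0, x92_1_0]
                          · linarith only [C.f11_0, C.f13_1, C.f33_1, C.o0, C.o2, e0, s1, x92_2_0]
                          · linarith only [C.f11_0, s1, x91_2_0, x92_3_0]
                          · linarith only [C.b3, C.f11_0, C.f11_1, s1, x90_0_1, x91_2_0, x92_4_0]
                          · linarith only [s3, x2_1_1, x87_5_0, x92_5_0]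
                        · rcases d_p11_13B with x93_0_0 | x93_1_0 | x93_2_0 | x93_3_0 | x93_4_0 | x93_5_0
                          · linarith only [e0, x93_0_0]
                          · linarith only [C.o0, e0, x93_1_0]
                          · linarith only [C.f11_0, C.f13_1, C.f33_1, C.o0, C.o2, e0, s1, x93_2_0]
                          · linarith only [C.f11_0, C.f11_1, C.f13_3, s2, x64_4_0, x85_4_0, x88_1_1, x91_3_0, x93_3_0]
                          · linarith only [C.b3, C.f11_0, C.f11_1, s2, x91_3_0, x93_4_0]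
                          · linarith only [s3, x2_1_1, x87_5_0, x93_5_0]
                        · linarith only [C.f13_7, s3, x91_4_0]
                      · linarith only [C.f33_4, C.o1, C.o2, s2, x64_4_0, x85_4_0, x88_1_1, x90_1_1]
                    · linarith only [C.f13_4, C.f33_4, C.o1, C.o2, s2, x64_4_0, x85_4_0, x88_2_1]
                · rcases d_p13_33A with x94_0_0 | x94_1_0 | x94_2_0 | x94_3_0 | x94_4_0 | x94_5_0
                  · linarith only [C.o0, e0, x94_0_0]
                  · linarith only [C.f11_0, C.f13_1, C.f33_1, C.o0, C.o2, e0, s1, x94_1_0]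
                  · linarith only [C.f11_0, C.f13_0, C.f33_1, C.o0, e0, s1, x94_2_0]
                  · linarith only [C.f11_0, s1, x94_3_0]
                  · linarith only [C.f11_0, C.f11_1, s2, x42_3_0, x94_4_0]
                  · linarith only [s3, x15_1_1, x85_5_0, x94_5_0]
              · linarith only [C.o2, x15_1_1, x2_1_1, x64_5_0]
      · linarith only [C.a4, C.f23_1, C.o2, x4_2_1]
  · linarith only [C.f11_0, C.f13_0, C.f33_1, C.o2, s1, x1_1_1]

end Pool.Agent.Helper13.TQ
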