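import Pool.Agent.Helper89.TQ.Ctx

set_option autoImplicit false
set_option linter.all false
set_option maxHeartbeats 4000000

namespace Pool.Agent.Helper13.TQ

open Pool.Agent.Helper89.TQ

theorem c0_11_22_23_k3 {n1 n2 n3 A1 A2 A3 B1 B2 B3 m11_1 m11_2 m11_3 m13_1 m13_2 m13_3 m22_1 m22_2 m22_3 m23_1 m23_2 m23_3 m33_1 m33_2 m33_3 : ℤ}
    (C : Ctx0 n1 n2 n3 A1 A2 A3 B1 B2 B3 m11_1 m11_2 m11_3 m13_1 m13_2 m13_3 m22_1 m22_2 m22_3 m23_1 m23_2 m23_3 m33_1 m33_2 m33_3)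
    (e0 : 0 < B1)
    (e1 : 0 < B2)
    (e2 : 0 < A2)
    (e3 : 0 < B3)
    (s1 : 3 * A1 + 0 * B1 ≤ m11_1 + m22_1 + m23_1)
    (s2 : 3 * A2 + 0 * B2 ≤ m11_2 + m22_2 + m23_2)
    (s3 : 3 * A3 + 0 * B3 ≤ m11_3 + m22_3 + m23_3) : False := by
  have d_tmpp : -A1 + n1 ≤ 0 ∨ -A1 + A2 - 1 ≤ 0 ∨ B1 ≤ 0 ∨ B1 - B2 + n2 - 1 ≤ 0 := by
    have h := C.tmpp
    omega
  rcases d_tmpp with x1_0_0 | x1_1_0 | x1_2_0 | x1_3_0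
  · linarith only [C.f11_0, C.f22_0, C.f23_0, C.o0, s1, x1_0_0]
  · linarith only [C.f11_0, C.f22_1, C.f23_1, C.o0, C.o1, s1, x1_1_0]
  · linarith only [e0, x1_2_0]
  · linarith only [C.f11_0, C.f11_1, C.f22_4, C.f23_5, C.o1, s2, x1_3_0]

end Pool.Agent.Helper13.TQ
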