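import Pool.Agent.Helper89.TQ.Ctx

set_option autoImplicit false
set_option linter.all false
set_option maxHeartbeats 4000000

namespace Pool.Agent.Helper13.TQ

open Pool.Agent.Helper89.TQ

theorem c0_11_22_33_k1 {n1 n2 n3 A1 A2 A3 B1 B2 B3 m11_1 m11_2 m11_3 m13_1 m13_2 m13_3 m22_1 m22_2 m22_3 m23_1 m23_2 m23_3 m33_1 m33_2 m33_3 : ℤ}
    (C : Ctx0 n1 n2 n3 A1 A2 A3 B1 B2 B3 m11_1 m11_2 m11_3 m13_1 m13_2 m13_3 m22_1 m22_2 m22_3 m23_1 m23_2 m23_3 m33_1 m33_2 m33_3)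
    (e0 : 0 < B1)
    (e1 : 0 < B2)
    (e2 : 0 < A3)
    (s1 : 1 * A1 + 2 * B1 ≤ m11_1 + m22_1 + m33_1)
    (s2 : 1 * A2 + 2 * B2 ≤ m11_2 + m22_2 + m33_2)
    (s3 : 1 * A3 + 2 * B3 ≤ m11_3 + m22_3 + m33_3) : False := by
  have d_t12 : (-A1 + 1 ≤ 0 ∧ -A1 + A2 - n2 + 1 ≤ 0) ∨ (-B1 + 1 ≤ 0 ∧ -B1 + B2 - n2 + 1 ≤ 0) := by
    have h := C.t12
    omega
  have d_t23 : (A1 - A2 + 1 ≤ 0 ∧ -A2 + A3 - n3 + 1 ≤ 0) ∨ (B1 - B2 + 1 ≤ 0 ∧ -B2 + B3 - n3 + 1 ≤ 0) := by
    have h := C.t23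
    omega
  have d_f13_2 : (-A1 + m13_1 + 1 ≤ 0 ∧ A1 - m13_1 - 1 ≤ 0) ∨ (-B3 + m13_1 + 1 ≤ 0 ∧ B3 - m13_1 - 1 ≤ 0) := by
    have h := C.f13_2
    omega
  have d_f13_5 : (-m13_1 + m13_2 - n2 ≤ 0 ∧ m13_1 - m13_2 + n2 ≤ 0) ∨ (-B3 + m13_2 + 1 ≤ 0 ∧ B3 - m13_2 - 1 ≤ 0) := by
    have h := C.f13_5
    omega
  have d_f13_8 : (-m13_2 + m13_3 - n3 ≤ 0 ∧ m13_2 - m13_3 + n3 ≤ 0) ∨ (-B3 + m13_3 + 1 ≤ 0 ∧ B3 - m13_3 - 1 ≤ 0) := by
    have h := C.f13_8
    omega
  have d_f22_2 : (m22_1 - n1 ≤ 0 ∧ -m22_1 + n1 ≤ 0) ∨ (-B2 + m22_1 + 1 ≤ 0 ∧ B2 - m22_1 - 1 ≤ 0) := by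
    have h := C.f22_2
    omega
  have d_f22_5 : (-m22_1 + m22_2 - n2 ≤ 0 ∧ m22_1 - m22_2 + n2 ≤ 0) ∨ (-B2 + m22_2 + 1 ≤ 0 ∧ B2 - m22_2 - 1 ≤ 0) := by
    have h := C.f22_5
    omega
  have d_f23_3 : (m23_1 - n1 ≤ 0 ∧ -m23_1 + n1 ≤ 0) ∨ (-A2 + m23_1 + 1 ≤ 0 ∧ A2 - m23_1 - 1 ≤ 0) ∨ (-B3 + m23_1 + 1 ≤ 0 ∧ B3 - m23_1 - 1 ≤ 0) := by
    have h := C.f23_3
    omega
  have d_f23_7 : (-m23_1 + m23_2 - n2 ≤ 0 ∧ m23_1 - m23_2 + n2 ≤ 0) ∨ (-A2 + m23_2 + 1 ≤ 0 ∧ A2 - m23_2 - 1 ≤ 0) ∨ (-B3 + m23_2 + 1 ≤ 0 ∧ B3 - m23_2 - 1 ≤ 0) := by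
    have h := C.f23_7
    omega
  have d_f23_10 : (-m23_2 + m23_3 - n3 ≤ 0 ∧ m23_2 - m23_3 + n3 ≤ 0) ∨ (-B3 + m23_3 + 1 ≤ 0 ∧ B3 - m23_3 - 1 ≤ 0) := by
    have h := C.f23_10
    omega
  have d_f33_2 : (m33_1 - n1 ≤ 0 ∧ -m33_1 + n1 ≤ 0) ∨ (-A3 + m33_1 + 1 ≤ 0 ∧ A3 - m33_1 - 1 ≤ 0) := by
    have h := C.f33_2
    omega
  have d_f33_5 : (-m33_1 + m33_2 - n2 ≤ 0 ∧ m33_1 - m33_2 + n2 ≤ 0) ∨ (-A3 + m33_2 + 1 ≤ 0 ∧ A3 - m33_2 - 1 ≤ 0) := by
    have h := C.f33_5
    omega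
  have d_f33_8 : (-m33_2 + m33_3 - n3 ≤ 0 ∧ m33_2 - m33_3 + n3 ≤ 0) ∨ (-A3 + m33_3 + 1 ≤ 0 ∧ A3 - m33_3 - 1 ≤ 0) := by
    have h := C.f33_8
    omega
  have d_p11_13B : B1 ≤ 0 ∨ A1 ≤ 0 ∨ B3 ≤ 0 ∨ (-2) * B1 + m11_1 + m13_1 + 1 ≤ 0 ∨ (-2) * B2 + m11_2 + m13_2 + 1 ≤ 0 ∨ (-2) * B3 + m11_3 + m13_3 + 1 ≤ 0 := by
    have h := C.p11_13B
    omega
  have d_p11_22B : B1 ≤ 0 ∨ B2 ≤ 0 ∨ (-2) * B1 + m11_1 + m22_1 + 1 ≤ 0 ∨ (-2) * B2 + m11_2 + m22_2 + 1 ≤ 0 ∨ (-2) * B3 + m11_3 + m22_3 + 1 ≤ 0 := by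
    have h := C.p11_22B
    omega
  have d_p11_23B : B1 ≤ 0 ∨ A2 ≤ 0 ∨ B3 ≤ 0 ∨ (-2) * B1 + m11_1 + m23_1 + 1 ≤ 0 ∨ (-2) * B2 + m11_2 + m23_2 + 1 ≤ 0 ∨ (-2) * B3 + m11_3 + m23_3 + 1 ≤ 0 := by
    have h := C.p11_23B
    omega
  have d_p11_33B : B1 ≤ 0 ∨ A3 ≤ 0 ∨ (-2) * B1 + m11_1 + m33_1 + 1 ≤ 0 ∨ (-2) * B2 + m11_2 + m33_2 + 1 ≤ 0 ∨ (-2) * B3 + m11_3 + m33_3 + 1 ≤ 0 := by
    have h := C.p11_33B
    omega
  have d_p22_33A : B2 ≤ 0 ∨ A3 ≤ 0 ∨ (-2) * A1 + m22_1 + m33_1 + 1 ≤ 0 ∨ (-2) * A2 + m22_2 + m33_2 + 1 ≤ 0 ∨ (-2) * A3 + m22_3 + m33_3 + 1 ≤ 0 := by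
    have h := C.p22_33A
    omega
  have d_tmzp : -A1 + n1 ≤ 0 ∨ -A1 + A2 ≤ 0 ∨ -A2 + A3 ≤ 0 ∨ B1 ≤ 0 ∨ B1 - B2 + n2 ≤ 0 ∨ B2 - B3 + n3 ≤ 0 := by
    have h := C.tmzp
    omega
  have d_tzmp : A1 - A2 + n2 ≤ 0 ∨ -A2 + A3 - 1 ≤ 0 ∨ -B1 + B2 ≤ 0 ∨ B2 - B3 + n3 - 1 ≤ 0 := by
    have h := C.tzmp
    omega
  have d_tpmz : A1 ≤ 0 ∨ A1 - A2 + n2 - 1 ≤ 0 ∨ -A2 + A3 ≤ 0 ∨ -B1 + n1 ≤ 0 ∨ -B1 + B2 - 1 ≤ 0 ∨ B2 - B3 + n3 ≤ 0 := by
    have h := C.tpmz
    omega
  rcases d_f13_2 with ⟨x1_0_0, x1_0_1⟩ | ⟨x1_1_0, x1_1_1⟩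
  · rcases d_f13_5 with ⟨x2_0_0, x2_0_1⟩ | ⟨x2_1_0, x2_1_1⟩
    · rcases d_f13_8 with ⟨x3_0_0, x3_0_1⟩ | ⟨x3_1_0, x3_1_1⟩
      · linarith only [C.b3, C.f11_0, C.f11_1, C.f11_2, C.f13_7, C.f22_4, C.f22_6, C.f33_7, C.o0, s3, x1_0_1, x2_0_1, x3_0_1]
      · rcases d_f23_3 with ⟨x4_0_0, x4_0_1⟩ | ⟨x4_1_0, x4_1_1⟩ | ⟨x4_2_0, x4_2_1⟩
        · rcases d_f23_7 with ⟨x5_0_0, x5_0_1⟩ | ⟨x5_1_0, x5_1_1⟩ | ⟨x5_2_0, x5_2_1⟩
          · linarith only [C.a1, C.a3, C.f23_5, x4_0_1, x5_0_1]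
          · rcases d_f23_10 with ⟨x6_0_0, x6_0_1⟩ | ⟨x6_1_0, x6_1_1⟩
            · rcases d_p11_23B with x7_0_0 | x7_1_0 | x7_2_0 | x7_3_0 | x7_4_0 | x7_5_0
              · linarith only [e0, x7_0_0]
              · linarith only [C.f11_0, C.f22_1, C.f23_1, C.f33_0, C.o0, C.o1, e0, s1, x4_0_1, x7_1_0]
              · linarith only [C.f11_0, C.f11_1, C.f13_4, C.f22_1, C.f22_4, C.f33_1, C.f33_4, C.o0, C.o1, C.o2, e0, s1, s2, x1_0_1, x2_0_1, x7_2_0]
              · linarith only [C.f11_0, C.f22_0, C.f33_0, C.o0, s1, x4_0_1, x7_3_0]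
              · linarith only [C.f11_2, C.f22_4, C.f22_6, C.f23_9, C.f33_7, C.o1, s3, x5_1_1, x6_0_1, x7_4_0]
              · linarith only [C.f22_4, C.f22_6, C.f33_7, C.o1, s3, x5_1_1, x6_0_1, x7_5_0]
            · rcases d_p11_23B with x8_0_0 | x8_1_0 | x8_2_0 | x8_3_0 | x8_4_0 | x8_5_0
              · linarith only [e0, x8_0_0]
              · linarith only [C.f11_0, C.f22_1, C.f23_1, C.f33_0, C.o0, C.o1, e0, s1, x4_0_1, x8_1_0]
              · linarith only [C.f11_0, C.f11_1, C.f13_4, C.f22_1, C.f22_4, C.f33_1, C.f33_3, C.o0, C.o1, C.o2, e0, s1, s2, x1_0_1, x2_0_1, x8_2_0]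
              · linarith only [C.f11_0, C.f22_0, C.f33_0, C.o0, s1, x4_0_1, x8_3_0]
              · rcases d_tpmz with x9_0_0 | x9_1_0 | x9_2_0 | x9_3_0 | x9_4_0 | x9_5_0
                · linarith only [C.o0, e0, x9_0_0]
                · rcases d_tmzp with x10_0_0 | x10_1_0 | x10_2_0 | x10_3_0 | x10_4_0 | x10_5_0
                  · linarith only [C.f11_0, C.f11_1, C.f22_4, C.f33_0, C.f33_3, C.o0, s2, x10_0_0, x5_1_1, x8_4_0, x9_1_0]
                  · linarith only [C.f11_0, C.f11_1, C.f22_1, C.f22_4, C.f23_1, C.f33_0, C.f33_3, s1, s2, x10_1_0, x4_0_1, x9_1_0]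
                  · linarith only [C.f11_0, C.f11_1, C.f22_4, C.f33_4, C.o0, s2, x10_2_0, x5_1_1, x8_4_0, x9_1_0]
                  · linarith only [e0, x10_3_0]
                  · rcases d_tzmp with x11_0_0 | x11_1_0 | x11_2_0 | x11_3_0
                    · rcases d_t12 with ⟨x12_0_0, x12_0_1⟩ | ⟨x12_1_0, x12_1_1⟩
                      · linarith only [x11_0_0, x12_0_1]
                      · linarith only [C.f11_0, C.f11_1, C.o0, x11_0_0, x12_1_1, x5_1_1, x8_4_0]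
                    · linarith only [C.f11_0, C.f11_1, C.f22_4, C.f33_4, C.o0, s2, x11_1_0, x5_1_1, x8_4_0, x9_1_0]
                    · linarith only [C.f11_0, C.f11_1, C.f22_1, C.f22_4, C.f23_1, C.f33_0, C.f33_3, C.o0, s1, s2, x11_2_0, x4_0_1, x5_1_1, x8_4_0]
                    · linarith only [C.f11_0, C.f11_1, C.f11_2, C.f22_4, C.f22_6, C.f33_7, s3, x10_4_0, x11_3_0]
                  · linarith only [C.f11_0, C.f11_1, C.f11_2, C.f22_4, C.f22_6, C.f33_7, C.o0, s3, x10_5_0, x5_1_1, x8_4_0, x9_1_0]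
                · linarith only [C.f22_4, C.f33_4, C.o1, s2, x5_1_1, x8_4_0, x9_2_0]
                · linarith only [C.a1, C.o0, x9_3_0]
                · linarith only [C.a1, C.f11_1, C.f22_1, C.f22_4, C.f23_1, C.f33_0, C.f33_3, C.o0, s1, s2, x4_0_1, x5_1_1, x8_4_0, x9_4_0]
                · linarith only [C.f11_2, C.f22_4, C.f22_6, C.f33_7, C.o1, s3, x5_1_1, x8_4_0, x9_5_0]
              · linarith only [C.b3, C.f11_0, C.f11_1, C.f11_2, C.f22_4, C.f22_6, C.f33_7, s3, x6_1_1, x8_5_0]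
          · linarith only [C.a4, C.f23_5, C.o2, x5_2_1]
        · rcases d_f23_7 with ⟨x13_0_0, x13_0_1⟩ | ⟨x13_1_0, x13_1_1⟩ | ⟨x13_2_0, x13_2_1⟩
          · rcases d_t12 with ⟨x14_0_0, x14_0_1⟩ | ⟨x14_1_0, x14_1_1⟩
            · linarith only [C.a2, C.f23_5, x13_0_1, x14_0_1, x4_1_1]
            · linarith only [C.b2, C.f23_5, x13_0_1, x14_1_1, x4_1_1]
          · rcases d_f23_10 with ⟨x15_0_0, x15_0_1⟩ | ⟨x15_1_0, x15_1_1⟩
            · rcases d_p11_23B with x16_0_0 | x16_1_0 | x16_2_0 | x16_3_0 | x16_4_0 | x16_5_0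
              · linarith only [e0, x16_0_0]
              · linarith only [C.a2, C.o0, e0, x16_1_0]
              · linarith only [C.f11_0, C.f11_1, C.f13_4, C.f22_1, C.f22_4, C.f33_1, C.f33_4, C.o0, C.o1, C.o2, e0, s1, s2, x16_2_0, x1_0_1, x2_0_1]
              · rcases d_t23 with ⟨x17_0_0, x17_0_1⟩ | ⟨x17_1_0, x17_1_1⟩
                · linarith only [C.f11_0, C.o0, x16_3_0, x17_0_0, x4_1_1]
                · linarith only [C.f23_9, C.o1, x13_1_1, x15_0_1, x17_1_1]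
              · linarith only [C.f11_2, C.f22_4, C.f22_6, C.f23_9, C.f33_7, C.o1, s3, x13_1_1, x15_0_1, x16_4_0]
              · linarith only [C.f22_4, C.f22_6, C.f33_7, C.o1, s3, x13_1_1, x15_0_1, x16_5_0]
            · rcases d_f33_5 with ⟨x18_0_0, x18_0_1⟩ | ⟨x18_1_0, x18_1_1⟩
              · rcases d_t12 with ⟨x19_0_0, x19_0_1⟩ | ⟨x19_1_0, x19_1_1⟩
                · rcases d_f33_8 with ⟨x20_0_0, x20_0_1⟩ | ⟨x20_1_0, x20_1_1⟩
                  · rcases d_f33_2 with ⟨x21_0_0, x21_0_1⟩ | ⟨x21_1_0, x21_1_1⟩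
                    · linarith only [C.f11_0, C.f11_1, C.f11_2, C.f22_0, C.f22_3, C.f22_6, C.f33_7, C.o0, C.o2, s1, s3, x18_0_1, x20_0_1, x21_0_1]
                    · linarith only [C.f11_0, C.f11_1, C.f11_2, C.f22_1, C.f22_4, C.f22_6, C.f33_4, C.f33_7, C.o0, C.o1, C.o2, s1, s2, s3, x18_0_1, x20_0_1, x21_1_1]
                  · rcases d_p22_33A with x22_0_0 | x22_1_0 | x22_2_0 | x22_3_0 | x22_4_0
                    · linarith only [C.b2, e0, x22_0_0]
                    · linarith only [C.a4, C.f11_0, C.f22_1, C.f33_1, C.o0, C.o1, e0, s1, x22_1_0]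
                    · rcases d_p11_13B with x23_0_0 | x23_1_0 | x23_2_0 | x23_3_0 | x23_4_0 | x23_5_0
                      · linarith only [e0, x23_0_0]
                      · linarith only [C.o0, e0, x23_1_0]
                      · linarith only [C.a4, C.f11_0, C.f22_1, C.f33_1, C.o0, C.o1, C.o2, e0, s1, x23_2_0]
                      · linarith only [s1, x1_0_1, x22_2_0, x23_3_0]
                      · linarith only [C.b3, C.f11_1, s1, x1_0_1, x22_2_0, x23_4_0, x2_0_1]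
                      · linarith only [C.b3, C.f11_0, C.f11_1, C.f11_2, C.f22_4, C.f22_6, C.f33_7, s3, x23_5_0, x3_1_1]
                    · rcases d_p11_13B with x24_0_0 | x24_1_0 | x24_2_0 | x24_3_0 | x24_4_0 | x24_5_0
                      · linarith only [e0, x24_0_0]
                      · linarith only [C.o0, e0, x24_1_0]
                      · linarith only [C.a4, C.f11_0, C.f11_1, C.f13_4, C.f22_1, C.f33_1, C.o0, C.o2, e0, s1, s2, x1_0_1, x22_3_0, x24_2_0, x2_0_1]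
                      · rcases d_f22_5 with ⟨x25_0_0, x25_0_1⟩ | ⟨x25_1_0, x25_1_1⟩
                        · linarith only [s1, x18_0_1, x19_0_1, x1_0_1, x22_3_0, x24_3_0, x25_0_1]
                        · rcases d_p11_23B with x26_0_0 | x26_1_0 | x26_2_0 | x26_3_0 | x26_4_0 | x26_5_0
                          · linarith only [e0, x26_0_0]
                          · linarith only [C.f11_1, C.f22_1, C.o0, e0, e1, s1, s2, x18_0_1, x1_0_1, x22_3_0, x24_3_0, x25_1_1, x26_1_0]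
                          · linarith only [C.a2, C.a4, C.o0, C.o2, e0, x26_2_0]
                          · linarith only [C.f22_1, s1, x18_0_1, x19_0_1, x22_3_0, x25_1_1, x26_3_0, x4_1_1]
                          · linarith only [s2, x13_1_1, x22_3_0, x26_4_0]
                          · linarith only [C.f11_0, C.f11_1, C.f11_2, C.f22_4, C.f22_6, C.f33_7, s2, s3, x15_1_1, x19_0_1, x1_0_1, x22_3_0, x24_3_0, x26_5_0]
                      · linarith only [s2, x19_0_1, x1_0_1, x22_3_0, x24_4_0, x2_0_1]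
                      · linarith only [C.b3, C.f11_0, C.f11_1, C.f11_2, C.f22_4, C.f22_6, C.f33_7, s3, x24_5_0, x3_1_1]
                    · rcases d_p11_33B with x27_0_0 | x27_1_0 | x27_2_0 | x27_3_0 | x27_4_0
                      · linarith only [e0, x27_0_0]
                      · linarith only [C.a4, C.f11_0, C.f22_1, C.f33_1, C.o0, C.o1, e0, s1, x27_1_0]
                      · rcases d_f33_2 with ⟨x28_0_0, x28_0_1⟩ | ⟨x28_1_0, x28_1_1⟩
                        · linarith only [C.a1, C.f11_0, C.o0, x27_2_0, x28_0_1]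
                        · linarith only [C.f11_0, C.f11_1, C.f11_2, C.f22_1, C.f22_6, C.f33_4, C.o0, C.o1, C.o2, s1, s2, s3, x18_0_1, x20_1_1, x22_4_0, x27_2_0, x28_1_1]
                      · linarith only [C.f11_2, C.f22_6, C.f33_6, C.o1, C.o2, s2, s3, x20_1_1, x22_4_0, x27_3_0]
                      · linarith only [s3, x20_1_1, x22_4_0, x27_4_0]
                · rcases d_f22_5 with ⟨x29_0_0, x29_0_1⟩ | ⟨x29_1_0, x29_1_1⟩
                  · rcases d_f22_2 with ⟨x30_0_0, x30_0_1⟩ | ⟨x30_1_0, x30_1_1⟩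
                    · linarith only [C.f11_0, C.f11_1, C.f22_4, C.f33_0, C.f33_3, C.o0, C.o1, s1, s2, x29_0_1, x30_0_1]
                    · linarith only [C.b2, C.f22_4, x19_1_1, x29_0_1, x30_1_1]
                  · rcases d_f33_8 with ⟨x31_0_0, x31_0_1⟩ | ⟨x31_1_0, x31_1_1⟩
                    · rcases d_f33_2 with ⟨x32_0_0, x32_0_1⟩ | ⟨x32_1_0, x32_1_1⟩
                      · linarith only [C.f11_0, C.f11_1, C.f11_2, C.f22_0, C.f22_3, C.f22_6, C.f33_7, C.o0, C.o2, s1, s3, x18_0_1, x31_0_1, x32_0_1]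
                      · linarith only [C.f11_0, C.f11_1, C.f11_2, C.f22_1, C.f22_4, C.f22_6, C.f33_4, C.f33_7, C.o0, C.o1, C.o2, s1, s2, s3, x18_0_1, x31_0_1, x32_1_1]
                    · rcases d_p11_23B with x33_0_0 | x33_1_0 | x33_2_0 | x33_3_0 | x33_4_0 | x33_5_0
                      · linarith only [e0, x33_0_0]
                      · linarith only [C.a2, C.o0, e0, x33_1_0]
                      · linarith only [C.a4, C.f11_0, C.f22_1, C.f33_1, C.o0, C.o1, C.o2, e0, s1, x33_2_0]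
                      · rcases d_t23 with ⟨x34_0_0, x34_0_1⟩ | ⟨x34_1_0, x34_1_1⟩
                        · linarith only [C.f11_0, C.o0, x33_3_0, x34_0_0, x4_1_1]
                        · rcases d_p22_33A with x35_0_0 | x35_1_0 | x35_2_0 | x35_3_0 | x35_4_0
                          · linarith only [e0, x34_1_0, x35_0_0]
                          · linarith only [C.f11_0, C.f11_1, C.f22_1, C.f22_3, C.f33_4, C.o0, C.o1, e0, s1, s2, x18_0_1, x35_1_0]
                          · linarith only [C.a2, s1, x33_3_0, x35_2_0, x4_1_1]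
                          · linarith only [C.f11_0, C.f11_1, C.f22_1, C.o0, s1, s2, x18_0_1, x29_1_1, x33_3_0, x34_1_0, x35_3_0, x4_1_1]
                          · linarith only [C.f22_6, C.o2, x29_1_1, x31_1_1, x34_1_1, x35_4_0]
                      · rcases d_p22_33A with x36_0_0 | x36_1_0 | x36_2_0 | x36_3_0 | x36_4_0
                        · linarith only [C.b2, e0, x36_0_0]
                        · linarith only [C.f11_0, C.f11_1, C.f22_1, C.f22_4, C.f33_1, C.f33_4, C.o0, C.o1, e0, s1, s2, x18_0_1, x36_1_0]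
                        · rcases d_p11_13B with x37_0_0 | x37_1_0 | x37_2_0 | x37_3_0 | x37_4_0 | x37_5_0
                          · linarith only [e0, x37_0_0]
                          · linarith only [C.o0, e0, x37_1_0]
                          · linarith only [C.f11_0, C.f11_1, C.f13_4, C.f22_1, C.f22_3, C.f33_1, C.f33_3, C.o0, C.o1, C.o2, e0, s1, s2, x1_0_1, x2_0_1, x37_2_0]
                          · linarith only [s1, x1_0_1, x36_2_0, x37_3_0]
                          · linarith only [C.f11_0, C.f11_1, C.o0, x19_1_1, x1_0_1, x2_0_1, x37_4_0]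
                          · linarith only [C.f11_0, C.f11_1, C.f11_2, C.f22_4, C.f22_6, C.f33_7, s3, x19_1_1, x37_5_0, x3_1_1]
                        · linarith only [s2, x13_1_1, x33_4_0, x36_3_0]
                        · linarith only [C.f11_2, C.f22_6, C.o1, C.o2, s3, x13_1_1, x29_1_1, x31_1_1, x33_4_0, x36_4_0]
                      · linarith only [C.f11_0, C.f11_1, C.f11_2, C.f22_4, C.f22_6, C.f33_7, s3, x15_1_1, x19_1_1, x33_5_0]
              · rcases d_f33_8 with ⟨x38_0_0, x38_0_1⟩ | ⟨x38_1_0, x38_1_1⟩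
                · linarith only [C.f11_0, C.f11_1, C.f11_2, C.f13_4, C.f22_4, C.f22_6, C.f33_7, C.o0, C.o1, C.o2, s2, s3, x18_1_1, x1_0_1, x2_0_1, x38_0_1]
                · rcases d_p11_23B with x39_0_0 | x39_1_0 | x39_2_0 | x39_3_0 | x39_4_0 | x39_5_0
                  · linarith only [e0, x39_0_0]
                  · linarith only [C.a2, C.o0, e0, x39_1_0]
                  · linarith only [C.f11_0, C.f11_1, C.f13_4, C.f22_1, C.f22_4, C.f33_1, C.f33_3, C.o0, C.o1, C.o2, e0, s1, s2, x1_0_1, x2_0_1, x39_2_0]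
                  · rcases d_p22_33A with x40_0_0 | x40_1_0 | x40_2_0 | x40_3_0 | x40_4_0
                    · linarith only [C.b2, e0, x40_0_0]
                    · linarith only [C.a4, C.f11_0, C.f22_1, C.f33_1, C.o0, C.o1, e0, s1, x40_1_0]
                    · linarith only [C.a2, s1, x39_3_0, x40_2_0, x4_1_1]
                    · rcases d_f22_5 with ⟨x41_0_0, x41_0_1⟩ | ⟨x41_1_0, x41_1_1⟩
                      · linarith only [C.b2, C.f11_0, C.f11_1, C.f33_1, C.o0, s1, s2, x18_1_1, x39_3_0, x40_3_0, x41_0_1, x4_1_1]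
                      · linarith only [C.f11_0, C.f22_1, C.f33_1, C.o0, s1, x18_1_1, x39_3_0, x40_3_0, x41_1_1, x4_1_1]
                    · rcases d_p11_33B with x42_0_0 | x42_1_0 | x42_2_0 | x42_3_0 | x42_4_0
                      · linarith only [e0, x42_0_0]
                      · linarith only [C.f11_0, C.f11_1, C.f11_2, C.f13_4, C.f22_1, C.f22_6, C.f33_1, C.f33_4, C.o0, C.o1, e0, s1, s2, s3, x1_0_1, x2_0_1, x38_1_1, x40_4_0, x42_1_0]
                      · linarith only [C.f11_0, C.f22_1, C.o0, C.o1, s1, x39_3_0, x42_2_0, x4_1_1]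
                      · linarith only [C.f11_0, C.f11_1, C.f11_2, C.f13_4, C.f22_6, C.o0, C.o1, C.o2, s2, s3, x18_1_1, x1_0_1, x2_0_1, x38_1_1, x40_4_0, x42_3_0]
                      · linarith only [s3, x38_1_1, x40_4_0, x42_4_0]
                  · rcases d_p22_33A with x43_0_0 | x43_1_0 | x43_2_0 | x43_3_0 | x43_4_0
                    · linarith only [C.b2, e0, x43_0_0]
                    · linarith only [C.a4, C.f11_0, C.f22_1, C.f33_1, C.o0, C.o1, e0, s1, x43_1_0]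
                    · rcases d_p11_13B with x44_0_0 | x44_1_0 | x44_2_0 | x44_3_0 | x44_4_0 | x44_5_0
                      · linarith only [e0, x44_0_0]
                      · linarith only [C.o0, e0, x44_1_0]
                      · linarith only [C.a2, C.a4, C.o0, C.o2, e0, x44_2_0]
                      · linarith only [s1, x1_0_1, x43_2_0, x44_3_0]
                      · linarith only [C.b3, C.f11_1, s1, x1_0_1, x2_0_1, x43_2_0, x44_4_0]
                      · linarith only [C.b3, C.f11_0, C.f11_1, C.f11_2, C.f22_4, C.f22_6, C.f33_7, s3, x3_1_1, x44_5_0]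
                    · linarith only [s2, x13_1_1, x39_4_0, x43_3_0]
                    · rcases d_p11_33B with x45_0_0 | x45_1_0 | x45_2_0 | x45_3_0 | x45_4_0
                      · linarith only [e0, x45_0_0]
                      · linarith only [C.f11_0, C.f11_1, C.f11_2, C.f13_4, C.f22_1, C.f22_6, C.f33_1, C.f33_4, C.o0, C.o1, e0, s1, s2, s3, x1_0_1, x2_0_1, x38_1_1, x43_4_0, x45_1_0]
                      · linarith only [C.f11_0, C.f11_1, C.f11_2, C.f22_6, C.f33_3, C.o1, C.o2, s2, s3, x13_1_1, x38_1_1, x39_4_0, x43_4_0, x45_2_0]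
                      · linarith only [C.f22_4, C.o1, s2, x45_3_0]
                      · linarith only [s3, x38_1_1, x43_4_0, x45_4_0]
                  · linarith only [C.b3, C.f11_0, C.f11_1, C.f11_2, C.f22_4, C.f22_6, C.f33_7, s3, x15_1_1, x39_5_0]
          · linarith only [C.a4, C.f23_5, C.o2, x13_2_1]
        · linarith only [C.a4, C.f23_1, C.o2, x4_2_1]
    · rcases d_f13_8 with ⟨x46_0_0, x46_0_1⟩ | ⟨x46_1_0, x46_1_1⟩
      · linarith only [C.a4, C.b5, C.f13_7, C.o1, C.o2, x2_1_1, x46_0_1]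
      · rcases d_f22_5 with ⟨x47_0_0, x47_0_1⟩ | ⟨x47_1_0, x47_1_1⟩
        · rcases d_f22_2 with ⟨x48_0_0, x48_0_1⟩ | ⟨x48_1_0, x48_1_1⟩
          · linarith only [C.a1, C.f11_0, C.f11_1, C.f13_0, C.f13_3, C.f22_4, C.f33_4, C.o0, C.o1, C.o2, s2, x2_1_1, x47_0_1, x48_0_1]
          · linarith only [C.a2, C.f11_0, C.f11_1, C.f13_0, C.f13_3, C.f22_4, C.f33_1, C.f33_4, C.o2, s1, s2, x2_1_1, x47_0_1, x48_1_1]
        · rcases d_f23_3 with ⟨x49_0_0, x49_0_1⟩ | ⟨x49_1_0, x49_1_1⟩ | ⟨x49_2_0, x49_2_1⟩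
          · rcases d_f23_7 with ⟨x50_0_0, x50_0_1⟩ | ⟨x50_1_0, x50_1_1⟩ | ⟨x50_2_0, x50_2_1⟩
            · linarith only [C.a1, C.a4, C.f13_0, C.f13_3, C.f23_5, C.o2, x2_1_1, x49_0_1, x50_0_1]
            · rcases d_f23_10 with ⟨x51_0_0, x51_0_1⟩ | ⟨x51_1_0, x51_1_1⟩
              · rcases d_p11_23B with x52_0_0 | x52_1_0 | x52_2_0 | x52_3_0 | x52_4_0 | x52_5_0
                · linarith only [e0, x52_0_0]
                · linarith only [C.f11_0, C.f22_1, C.f23_1, C.f33_0, C.o0, C.o1, e0, s1, x49_0_1, x52_1_0]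
                · linarith only [C.a2, C.a4, C.o0, C.o2, e0, x52_2_0]
                · linarith only [C.a1, C.f11_0, C.o0, x49_0_1, x52_3_0]
                · linarith only [C.f11_2, C.f22_4, C.f22_6, C.f23_9, C.f33_7, C.o1, s3, x50_1_1, x51_0_1, x52_4_0]
                · linarith only [C.f22_4, C.f22_6, C.f33_7, C.o1, s3, x50_1_1, x51_0_1, x52_5_0]
              · rcases d_p11_23B with x53_0_0 | x53_1_0 | x53_2_0 | x53_3_0 | x53_4_0 | x53_5_0
                · linarith only [e0, x53_0_0]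
                · linarith only [C.f11_0, C.f22_1, C.f23_1, C.f33_0, C.o0, C.o1, e0, s1, x49_0_1, x53_1_0]
                · linarith only [C.a2, C.a4, C.o0, C.o2, e0, x53_2_0]
                · linarith only [C.a1, C.f11_0, C.o0, x49_0_1, x53_3_0]
                · rcases d_p11_13B with x54_0_0 | x54_1_0 | x54_2_0 | x54_3_0 | x54_4_0 | x54_5_0
                  · linarith only [e0, x54_0_0]
                  · linarith only [C.o0, e0, x54_1_0]
                  · linarith only [C.a2, C.a4, C.o0, C.o2, e0, x54_2_0]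
                  · linarith only [C.f11_0, C.f11_1, C.f13_3, C.f22_4, C.f33_4, C.o1, C.o2, s2, x2_1_1, x50_1_1, x53_4_0, x54_3_0]
                  · linarith only [C.f22_4, C.f33_4, C.o1, C.o2, s2, x2_1_1, x54_4_0]
                  · linarith only [C.b3, C.f11_0, C.f11_1, C.f11_2, C.f22_4, C.f22_6, C.f33_7, s3, x46_1_1, x54_5_0]
                · linarith only [C.b3, C.f11_0, C.f11_1, C.f11_2, C.f22_4, C.f22_6, C.f33_7, s3, x51_1_1, x53_5_0]
            · linarith only [C.a4, C.f23_5, C.o2, x50_2_1]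
          · rcases d_f23_7 with ⟨x55_0_0, x55_0_1⟩ | ⟨x55_1_0, x55_1_1⟩ | ⟨x55_2_0, x55_2_1⟩
            · linarith only [C.a2, C.f11_0, C.f11_1, C.f13_0, C.f13_3, C.f22_1, C.f22_4, C.f23_5, C.f33_1, C.f33_3, C.o2, s1, s2, x2_1_1, x49_1_1, x55_0_1]
            · rcases d_f23_10 with ⟨x56_0_0, x56_0_1⟩ | ⟨x56_1_0, x56_1_1⟩
              · rcases d_p11_22B with x57_0_0 | x57_1_0 | x57_2_0 | x57_3_0 | x57_4_0
                · linarith only [e0, x57_0_0]
                · linarith only [C.a2, C.b5, C.f23_9, C.o0, e0, x55_1_1, x56_0_1, x57_1_0]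
                · rcases d_f22_2 with ⟨x58_0_0, x58_0_1⟩ | ⟨x58_1_0, x58_1_1⟩
                  · linarith only [C.a1, C.f11_0, C.o0, x57_2_0, x58_0_1]
                  · rcases d_t23 with ⟨x59_0_0, x59_0_1⟩ | ⟨x59_1_0, x59_1_1⟩
                    · linarith only [C.b5, C.f11_0, C.f23_9, C.o0, x55_1_1, x56_0_1, x57_2_0, x58_1_1, x59_0_0]
                    · linarith only [C.f23_9, C.o1, x55_1_1, x56_0_1, x59_1_1]
                · linarith only [C.f11_2, C.f22_6, C.f23_9, C.f33_7, C.o1, s3, x55_1_1, x56_0_1, x57_3_0]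
                · linarith only [C.f33_7, s3, x57_4_0]
              · rcases d_f33_5 with ⟨x60_0_0, x60_0_1⟩ | ⟨x60_1_0, x60_1_1⟩
                · rcases d_f33_2 with ⟨x61_0_0, x61_0_1⟩ | ⟨x61_1_0, x61_1_1⟩
                  · linarith only [C.a1, C.f13_0, C.f13_3, C.f33_4, C.o2, x2_1_1, x60_0_1, x61_0_1]
                  · linarith only [C.a2, C.f11_0, C.f11_1, C.f13_0, C.f13_3, C.f22_1, C.f22_3, C.f33_4, C.o2, s1, s2, x2_1_1, x60_0_1, x61_1_1]
                · rcases d_p11_22B with x62_0_0 | x62_1_0 | x62_2_0 | x62_3_0 | x62_4_0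
                  · linarith only [e0, x62_0_0]
                  · linarith only [C.b2, e0, x62_1_0]
                  · rcases d_f33_8 with ⟨x63_0_0, x63_0_1⟩ | ⟨x63_1_0, x63_1_1⟩
                    · linarith only [C.a4, C.b5, C.f33_7, C.o1, C.o2, x60_1_1, x63_0_1]
                    · rcases d_p11_23B with x64_0_0 | x64_1_0 | x64_2_0 | x64_3_0 | x64_4_0 | x64_5_0
                      · linarith only [e0, x64_0_0]
                      · linarith only [C.a2, C.o0, e0, x64_1_0]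
                      · linarith only [C.a2, C.a4, C.o0, C.o2, e0, x64_2_0]
                      · rcases d_t23 with ⟨x65_0_0, x65_0_1⟩ | ⟨x65_1_0, x65_1_1⟩
                        · linarith only [C.f11_0, C.o0, x49_1_1, x64_3_0, x65_0_0]
                        · rcases d_p11_33B with x66_0_0 | x66_1_0 | x66_2_0 | x66_3_0 | x66_4_0
                          · linarith only [e0, x66_0_0]
                          · linarith only [C.f33_1, C.o0, e0, s1, x62_2_0, x66_1_0]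
                          · linarith only [C.f11_0, C.o0, s1, x62_2_0, x66_2_0]
                          · linarith only [C.f11_0, C.f11_1, C.f13_0, C.f13_3, C.f33_1, C.o0, C.o1, C.o2, s1, x2_1_1, x49_1_1, x60_1_1, x62_2_0, x64_3_0, x66_3_0]
                          · linarith only [C.f11_0, C.f11_1, C.f11_2, C.f13_0, C.f13_3, C.f33_1, C.o1, s1, x2_1_1, x49_1_1, x62_2_0, x63_1_1, x64_3_0, x65_1_1, x66_4_0]
                      · rcases d_f22_2 with ⟨x67_0_0, x67_0_1⟩ | ⟨x67_1_0, x67_1_1⟩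
                        · linarith only [C.a1, C.f11_0, C.o0, x62_2_0, x67_0_1]
                        · linarith only [C.a2, C.f11_0, C.f11_1, C.f13_3, C.f33_1, C.o0, C.o2, s1, x1_0_0, x2_1_1, x55_1_1, x62_2_0, x64_4_0, x67_1_1]
                      · linarith only [C.b3, C.f11_0, C.f11_1, C.f11_2, C.f22_4, C.f22_6, C.f33_7, s3, x56_1_1, x64_5_0]
                  · rcases d_p11_13B with x68_0_0 | x68_1_0 | x68_2_0 | x68_3_0 | x68_4_0 | x68_5_0
                    · linarith only [e0, x68_0_0]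
                    · linarith only [C.o0, e0, x68_1_0]
                    · linarith only [C.a2, C.a4, C.o0, C.o2, e0, x68_2_0]
                    · linarith only [C.f11_0, C.f11_1, C.f13_3, C.f33_4, C.o1, C.o2, s2, x2_1_1, x47_1_1, x62_3_0, x68_3_0]
                    · linarith only [C.f22_4, C.f33_4, C.o1, C.o2, s2, x2_1_1, x68_4_0]
                    · linarith only [C.b3, C.f11_0, C.f11_1, C.f11_2, C.f22_4, C.f22_6, C.f33_7, s3, x46_1_1, x68_5_0]
                  · linarith only [C.f33_7, s3, x62_4_0]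
            · linarith only [C.a4, C.f23_5, C.o2, x55_2_1]
          · linarith only [C.a4, C.f23_1, C.o2, x49_2_1]
  · linarith only [C.a2, C.a4, C.f13_0, C.o2, x1_1_1]

end Pool.Agent.Helper13.TQ
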