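import Pool.Agent.Helper89.TQ.Ctx

set_option autoImplicit false
set_option linter.all false
set_option maxHeartbeats 4000000

namespace Pool.Agent.Helper13.TQ

open Pool.Agent.Helper89.TQ

theorem c0_11_23_33_k1 {n1 n2 n3 A1 A2 A3 B1 B2 B3 m11_1 m11_2 m11_3 m13_1 m13_2 m13_3 m22_1 m22_2 m22_3 m23_1 m23_2 m23_3 m33_1 m33_2 m33_3 : ℤ}
    (C : Ctx0 n1 n2 n3 A1 A2 A3 B1 B2 B3 m11_1 m11_2 m11_3 m13_1 m13_2 m13_3 m22_1 m22_2 m22_3 m23_1 m23_2 m23_3 m33_1 m33_2 m33_3)
    (e0 : 0 < B1)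
    (e1 : 0 < A2)
    (e2 : 0 < B3)
    (e3 : 0 < A3)
    (s1 : 1 * A1 + 2 * B1 ≤ m11_1 + m23_1 + m33_1)
    (s2 : 1 * A2 + 2 * B2 ≤ m11_2 + m23_2 + m33_2)
    (s3 : 1 * A3 + 2 * B3 ≤ m11_3 + m23_3 + m33_3) : False := by
  have d_t12 : (-A1 + 1 ≤ 0 ∧ -A1 + A2 - n2 + 1 ≤ 0) ∨ (-B1 + 1 ≤ 0 ∧ -B1 + B2 - n2 + 1 ≤ 0) := by
    have h := C.t12
    omega
  have d_t23 : (A1 - A2 + 1 ≤ 0 ∧ -A2 + A3 - n3 + 1 ≤ 0) ∨ (B1 - B2 + 1 ≤ 0 ∧ -B2 + B3 - n3 + 1 ≤ 0) := by
    have h := C.t23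
    omega
  have d_f13_2 : (-A1 + m13_1 + 1 ≤ 0 ∧ A1 - m13_1 - 1 ≤ 0) ∨ (-B3 + m13_1 + 1 ≤ 0 ∧ B3 - m13_1 - 1 ≤ 0) := by
    have h := C.f13_2
    omega
  have d_f13_5 : (-m13_1 + m13_2 - n2 ≤ 0 ∧ m13_1 - m13_2 + n2 ≤ 0) ∨ (-B3 + m13_2 + 1 ≤ 0 ∧ B3 - m13_2 - 1 ≤ 0) := by
    have h := C.f13_5
    omega
  have d_f13_8 : (-m13_2 + m13_3 - n3 ≤ 0 ∧ m13_2 - m13_3 + n3 ≤ 0) ∨ (-B3 + m13_3 + 1 ≤ 0 ∧ B3 - m13_3 - 1 ≤ 0) := by
    have h := C.f13_8
    omega
  have d_f22_2 : (m22_1 - n1 ≤ 0 ∧ -m22_1 + n1 ≤ 0) ∨ (-B2 + m22_1 + 1 ≤ 0 ∧ B2 - m22_1 - 1 ≤ 0) := by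
    have h := C.f22_2
    omega
  have d_f22_5 : (-m22_1 + m22_2 - n2 ≤ 0 ∧ m22_1 - m22_2 + n2 ≤ 0) ∨ (-B2 + m22_2 + 1 ≤ 0 ∧ B2 - m22_2 - 1 ≤ 0) := by
    have h := C.f22_5
    omega
  have d_f23_3 : (m23_1 - n1 ≤ 0 ∧ -m23_1 + n1 ≤ 0) ∨ (-A2 + m23_1 + 1 ≤ 0 ∧ A2 - m23_1 - 1 ≤ 0) ∨ (-B3 + m23_1 + 1 ≤ 0 ∧ B3 - m23_1 - 1 ≤ 0) := by
    have h := C.f23_3
    omega
  have d_f23_7 : (-m23_1 + m23_2 - n2 ≤ 0 ∧ m23_1 - m23_2 + n2 ≤ 0) ∨ (-A2 + m23_2 + 1 ≤ 0 ∧ A2 - m23_2 - 1 ≤ 0) ∨ (-B3 + m23_2 + 1 ≤ 0 ∧ B3 - m23_2 - 1 ≤ 0) := by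
    have h := C.f23_7
    omega
  have d_f33_2 : (m33_1 - n1 ≤ 0 ∧ -m33_1 + n1 ≤ 0) ∨ (-A3 + m33_1 + 1 ≤ 0 ∧ A3 - m33_1 - 1 ≤ 0) := by
    have h := C.f33_2
    omega
  have d_f33_5 : (-m33_1 + m33_2 - n2 ≤ 0 ∧ m33_1 - m33_2 + n2 ≤ 0) ∨ (-A3 + m33_2 + 1 ≤ 0 ∧ A3 - m33_2 - 1 ≤ 0) := by
    have h := C.f33_5
    omega
  have d_f33_8 : (-m33_2 + m33_3 - n3 ≤ 0 ∧ m33_2 - m33_3 + n3 ≤ 0) ∨ (-A3 + m33_3 + 1 ≤ 0 ∧ A3 - m33_3 - 1 ≤ 0) := by
    have h := C.f33_8
    omega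
  have d_p11_13B : B1 ≤ 0 ∨ A1 ≤ 0 ∨ B3 ≤ 0 ∨ (-2) * B1 + m11_1 + m13_1 + 1 ≤ 0 ∨ (-2) * B2 + m11_2 + m13_2 + 1 ≤ 0 ∨ (-2) * B3 + m11_3 + m13_3 + 1 ≤ 0 := by
    have h := C.p11_13B
    omega
  have d_p11_22B : B1 ≤ 0 ∨ B2 ≤ 0 ∨ (-2) * B1 + m11_1 + m22_1 + 1 ≤ 0 ∨ (-2) * B2 + m11_2 + m22_2 + 1 ≤ 0 ∨ (-2) * B3 + m11_3 + m22_3 + 1 ≤ 0 := by
    have h := C.p11_22B
    omega
  have d_p11_23B : B1 ≤ 0 ∨ A2 ≤ 0 ∨ B3 ≤ 0 ∨ (-2) * B1 + m11_1 + m23_1 + 1 ≤ 0 ∨ (-2) * B2 + m11_2 + m23_2 + 1 ≤ 0 ∨ (-2) * B3 + m11_3 + m23_3 + 1 ≤ 0 := by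
    have h := C.p11_23B
    omega
  have d_p11_33B : B1 ≤ 0 ∨ A3 ≤ 0 ∨ (-2) * B1 + m11_1 + m33_1 + 1 ≤ 0 ∨ (-2) * B2 + m11_2 + m33_2 + 1 ≤ 0 ∨ (-2) * B3 + m11_3 + m33_3 + 1 ≤ 0 := by
    have h := C.p11_33B
    omega
  have d_p13_22B : A1 ≤ 0 ∨ B3 ≤ 0 ∨ B2 ≤ 0 ∨ (-2) * B1 + m13_1 + m22_1 + 1 ≤ 0 ∨ (-2) * B2 + m13_2 + m22_2 + 1 ≤ 0 ∨ (-2) * B3 + m13_3 + m22_3 + 1 ≤ 0 := by
    have h := C.p13_22B
    omega
  have d_p13_33A : A1 ≤ 0 ∨ B3 ≤ 0 ∨ A3 ≤ 0 ∨ (-2) * A1 + m13_1 + m33_1 + 1 ≤ 0 ∨ (-2) * A2 + m13_2 + m33_2 + 1 ≤ 0 ∨ (-2) * A3 + m13_3 + m33_3 + 1 ≤ 0 := by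
    have h := C.p13_33A
    omega
  have d_tzpm : -A1 + A2 ≤ 0 ∨ A2 - A3 + n3 - 1 ≤ 0 ∨ B1 - B2 + n2 ≤ 0 ∨ -B2 + B3 - 1 ≤ 0 ∨ (-A2 + B2 + 1 ≤ 0 ∧ -A3 + B3 - 1 ≤ 0) := by
    have h := C.tzpm
    omega
  rcases d_f13_2 with ⟨x1_0_0, x1_0_1⟩ | ⟨x1_1_0, x1_1_1⟩
  · rcases d_f13_5 with ⟨x2_0_0, x2_0_1⟩ | ⟨x2_1_0, x2_1_1⟩
    · rcases d_f13_8 with ⟨x3_0_0, x3_0_1⟩ | ⟨x3_1_0, x3_1_1⟩
      · linarith only [C.a3, C.f11_0, C.f11_1, C.f11_2, C.f13_7, C.f23_5, C.f23_8, C.f33_7, C.o0, s3, x1_0_1, x2_0_1, x3_0_1]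
      · rcases d_f22_5 with ⟨x4_0_0, x4_0_1⟩ | ⟨x4_1_0, x4_1_1⟩
        · rcases d_f22_2 with ⟨x5_0_0, x5_0_1⟩ | ⟨x5_1_0, x5_1_1⟩
          · linarith only [C.a1, C.f11_0, C.f11_1, C.f22_4, C.f23_5, C.f33_0, C.f33_3, C.o0, s2, x4_0_1, x5_0_1]
          · rcases d_t12 with ⟨x6_0_0, x6_0_1⟩ | ⟨x6_1_0, x6_1_1⟩
            · linarith only [C.a2, C.f22_4, x4_0_1, x5_1_1, x6_0_1]
            · linarith only [C.b2, C.f22_4, x4_0_1, x5_1_1, x6_1_1]
        · rcases d_f33_5 with ⟨x7_0_0, x7_0_1⟩ | ⟨x7_1_0, x7_1_1⟩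
          · rcases d_t12 with ⟨x8_0_0, x8_0_1⟩ | ⟨x8_1_0, x8_1_1⟩
            · rcases d_f33_8 with ⟨x9_0_0, x9_0_1⟩ | ⟨x9_1_0, x9_1_1⟩
              · rcases d_f33_2 with ⟨x10_0_0, x10_0_1⟩ | ⟨x10_1_0, x10_1_1⟩
                · linarith only [C.f11_0, C.f11_1, C.f11_2, C.f23_0, C.f23_9, C.f33_7, C.o0, C.o2, s1, s3, x10_0_1, x7_0_1, x9_0_1]
                · linarith only [C.a4, C.f11_0, C.f11_1, C.f11_2, C.f23_1, C.f23_4, C.f23_8, C.f33_7, C.o0, C.o2, s1, s3, x10_1_1, x7_0_1, x9_0_1]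
              · rcases d_p11_33B with x11_0_0 | x11_1_0 | x11_2_0 | x11_3_0 | x11_4_0
                · linarith only [e0, x11_0_0]
                · linarith only [C.a4, C.f11_0, C.f23_1, C.f33_1, C.o0, e0, s1, x11_1_0]
                · rcases d_f33_2 with ⟨x12_0_0, x12_0_1⟩ | ⟨x12_1_0, x12_1_1⟩
                  · linarith only [C.a1, C.f11_0, C.o0, x11_2_0, x12_0_1]
                  · linarith only [C.f23_1, C.f33_4, s1, x11_2_0, x12_1_1, x7_0_1, x8_0_1]
                · linarith only [C.f23_5, s2, x11_3_0]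
                · rcases d_p13_33A with x13_0_0 | x13_1_0 | x13_2_0 | x13_3_0 | x13_4_0 | x13_5_0
                  · linarith only [C.o0, e0, x13_0_0]
                  · linarith only [C.a2, C.a4, C.o0, C.o2, e0, x13_1_0]
                  · linarith only [C.a4, C.f11_0, C.f23_1, C.f33_1, C.o0, e0, s1, x13_2_0]
                  · rcases d_p11_13B with x14_0_0 | x14_1_0 | x14_2_0 | x14_3_0 | x14_4_0 | x14_5_0
                    · linarith only [e0, x14_0_0]
                    · linarith only [C.o0, e0, x14_1_0]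
                    · linarith only [C.a2, C.a4, C.o0, C.o2, e0, x14_2_0]
                    · rcases d_tzpm with x15_0_0 | x15_1_0 | x15_2_0 | x15_3_0 | ⟨x15_4_0, x15_4_1⟩
                      · linarith only [C.f23_1, s1, x13_3_0, x14_3_0, x15_0_0, x1_0_1]
                      · linarith only [C.f23_5, C.f23_8, s3, x11_4_0, x15_1_0]
                      · linarith only [C.f11_1, C.f23_5, C.f33_3, s2, x13_3_0, x14_3_0, x15_2_0, x1_0_1]
                      · linarith only [C.a4, C.f11_2, C.f23_5, C.f23_8, C.f33_4, s2, s3, x11_4_0, x15_3_0, x9_1_1]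
                      · linarith only [C.f23_9, s3, x11_4_0, x15_4_1]
                    · linarith only [C.f23_5, C.f33_3, s2, x13_3_0, x14_4_0, x1_0_1, x2_0_1]
                    · linarith only [C.f23_9, C.f33_7, s3, x14_5_0, x3_1_1]
                  · rcases d_f33_2 with ⟨x16_0_0, x16_0_1⟩ | ⟨x16_1_0, x16_1_1⟩
                    · linarith only [C.a1, x13_4_0, x16_0_1, x1_0_1, x2_0_1, x7_0_1, x8_0_1]
                    · linarith only [C.a2, C.f33_4, x16_1_1, x7_0_1, x8_0_1]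
                  · linarith only [C.f23_9, s3, x11_4_0, x13_5_0, x3_1_1, x9_1_1]
            · rcases d_f33_2 with ⟨x17_0_0, x17_0_1⟩ | ⟨x17_1_0, x17_1_1⟩
              · rcases d_f33_8 with ⟨x18_0_0, x18_0_1⟩ | ⟨x18_1_0, x18_1_1⟩
                · linarith only [C.f11_0, C.f11_1, C.f11_2, C.f23_0, C.f23_9, C.f33_7, C.o0, C.o2, s1, s3, x17_0_1, x18_0_1, x7_0_1]
                · rcases d_p11_33B with x19_0_0 | x19_1_0 | x19_2_0 | x19_3_0 | x19_4_0
                  · linarith only [e0, x19_0_0]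
                  · linarith only [C.a4, C.f11_0, C.f23_1, C.f33_1, C.o0, e0, s1, x19_1_0]
                  · linarith only [C.a1, C.f11_0, C.o0, x17_0_1, x19_2_0]
                  · linarith only [C.f23_5, s2, x19_3_0]
                  · rcases d_tzpm with x20_0_0 | x20_1_0 | x20_2_0 | x20_3_0 | ⟨x20_4_0, x20_4_1⟩
                    · rcases d_t23 with ⟨x21_0_0, x21_0_1⟩ | ⟨x21_1_0, x21_1_1⟩
                      · linarith only [x20_0_0, x21_0_0]
                      · rcases d_f22_2 with ⟨x22_0_0, x22_0_1⟩ | ⟨x22_1_0, x22_1_1⟩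
                        · linarith only [C.a1, C.f22_1, C.o1, x20_0_0, x22_0_1]
                        · rcases d_p13_22B with x23_0_0 | x23_1_0 | x23_2_0 | x23_3_0 | x23_4_0 | x23_5_0
                          · linarith only [C.o0, e0, x23_0_0]
                          · linarith only [C.a2, C.a4, C.o0, C.o2, e0, x23_1_0]
                          · linarith only [e0, x21_1_0, x23_2_0]
                          · linarith only [C.o1, x1_0_1, x20_0_0, x21_1_0, x22_1_1, x23_3_0]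
                          · linarith only [C.o0, x1_0_1, x23_4_0, x2_0_1, x4_1_1, x8_1_1]
                          · rcases d_p13_33A with x24_0_0 | x24_1_0 | x24_2_0 | x24_3_0 | x24_4_0 | x24_5_0
                            · linarith only [C.o0, e0, x24_0_0]
                            · linarith only [C.a2, C.a4, C.o0, C.o2, e0, x24_1_0]
                            · linarith only [C.a4, C.f11_0, C.f11_1, C.f23_1, C.f23_4, C.f33_4, C.o0, e0, s1, s2, x21_1_0, x24_2_0, x7_0_1]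
                            · rcases d_p11_13B with x25_0_0 | x25_1_0 | x25_2_0 | x25_3_0 | x25_4_0 | x25_5_0
                              · linarith only [e0, x25_0_0]
                              · linarith only [C.o0, e0, x25_1_0]
                              · linarith only [C.a2, C.a4, C.o0, C.o2, e0, x25_2_0]
                              · linarith only [C.f23_1, s1, x1_0_1, x20_0_0, x24_3_0, x25_3_0]
                              · linarith only [C.f11_0, C.f11_1, C.f11_2, C.f22_6, C.f23_1, C.f23_9, C.f33_7, s1, s3, x1_0_1, x20_0_0, x23_5_0, x24_3_0, x25_4_0, x2_0_1, x3_1_1, x4_1_1]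
                              · linarith only [C.f23_9, C.f33_7, s3, x25_5_0, x3_1_1]
                            · linarith only [C.a1, C.f11_0, C.f11_1, C.f11_2, C.f22_6, C.f23_9, C.f33_7, s3, x17_0_1, x1_0_1, x20_0_0, x21_1_0, x23_5_0, x24_4_0, x2_0_1, x3_1_1, x4_1_1, x7_0_1]
                            · linarith only [C.f23_9, s3, x18_1_1, x19_4_0, x24_5_0, x3_1_1]
                    · linarith only [C.f23_5, C.f23_8, s3, x19_4_0, x20_1_0]
                    · linarith only [x20_2_0, x8_1_1]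
                    · linarith only [C.f11_0, C.f11_1, C.f23_0, C.f23_5, C.f33_4, C.o0, C.o2, s1, s2, x17_0_1, x20_3_0, x7_0_1]
                    · linarith only [C.f23_9, s3, x19_4_0, x20_4_1]
              · linarith only [C.b2, C.f33_4, x17_1_1, x7_0_1, x8_1_1]
          · rcases d_f33_8 with ⟨x26_0_0, x26_0_1⟩ | ⟨x26_1_0, x26_1_1⟩
            · linarith only [C.a4, C.f11_0, C.f11_1, C.f11_2, C.f13_4, C.f23_5, C.f23_8, C.f33_7, C.o0, C.o2, s3, x1_0_1, x26_0_1, x2_0_1, x7_1_1]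
            · rcases d_f22_2 with ⟨x27_0_0, x27_0_1⟩ | ⟨x27_1_0, x27_1_1⟩
              · rcases d_p11_22B with x28_0_0 | x28_1_0 | x28_2_0 | x28_3_0 | x28_4_0
                · linarith only [e0, x28_0_0]
                · linarith only [C.a1, C.f22_1, C.o0, e0, x27_0_1, x28_1_0]
                · linarith only [C.a1, C.f11_0, C.o0, x27_0_1, x28_2_0]
                · rcases d_p13_22B with x29_0_0 | x29_1_0 | x29_2_0 | x29_3_0 | x29_4_0 | x29_5_0
                  · linarith only [C.o0, e0, x29_0_0]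
                  · linarith only [C.a2, C.a4, C.o0, C.o2, e0, x29_1_0]
                  · linarith only [C.a1, C.f22_1, C.o0, e0, x27_0_1, x29_2_0]
                  · linarith only [C.a1, C.o0, x1_0_1, x27_0_1, x29_3_0]
                  · rcases d_p11_33B with x30_0_0 | x30_1_0 | x30_2_0 | x30_3_0 | x30_4_0
                    · linarith only [e0, x30_0_0]
                    · linarith only [C.a4, C.f11_0, C.f23_1, C.f33_1, C.o0, e0, s1, x30_1_0]
                    · linarith only [C.f11_1, C.f23_5, C.f33_3, C.o0, s2, x1_0_1, x29_4_0, x2_0_1, x30_2_0, x4_1_1]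
                    · linarith only [C.f23_5, s2, x30_3_0]
                    · rcases d_p13_33A with x31_0_0 | x31_1_0 | x31_2_0 | x31_3_0 | x31_4_0 | x31_5_0
                      · linarith only [C.o0, e0, x31_0_0]
                      · linarith only [C.a2, C.a4, C.o0, C.o2, e0, x31_1_0]
                      · linarith only [C.a4, C.f11_0, C.f23_1, C.f33_1, C.o0, e0, s1, x31_2_0]
                      · linarith only [C.f11_0, C.f11_1, C.f23_5, C.f33_3, C.o0, s2, x1_0_1, x29_4_0, x2_0_1, x31_3_0, x4_1_1]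
                      · linarith only [C.a3, C.f11_0, C.f11_1, C.f23_5, C.o0, s2, x1_0_1, x29_4_0, x2_0_1, x31_4_0, x4_1_1]
                      · linarith only [C.f23_9, s3, x26_1_1, x30_4_0, x31_5_0, x3_1_1]
                  · linarith only [C.f11_2, C.f22_6, C.f23_9, C.f33_7, s3, x28_3_0, x29_5_0, x3_1_1, x4_1_1]
                · linarith only [C.b5, C.f22_6, C.f23_9, C.f33_7, s3, x28_4_0, x4_1_1]
              · rcases d_p11_23B with x32_0_0 | x32_1_0 | x32_2_0 | x32_3_0 | x32_4_0 | x32_5_0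
                · linarith only [e0, x32_0_0]
                · linarith only [C.a2, C.o0, e0, x32_1_0]
                · linarith only [C.a2, C.a4, C.o0, C.o2, e0, x32_2_0]
                · rcases d_f23_3 with ⟨x33_0_0, x33_0_1⟩ | ⟨x33_1_0, x33_1_1⟩ | ⟨x33_2_0, x33_2_1⟩
                  · linarith only [C.f11_0, C.f33_0, C.o0, s1, x32_3_0, x33_0_1]
                  · rcases d_p11_33B with x34_0_0 | x34_1_0 | x34_2_0 | x34_3_0 | x34_4_0
                    · linarith only [e0, x34_0_0]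
                    · linarith only [C.a2, C.a4, C.o0, e0, x34_1_0]
                    · linarith only [C.f11_0, C.o0, s1, x32_3_0, x34_2_0]
                    · linarith only [C.f23_5, s2, x34_3_0]
                    · rcases d_p13_33A with x35_0_0 | x35_1_0 | x35_2_0 | x35_3_0 | x35_4_0 | x35_5_0
                      · linarith only [C.o0, e0, x35_0_0]
                      · linarith only [C.a2, C.a4, C.o0, C.o2, e0, x35_1_0]
                      · linarith only [C.a2, C.a4, C.o0, e0, x35_2_0]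
                      · linarith only [s1, x1_0_1, x32_3_0, x35_3_0]
                      · linarith only [C.b2, C.f11_0, C.f11_1, C.f23_4, C.f33_1, C.o0, s1, s2, x1_0_1, x2_0_1, x32_3_0, x33_1_1, x35_4_0, x7_1_1]
                      · linarith only [C.f23_9, s3, x26_1_1, x34_4_0, x35_5_0, x3_1_1]
                  · linarith only [C.f11_0, C.f33_1, C.o0, C.o2, s1, x32_3_0, x33_2_1]
                · rcases d_f23_7 with ⟨x36_0_0, x36_0_1⟩ | ⟨x36_1_0, x36_1_1⟩ | ⟨x36_2_0, x36_2_1⟩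
                  · rcases d_p11_33B with x37_0_0 | x37_1_0 | x37_2_0 | x37_3_0 | x37_4_0
                    · linarith only [e0, x37_0_0]
                    · linarith only [C.a4, C.f11_0, C.f23_1, C.f33_1, C.o0, e0, s1, x37_1_0]
                    · linarith only [C.f11_0, C.f23_5, C.f33_3, C.o0, s1, s2, x32_4_0, x36_0_1, x37_2_0]
                    · linarith only [C.f23_5, s2, x37_3_0]
                    · rcases d_p13_33A with x38_0_0 | x38_1_0 | x38_2_0 | x38_3_0 | x38_4_0 | x38_5_0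
                      · linarith only [C.o0, e0, x38_0_0]
                      · linarith only [C.a2, C.a4, C.o0, C.o2, e0, x38_1_0]
                      · linarith only [C.a4, C.f11_0, C.f23_1, C.f33_1, C.o0, e0, s1, x38_2_0]
                      · linarith only [C.b3, C.f11_1, s1, x1_0_1, x32_4_0, x36_0_1, x38_3_0]
                      · linarith only [C.a3, s2, x1_0_1, x2_0_1, x32_4_0, x38_4_0]
                      · linarith only [C.f23_9, s3, x26_1_1, x37_4_0, x38_5_0, x3_1_1]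
                  · rcases d_p11_33B with x39_0_0 | x39_1_0 | x39_2_0 | x39_3_0 | x39_4_0
                    · linarith only [e0, x39_0_0]
                    · linarith only [C.a4, C.f11_0, C.f23_1, C.f33_1, C.o0, e0, s1, x39_1_0]
                    · rcases d_f33_2 with ⟨x40_0_0, x40_0_1⟩ | ⟨x40_1_0, x40_1_1⟩
                      · linarith only [C.f11_0, C.f11_1, C.f22_0, C.f23_1, C.f33_3, C.o0, s1, s2, x27_1_1, x32_4_0, x36_1_1, x39_2_0, x40_0_1]
                      · linarith only [C.a2, C.f11_0, C.f33_4, C.o0, s2, x32_4_0, x39_2_0, x40_1_1]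
                    · linarith only [C.f23_5, s2, x39_3_0]
                    · rcases d_p13_33A with x41_0_0 | x41_1_0 | x41_2_0 | x41_3_0 | x41_4_0 | x41_5_0
                      · linarith only [C.o0, e0, x41_0_0]
                      · linarith only [C.a2, C.a4, C.o0, C.o2, e0, x41_1_0]
                      · linarith only [C.a4, C.f11_0, C.f23_1, C.f33_1, C.o0, e0, s1, x41_2_0]
                      · rcases d_p13_22B with x42_0_0 | x42_1_0 | x42_2_0 | x42_3_0 | x42_4_0 | x42_5_0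
                        · linarith only [C.o0, e0, x42_0_0]
                        · linarith only [C.a2, C.a4, C.o0, C.o2, e0, x42_1_0]
                        · linarith only [C.f11_1, C.f23_1, C.f23_4, e0, s1, x1_0_1, x32_4_0, x36_1_1, x41_3_0, x42_2_0]
                        · linarith only [C.f11_0, C.f11_1, C.f23_1, C.f33_3, C.o0, s1, s2, x1_0_1, x27_1_1, x32_4_0, x36_1_1, x41_3_0, x42_3_0]
                        · linarith only [C.f11_0, C.f11_1, C.f23_5, C.f33_3, C.o0, s2, x1_0_1, x2_0_1, x41_3_0, x42_4_0, x4_1_1]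
                        · linarith only [C.f11_2, C.f22_6, C.f23_9, C.f33_7, C.o1, s3, x32_4_0, x36_1_1, x3_1_1, x42_5_0, x4_1_1]
                      · linarith only [C.a3, s2, x1_0_1, x2_0_1, x32_4_0, x41_4_0]
                      · linarith only [C.f23_9, s3, x26_1_1, x39_4_0, x3_1_1, x41_5_0]
                  · linarith only [C.f23_5, C.f33_4, C.o2, s2, x32_4_0, x36_2_1]
                · linarith only [C.f33_7, s3, x32_5_0]
    · rcases d_f13_8 with ⟨x43_0_0, x43_0_1⟩ | ⟨x43_1_0, x43_1_1⟩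
      · linarith only [C.a4, C.b5, C.f13_7, C.o1, C.o2, x2_1_1, x43_0_1]
      · rcases d_f23_7 with ⟨x44_0_0, x44_0_1⟩ | ⟨x44_1_0, x44_1_1⟩ | ⟨x44_2_0, x44_2_1⟩
        · rcases d_f23_3 with ⟨x45_0_0, x45_0_1⟩ | ⟨x45_1_0, x45_1_1⟩ | ⟨x45_2_0, x45_2_1⟩
          · linarith only [C.a1, C.a4, C.f13_0, C.f13_3, C.f23_5, C.o2, x2_1_1, x44_0_1, x45_0_1]
          · linarith only [C.a2, C.a4, C.f13_0, C.f13_3, C.f23_5, C.o2, x2_1_1, x44_0_1, x45_1_1]
          · linarith only [C.a2, C.a4, C.f13_0, C.f13_3, C.f23_5, C.o2, x2_1_1, x44_0_1, x45_2_1]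
        · rcases d_f33_5 with ⟨x46_0_0, x46_0_1⟩ | ⟨x46_1_0, x46_1_1⟩
          · rcases d_f33_2 with ⟨x47_0_0, x47_0_1⟩ | ⟨x47_1_0, x47_1_1⟩
            · linarith only [C.a1, C.f13_0, C.f13_3, C.f33_4, C.o2, x2_1_1, x46_0_1, x47_0_1]
            · linarith only [C.a2, C.a4, C.f13_0, C.f13_3, C.f33_4, C.o2, x2_1_1, x46_0_1, x47_1_1]
          · rcases d_f33_8 with ⟨x48_0_0, x48_0_1⟩ | ⟨x48_1_0, x48_1_1⟩
            · linarith only [C.a4, C.b5, C.f33_7, C.o1, C.o2, x46_1_1, x48_0_1]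
            · rcases d_p11_23B with x49_0_0 | x49_1_0 | x49_2_0 | x49_3_0 | x49_4_0 | x49_5_0
              · linarith only [e0, x49_0_0]
              · linarith only [C.a2, C.o0, e0, x49_1_0]
              · linarith only [C.a2, C.a4, C.o0, C.o2, e0, x49_2_0]
              · rcases d_f23_3 with ⟨x50_0_0, x50_0_1⟩ | ⟨x50_1_0, x50_1_1⟩ | ⟨x50_2_0, x50_2_1⟩
                · linarith only [C.a1, C.f11_0, C.o0, x49_3_0, x50_0_1]
                · rcases d_t23 with ⟨x51_0_0, x51_0_1⟩ | ⟨x51_1_0, x51_1_1⟩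
                  · linarith only [C.f11_0, C.o0, x49_3_0, x50_1_1, x51_0_0]
                  · rcases d_p11_33B with x52_0_0 | x52_1_0 | x52_2_0 | x52_3_0 | x52_4_0
                    · linarith only [e0, x52_0_0]
                    · linarith only [C.f33_1, C.o0, e0, s1, x49_3_0, x52_1_0]
                    · linarith only [C.f11_0, C.o0, s1, x49_3_0, x52_2_0]
                    · linarith only [C.f23_5, s2, x52_3_0]
                    · linarith only [C.f11_0, C.f11_1, C.f11_2, C.f13_0, C.f13_3, C.f33_1, C.o1, s1, x2_1_1, x48_1_1, x49_3_0, x50_1_1, x51_1_1, x52_4_0]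
                · linarith only [C.f11_0, C.f33_1, C.o0, C.o2, s1, x49_3_0, x50_2_1]
              · rcases d_p11_13B with x53_0_0 | x53_1_0 | x53_2_0 | x53_3_0 | x53_4_0 | x53_5_0
                · linarith only [e0, x53_0_0]
                · linarith only [C.o0, e0, x53_1_0]
                · linarith only [C.a2, C.a4, C.o0, C.o2, e0, x53_2_0]
                · linarith only [C.f11_0, C.f11_1, C.f13_3, C.f33_4, C.o1, C.o2, s2, x2_1_1, x44_1_1, x49_4_0, x53_3_0]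
                · linarith only [C.f23_5, C.f33_4, C.o2, s2, x2_1_1, x53_4_0]
                · linarith only [C.f23_9, C.f33_7, s3, x43_1_1, x53_5_0]
              · linarith only [C.f33_7, s3, x49_5_0]
        · linarith only [C.a4, C.f23_5, C.o2, x44_2_1]
  · linarith only [C.a2, C.a4, C.f13_0, C.o2, x1_1_1]

end Pool.Agent.Helper13.TQ
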