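import Pool.Agent.Helper89.TQ.Ctx

set_option autoImplicit false
set_option linter.all false
set_option maxHeartbeats 4000000

namespace Pool.Agent.Helper13.TQ

open Pool.Agent.Helper89.TQ

theorem c0_11_23_33_k3 {n1 n2 n3 A1 A2 A3 B1 B2 B3 m11_1 m11_2 m11_3 m13_1 m13_2 m13_3 m22_1 m22_2 m22_3 m23_1 m23_2 m23_3 m33_1 m33_2 m33_3 : ℤ}
    (C : Ctx0 n1 n2 n3 A1 A2 A3 B1 B2 B3 m11_1 m11_2 m11_3 m13_1 m13_2 m13_3 m22_1 m22_2 m22_3 m23_1 m23_2 m23_3 m33_1 m33_2 m33_3)
    (e0 : 0 < B1)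
    (e1 : 0 < A2)
    (e2 : 0 < B3)
    (e3 : 0 < A3)
    (s1 : 3 * A1 + 0 * B1 ≤ m11_1 + m23_1 + m33_1)
    (s2 : 3 * A2 + 0 * B2 ≤ m11_2 + m23_2 + m33_2)
    (s3 : 3 * A3 + 0 * B3 ≤ m11_3 + m23_3 + m33_3) : F1 n1 n2 n3 A1 A2 A3 B1 B2 B3 ∨ F2 n1 n2 n3 A1 A2 A3 B1 B2 B3 := by
  by_contra hG
  have hG0 : ¬ F1 n1 n2 n3 A1 A2 A3 B1 B2 B3 := fun h => hG (Or.inl h)
  unfold F1 at hG0
  have hG1 : ¬ F2 n1 n2 n3 A1 A2 A3 B1 B2 B3 := fun h => hG (Or.inr h)
  unfold F2 at hG1
  have d_t12 : (-A1 + 1 ≤ 0 ∧ -A1 + A2 - n2 + 1 ≤ 0) ∨ (-B1 + 1 ≤ 0 ∧ -B1 + B2 - n2 + 1 ≤ 0) := by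
    have h := C.t12
    omega
  have d_f13_2 : (-A1 + m13_1 + 1 ≤ 0 ∧ A1 - m13_1 - 1 ≤ 0) ∨ (-B3 + m13_1 + 1 ≤ 0 ∧ B3 - m13_1 - 1 ≤ 0) := by
    have h := C.f13_2
    omega
  have d_f13_5 : (-m13_1 + m13_2 - n2 ≤ 0 ∧ m13_1 - m13_2 + n2 ≤ 0) ∨ (-B3 + m13_2 + 1 ≤ 0 ∧ B3 - m13_2 - 1 ≤ 0) := by
    have h := C.f13_5
    omega
  have d_f13_8 : (-m13_2 + m13_3 - n3 ≤ 0 ∧ m13_2 - m13_3 + n3 ≤ 0) ∨ (-B3 + m13_3 + 1 ≤ 0 ∧ B3 - m13_3 - 1 ≤ 0) := by
    have h := C.f13_8
    omega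
  have d_f22_2 : (m22_1 - n1 ≤ 0 ∧ -m22_1 + n1 ≤ 0) ∨ (-B2 + m22_1 + 1 ≤ 0 ∧ B2 - m22_1 - 1 ≤ 0) := by
    have h := C.f22_2
    omega
  have d_f22_5 : (-m22_1 + m22_2 - n2 ≤ 0 ∧ m22_1 - m22_2 + n2 ≤ 0) ∨ (-B2 + m22_2 + 1 ≤ 0 ∧ B2 - m22_2 - 1 ≤ 0) := by
    have h := C.f22_5
    omega
  have d_f23_3 : (m23_1 - n1 ≤ 0 ∧ -m23_1 + n1 ≤ 0) ∨ (-A2 + m23_1 + 1 ≤ 0 ∧ A2 - m23_1 - 1 ≤ 0) ∨ (-B3 + m23_1 + 1 ≤ 0 ∧ B3 - m23_1 - 1 ≤ 0) := by
    have h := C.f23_3
    omega
  have d_f23_7 : (-m23_1 + m23_2 - n2 ≤ 0 ∧ m23_1 - m23_2 + n2 ≤ 0) ∨ (-A2 + m23_2 + 1 ≤ 0 ∧ A2 - m23_2 - 1 ≤ 0) ∨ (-B3 + m23_2 + 1 ≤ 0 ∧ B3 - m23_2 - 1 ≤ 0) := by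
    have h := C.f23_7
    omega
  have d_f23_10 : (-m23_2 + m23_3 - n3 ≤ 0 ∧ m23_2 - m23_3 + n3 ≤ 0) ∨ (-B3 + m23_3 + 1 ≤ 0 ∧ B3 - m23_3 - 1 ≤ 0) := by
    have h := C.f23_10
    omega
  have d_f33_2 : (m33_1 - n1 ≤ 0 ∧ -m33_1 + n1 ≤ 0) ∨ (-A3 + m33_1 + 1 ≤ 0 ∧ A3 - m33_1 - 1 ≤ 0) := by
    have h := C.f33_2
    omega
  have d_f33_5 : (-m33_1 + m33_2 - n2 ≤ 0 ∧ m33_1 - m33_2 + n2 ≤ 0) ∨ (-A3 + m33_2 + 1 ≤ 0 ∧ A3 - m33_2 - 1 ≤ 0) := by
    have h := C.f33_5
    omega
  have d_f33_8 : (-m33_2 + m33_3 - n3 ≤ 0 ∧ m33_2 - m33_3 + n3 ≤ 0) ∨ (-A3 + m33_3 + 1 ≤ 0 ∧ A3 - m33_3 - 1 ≤ 0) := by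
    have h := C.f33_8
    omega
  have d_p11_22B : B1 ≤ 0 ∨ B2 ≤ 0 ∨ (-2) * B1 + m11_1 + m22_1 + 1 ≤ 0 ∨ (-2) * B2 + m11_2 + m22_2 + 1 ≤ 0 ∨ (-2) * B3 + m11_3 + m22_3 + 1 ≤ 0 := by
    have h := C.p11_22B
    omega
  have d_p11_23B : B1 ≤ 0 ∨ A2 ≤ 0 ∨ B3 ≤ 0 ∨ (-2) * B1 + m11_1 + m23_1 + 1 ≤ 0 ∨ (-2) * B2 + m11_2 + m23_2 + 1 ≤ 0 ∨ (-2) * B3 + m11_3 + m23_3 + 1 ≤ 0 := by
    have h := C.p11_23B
    omega
  have d_p11_33A : B1 ≤ 0 ∨ A3 ≤ 0 ∨ (-2) * A1 + m11_1 + m33_1 + 1 ≤ 0 ∨ (-2) * A2 + m11_2 + m33_2 + 1 ≤ 0 ∨ (-2) * A3 + m11_3 + m33_3 + 1 ≤ 0 := by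
    have h := C.p11_33A
    omega
  have d_p11_33B : B1 ≤ 0 ∨ A3 ≤ 0 ∨ (-2) * B1 + m11_1 + m33_1 + 1 ≤ 0 ∨ (-2) * B2 + m11_2 + m33_2 + 1 ≤ 0 ∨ (-2) * B3 + m11_3 + m33_3 + 1 ≤ 0 := by
    have h := C.p11_33B
    omega
  have d_p13_22A : A1 ≤ 0 ∨ B3 ≤ 0 ∨ B2 ≤ 0 ∨ (-2) * A1 + m13_1 + m22_1 + 1 ≤ 0 ∨ (-2) * A2 + m13_2 + m22_2 + 1 ≤ 0 ∨ (-2) * A3 + m13_3 + m22_3 + 1 ≤ 0 := by
    have h := C.p13_22A
    omega
  have d_p13_23A : A1 ≤ 0 ∨ B3 ≤ 0 ∨ A2 ≤ 0 ∨ (-2) * A1 + m13_1 + m23_1 + 1 ≤ 0 ∨ (-2) * A2 + m13_2 + m23_2 + 1 ≤ 0 ∨ (-2) * A3 + m13_3 + m23_3 + 1 ≤ 0 := by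
    have h := C.p13_23A
    omega
  have d_p13_33A : A1 ≤ 0 ∨ B3 ≤ 0 ∨ A3 ≤ 0 ∨ (-2) * A1 + m13_1 + m33_1 + 1 ≤ 0 ∨ (-2) * A2 + m13_2 + m33_2 + 1 ≤ 0 ∨ (-2) * A3 + m13_3 + m33_3 + 1 ≤ 0 := by
    have h := C.p13_33A
    omega
  have d_p22_33A : B2 ≤ 0 ∨ A3 ≤ 0 ∨ (-2) * A1 + m22_1 + m33_1 + 1 ≤ 0 ∨ (-2) * A2 + m22_2 + m33_2 + 1 ≤ 0 ∨ (-2) * A3 + m22_3 + m33_3 + 1 ≤ 0 := by
    have h := C.p22_33A
    omega
  have d_tmpp : -A1 + n1 ≤ 0 ∨ -A1 + A2 - 1 ≤ 0 ∨ B1 ≤ 0 ∨ B1 - B2 + n2 - 1 ≤ 0 := by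
    have h := C.tmpp
    omega
  have d_tzpm : -A1 + A2 ≤ 0 ∨ A2 - A3 + n3 - 1 ≤ 0 ∨ B1 - B2 + n2 ≤ 0 ∨ -B2 + B3 - 1 ≤ 0 ∨ (-A2 + B2 + 1 ≤ 0 ∧ -A3 + B3 - 1 ≤ 0) := by
    have h := C.tzpm
    omega
  have d_g0 : -A1 + n1 ≤ 0 ∨ 2 * A1 - n1 ≤ 0 ∨ n2 - 2 ≤ 0 ∨ 2 * A1 - 2 * n1 + n3 - 2 ≤ 0 ∨ -A1 + A2 - n2 + 2 ≤ 0 ∨ A1 - A2 + n2 ≤ 0 ∨ -A1 - A2 + A3 + n1 - n3 + 2 ≤ 0 ∨ A1 + A2 - A3 - n1 + n3 ≤ 0 ∨ (-2) * A1 + B1 + n1 + 1 ≤ 0 ∨ 2 * A1 - B1 - n1 + 1 ≤ 0 ∨ -B1 + B2 - n2 + 2 ≤ 0 ∨ B1 - B2 + n2 ≤ 0 ∨ -B2 + B3 - n3 + 1 ≤ 0 ∨ B2 - B3 + n3 + 1 ≤ 0 := by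
    have h := hG0
    omega
  rcases d_f13_2 with ⟨x1_0_0, x1_0_1⟩ | ⟨x1_1_0, x1_1_1⟩
  · rcases d_f13_5 with ⟨x2_0_0, x2_0_1⟩ | ⟨x2_1_0, x2_1_1⟩
    · rcases d_f13_8 with ⟨x3_0_0, x3_0_1⟩ | ⟨x3_1_0, x3_1_1⟩
      · linarith only [C.b3, C.b5, C.f13_7, C.o0, x1_0_1, x2_0_1, x3_0_1]
      · rcases d_f22_2 with ⟨x4_0_0, x4_0_1⟩ | ⟨x4_1_0, x4_1_1⟩
        · rcases d_f22_5 with ⟨x5_0_0, x5_0_1⟩ | ⟨x5_1_0, x5_1_1⟩
          · linarith only [C.f11_0, C.f11_1, C.f22_4, C.f23_0, C.f23_5, C.f33_0, C.f33_3, C.o0, C.o1, s1, s2, x4_0_1, x5_0_1]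
          · rcases d_p13_22A with x6_0_0 | x6_1_0 | x6_2_0 | x6_3_0 | x6_4_0 | x6_5_0
            · linarith only [C.o0, e0, x6_0_0]
            · linarith only [C.f11_0, C.f11_1, C.f13_4, C.f23_1, C.f23_6, C.f33_1, C.f33_3, C.o0, C.o2, e0, s1, s2, x1_0_1, x2_0_1, x6_1_0]
            · linarith only [C.f11_0, C.f22_1, C.f23_0, C.f33_0, C.o0, e0, s1, x4_0_1, x6_2_0]
            · linarith only [C.f11_0, C.f23_0, C.f33_0, C.o0, s1, x1_0_1, x4_0_1, x6_3_0]
            · rcases d_p13_33A with x7_0_0 | x7_1_0 | x7_2_0 | x7_3_0 | x7_4_0 | x7_5_0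
              · linarith only [C.o0, e0, x7_0_0]
              · linarith only [C.f11_0, C.f11_1, C.f13_4, C.f23_1, C.f23_6, C.f33_1, C.f33_3, C.o0, C.o2, e0, s1, s2, x1_0_1, x2_0_1, x7_1_0]
              · linarith only [C.a4, C.f11_0, C.f23_1, C.f33_1, C.o0, e0, s1, x7_2_0]
              · rcases d_f33_2 with ⟨x8_0_0, x8_0_1⟩ | ⟨x8_1_0, x8_1_1⟩
                · linarith only [C.f11_0, C.f23_0, C.o0, s1, x1_0_1, x7_3_0, x8_0_1]
                · linarith only [C.f11_0, C.f11_1, C.f22_1, C.f23_5, C.f33_0, C.f33_4, C.o0, s2, x1_0_1, x2_0_1, x4_0_1, x5_1_1, x6_4_0, x8_1_1]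
              · linarith only [C.f11_0, C.f11_1, C.f23_5, C.o0, s2, x1_0_1, x2_0_1, x7_4_0]
              · rcases d_f33_8 with ⟨x9_0_0, x9_0_1⟩ | ⟨x9_1_0, x9_1_1⟩
                · linarith only [C.b5, C.f11_0, C.f11_1, C.f23_5, C.o0, C.o2, s2, x1_0_1, x2_0_1, x3_1_1, x5_1_1, x6_4_0, x7_5_0, x9_0_1]
                · rcases d_f23_7 with ⟨x10_0_0, x10_0_1⟩ | ⟨x10_1_0, x10_1_1⟩ | ⟨x10_2_0, x10_2_1⟩
                  · rcases d_f23_3 with ⟨x11_0_0, x11_0_1⟩ | ⟨x11_1_0, x11_1_1⟩ | ⟨x11_2_0, x11_2_1⟩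
                    · linarith only [C.f11_0, C.f11_1, C.f23_5, C.f33_0, C.f33_3, C.o0, s1, s2, x10_0_1, x11_0_1]
                    · linarith only [C.b3, C.f11_0, C.f11_1, C.f22_1, C.f23_5, C.f33_0, C.f33_3, C.o0, s1, s2, x10_0_1, x11_1_1, x4_0_1]
                    · linarith only [C.b3, C.f11_0, C.f11_1, C.f22_1, C.f23_5, C.f23_6, C.f33_0, C.f33_3, C.o0, s1, s2, x10_0_1, x11_2_1, x4_0_1]
                  · rcases d_tzpm with x12_0_0 | x12_1_0 | x12_2_0 | x12_3_0 | ⟨x12_4_0, x12_4_1⟩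
                    · linarith only [C.b3, C.f11_0, C.f22_1, C.f23_1, C.f33_0, C.o0, s1, x12_0_0, x1_0_1, x2_0_1, x4_0_1, x5_1_1, x6_4_0]
                    · linarith only [C.b5, C.f11_0, C.f11_1, C.f11_2, C.f23_9, C.o0, C.o2, s3, x12_1_0, x1_0_1, x2_0_1, x3_1_1, x5_1_1, x6_4_0, x7_5_0]
                    · rcases d_p22_33A with x13_0_0 | x13_1_0 | x13_2_0 | x13_3_0 | x13_4_0
                      · linarith only [C.f11_0, C.f11_1, C.f22_1, C.f23_1, C.f23_4, C.f33_0, C.f33_3, C.o0, e0, s1, s2, x12_2_0, x13_0_0, x4_0_1]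
                      · linarith only [C.f11_0, C.f11_1, C.f23_1, C.f23_5, C.f33_1, C.f33_4, C.o0, e0, s1, s2, x12_2_0, x13_1_0, x1_0_1, x2_0_1, x5_1_1, x6_4_0]
                      · linarith only [C.f11_0, C.f23_0, C.o0, s1, x13_2_0, x4_0_1]
                      · linarith only [C.f11_0, C.f11_1, C.f23_5, s2, x12_2_0, x13_3_0, x5_1_1]
                      · linarith only [C.f11_0, C.f11_1, C.f11_2, C.f22_6, C.f23_9, s3, x12_2_0, x13_4_0, x3_1_1, x5_1_1, x7_5_0, x9_1_1]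
                    · linarith only [C.f11_0, C.f11_1, C.f23_5, C.f33_4, C.o0, C.o2, s2, x12_3_0, x1_0_1, x2_0_1, x5_1_1, x6_4_0]
                    · rcases d_p13_23A with x14_0_0 | x14_1_0 | x14_2_0 | x14_3_0 | x14_4_0 | x14_5_0
                      · linarith only [C.o0, e0, x14_0_0]
                      · linarith only [C.f11_0, C.f11_1, C.f13_4, C.f23_1, C.f23_6, C.f33_1, C.f33_3, C.o0, C.o2, e0, s1, s2, x14_1_0, x1_0_1, x2_0_1]
                      · linarith only [C.b3, C.f11_0, C.f22_1, C.f23_1, C.f33_0, C.o0, e0, s1, x14_2_0, x1_0_1, x2_0_1, x4_0_1, x5_1_1, x6_4_0]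
                      · rcases d_f23_3 with ⟨x15_0_0, x15_0_1⟩ | ⟨x15_1_0, x15_1_1⟩ | ⟨x15_2_0, x15_2_1⟩
                        · linarith only [C.f11_0, C.f33_0, C.o0, s1, x14_3_0, x15_0_1, x1_0_1]
                        · linarith only [C.b3, C.f11_0, C.f22_1, C.f33_0, C.o0, s1, x14_3_0, x15_1_1, x1_0_1, x2_0_1, x4_0_1, x5_1_1, x6_4_0]
                        · linarith only [C.f11_0, C.f11_1, C.f13_4, C.f23_1, C.f23_5, C.f33_4, C.o0, C.o2, s2, x15_2_1, x1_0_1, x2_0_1]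
                      · rcases d_g0 with x16_0_0 | x16_1_0 | x16_2_0 | x16_3_0 | x16_4_0 | x16_5_0 | x16_6_0 | x16_7_0 | x16_8_0 | x16_9_0 | x16_10_0 | x16_11_0 | x16_12_0 | x16_13_0
                        · linarith only [C.f11_0, C.f23_0, C.f33_0, C.o0, s1, x16_0_0]
                        · rcases d_f33_2 with ⟨x17_0_0, x17_0_1⟩ | ⟨x17_1_0, x17_1_1⟩
                          · rcases d_p11_33A with x18_0_0 | x18_1_0 | x18_2_0 | x18_3_0 | x18_4_0
                            · linarith only [e0, x18_0_0]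
                            · linarith only [C.f11_0, C.f11_1, C.f13_4, C.f23_1, C.f23_5, C.f33_1, C.f33_4, C.o0, e0, s1, s2, x18_1_0, x1_0_1, x2_0_1, x3_1_1, x7_5_0, x9_1_1]
                            · linarith only [C.f11_0, e0, x16_1_0, x17_0_1, x18_2_0]
                            · linarith only [C.f23_5, s2, x18_3_0]
                            · linarith only [C.f23_9, s3, x18_4_0, x3_1_1, x7_5_0, x9_1_1]
                          · linarith only [C.f11_0, C.f11_1, C.f22_1, C.f23_5, C.f33_0, C.f33_4, C.o0, s2, x17_1_1, x1_0_1, x2_0_1, x4_0_1, x5_1_1, x6_4_0]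
                        · linarith only [C.f11_0, C.f11_1, C.f22_1, C.f23_1, C.f23_5, C.f33_0, C.f33_3, C.o0, s1, s2, x12_4_0, x16_2_0, x4_0_1]
                        · rcases d_f33_2 with ⟨x19_0_0, x19_0_1⟩ | ⟨x19_1_0, x19_1_1⟩
                          · rcases d_p11_33A with x20_0_0 | x20_1_0 | x20_2_0 | x20_3_0 | x20_4_0
                            · linarith only [e0, x20_0_0]
                            · linarith only [C.f11_0, C.f11_1, C.f13_4, C.f23_1, C.f23_5, C.f33_1, C.f33_4, C.o0, e0, s1, s2, x1_0_1, x20_1_0, x2_0_1, x3_1_1, x7_5_0, x9_1_1]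
                            · linarith only [C.f11_1, C.f11_2, C.f23_9, C.f33_4, s2, s3, x10_1_1, x14_4_0, x16_3_0, x19_0_1, x1_0_1, x20_2_0, x2_0_1, x3_1_1, x7_5_0]
                            · linarith only [C.f23_5, s2, x20_3_0]
                            · linarith only [C.f23_9, s3, x12_4_1, x20_4_0]
                          · linarith only [C.f11_0, C.f11_1, C.f22_1, C.f23_5, C.f33_0, C.f33_4, C.o0, s2, x19_1_1, x1_0_1, x2_0_1, x4_0_1, x5_1_1, x6_4_0]
                        · linarith only [x10_1_1, x14_4_0, x16_4_0, x1_0_1, x2_0_1]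
                        · rcases d_p11_33A with x21_0_0 | x21_1_0 | x21_2_0 | x21_3_0 | x21_4_0
                          · linarith only [e0, x21_0_0]
                          · linarith only [C.f11_0, C.f11_1, C.f13_4, C.f23_1, C.f23_5, C.f33_1, C.f33_4, C.o0, e0, s1, s2, x1_0_1, x21_1_0, x2_0_1, x3_1_1, x7_5_0, x9_1_1]
                          · linarith only [C.f11_1, C.f23_5, C.f33_3, s2, x16_5_0, x21_2_0]
                          · linarith only [C.f23_5, s2, x21_3_0]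
                          · linarith only [C.f23_9, s3, x12_4_1, x21_4_0]
                        · rcases d_f23_10 with ⟨x22_0_0, x22_0_1⟩ | ⟨x22_1_0, x22_1_1⟩
                          · linarith only [C.f11_0, C.f23_0, C.f23_9, C.f33_0, C.o0, s1, x10_1_1, x16_6_0, x22_0_1, x3_1_1, x7_5_0, x9_1_1]
                          · rcases d_p11_23B with x23_0_0 | x23_1_0 | x23_2_0 | x23_3_0 | x23_4_0 | x23_5_0
                            · linarith only [e0, x23_0_0]
                            · linarith only [C.b3, C.f11_0, C.f22_1, C.f23_1, C.f33_0, C.o0, e0, s1, x1_0_1, x23_1_0, x2_0_1, x4_0_1, x5_1_1, x6_4_0]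
                            · linarith only [C.f11_0, C.f11_1, C.f13_4, C.f23_1, C.f23_6, C.f33_1, C.f33_4, C.o0, C.o2, e0, s1, s2, x1_0_1, x23_2_0, x2_0_1]
                            · rcases d_f23_3 with ⟨x24_0_0, x24_0_1⟩ | ⟨x24_1_0, x24_1_1⟩ | ⟨x24_2_0, x24_2_1⟩
                              · linarith only [C.f11_0, C.f33_0, C.o0, s1, x23_3_0, x24_0_1]
                              · linarith only [C.b3, C.f11_0, C.f22_1, C.f33_0, C.o0, s1, x1_0_1, x23_3_0, x24_1_1, x2_0_1, x4_0_1, x5_1_1, x6_4_0]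
                              · linarith only [C.f11_0, C.f11_1, C.f23_1, C.f33_4, C.o0, C.o2, s2, x14_4_0, x1_0_1, x24_2_1, x2_0_1]
                            · rcases d_p22_33A with x25_0_0 | x25_1_0 | x25_2_0 | x25_3_0 | x25_4_0
                              · linarith only [C.f11_0, C.f11_1, C.f22_1, C.f23_1, C.f33_0, C.f33_3, C.o0, e0, s1, s2, x10_1_1, x23_4_0, x25_0_0, x4_0_1]
                              · linarith only [C.b4, C.f11_0, C.f23_1, C.f33_1, C.f33_4, C.o0, e0, s1, s2, x23_4_0, x25_1_0, x3_1_1, x7_5_0, x9_1_1]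
                              · linarith only [C.f11_0, C.f23_0, C.o0, s1, x25_2_0, x4_0_1]
                              · linarith only [C.f11_0, C.f11_1, C.o0, s2, x14_4_0, x1_0_1, x23_4_0, x25_3_0, x2_0_1, x5_1_1]
                              · linarith only [C.f11_0, C.f22_6, C.f23_0, C.f33_0, C.f33_3, C.o0, s1, s2, x10_1_1, x14_4_0, x16_6_0, x1_0_1, x23_4_0, x25_4_0, x2_0_1, x5_1_1, x9_1_1]
                            · linarith only [C.f11_2, C.f33_0, C.f33_3, s2, x12_4_1, x14_4_0, x16_6_0, x1_0_1, x22_1_1, x23_5_0, x2_0_1]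
                        · rcases d_f33_2 with ⟨x26_0_0, x26_0_1⟩ | ⟨x26_1_0, x26_1_1⟩
                          · rcases d_p11_33A with x27_0_0 | x27_1_0 | x27_2_0 | x27_3_0 | x27_4_0
                            · linarith only [e0, x27_0_0]
                            · linarith only [C.b5, C.f11_0, C.f11_1, C.f13_4, C.f23_1, C.f23_5, C.f33_1, C.f33_4, C.o0, e0, s1, s2, x16_7_0, x1_0_1, x26_0_1, x27_1_0, x2_0_1, x5_1_1, x6_4_0]
                            · linarith only [C.f11_1, C.f11_2, C.f23_9, s3, x10_1_1, x14_4_0, x16_7_0, x1_0_1, x26_0_1, x27_2_0, x2_0_1, x3_1_1, x7_5_0]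
                            · linarith only [C.f23_5, s2, x27_3_0]
                            · linarith only [C.f23_9, s3, x27_4_0, x3_1_1, x7_5_0, x9_1_1]
                          · linarith only [C.f11_0, C.f11_1, C.f22_1, C.f23_5, C.f33_0, C.f33_4, C.o0, s2, x1_0_1, x26_1_1, x2_0_1, x4_0_1, x5_1_1, x6_4_0]
                        · linarith only [C.f11_0, C.f11_1, C.f33_0, C.f33_3, s2, x10_1_1, x14_4_0, x16_8_0, x1_0_1, x2_0_1]
                        · rcases d_f33_2 with ⟨x28_0_0, x28_0_1⟩ | ⟨x28_1_0, x28_1_1⟩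
                          · rcases d_p11_33A with x29_0_0 | x29_1_0 | x29_2_0 | x29_3_0 | x29_4_0
                            · linarith only [e0, x29_0_0]
                            · linarith only [C.f11_0, C.f11_1, C.f13_4, C.f23_1, C.f23_5, C.f33_1, C.f33_4, C.o0, e0, s1, s2, x1_0_1, x29_1_0, x2_0_1, x3_1_1, x7_5_0, x9_1_1]
                            · linarith only [C.f11_0, x16_9_0, x28_0_1, x29_2_0]
                            · linarith only [C.f23_5, s2, x29_3_0]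
                            · linarith only [C.f23_9, s3, x29_4_0, x3_1_1, x7_5_0, x9_1_1]
                          · linarith only [C.f11_0, C.f11_1, C.f22_1, C.f23_5, C.f33_0, C.f33_4, C.o0, s2, x1_0_1, x28_1_1, x2_0_1, x4_0_1, x5_1_1, x6_4_0]
                        · rcases d_p11_22B with x30_0_0 | x30_1_0 | x30_2_0 | x30_3_0 | x30_4_0
                          · linarith only [e0, x30_0_0]
                          · linarith only [C.f11_0, C.f22_1, C.f23_0, C.f33_0, C.o0, e0, s1, x30_1_0, x4_0_1]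
                          · linarith only [C.f11_0, C.f23_0, C.f33_0, C.o0, s1, x30_2_0, x4_0_1]
                          · linarith only [C.f11_0, C.f11_1, x16_10_0, x30_3_0, x5_1_1]
                          · linarith only [C.b5, C.f11_0, C.f11_1, C.f11_2, C.f22_6, x16_10_0, x30_4_0, x5_1_1]
                        · rcases d_p22_33A with x31_0_0 | x31_1_0 | x31_2_0 | x31_3_0 | x31_4_0
                          · linarith only [C.f11_0, C.f11_1, C.f22_1, C.f23_1, C.f23_4, C.f33_0, C.f33_3, C.o0, e0, s1, s2, x16_11_0, x31_0_0, x4_0_1]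
                          · linarith only [C.f11_0, C.f11_1, C.f23_1, C.f23_5, C.f33_1, C.f33_4, C.o0, e0, s1, s2, x16_11_0, x1_0_1, x2_0_1, x31_1_0, x5_1_1, x6_4_0]
                          · linarith only [C.f11_0, C.f23_0, C.o0, s1, x31_2_0, x4_0_1]
                          · linarith only [C.f11_0, C.f11_1, C.f23_5, s2, x16_11_0, x31_3_0, x5_1_1]
                          · linarith only [C.f11_0, C.f11_1, C.f11_2, C.f22_6, C.f23_9, s3, x16_11_0, x31_4_0, x3_1_1, x5_1_1, x7_5_0, x9_1_1]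
                        · rcases d_p22_33A with x32_0_0 | x32_1_0 | x32_2_0 | x32_3_0 | x32_4_0
                          · linarith only [C.f11_0, C.f22_1, C.f23_0, C.f33_0, C.o0, e0, s1, x32_0_0, x4_0_1]
                          · linarith only [C.f11_0, C.f11_1, C.f13_4, C.f23_1, C.f23_5, C.f33_1, C.f33_4, C.o0, e0, s1, s2, x1_0_1, x2_0_1, x32_1_0, x3_1_1, x7_5_0, x9_1_1]
                          · linarith only [C.f11_0, C.f23_0, C.o0, s1, x32_2_0, x4_0_1]
                          · rcases d_p11_22B with x33_0_0 | x33_1_0 | x33_2_0 | x33_3_0 | x33_4_0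
                            · linarith only [e0, x33_0_0]
                            · linarith only [C.f11_0, C.f22_1, C.f23_0, C.f33_0, C.o0, e0, s1, x33_1_0, x4_0_1]
                            · linarith only [C.f11_0, C.f23_0, C.f33_0, C.o0, s1, x33_2_0, x4_0_1]
                            · linarith only [C.f23_5, s2, x32_3_0, x33_3_0, x5_1_1]
                            · linarith only [C.f11_2, C.f22_6, C.f23_5, s2, x16_12_0, x32_3_0, x33_4_0, x5_1_1]
                          · linarith only [C.f22_6, C.o2, x16_12_0, x32_4_0, x5_1_1, x9_1_1]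
                        · linarith only [C.b5, x16_13_0]
                      · rcases d_f23_10 with ⟨x34_0_0, x34_0_1⟩ | ⟨x34_1_0, x34_1_1⟩
                        · linarith only [C.b5, C.f11_0, C.f11_1, C.f11_2, C.f23_9, C.o0, s3, x10_1_1, x14_5_0, x1_0_1, x2_0_1, x34_0_1, x3_1_1, x5_1_1, x6_4_0, x7_5_0]
                        · linarith only [C.o2, x14_5_0, x34_1_1, x3_1_1]
                  · linarith only [C.f11_0, C.f11_1, C.f13_4, C.f23_5, C.f33_4, C.o0, C.o2, s2, x10_2_1, x1_0_1, x2_0_1]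
            · linarith only [C.b5, C.f22_6, C.o2, x3_1_1, x5_1_1, x6_5_0]
        · rcases d_f22_5 with ⟨x35_0_0, x35_0_1⟩ | ⟨x35_1_0, x35_1_1⟩
          · rcases d_t12 with ⟨x36_0_0, x36_0_1⟩ | ⟨x36_1_0, x36_1_1⟩
            · linarith only [C.a2, C.f22_4, x35_0_1, x36_0_1, x4_1_1]
            · linarith only [C.b2, C.f22_4, x35_0_1, x36_1_1, x4_1_1]
          · rcases d_f23_10 with ⟨x37_0_0, x37_0_1⟩ | ⟨x37_1_0, x37_1_1⟩
            · rcases d_p13_22A with x38_0_0 | x38_1_0 | x38_2_0 | x38_3_0 | x38_4_0 | x38_5_0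
              · linarith only [C.o0, e0, x38_0_0]
              · linarith only [C.f11_0, C.f11_1, C.f13_4, C.f23_1, C.f23_6, C.f33_1, C.f33_3, C.o0, C.o2, e0, s1, s2, x1_0_1, x2_0_1, x38_1_0]
              · linarith only [C.b2, e0, x38_2_0]
              · rcases d_f23_7 with ⟨x39_0_0, x39_0_1⟩ | ⟨x39_1_0, x39_1_1⟩ | ⟨x39_2_0, x39_2_1⟩
                · rcases d_f23_3 with ⟨x40_0_0, x40_0_1⟩ | ⟨x40_1_0, x40_1_1⟩ | ⟨x40_2_0, x40_2_1⟩
                  · linarith only [C.b5, C.f11_0, C.f11_1, C.f23_1, C.f23_9, C.f33_0, C.f33_3, C.o0, s1, s2, x1_0_1, x37_0_1, x38_3_0, x39_0_1, x40_0_1, x4_1_1]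
                  · linarith only [C.a2, C.b3, C.b5, C.f23_9, C.o0, x37_0_1, x39_0_1, x40_1_1]
                  · linarith only [C.b5, C.f11_0, C.f11_1, C.f11_2, C.f23_1, C.f23_9, C.f33_1, C.f33_3, C.f33_7, C.o0, s1, s2, s3, x1_0_1, x37_0_1, x38_3_0, x39_0_1, x40_2_1, x4_1_1]
                · rcases d_p11_33A with x41_0_0 | x41_1_0 | x41_2_0 | x41_3_0 | x41_4_0
                  · linarith only [e0, x41_0_0]
                  · linarith only [C.a4, C.f11_0, C.f23_1, C.f33_1, C.o0, e0, s1, x41_1_0]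
                  · linarith only [C.b5, C.f23_1, C.f23_9, s1, x1_0_1, x37_0_1, x38_3_0, x39_1_1, x41_2_0, x4_1_1]
                  · linarith only [C.b5, C.f23_9, C.o1, s2, x37_0_1, x41_3_0]
                  · rcases d_f33_8 with ⟨x42_0_0, x42_0_1⟩ | ⟨x42_1_0, x42_1_1⟩
                    · linarith only [C.b5, C.f11_2, C.f23_5, C.f23_9, C.o1, s2, s3, x41_4_0, x42_0_1]
                    · linarith only [C.b3, C.b5, C.f11_0, C.f11_1, C.f11_2, C.f23_9, s3, x41_4_0, x42_1_1]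
                · linarith only [C.b5, C.f11_0, C.f11_1, C.f11_2, C.f13_4, C.f23_1, C.f23_9, C.f33_1, C.f33_4, C.f33_6, C.o0, s1, s2, s3, x1_0_1, x2_0_1, x37_0_1, x38_3_0, x39_2_1, x4_1_1]
              · rcases d_p13_33A with x43_0_0 | x43_1_0 | x43_2_0 | x43_3_0 | x43_4_0 | x43_5_0
                · linarith only [C.o0, e0, x43_0_0]
                · linarith only [C.f11_0, C.f11_1, C.f13_4, C.f23_1, C.f23_6, C.f33_1, C.f33_3, C.o0, C.o2, e0, s1, s2, x1_0_1, x2_0_1, x43_1_0]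
                · linarith only [C.b5, C.f11_0, C.f11_1, C.f23_1, C.f23_9, C.f33_1, C.f33_4, C.o0, e0, s1, s2, x1_0_1, x2_0_1, x35_1_1, x37_0_1, x38_4_0, x43_2_0]
                · rcases d_f23_7 with ⟨x44_0_0, x44_0_1⟩ | ⟨x44_1_0, x44_1_1⟩ | ⟨x44_2_0, x44_2_1⟩
                  · linarith only [C.b5, C.f11_0, C.f11_1, C.f23_9, C.f33_3, C.o0, C.o1, s1, s2, x1_0_1, x37_0_1, x43_3_0, x44_0_1]
                  · linarith only [C.b5, C.f11_0, C.f11_1, C.f23_9, C.f33_3, C.o0, s2, x1_0_1, x2_0_1, x35_1_1, x37_0_1, x38_4_0, x43_3_0, x44_1_1]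
                  · linarith only [C.f11_0, C.f11_1, C.f11_2, C.f13_4, C.f23_5, C.f23_9, C.f33_4, C.f33_7, C.o0, s2, s3, x1_0_1, x2_0_1, x37_0_1, x44_2_1]
                · linarith only [C.f11_0, C.f11_1, C.f23_5, C.o0, s2, x1_0_1, x2_0_1, x43_4_0]
                · rcases d_f33_8 with ⟨x45_0_0, x45_0_1⟩ | ⟨x45_1_0, x45_1_1⟩
                  · linarith only [C.b5, C.f11_0, C.f11_1, C.f23_5, C.o0, C.o2, s2, x1_0_1, x2_0_1, x35_1_1, x38_4_0, x3_1_1, x43_5_0, x45_0_1]
                  · rcases d_f23_7 with ⟨x46_0_0, x46_0_1⟩ | ⟨x46_1_0, x46_1_1⟩ | ⟨x46_2_0, x46_2_1⟩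
                    · rcases d_f23_3 with ⟨x47_0_0, x47_0_1⟩ | ⟨x47_1_0, x47_1_1⟩ | ⟨x47_2_0, x47_2_1⟩
                      · linarith only [C.b5, C.f11_0, C.f11_1, C.f23_9, C.f33_0, C.f33_3, C.o0, C.o1, s1, s2, x37_0_1, x46_0_1, x47_0_1]
                      · linarith only [C.a2, C.f11_0, C.f11_1, C.f11_2, C.f23_9, C.o0, s3, x37_0_1, x3_1_1, x43_5_0, x45_1_1, x46_0_1, x47_1_1]
                      · linarith only [C.b5, C.f11_0, C.f11_1, C.f11_2, C.f23_1, C.f23_9, C.f33_1, C.f33_4, C.o0, C.o1, s1, s2, s3, x37_0_1, x3_1_1, x43_5_0, x46_0_1, x47_2_1]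
                    · linarith only [C.b5, C.f11_0, C.f11_1, C.f11_2, C.f23_9, C.o0, s3, x1_0_1, x2_0_1, x35_1_1, x37_0_1, x38_4_0, x3_1_1, x43_5_0, x45_1_1, x46_1_1]
                    · linarith only [C.f11_0, C.f11_1, C.f13_4, C.f23_5, C.f33_4, C.o0, C.o2, s2, x1_0_1, x2_0_1, x46_2_1]
              · linarith only [C.b5, C.f22_6, C.o2, x35_1_1, x38_5_0, x3_1_1]
            · rcases d_p11_33A with x48_0_0 | x48_1_0 | x48_2_0 | x48_3_0 | x48_4_0
              · linarith only [e0, x48_0_0]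
              · linarith only [C.a4, C.f11_0, C.f23_1, C.f33_1, C.o0, e0, s1, x48_1_0]
              · rcases d_p13_23A with x49_0_0 | x49_1_0 | x49_2_0 | x49_3_0 | x49_4_0 | x49_5_0
                · linarith only [C.o0, e0, x49_0_0]
                · linarith only [C.f11_0, C.f11_1, C.f13_4, C.f23_1, C.f23_6, C.f33_1, C.f33_3, C.o0, C.o2, e0, s1, s2, x1_0_1, x2_0_1, x49_1_0]
                · linarith only [C.f23_1, C.o0, e0, s1, x48_2_0, x49_2_0]
                · linarith only [s1, x1_0_1, x48_2_0, x49_3_0]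
                · rcases d_f23_7 with ⟨x50_0_0, x50_0_1⟩ | ⟨x50_1_0, x50_1_1⟩ | ⟨x50_2_0, x50_2_1⟩
                  · linarith only [C.f11_1, C.f33_3, s1, s2, x1_0_1, x2_0_1, x48_2_0, x49_4_0, x50_0_1]
                  · rcases d_p13_33A with x51_0_0 | x51_1_0 | x51_2_0 | x51_3_0 | x51_4_0 | x51_5_0
                    · linarith only [C.o0, e0, x51_0_0]
                    · linarith only [C.f11_0, C.f11_1, C.f13_4, C.f23_1, C.f23_6, C.f33_1, C.f33_3, C.o0, C.o2, e0, s1, s2, x1_0_1, x2_0_1, x51_1_0]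
                    · linarith only [C.f11_0, C.f11_1, C.f23_1, C.f33_1, C.f33_4, C.o0, e0, s1, s2, x1_0_1, x2_0_1, x49_4_0, x51_2_0]
                    · linarith only [C.f11_0, C.f11_1, C.f33_3, C.o0, s2, x1_0_1, x2_0_1, x49_4_0, x50_1_1, x51_3_0]
                    · linarith only [C.f11_0, C.f11_1, C.f23_5, C.o0, s2, x1_0_1, x2_0_1, x51_4_0]
                    · rcases d_p22_33A with x52_0_0 | x52_1_0 | x52_2_0 | x52_3_0 | x52_4_0
                      · linarith only [C.b2, e0, x52_0_0]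
                      · linarith only [C.f11_0, C.f11_1, C.f23_1, C.f33_1, C.f33_4, C.o0, e0, s1, s2, x1_0_1, x2_0_1, x49_4_0, x52_1_0]
                      · rcases d_p11_23B with x53_0_0 | x53_1_0 | x53_2_0 | x53_3_0 | x53_4_0 | x53_5_0
                        · linarith only [e0, x53_0_0]
                        · linarith only [C.b2, C.f11_0, C.f23_1, C.o0, e0, s1, x4_1_1, x52_2_0, x53_1_0]
                        · linarith only [C.f11_0, C.f11_1, C.f13_4, C.f23_1, C.f23_6, C.f33_1, C.f33_3, C.o0, C.o2, e0, s1, s2, x1_0_1, x2_0_1, x53_2_0]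
                        · linarith only [C.b2, C.o0, s1, x4_1_1, x52_2_0, x53_3_0]
                        · linarith only [C.b2, C.f11_0, C.f11_1, C.f23_1, C.f33_3, C.o0, s1, s2, x4_1_1, x50_1_1, x52_2_0, x53_4_0]
                        · linarith only [C.b2, C.b5, C.f11_0, C.f11_2, C.f23_1, C.f33_3, s1, s2, x1_0_1, x2_0_1, x37_1_1, x49_4_0, x4_1_1, x52_2_0, x53_5_0]
                      · rcases d_p11_23B with x54_0_0 | x54_1_0 | x54_2_0 | x54_3_0 | x54_4_0 | x54_5_0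
                        · linarith only [e0, x54_0_0]
                        · linarith only [C.f23_1, C.o0, e0, s1, x48_2_0, x54_1_0]
                        · linarith only [C.f11_0, C.f11_1, C.f13_4, C.f23_1, C.f23_6, C.f33_1, C.f33_3, C.o0, C.o2, e0, s1, s2, x1_0_1, x2_0_1, x54_2_0]
                        · linarith only [C.f11_0, C.o0, s1, x48_2_0, x54_3_0]
                        · linarith only [C.f11_0, C.f11_1, C.o0, s2, x1_0_1, x2_0_1, x35_1_1, x49_4_0, x52_3_0, x54_4_0]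
                        · linarith only [C.b5, C.f11_2, C.f23_5, s2, x35_1_1, x37_1_1, x52_3_0, x54_5_0]
                      · rcases d_g0 with x55_0_0 | x55_1_0 | x55_2_0 | x55_3_0 | x55_4_0 | x55_5_0 | x55_6_0 | x55_7_0 | x55_8_0 | x55_9_0 | x55_10_0 | x55_11_0 | x55_12_0 | x55_13_0
                        · linarith only [C.f11_0, C.f23_0, C.f33_0, C.o0, s1, x55_0_0]
                        · rcases d_f33_2 with ⟨x56_0_0, x56_0_1⟩ | ⟨x56_1_0, x56_1_1⟩
                          · linarith only [C.f11_0, e0, x48_2_0, x55_1_0, x56_0_1]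
                          · linarith only [C.f11_1, C.f23_1, C.f33_4, s1, s2, x1_0_1, x2_0_1, x48_2_0, x49_4_0, x56_1_1]
                        · linarith only [C.f11_1, C.f23_1, C.f23_5, C.f33_3, s1, s2, x48_2_0, x55_2_0]
                        · rcases d_f33_2 with ⟨x57_0_0, x57_0_1⟩ | ⟨x57_1_0, x57_1_1⟩
                          · linarith only [C.f11_1, C.f11_2, C.f23_9, C.f33_4, s2, s3, x1_0_1, x2_0_1, x3_1_1, x48_2_0, x49_4_0, x50_1_1, x51_5_0, x55_3_0, x57_0_1]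
                          · linarith only [C.f11_1, C.f23_1, C.f33_4, s1, s2, x1_0_1, x2_0_1, x48_2_0, x49_4_0, x57_1_1]
                        · linarith only [x1_0_1, x2_0_1, x49_4_0, x50_1_1, x55_4_0]
                        · linarith only [C.f11_1, C.f23_5, C.f33_3, s2, x48_2_0, x55_5_0]
                        · rcases d_tmpp with x58_0_0 | x58_1_0 | x58_2_0 | x58_3_0
                          · linarith only [C.f11_0, C.f23_0, C.f33_0, C.o0, s1, x58_0_0]
                          · linarith only [C.f23_1, s1, x48_2_0, x58_1_0]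
                          · linarith only [e0, x58_2_0]
                          · rcases d_f33_8 with ⟨x59_0_0, x59_0_1⟩ | ⟨x59_1_0, x59_1_1⟩
                            · linarith only [C.a1, C.f11_0, C.f11_1, C.o0, C.o2, s2, x1_0_1, x2_0_1, x3_1_1, x49_4_0, x51_5_0, x55_6_0, x59_0_1]
                            · linarith only [C.f11_0, C.f11_1, C.f22_6, C.f33_0, C.f33_3, s2, x1_0_1, x2_0_1, x35_1_1, x49_4_0, x52_4_0, x55_6_0, x58_3_0, x59_1_1]
                        · rcases d_f33_2 with ⟨x60_0_0, x60_0_1⟩ | ⟨x60_1_0, x60_1_1⟩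
                          · linarith only [C.f11_1, C.f11_2, C.f23_9, s3, x1_0_1, x2_0_1, x3_1_1, x48_2_0, x49_4_0, x50_1_1, x51_5_0, x55_7_0, x60_0_1]
                          · linarith only [C.f11_1, C.f23_1, C.f33_4, s1, s2, x1_0_1, x2_0_1, x48_2_0, x49_4_0, x60_1_1]
                        · linarith only [C.f11_0, C.f11_1, C.f33_0, C.f33_3, s2, x1_0_1, x2_0_1, x49_4_0, x50_1_1, x55_8_0]
                        · rcases d_f33_2 with ⟨x61_0_0, x61_0_1⟩ | ⟨x61_1_0, x61_1_1⟩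
                          · linarith only [C.f11_0, x48_2_0, x55_9_0, x61_0_1]
                          · linarith only [C.f11_1, C.f23_1, C.f33_4, s1, s2, x1_0_1, x2_0_1, x48_2_0, x49_4_0, x61_1_1]
                        · rcases d_p11_23B with x62_0_0 | x62_1_0 | x62_2_0 | x62_3_0 | x62_4_0 | x62_5_0
                          · linarith only [e0, x62_0_0]
                          · linarith only [C.f23_1, C.o0, e0, s1, x48_2_0, x62_1_0]
                          · linarith only [C.f11_0, C.f23_2, C.f33_1, C.o0, C.o2, e0, s1, x62_2_0]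
                          · linarith only [C.f11_0, C.o0, s1, x48_2_0, x62_3_0]
                          · linarith only [C.f11_0, C.f11_1, C.o0, x1_0_1, x2_0_1, x49_4_0, x50_1_1, x55_10_0, x62_4_0]
                          · linarith only [C.b5, C.f11_0, C.f11_1, C.f11_2, x37_1_1, x55_10_0, x62_5_0]
                        · rcases d_f33_8 with ⟨x63_0_0, x63_0_1⟩ | ⟨x63_1_0, x63_1_1⟩
                          · linarith only [C.f11_0, C.f11_1, C.f11_2, C.f22_6, C.f23_8, C.f23_9, C.o0, s2, s3, x1_0_1, x2_0_1, x35_1_1, x3_1_1, x49_4_0, x51_5_0, x52_4_0, x55_11_0, x63_0_1]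
                          · linarith only [C.f11_0, C.f11_1, C.f11_2, C.f22_6, C.f23_9, s3, x35_1_1, x3_1_1, x51_5_0, x52_4_0, x55_11_0, x63_1_1]
                        · rcases d_f33_8 with ⟨x64_0_0, x64_0_1⟩ | ⟨x64_1_0, x64_1_1⟩
                          · linarith only [C.f11_0, C.f11_1, C.f11_2, C.f23_8, C.o0, C.o2, s2, s3, x1_0_1, x2_0_1, x3_1_1, x49_4_0, x51_5_0, x64_0_1]
                          · linarith only [C.f22_6, C.o2, x35_1_1, x52_4_0, x55_12_0, x64_1_1]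
                        · linarith only [C.b5, x55_13_0]
                  · linarith only [C.f11_0, C.f11_1, C.f23_5, C.f33_4, C.o0, C.o2, s2, x1_0_1, x2_0_1, x49_4_0, x50_2_1]
                · linarith only [C.o2, x37_1_1, x3_1_1, x49_5_0]
              · linarith only [C.f23_5, s2, x48_3_0]
              · rcases d_f33_8 with ⟨x65_0_0, x65_0_1⟩ | ⟨x65_1_0, x65_1_1⟩
                · linarith only [C.f11_2, C.f23_5, C.f23_8, s2, s3, x48_4_0, x65_0_1]
                · linarith only [C.b3, C.b5, C.f11_0, C.f11_1, C.f11_2, C.f23_9, s3, x48_4_0, x65_1_1]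
    · rcases d_f13_8 with ⟨x66_0_0, x66_0_1⟩ | ⟨x66_1_0, x66_1_1⟩
      · linarith only [C.a4, C.b5, C.f13_7, C.o1, C.o2, x2_1_1, x66_0_1]
      · rcases d_f22_2 with ⟨x67_0_0, x67_0_1⟩ | ⟨x67_1_0, x67_1_1⟩
        · rcases d_f22_5 with ⟨x68_0_0, x68_0_1⟩ | ⟨x68_1_0, x68_1_1⟩
          · linarith only [C.f11_0, C.f11_1, C.f13_0, C.f13_3, C.f22_4, C.f23_0, C.f23_4, C.f33_0, C.f33_4, C.o0, C.o1, C.o2, s1, s2, x2_1_1, x67_0_1, x68_0_1]
          · rcases d_tmpp with x69_0_0 | x69_1_0 | x69_2_0 | x69_3_0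
            · linarith only [C.f11_0, C.f23_0, C.f33_0, C.o0, s1, x69_0_0]
            · linarith only [C.f11_0, C.f22_1, C.f23_1, C.f33_0, C.o0, C.o1, s1, x67_0_1, x69_1_0]
            · linarith only [e0, x69_2_0]
            · rcases d_p13_22A with x70_0_0 | x70_1_0 | x70_2_0 | x70_3_0 | x70_4_0 | x70_5_0
              · linarith only [C.o0, e0, x70_0_0]
              · linarith only [C.b4, C.f11_0, C.f11_1, C.f23_1, C.f23_6, C.f33_1, C.f33_3, C.o0, C.o2, e0, s1, s2, x69_3_0, x70_1_0]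
              · linarith only [C.f11_0, C.f11_1, C.f13_0, C.f13_3, C.f22_1, C.f23_1, C.f23_6, C.f33_0, C.f33_3, C.o0, e0, s1, s2, x2_1_1, x67_0_1, x69_3_0, x70_2_0]
              · linarith only [C.f11_0, C.f11_1, C.f13_3, C.f23_0, C.f23_5, C.f33_0, C.f33_4, C.o1, C.o2, s1, s2, x1_0_1, x2_1_1, x67_0_1, x69_3_0, x70_3_0]
              · linarith only [C.f11_0, C.f11_1, C.f23_5, C.f33_4, C.o2, s2, x2_1_1, x68_1_1, x69_3_0, x70_4_0]
              · linarith only [C.f11_0, C.f11_1, C.f11_2, C.f22_6, C.f23_9, C.f33_7, s3, x66_1_1, x68_1_1, x69_3_0, x70_5_0]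
        · rcases d_f22_5 with ⟨x71_0_0, x71_0_1⟩ | ⟨x71_1_0, x71_1_1⟩
          · linarith only [C.f11_0, C.f11_1, C.f13_0, C.f13_3, C.f22_4, C.f23_1, C.f23_6, C.f33_1, C.f33_3, C.o0, C.o2, s1, s2, x2_1_1, x67_1_1, x71_0_1]
          · rcases d_f23_7 with ⟨x72_0_0, x72_0_1⟩ | ⟨x72_1_0, x72_1_1⟩ | ⟨x72_2_0, x72_2_1⟩
            · rcases d_f23_3 with ⟨x73_0_0, x73_0_1⟩ | ⟨x73_1_0, x73_1_1⟩ | ⟨x73_2_0, x73_2_1⟩
              · linarith only [C.f11_0, C.f11_1, C.f13_0, C.f13_3, C.f23_5, C.f33_0, C.f33_4, C.o0, C.o2, s1, s2, x2_1_1, x72_0_1, x73_0_1]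
              · linarith only [C.f11_0, C.f11_1, C.f13_0, C.f13_3, C.f23_5, C.f33_1, C.f33_4, C.o0, C.o2, s1, s2, x2_1_1, x72_0_1, x73_1_1]
              · linarith only [C.f11_0, C.f11_1, C.f13_0, C.f13_3, C.f23_5, C.f33_1, C.f33_4, C.o0, C.o2, s1, s2, x2_1_1, x72_0_1, x73_2_1]
            · rcases d_f23_10 with ⟨x74_0_0, x74_0_1⟩ | ⟨x74_1_0, x74_1_1⟩
              · rcases d_f33_2 with ⟨x75_0_0, x75_0_1⟩ | ⟨x75_1_0, x75_1_1⟩
                · rcases d_f33_5 with ⟨x76_0_0, x76_0_1⟩ | ⟨x76_1_0, x76_1_1⟩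
                  · linarith only [C.f11_0, C.f13_0, C.f13_3, C.f23_0, C.f33_4, C.o0, C.o2, s1, x2_1_1, x75_0_1, x76_0_1]
                  · rcases d_f33_8 with ⟨x77_0_0, x77_0_1⟩ | ⟨x77_1_0, x77_1_1⟩
                    · linarith only [C.a4, C.b5, C.f33_7, C.o1, C.o2, x76_1_1, x77_0_1]
                    · rcases d_p13_22A with x78_0_0 | x78_1_0 | x78_2_0 | x78_3_0 | x78_4_0 | x78_5_0
                      · linarith only [C.o0, e0, x78_0_0]
                      · linarith only [C.a4, C.f11_0, C.f23_1, C.f33_1, C.o0, C.o2, e0, s1, x78_1_0]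
                      · linarith only [C.a2, C.b5, C.f23_9, C.o0, e0, x72_1_1, x74_0_1, x78_2_0]
                      · rcases d_p11_33A with x79_0_0 | x79_1_0 | x79_2_0 | x79_3_0 | x79_4_0
                        · linarith only [e0, x79_0_0]
                        · linarith only [C.a4, C.f11_0, C.f23_1, C.f33_1, C.o0, e0, s1, x79_1_0]
                        · linarith only [C.b5, C.f23_1, C.f23_9, s1, x1_0_1, x67_1_1, x72_1_1, x74_0_1, x78_3_0, x79_2_0]
                        · linarith only [C.f23_5, s2, x79_3_0]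
                        · linarith only [C.b5, C.f11_1, C.f11_2, C.f13_3, C.f23_1, C.f23_9, C.f33_1, s1, s3, x1_0_1, x2_1_1, x67_1_1, x72_1_1, x74_0_1, x77_1_1, x78_3_0, x79_4_0]
                      · rcases d_p11_22B with x80_0_0 | x80_1_0 | x80_2_0 | x80_3_0 | x80_4_0
                        · linarith only [e0, x80_0_0]
                        · linarith only [C.b5, C.f11_0, C.f23_1, C.f23_9, C.f33_1, C.o0, C.o2, e0, s1, x2_1_1, x71_1_1, x72_1_1, x74_0_1, x78_4_0, x80_1_0]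
                        · linarith only [C.b5, C.f11_0, C.f23_1, C.f23_9, C.f33_1, C.o0, C.o2, s1, x2_1_1, x67_1_1, x71_1_1, x72_1_1, x74_0_1, x78_4_0, x80_2_0]
                        · linarith only [C.f23_5, C.f33_4, C.o2, s2, x2_1_1, x71_1_1, x78_4_0, x80_3_0]
                        · linarith only [C.b5, C.f11_2, C.f22_6, C.f23_5, C.f23_9, C.f33_4, C.f33_7, s2, s3, x2_1_1, x71_1_1, x78_4_0, x80_4_0]
                      · linarith only [C.b5, C.f22_6, C.o2, x66_1_1, x71_1_1, x78_5_0]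
                · rcases d_f33_5 with ⟨x81_0_0, x81_0_1⟩ | ⟨x81_1_0, x81_1_1⟩
                  · linarith only [C.f11_0, C.f11_1, C.f11_2, C.f13_0, C.f13_3, C.f23_1, C.f23_9, C.f33_4, C.f33_7, C.o0, s1, s2, s3, x2_1_1, x72_1_1, x74_0_1, x75_1_1, x81_0_1]
                  · rcases d_f33_8 with ⟨x82_0_0, x82_0_1⟩ | ⟨x82_1_0, x82_1_1⟩
                    · linarith only [C.a4, C.b5, C.f33_7, C.o1, C.o2, x81_1_1, x82_0_1]
                    · rcases d_p11_33A with x83_0_0 | x83_1_0 | x83_2_0 | x83_3_0 | x83_4_0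
                      · linarith only [e0, x83_0_0]
                      · linarith only [C.a4, C.f11_0, C.f23_1, C.f33_1, C.o0, e0, s1, x83_1_0]
                      · rcases d_p13_22A with x84_0_0 | x84_1_0 | x84_2_0 | x84_3_0 | x84_4_0 | x84_5_0
                        · linarith only [C.o0, e0, x84_0_0]
                        · linarith only [C.a4, C.f11_0, C.f23_1, C.f33_1, C.o0, C.o2, e0, s1, x84_1_0]
                        · linarith only [C.b5, C.f23_1, C.f23_9, C.o0, e0, s1, x72_1_1, x74_0_1, x83_2_0, x84_2_0]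
                        · linarith only [C.b5, C.f23_1, C.f23_9, s1, x1_0_1, x67_1_1, x72_1_1, x74_0_1, x83_2_0, x84_3_0]
                        · rcases d_p11_22B with x85_0_0 | x85_1_0 | x85_2_0 | x85_3_0 | x85_4_0
                          · linarith only [e0, x85_0_0]
                          · linarith only [C.b5, C.f11_0, C.f23_1, C.f23_9, C.f33_1, C.o0, C.o2, e0, s1, x2_1_1, x71_1_1, x72_1_1, x74_0_1, x84_4_0, x85_1_0]
                          · linarith only [C.b5, C.f11_0, C.f23_1, C.f23_9, C.o0, s1, x67_1_1, x72_1_1, x74_0_1, x83_2_0, x85_2_0]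
                          · linarith only [C.f23_5, C.f33_4, C.o2, s2, x2_1_1, x71_1_1, x84_4_0, x85_3_0]
                          · linarith only [C.b5, C.f11_2, C.f22_6, C.f23_5, C.f23_9, C.f33_4, C.f33_7, s2, s3, x2_1_1, x71_1_1, x84_4_0, x85_4_0]
                        · linarith only [C.b5, C.f22_6, C.o2, x66_1_1, x71_1_1, x84_5_0]
                      · linarith only [C.b5, C.f23_9, C.o1, s2, x74_0_1, x83_3_0]
                      · linarith only [C.b3, C.b5, C.f11_0, C.f11_1, C.f11_2, C.f23_9, s3, x82_1_1, x83_4_0]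
              · rcases d_f33_2 with ⟨x86_0_0, x86_0_1⟩ | ⟨x86_1_0, x86_1_1⟩
                · rcases d_f33_5 with ⟨x87_0_0, x87_0_1⟩ | ⟨x87_1_0, x87_1_1⟩
                  · linarith only [C.f11_0, C.f13_0, C.f13_3, C.f23_0, C.f33_4, C.o0, C.o2, s1, x2_1_1, x86_0_1, x87_0_1]
                  · rcases d_f33_8 with ⟨x88_0_0, x88_0_1⟩ | ⟨x88_1_0, x88_1_1⟩
                    · linarith only [C.a4, C.b5, C.f33_7, C.o1, C.o2, x87_1_1, x88_0_1]
                    · rcases d_p13_22A with x89_0_0 | x89_1_0 | x89_2_0 | x89_3_0 | x89_4_0 | x89_5_0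
                      · linarith only [C.o0, e0, x89_0_0]
                      · linarith only [C.a4, C.f11_0, C.f23_1, C.f33_1, C.o0, C.o2, e0, s1, x89_1_0]
                      · linarith only [C.b2, e0, x89_2_0]
                      · rcases d_p13_23A with x90_0_0 | x90_1_0 | x90_2_0 | x90_3_0 | x90_4_0 | x90_5_0
                        · linarith only [C.o0, e0, x90_0_0]
                        · linarith only [C.a4, C.f11_0, C.f23_1, C.f33_1, C.o0, C.o2, e0, s1, x90_1_0]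
                        · linarith only [C.a2, C.o0, e0, x90_2_0]
                        · rcases d_p11_33A with x91_0_0 | x91_1_0 | x91_2_0 | x91_3_0 | x91_4_0
                          · linarith only [e0, x91_0_0]
                          · linarith only [C.a4, C.f11_0, C.f23_1, C.f33_1, C.o0, e0, s1, x91_1_0]
                          · linarith only [s1, x1_0_1, x90_3_0, x91_2_0]
                          · linarith only [C.f23_5, s2, x91_3_0]
                          · linarith only [C.b5, C.f11_1, C.f11_2, C.f13_3, C.f23_9, C.f33_1, s1, s3, x1_0_1, x2_1_1, x67_1_1, x88_1_1, x89_3_0, x90_3_0, x91_4_0]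
                        · rcases d_p11_33B with x92_0_0 | x92_1_0 | x92_2_0 | x92_3_0 | x92_4_0
                          · linarith only [e0, x92_0_0]
                          · linarith only [C.a4, C.f11_0, C.f23_1, C.f33_1, C.o0, e0, s1, x92_1_0]
                          · linarith only [C.f11_0, C.f23_0, C.o0, s1, x86_0_1, x92_2_0]
                          · linarith only [C.f11_0, C.f23_1, C.f33_1, C.o0, C.o2, s1, s2, x1_0_1, x2_1_1, x67_1_1, x89_3_0, x90_4_0, x92_3_0]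
                          · linarith only [C.b5, C.f11_0, C.f11_2, C.f23_1, C.f23_8, C.f33_1, C.f33_4, C.o0, s1, s2, s3, x1_0_1, x2_1_1, x67_1_1, x74_1_1, x88_1_1, x89_3_0, x90_4_0, x92_4_0]
                        · linarith only [C.o2, x66_1_1, x74_1_1, x90_5_0]
                      · rcases d_p11_33B with x93_0_0 | x93_1_0 | x93_2_0 | x93_3_0 | x93_4_0
                        · linarith only [e0, x93_0_0]
                        · linarith only [C.a4, C.f11_0, C.f23_1, C.f33_1, C.o0, e0, s1, x93_1_0]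
                        · linarith only [C.f11_0, C.f23_0, C.o0, s1, x86_0_1, x93_2_0]
                        · linarith only [C.f23_5, C.o1, s2, x93_3_0]
                        · linarith only [C.b5, C.f11_2, C.f23_5, C.f33_4, s2, x2_1_1, x71_1_1, x88_1_1, x89_4_0, x93_4_0]
                      · linarith only [C.b5, C.f22_6, C.o2, x66_1_1, x71_1_1, x89_5_0]
                · rcases d_f33_5 with ⟨x94_0_0, x94_0_1⟩ | ⟨x94_1_0, x94_1_1⟩
                  · linarith only [C.f11_0, C.f11_1, C.f13_0, C.f13_3, C.f23_1, C.f23_6, C.f33_4, C.o0, C.o2, s1, s2, x2_1_1, x86_1_1, x94_0_1]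
                  · rcases d_f33_8 with ⟨x95_0_0, x95_0_1⟩ | ⟨x95_1_0, x95_1_1⟩
                    · linarith only [C.a4, C.b5, C.f33_7, C.o1, C.o2, x94_1_1, x95_0_1]
                    · rcases d_p11_33A with x96_0_0 | x96_1_0 | x96_2_0 | x96_3_0 | x96_4_0
                      · linarith only [e0, x96_0_0]
                      · linarith only [C.a4, C.f11_0, C.f23_1, C.f33_1, C.o0, e0, s1, x96_1_0]
                      · rcases d_p13_23A with x97_0_0 | x97_1_0 | x97_2_0 | x97_3_0 | x97_4_0 | x97_5_0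
                        · linarith only [C.o0, e0, x97_0_0]
                        · linarith only [C.a4, C.f11_0, C.f23_1, C.f33_1, C.o0, C.o2, e0, s1, x97_1_0]
                        · linarith only [C.f23_1, C.o0, e0, s1, x96_2_0, x97_2_0]
                        · linarith only [s1, x1_0_1, x96_2_0, x97_3_0]
                        · rcases d_p11_23B with x98_0_0 | x98_1_0 | x98_2_0 | x98_3_0 | x98_4_0 | x98_5_0
                          · linarith only [e0, x98_0_0]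
                          · linarith only [C.f11_0, C.f23_1, C.f33_1, C.o0, C.o2, e0, s1, x2_1_1, x72_1_1, x97_4_0, x98_1_0]
                          · linarith only [C.a4, C.f11_0, C.f23_1, C.f33_1, C.o0, C.o2, e0, s1, x98_2_0]
                          · linarith only [C.f11_0, C.o0, s1, x96_2_0, x98_3_0]
                          · linarith only [C.f33_4, C.o1, C.o2, s2, x2_1_1, x72_1_1, x97_4_0, x98_4_0]
                          · linarith only [C.f11_2, C.f23_8, C.f33_4, C.f33_6, s2, s3, x2_1_1, x74_1_1, x97_4_0, x98_5_0]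
                        · linarith only [C.o2, x66_1_1, x74_1_1, x97_5_0]
                      · linarith only [C.f23_5, s2, x96_3_0]
                      · linarith only [C.b3, C.b5, C.f11_0, C.f11_1, C.f11_2, C.f23_9, s3, x95_1_1, x96_4_0]
            · linarith only [C.a4, C.f23_5, C.o2, x72_2_1]
  · linarith only [C.a4, C.f11_0, C.f13_0, C.f23_1, C.f33_1, C.o0, C.o2, s1, x1_1_1]

end Pool.Agent.Helper13.TQ
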