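import Pool.Agent.Helper89.TQ.Ctx

set_option autoImplicit false
set_option linter.all false
set_option maxHeartbeats 4000000

namespace Pool.Agent.Helper13.TQ

open Pool.Agent.Helper89.TQ

theorem c0_11_33_33_k2 {n1 n2 n3 A1 A2 A3 B1 B2 B3 m11_1 m11_2 m11_3 m13_1 m13_2 m13_3 m22_1 m22_2 m22_3 m23_1 m23_2 m23_3 m33_1 m33_2 m33_3 : ℤ}
    (C : Ctx0 n1 n2 n3 A1 A2 A3 B1 B2 B3 m11_1 m11_2 m11_3 m13_1 m13_2 m13_3 m22_1 m22_2 m22_3 m23_1 m23_2 m23_3 m33_1 m33_2 m33_3)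
    (e0 : 0 < B1)
    (e1 : 0 < A3)
    (s1 : 2 * A1 + 1 * B1 ≤ m11_1 + m33_1 + m33_1)
    (s2 : 2 * A2 + 1 * B2 ≤ m11_2 + m33_2 + m33_2)
    (s3 : 2 * A3 + 1 * B3 ≤ m11_3 + m33_3 + m33_3) : False := by
  have d_t12 : (-A1 + 1 ≤ 0 ∧ -A1 + A2 - n2 + 1 ≤ 0) ∨ (-B1 + 1 ≤ 0 ∧ -B1 + B2 - n2 + 1 ≤ 0) := by
    have h := C.t12
    omega
  have d_t23 : (A1 - A2 + 1 ≤ 0 ∧ -A2 + A3 - n3 + 1 ≤ 0) ∨ (B1 - B2 + 1 ≤ 0 ∧ -B2 + B3 - n3 + 1 ≤ 0) := by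
    have h := C.t23
    omega
  have d_f13_2 : (-A1 + m13_1 + 1 ≤ 0 ∧ A1 - m13_1 - 1 ≤ 0) ∨ (-B3 + m13_1 + 1 ≤ 0 ∧ B3 - m13_1 - 1 ≤ 0) := by
    have h := C.f13_2
    omega
  have d_f13_5 : (-m13_1 + m13_2 - n2 ≤ 0 ∧ m13_1 - m13_2 + n2 ≤ 0) ∨ (-B3 + m13_2 + 1 ≤ 0 ∧ B3 - m13_2 - 1 ≤ 0) := by
    have h := C.f13_5
    omega
  have d_f13_8 : (-m13_2 + m13_3 - n3 ≤ 0 ∧ m13_2 - m13_3 + n3 ≤ 0) ∨ (-B3 + m13_3 + 1 ≤ 0 ∧ B3 - m13_3 - 1 ≤ 0) := by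
    have h := C.f13_8
    omega
  have d_f33_8 : (-m33_2 + m33_3 - n3 ≤ 0 ∧ m33_2 - m33_3 + n3 ≤ 0) ∨ (-A3 + m33_3 + 1 ≤ 0 ∧ A3 - m33_3 - 1 ≤ 0) := by
    have h := C.f33_8
    omega
  have d_p11_33B : B1 ≤ 0 ∨ A3 ≤ 0 ∨ (-2) * B1 + m11_1 + m33_1 + 1 ≤ 0 ∨ (-2) * B2 + m11_2 + m33_2 + 1 ≤ 0 ∨ (-2) * B3 + m11_3 + m33_3 + 1 ≤ 0 := by
    have h := C.p11_33B
    omega
  have d_p13_33A : A1 ≤ 0 ∨ B3 ≤ 0 ∨ A3 ≤ 0 ∨ (-2) * A1 + m13_1 + m33_1 + 1 ≤ 0 ∨ (-2) * A2 + m13_2 + m33_2 + 1 ≤ 0 ∨ (-2) * A3 + m13_3 + m33_3 + 1 ≤ 0 := by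
    have h := C.p13_33A
    omega
  have d_tzmp : A1 - A2 + n2 ≤ 0 ∨ -A2 + A3 - 1 ≤ 0 ∨ -B1 + B2 ≤ 0 ∨ B2 - B3 + n3 - 1 ≤ 0 := by
    have h := C.tzmp
    omega
  have d_tzpm : -A1 + A2 ≤ 0 ∨ A2 - A3 + n3 - 1 ≤ 0 ∨ B1 - B2 + n2 ≤ 0 ∨ -B2 + B3 - 1 ≤ 0 ∨ (-A2 + B2 + 1 ≤ 0 ∧ -A3 + B3 - 1 ≤ 0) := by
    have h := C.tzpm
    omega
  have d_tpmm : A1 ≤ 0 ∨ A1 - A2 + n2 - 1 ≤ 0 ∨ -B1 + n1 ≤ 0 ∨ -B1 + B2 - 1 ≤ 0 ∨ -A3 + B3 - 1 ≤ 0 := by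
    have h := C.tpmm
    omega
  rcases d_f13_2 with ⟨x1_0_0, x1_0_1⟩ | ⟨x1_1_0, x1_1_1⟩
  · rcases d_p11_33B with x2_0_0 | x2_1_0 | x2_2_0 | x2_3_0 | x2_4_0
    · linarith only [e0, x2_0_0]
    · linarith only [C.f11_0, C.f33_1, C.o0, e0, s1, x2_1_0]
    · linarith only [C.f11_0, C.o0, s1, x2_2_0]
    · linarith only [C.b3, C.f11_0, C.f11_1, C.o1, s2, x2_3_0]
    · rcases d_f33_8 with ⟨x3_0_0, x3_0_1⟩ | ⟨x3_1_0, x3_1_1⟩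
      · linarith only [C.b5, C.f11_2, C.f33_7, C.o1, s2, s3, x2_4_0, x3_0_1]
      · rcases d_t23 with ⟨x4_0_0, x4_0_1⟩ | ⟨x4_1_0, x4_1_1⟩
        · rcases d_tzpm with x5_0_0 | x5_1_0 | x5_2_0 | x5_3_0 | ⟨x5_4_0, x5_4_1⟩
          · linarith only [x4_0_0, x5_0_0]
          · linarith only [C.b5, C.f33_7, C.o1, s3, x2_4_0, x5_1_0]
          · rcases d_tzmp with x6_0_0 | x6_1_0 | x6_2_0 | x6_3_0
            · rcases d_t12 with ⟨x7_0_0, x7_0_1⟩ | ⟨x7_1_0, x7_1_1⟩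
              · linarith only [x6_0_0, x7_0_1]
              · linarith only [x5_2_0, x7_1_1]
            · linarith only [C.f11_0, C.f11_1, C.f33_4, s2, x5_2_0, x6_1_0]
            · linarith only [C.a3, x4_0_0, x5_2_0, x6_2_0]
            · linarith only [C.f11_0, C.f11_1, C.f11_2, C.f33_7, s3, x5_2_0, x6_3_0]
          · linarith only [C.a4, C.f33_7, C.o1, s3, x2_4_0, x5_3_0]
          · linarith only [C.f33_7, s3, x2_4_0, x5_4_1]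
        · rcases d_f13_5 with ⟨x8_0_0, x8_0_1⟩ | ⟨x8_1_0, x8_1_1⟩
          · rcases d_f13_8 with ⟨x9_0_0, x9_0_1⟩ | ⟨x9_1_0, x9_1_1⟩
            · linarith only [C.b3, C.f13_7, C.o0, x1_0_1, x4_1_1, x8_0_1, x9_0_1]
            · rcases d_p13_33A with x10_0_0 | x10_1_0 | x10_2_0 | x10_3_0 | x10_4_0 | x10_5_0
              · linarith only [C.o0, e0, x10_0_0]
              · linarith only [C.f11_0, C.f11_1, C.f11_2, C.f33_1, C.f33_3, C.f33_6, C.o0, e0, s1, s3, x10_1_0, x2_4_0]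
              · linarith only [C.f11_0, C.f33_1, C.o0, e0, s1, x10_2_0]
              · linarith only [C.f11_0, s1, x10_3_0, x1_0_1]
              · rcases d_tzpm with x11_0_0 | x11_1_0 | x11_2_0 | x11_3_0 | ⟨x11_4_0, x11_4_1⟩
                · linarith only [C.b3, C.f11_0, C.f11_1, s2, x10_4_0, x11_0_0, x1_0_1, x4_1_0, x8_0_1]
                · linarith only [C.b3, C.f11_2, C.o0, s2, s3, x10_4_0, x11_1_0, x1_0_1, x2_4_0, x4_1_1, x8_0_1]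
                · linarith only [C.a3, C.f11_0, C.f11_1, s2, x10_4_0, x11_2_0, x1_0_1, x8_0_1]
                · linarith only [C.b3, C.f11_0, C.f11_1, C.f11_2, C.f33_4, C.f33_6, C.o0, s2, s3, x10_4_0, x11_3_0, x1_0_1, x2_4_0, x8_0_1]
                · linarith only [C.f33_7, s3, x11_4_1, x2_4_0]
              · linarith only [s3, x10_5_0, x2_4_0, x9_1_1]
          · rcases d_tpmm with x12_0_0 | x12_1_0 | x12_2_0 | x12_3_0 | x12_4_0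
            · linarith only [C.o0, e0, x12_0_0]
            · linarith only [C.f11_2, C.f13_0, C.f13_3, C.f33_4, s2, s3, x12_1_0, x2_4_0, x4_1_1, x8_1_1]
            · linarith only [C.f11_0, C.f33_0, C.o0, s1, x12_2_0]
            · linarith only [C.f11_0, C.f11_1, C.f11_2, C.f13_0, C.f13_3, C.f33_1, s1, x12_3_0, x2_4_0, x3_1_1, x4_1_1, x8_1_1]
            · linarith only [C.f33_7, s3, x12_4_0, x2_4_0]
  · linarith only [C.f11_0, C.f13_0, C.f33_1, C.o2, s1, x1_1_1]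

end Pool.Agent.Helper13.TQ
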