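import Pool.Agent.Helper89.TQ.Ctx

set_option autoImplicit false
set_option linter.all false
set_option maxHeartbeats 4000000

namespace Pool.Agent.Helper13.TQ

open Pool.Agent.Helper89.TQ

theorem c0_11_33_33_k3 {n1 n2 n3 A1 A2 A3 B1 B2 B3 m11_1 m11_2 m11_3 m13_1 m13_2 m13_3 m22_1 m22_2 m22_3 m23_1 m23_2 m23_3 m33_1 m33_2 m33_3 : ℤ}
    (C : Ctx0 n1 n2 n3 A1 A2 A3 B1 B2 B3 m11_1 m11_2 m11_3 m13_1 m13_2 m13_3 m22_1 m22_2 m22_3 m23_1 m23_2 m23_3 m33_1 m33_2 m33_3)
    (e0 : 0 < B1)
    (e1 : 0 < A3)
    (s1 : 3 * A1 + 0 * B1 ≤ m11_1 + m33_1 + m33_1)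
    (s2 : 3 * A2 + 0 * B2 ≤ m11_2 + m33_2 + m33_2)
    (s3 : 3 * A3 + 0 * B3 ≤ m11_3 + m33_3 + m33_3) : False := by
  have d_t12 : (-A1 + 1 ≤ 0 ∧ -A1 + A2 - n2 + 1 ≤ 0) ∨ (-B1 + 1 ≤ 0 ∧ -B1 + B2 - n2 + 1 ≤ 0) := by
    have h := C.t12
    omega
  have d_t23 : (A1 - A2 + 1 ≤ 0 ∧ -A2 + A3 - n3 + 1 ≤ 0) ∨ (B1 - B2 + 1 ≤ 0 ∧ -B2 + B3 - n3 + 1 ≤ 0) := by
    have h := C.t23
    omega
  have d_f13_2 : (-A1 + m13_1 + 1 ≤ 0 ∧ A1 - m13_1 - 1 ≤ 0) ∨ (-B3 + m13_1 + 1 ≤ 0 ∧ B3 - m13_1 - 1 ≤ 0) := by
    have h := C.f13_2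
    omega
  have d_f13_5 : (-m13_1 + m13_2 - n2 ≤ 0 ∧ m13_1 - m13_2 + n2 ≤ 0) ∨ (-B3 + m13_2 + 1 ≤ 0 ∧ B3 - m13_2 - 1 ≤ 0) := by
    have h := C.f13_5
    omega
  have d_f13_8 : (-m13_2 + m13_3 - n3 ≤ 0 ∧ m13_2 - m13_3 + n3 ≤ 0) ∨ (-B3 + m13_3 + 1 ≤ 0 ∧ B3 - m13_3 - 1 ≤ 0) := by
    have h := C.f13_8
    omega
  have d_f22_2 : (m22_1 - n1 ≤ 0 ∧ -m22_1 + n1 ≤ 0) ∨ (-B2 + m22_1 + 1 ≤ 0 ∧ B2 - m22_1 - 1 ≤ 0) := by
    have h := C.f22_2
    omega
  have d_f22_5 : (-m22_1 + m22_2 - n2 ≤ 0 ∧ m22_1 - m22_2 + n2 ≤ 0) ∨ (-B2 + m22_2 + 1 ≤ 0 ∧ B2 - m22_2 - 1 ≤ 0) := by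
    have h := C.f22_5
    omega
  have d_f23_3 : (m23_1 - n1 ≤ 0 ∧ -m23_1 + n1 ≤ 0) ∨ (-A2 + m23_1 + 1 ≤ 0 ∧ A2 - m23_1 - 1 ≤ 0) ∨ (-B3 + m23_1 + 1 ≤ 0 ∧ B3 - m23_1 - 1 ≤ 0) := by
    have h := C.f23_3
    omega
  have d_f23_7 : (-m23_1 + m23_2 - n2 ≤ 0 ∧ m23_1 - m23_2 + n2 ≤ 0) ∨ (-A2 + m23_2 + 1 ≤ 0 ∧ A2 - m23_2 - 1 ≤ 0) ∨ (-B3 + m23_2 + 1 ≤ 0 ∧ B3 - m23_2 - 1 ≤ 0) := by
    have h := C.f23_7
    omega
  have d_f23_10 : (-m23_2 + m23_3 - n3 ≤ 0 ∧ m23_2 - m23_3 + n3 ≤ 0) ∨ (-B3 + m23_3 + 1 ≤ 0 ∧ B3 - m23_3 - 1 ≤ 0) := by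
    have h := C.f23_10
    omega
  have d_f33_5 : (-m33_1 + m33_2 - n2 ≤ 0 ∧ m33_1 - m33_2 + n2 ≤ 0) ∨ (-A3 + m33_2 + 1 ≤ 0 ∧ A3 - m33_2 - 1 ≤ 0) := by
    have h := C.f33_5
    omega
  have d_f33_8 : (-m33_2 + m33_3 - n3 ≤ 0 ∧ m33_2 - m33_3 + n3 ≤ 0) ∨ (-A3 + m33_3 + 1 ≤ 0 ∧ A3 - m33_3 - 1 ≤ 0) := by
    have h := C.f33_8
    omega
  have d_p11_13B : B1 ≤ 0 ∨ A1 ≤ 0 ∨ B3 ≤ 0 ∨ (-2) * B1 + m11_1 + m13_1 + 1 ≤ 0 ∨ (-2) * B2 + m11_2 + m13_2 + 1 ≤ 0 ∨ (-2) * B3 + m11_3 + m13_3 + 1 ≤ 0 := by
    have h := C.p11_13B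
    omega
  have d_p11_22B : B1 ≤ 0 ∨ B2 ≤ 0 ∨ (-2) * B1 + m11_1 + m22_1 + 1 ≤ 0 ∨ (-2) * B2 + m11_2 + m22_2 + 1 ≤ 0 ∨ (-2) * B3 + m11_3 + m22_3 + 1 ≤ 0 := by
    have h := C.p11_22B
    omega
  have d_p11_23B : B1 ≤ 0 ∨ A2 ≤ 0 ∨ B3 ≤ 0 ∨ (-2) * B1 + m11_1 + m23_1 + 1 ≤ 0 ∨ (-2) * B2 + m11_2 + m23_2 + 1 ≤ 0 ∨ (-2) * B3 + m11_3 + m23_3 + 1 ≤ 0 := by
    have h := C.p11_23B
    omega
  have d_p11_33B : B1 ≤ 0 ∨ A3 ≤ 0 ∨ (-2) * B1 + m11_1 + m33_1 + 1 ≤ 0 ∨ (-2) * B2 + m11_2 + m33_2 + 1 ≤ 0 ∨ (-2) * B3 + m11_3 + m33_3 + 1 ≤ 0 := by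
    have h := C.p11_33B
    omega
  have d_p13_22A : A1 ≤ 0 ∨ B3 ≤ 0 ∨ B2 ≤ 0 ∨ (-2) * A1 + m13_1 + m22_1 + 1 ≤ 0 ∨ (-2) * A2 + m13_2 + m22_2 + 1 ≤ 0 ∨ (-2) * A3 + m13_3 + m22_3 + 1 ≤ 0 := by
    have h := C.p13_22A
    omega
  have d_p13_22B : A1 ≤ 0 ∨ B3 ≤ 0 ∨ B2 ≤ 0 ∨ (-2) * B1 + m13_1 + m22_1 + 1 ≤ 0 ∨ (-2) * B2 + m13_2 + m22_2 + 1 ≤ 0 ∨ (-2) * B3 + m13_3 + m22_3 + 1 ≤ 0 := by
    have h := C.p13_22B
    omega
  have d_p13_23A : A1 ≤ 0 ∨ B3 ≤ 0 ∨ A2 ≤ 0 ∨ (-2) * A1 + m13_1 + m23_1 + 1 ≤ 0 ∨ (-2) * A2 + m13_2 + m23_2 + 1 ≤ 0 ∨ (-2) * A3 + m13_3 + m23_3 + 1 ≤ 0 := by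
    have h := C.p13_23A
    omega
  have d_p13_33A : A1 ≤ 0 ∨ B3 ≤ 0 ∨ A3 ≤ 0 ∨ (-2) * A1 + m13_1 + m33_1 + 1 ≤ 0 ∨ (-2) * A2 + m13_2 + m33_2 + 1 ≤ 0 ∨ (-2) * A3 + m13_3 + m33_3 + 1 ≤ 0 := by
    have h := C.p13_33A
    omega
  have d_p22_33A : B2 ≤ 0 ∨ A3 ≤ 0 ∨ (-2) * A1 + m22_1 + m33_1 + 1 ≤ 0 ∨ (-2) * A2 + m22_2 + m33_2 + 1 ≤ 0 ∨ (-2) * A3 + m22_3 + m33_3 + 1 ≤ 0 := by
    have h := C.p22_33A
    omega
  have d_tmzp : -A1 + n1 ≤ 0 ∨ -A1 + A2 ≤ 0 ∨ -A2 + A3 ≤ 0 ∨ B1 ≤ 0 ∨ B1 - B2 + n2 ≤ 0 ∨ B2 - B3 + n3 ≤ 0 := by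
    have h := C.tmzp
    omega
  have d_tmpp : -A1 + n1 ≤ 0 ∨ -A1 + A2 - 1 ≤ 0 ∨ B1 ≤ 0 ∨ B1 - B2 + n2 - 1 ≤ 0 := by
    have h := C.tmpp
    omega
  have d_tpmz : A1 ≤ 0 ∨ A1 - A2 + n2 - 1 ≤ 0 ∨ -A2 + A3 ≤ 0 ∨ -B1 + n1 ≤ 0 ∨ -B1 + B2 - 1 ≤ 0 ∨ B2 - B3 + n3 ≤ 0 := by
    have h := C.tpmz
    omega
  rcases d_f13_2 with ⟨x1_0_0, x1_0_1⟩ | ⟨x1_1_0, x1_1_1⟩
  · rcases d_p11_33B with x2_0_0 | x2_1_0 | x2_2_0 | x2_3_0 | x2_4_0
    · linarith only [e0, x2_0_0]
    · linarith only [C.f11_0, C.f33_1, C.o0, e0, s1, x2_1_0]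
    · linarith only [C.f11_0, C.o0, s1, x2_2_0]
    · linarith only [C.b3, C.f11_0, C.f11_1, C.o1, s2, x2_3_0]
    · rcases d_f33_8 with ⟨x3_0_0, x3_0_1⟩ | ⟨x3_1_0, x3_1_1⟩
      · linarith only [C.b5, C.f11_2, C.f33_7, C.o1, s2, s3, x2_4_0, x3_0_1]
      · rcases d_t23 with ⟨x4_0_0, x4_0_1⟩ | ⟨x4_1_0, x4_1_1⟩
        · rcases d_f13_5 with ⟨x5_0_0, x5_0_1⟩ | ⟨x5_1_0, x5_1_1⟩
          · rcases d_f13_8 with ⟨x6_0_0, x6_0_1⟩ | ⟨x6_1_0, x6_1_1⟩
            · linarith only [C.b3, C.b5, C.f13_7, C.o0, x1_0_1, x5_0_1, x6_0_1]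
            · rcases d_f22_2 with ⟨x7_0_0, x7_0_1⟩ | ⟨x7_1_0, x7_1_1⟩
              · rcases d_f22_5 with ⟨x8_0_0, x8_0_1⟩ | ⟨x8_1_0, x8_1_1⟩
                · linarith only [C.b3, C.f11_0, C.f22_4, C.f33_0, C.o0, s1, x7_0_1, x8_0_1]
                · rcases d_p13_22A with x9_0_0 | x9_1_0 | x9_2_0 | x9_3_0 | x9_4_0 | x9_5_0
                  · linarith only [C.o0, e0, x9_0_0]
                  · linarith only [C.f11_0, C.f11_1, C.f11_2, C.f33_1, C.f33_3, C.f33_6, C.o0, e0, s1, s3, x2_4_0, x9_1_0]
                  · linarith only [C.f11_0, C.f22_1, C.f33_0, C.o0, e0, s1, x7_0_1, x9_2_0]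
                  · linarith only [C.f11_0, C.f33_0, C.o0, s1, x1_0_1, x7_0_1, x9_3_0]
                  · rcases d_f23_3 with ⟨x10_0_0, x10_0_1⟩ | ⟨x10_1_0, x10_1_1⟩ | ⟨x10_2_0, x10_2_1⟩
                    · rcases d_f23_7 with ⟨x11_0_0, x11_0_1⟩ | ⟨x11_1_0, x11_1_1⟩ | ⟨x11_2_0, x11_2_1⟩
                      · linarith only [C.f11_0, C.f11_1, C.f23_5, C.f33_0, C.f33_3, C.o0, s1, s2, x10_0_1, x11_0_1]
                      · rcases d_f23_10 with ⟨x12_0_0, x12_0_1⟩ | ⟨x12_1_0, x12_1_1⟩
                        · rcases d_p13_33A with x13_0_0 | x13_1_0 | x13_2_0 | x13_3_0 | x13_4_0 | x13_5_0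
                          · linarith only [C.o0, e0, x13_0_0]
                          · linarith only [C.f11_0, C.f11_2, C.f33_1, C.f33_4, C.f33_6, C.o0, e0, s1, s2, s3, x13_1_0, x2_4_0, x4_0_0]
                          · linarith only [C.f11_0, C.f33_1, C.o0, e0, s1, x13_2_0]
                          · linarith only [C.f11_0, C.o0, s1, x13_3_0, x1_0_1]
                          · linarith only [C.b3, C.b5, C.f11_0, C.f11_1, C.f23_9, C.o0, s2, x11_1_1, x12_0_1, x13_4_0, x1_0_1, x5_0_1]
                          · linarith only [C.b5, C.f11_0, C.f11_1, C.f11_2, C.f23_9, C.f33_7, C.o0, s3, x11_1_1, x12_0_1, x13_5_0, x1_0_1, x5_0_1, x6_1_1, x8_1_1, x9_4_0]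
                        · rcases d_p22_33A with x14_0_0 | x14_1_0 | x14_2_0 | x14_3_0 | x14_4_0
                          · linarith only [C.f11_0, C.f22_1, C.f33_0, C.o0, e0, s1, x14_0_0, x7_0_1]
                          · linarith only [C.f11_0, C.f33_1, C.o0, e0, s1, x14_1_0]
                          · linarith only [C.f11_0, C.f33_0, C.o0, s1, x14_2_0, x7_0_1]
                          · rcases d_p13_23A with x15_0_0 | x15_1_0 | x15_2_0 | x15_3_0 | x15_4_0 | x15_5_0
                            · linarith only [C.o0, e0, x15_0_0]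
                            · linarith only [C.f11_0, C.f11_2, C.f33_1, C.f33_4, C.f33_6, C.o0, e0, s1, s2, s3, x15_1_0, x2_4_0, x4_0_0]
                            · linarith only [C.b3, C.f11_0, C.f22_1, C.f33_0, C.o0, e0, s1, x15_2_0, x1_0_1, x5_0_1, x7_0_1, x8_1_1, x9_4_0]
                            · linarith only [C.f11_0, C.f33_0, C.o0, s1, x10_0_1, x15_3_0, x1_0_1]
                            · rcases d_p13_22B with x16_0_0 | x16_1_0 | x16_2_0 | x16_3_0 | x16_4_0 | x16_5_0
                              · linarith only [C.o0, e0, x16_0_0]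
                              · linarith only [C.f11_0, C.f11_2, C.f33_1, C.f33_4, C.f33_6, C.o0, e0, s1, s2, s3, x16_1_0, x2_4_0, x4_0_0]
                              · linarith only [C.f11_0, C.f22_1, C.f33_0, C.o0, e0, s1, x16_2_0, x7_0_1]
                              · linarith only [C.f11_0, C.f33_0, C.o0, s1, x16_3_0, x1_0_1, x7_0_1]
                              · rcases d_t12 with ⟨x17_0_0, x17_0_1⟩ | ⟨x17_1_0, x17_1_1⟩
                                · linarith only [C.f11_0, C.f11_1, C.o0, s2, x14_3_0, x16_4_0, x17_0_1, x1_0_1, x5_0_1, x8_1_1]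
                                · linarith only [C.o0, x16_4_0, x17_1_1, x1_0_1, x5_0_1, x8_1_1]
                              · rcases d_p13_33A with x18_0_0 | x18_1_0 | x18_2_0 | x18_3_0 | x18_4_0 | x18_5_0
                                · linarith only [C.o0, e0, x18_0_0]
                                · linarith only [C.f11_0, C.f11_2, C.f33_1, C.f33_4, C.f33_6, C.o0, e0, s1, s2, s3, x18_1_0, x2_4_0, x4_0_0]
                                · linarith only [C.f11_0, C.f33_1, C.o0, e0, s1, x18_2_0]
                                · linarith only [C.f11_0, C.o0, s1, x18_3_0, x1_0_1]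
                                · linarith only [C.a3, C.f11_0, C.f11_1, C.o0, s2, x18_4_0, x1_0_1, x5_0_1]
                                · rcases d_p11_23B with x19_0_0 | x19_1_0 | x19_2_0 | x19_3_0 | x19_4_0 | x19_5_0
                                  · linarith only [e0, x19_0_0]
                                  · linarith only [C.b3, C.f11_0, C.f22_1, C.f33_0, C.o0, e0, s1, x19_1_0, x1_0_1, x5_0_1, x7_0_1, x8_1_1, x9_4_0]
                                  · linarith only [C.f11_0, C.f11_2, C.f33_1, C.f33_4, C.f33_6, C.o0, e0, s1, s2, s3, x19_2_0, x2_4_0, x4_0_0]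
                                  · linarith only [C.f11_0, C.f33_0, C.o0, s1, x10_0_1, x19_3_0]
                                  · linarith only [C.f11_0, C.f11_1, C.f11_2, C.f22_6, C.f33_7, C.o0, s3, x11_1_1, x15_4_0, x16_5_0, x18_5_0, x19_4_0, x1_0_1, x5_0_1, x6_1_1, x8_1_1]
                                  · linarith only [C.f33_7, s3, x12_1_1, x18_5_0, x19_5_0, x6_1_1]
                            · linarith only [C.f33_7, s3, x12_1_1, x15_5_0, x2_4_0, x6_1_1]
                          · rcases d_p11_22B with x20_0_0 | x20_1_0 | x20_2_0 | x20_3_0 | x20_4_0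
                            · linarith only [e0, x20_0_0]
                            · linarith only [C.f11_0, C.f22_1, C.f33_0, C.o0, e0, s1, x20_1_0, x7_0_1]
                            · linarith only [C.f11_0, C.f33_0, C.o0, s1, x20_2_0, x7_0_1]
                            · linarith only [C.f11_2, C.f22_6, C.f33_7, s3, x14_4_0, x20_3_0, x8_1_1]
                            · linarith only [C.b5, C.f22_6, C.f33_7, s3, x14_4_0, x20_4_0, x8_1_1]
                      · linarith only [C.f11_0, C.f11_1, C.f11_2, C.f13_4, C.f23_5, C.f33_4, C.f33_6, C.o0, s2, s3, x11_2_1, x1_0_1, x2_4_0, x5_0_1]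
                    · rcases d_p22_33A with x21_0_0 | x21_1_0 | x21_2_0 | x21_3_0 | x21_4_0
                      · linarith only [C.f11_0, C.f22_1, C.f33_0, C.o0, e0, s1, x21_0_0, x7_0_1]
                      · linarith only [C.f11_0, C.f33_1, C.o0, e0, s1, x21_1_0]
                      · linarith only [C.f11_0, C.f33_0, C.o0, s1, x21_2_0, x7_0_1]
                      · linarith only [C.f11_0, C.f11_1, C.f22_1, C.f23_0, C.o0, s2, x10_1_1, x1_0_1, x21_3_0, x5_0_1, x7_0_1, x8_1_1, x9_4_0]
                      · linarith only [C.f11_0, C.f11_1, C.f11_2, C.f22_1, C.f22_6, C.f23_0, C.f33_7, C.o0, s3, x10_1_1, x1_0_1, x21_4_0, x5_0_1, x7_0_1, x8_1_1, x9_4_0]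
                    · linarith only [C.b3, C.f11_0, C.f11_1, C.f11_2, C.f22_1, C.f23_0, C.f33_4, C.f33_6, C.o0, s2, s3, x10_2_1, x1_0_1, x2_4_0, x5_0_1, x7_0_1, x8_1_1, x9_4_0]
                  · linarith only [C.b5, C.f22_6, C.f33_7, s3, x2_4_0, x6_1_1, x8_1_1, x9_5_0]
              · rcases d_f22_5 with ⟨x22_0_0, x22_0_1⟩ | ⟨x22_1_0, x22_1_1⟩
                · linarith only [C.a3, C.f22_4, x22_0_1, x4_0_0, x7_1_1]
                · rcases d_f23_3 with ⟨x23_0_0, x23_0_1⟩ | ⟨x23_1_0, x23_1_1⟩ | ⟨x23_2_0, x23_2_1⟩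
                  · rcases d_f23_7 with ⟨x24_0_0, x24_0_1⟩ | ⟨x24_1_0, x24_1_1⟩ | ⟨x24_2_0, x24_2_1⟩
                    · linarith only [C.f11_0, C.f11_1, C.f23_5, C.f33_0, C.f33_3, C.o0, s1, s2, x23_0_1, x24_0_1]
                    · rcases d_tmpp with x25_0_0 | x25_1_0 | x25_2_0 | x25_3_0
                      · linarith only [C.f11_0, C.f33_0, C.o0, s1, x25_0_0]
                      · linarith only [C.f11_0, C.f23_1, C.f33_0, C.o0, s1, x23_0_1, x25_1_0]
                      · linarith only [e0, x25_2_0]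
                      · rcases d_f23_10 with ⟨x26_0_0, x26_0_1⟩ | ⟨x26_1_0, x26_1_1⟩
                        · rcases d_p13_33A with x27_0_0 | x27_1_0 | x27_2_0 | x27_3_0 | x27_4_0 | x27_5_0
                          · linarith only [C.o0, e0, x27_0_0]
                          · linarith only [C.b2, C.b3, C.f11_0, C.f11_1, C.f11_2, C.f33_1, C.f33_4, C.f33_6, C.o0, e0, s1, s3, x27_1_0, x2_4_0]
                          · linarith only [C.f11_0, C.f33_1, C.o0, e0, s1, x27_2_0]
                          · linarith only [C.f11_0, C.o0, s1, x1_0_1, x27_3_0]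
                          · linarith only [C.b3, C.b5, C.f11_0, C.f11_1, C.f23_9, C.o0, s2, x1_0_1, x24_1_1, x26_0_1, x27_4_0, x5_0_1]
                          · linarith only [C.f11_0, C.f11_1, C.f11_2, C.f23_9, C.f33_7, C.o1, s3, x24_1_1, x25_3_0, x26_0_1, x27_5_0, x6_1_1]
                        · rcases d_p13_23A with x28_0_0 | x28_1_0 | x28_2_0 | x28_3_0 | x28_4_0 | x28_5_0
                          · linarith only [C.o0, e0, x28_0_0]
                          · linarith only [C.b2, C.b3, C.f11_0, C.f11_1, C.f11_2, C.f33_1, C.f33_4, C.f33_6, C.o0, e0, s1, s3, x28_1_0, x2_4_0]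
                          · linarith only [C.f11_0, C.f23_1, C.f33_0, C.o0, e0, s1, x23_0_1, x28_2_0]
                          · linarith only [C.f11_0, C.f33_0, C.o0, s1, x1_0_1, x23_0_1, x28_3_0]
                          · rcases d_p11_23B with x29_0_0 | x29_1_0 | x29_2_0 | x29_3_0 | x29_4_0 | x29_5_0
                            · linarith only [e0, x29_0_0]
                            · linarith only [C.o0, e0, x29_1_0, x4_0_0]
                            · linarith only [C.b2, C.b3, C.f11_0, C.f11_1, C.f11_2, C.f33_1, C.f33_4, C.f33_6, C.o0, e0, s1, s3, x29_2_0, x2_4_0]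
                            · linarith only [C.f11_0, C.f33_0, C.o0, s1, x23_0_1, x29_3_0]
                            · rcases d_p13_22B with x30_0_0 | x30_1_0 | x30_2_0 | x30_3_0 | x30_4_0 | x30_5_0
                              · linarith only [C.o0, e0, x30_0_0]
                              · linarith only [C.f11_0, C.f11_1, C.f11_2, C.f33_1, C.f33_3, C.f33_6, C.o0, e0, s1, s3, x2_4_0, x30_1_0]
                              · linarith only [C.f11_0, C.f11_1, C.f23_1, C.f33_0, C.f33_3, C.o0, e0, s2, x23_0_1, x24_1_1, x29_4_0, x30_2_0, x4_0_0]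
                              · linarith only [C.f11_0, C.f11_1, C.f23_1, C.f33_0, C.f33_3, C.o0, s2, x1_0_1, x23_0_1, x24_1_1, x29_4_0, x30_3_0, x4_0_0, x7_1_1]
                              · rcases d_t12 with ⟨x31_0_0, x31_0_1⟩ | ⟨x31_1_0, x31_1_1⟩
                                · rcases d_p22_33A with x32_0_0 | x32_1_0 | x32_2_0 | x32_3_0 | x32_4_0
                                  · linarith only [C.f11_0, C.f11_1, C.f23_1, C.f33_0, C.f33_3, C.o0, e0, s2, x23_0_1, x24_1_1, x29_4_0, x32_0_0, x4_0_0]
                                  · linarith only [C.f11_0, C.f33_1, C.o0, e0, s1, x32_1_0]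
                                  · linarith only [C.f11_1, s1, x24_1_1, x29_4_0, x31_0_1, x32_2_0, x4_0_0, x7_1_1]
                                  · linarith only [C.f11_0, C.f11_1, C.o0, s2, x1_0_1, x22_1_1, x30_4_0, x31_0_1, x32_3_0, x5_0_1]
                                  · linarith only [C.f11_0, C.f11_1, C.f11_2, C.f22_6, C.f33_7, C.o0, s3, x1_0_1, x22_1_1, x30_4_0, x32_4_0, x5_0_1]
                                · linarith only [C.o0, x1_0_1, x22_1_1, x30_4_0, x31_1_1, x5_0_1]
                              · rcases d_p13_33A with x33_0_0 | x33_1_0 | x33_2_0 | x33_3_0 | x33_4_0 | x33_5_0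
                                · linarith only [C.o0, e0, x33_0_0]
                                · linarith only [C.f11_0, C.f11_1, C.f11_2, C.f33_1, C.f33_3, C.f33_6, C.o0, e0, s1, s3, x2_4_0, x33_1_0]
                                · linarith only [C.f11_0, C.f33_1, C.o0, e0, s1, x33_2_0]
                                · linarith only [C.f11_0, C.o0, s1, x1_0_1, x33_3_0]
                                · linarith only [C.a3, C.f11_0, C.f11_1, C.o0, s2, x1_0_1, x33_4_0, x5_0_1]
                                · linarith only [C.f11_0, C.f11_1, C.f11_2, C.f22_6, C.f33_7, C.o0, s3, x1_0_1, x22_1_1, x24_1_1, x28_4_0, x29_4_0, x30_5_0, x33_5_0, x5_0_1, x6_1_1]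
                            · rcases d_p13_33A with x34_0_0 | x34_1_0 | x34_2_0 | x34_3_0 | x34_4_0 | x34_5_0
                              · linarith only [C.o0, e0, x34_0_0]
                              · linarith only [C.b2, C.b3, C.f11_0, C.f11_1, C.f11_2, C.f33_1, C.f33_4, C.f33_6, C.o0, e0, s1, s3, x2_4_0, x34_1_0]
                              · linarith only [C.f11_0, C.f33_1, C.o0, e0, s1, x34_2_0]
                              · linarith only [C.f11_0, C.o0, s1, x1_0_1, x34_3_0]
                              · linarith only [C.a3, C.f11_0, C.f11_1, C.o0, s2, x1_0_1, x34_4_0, x5_0_1]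
                              · linarith only [C.f33_7, s3, x26_1_1, x29_5_0, x34_5_0, x6_1_1]
                          · linarith only [C.f33_7, s3, x26_1_1, x28_5_0, x2_4_0, x6_1_1]
                    · linarith only [C.f11_0, C.f11_1, C.f11_2, C.f13_4, C.f23_5, C.f33_4, C.f33_6, C.o0, s2, s3, x1_0_1, x24_2_1, x2_4_0, x5_0_1]
                  · rcases d_f23_7 with ⟨x35_0_0, x35_0_1⟩ | ⟨x35_1_0, x35_1_1⟩ | ⟨x35_2_0, x35_2_1⟩
                    · linarith only [C.a3, C.f23_5, x23_1_1, x35_0_1, x4_0_0]
                    · rcases d_f23_10 with ⟨x36_0_0, x36_0_1⟩ | ⟨x36_1_0, x36_1_1⟩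
                      · rcases d_p11_22B with x37_0_0 | x37_1_0 | x37_2_0 | x37_3_0 | x37_4_0
                        · linarith only [e0, x37_0_0]
                        · linarith only [C.b5, C.f23_9, C.o0, e0, x35_1_1, x36_0_1, x37_1_0, x4_0_0]
                        · linarith only [C.b5, C.f11_0, C.f23_9, C.o0, x35_1_1, x36_0_1, x37_2_0, x4_0_0, x7_1_1]
                        · rcases d_p13_33A with x38_0_0 | x38_1_0 | x38_2_0 | x38_3_0 | x38_4_0 | x38_5_0
                          · linarith only [C.o0, e0, x38_0_0]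
                          · linarith only [C.f11_0, C.f11_2, C.f13_4, C.f33_1, C.f33_3, C.f33_6, C.o0, e0, s1, s2, s3, x1_0_1, x2_4_0, x38_1_0, x4_0_0, x5_0_1]
                          · linarith only [C.f11_0, C.f33_1, C.o0, e0, s1, x38_2_0]
                          · linarith only [C.f11_0, C.o0, s1, x1_0_1, x38_3_0]
                          · linarith only [C.b3, C.b5, C.f11_0, C.f11_1, C.f23_9, C.o0, s2, x1_0_1, x35_1_1, x36_0_1, x38_4_0, x5_0_1]
                          · linarith only [C.f11_2, C.f23_9, C.f33_7, C.o1, s3, x22_1_1, x35_1_1, x36_0_1, x37_3_0, x38_5_0, x6_1_1]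
                        · rcases d_p13_33A with x39_0_0 | x39_1_0 | x39_2_0 | x39_3_0 | x39_4_0 | x39_5_0
                          · linarith only [C.o0, e0, x39_0_0]
                          · linarith only [C.f11_0, C.f11_1, C.f11_2, C.f33_1, C.f33_3, C.f33_6, C.o0, e0, s1, s3, x2_4_0, x39_1_0]
                          · linarith only [C.f11_0, C.f33_1, C.o0, e0, s1, x39_2_0]
                          · linarith only [C.f11_0, C.o0, s1, x1_0_1, x39_3_0]
                          · linarith only [C.b3, C.b5, C.f11_0, C.f11_1, C.f23_9, C.o0, s2, x1_0_1, x35_1_1, x36_0_1, x39_4_0, x5_0_1]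
                          · linarith only [C.b5, C.f22_6, C.f33_7, s3, x22_1_1, x37_4_0, x39_5_0, x6_1_1]
                      · rcases d_p11_23B with x40_0_0 | x40_1_0 | x40_2_0 | x40_3_0 | x40_4_0 | x40_5_0
                        · linarith only [e0, x40_0_0]
                        · linarith only [C.o0, e0, x40_1_0, x4_0_0]
                        · linarith only [C.f11_0, C.f11_1, C.f11_2, C.f33_1, C.f33_3, C.f33_6, C.o0, e0, s1, s3, x2_4_0, x40_2_0]
                        · linarith only [C.f11_0, C.o0, x23_1_1, x40_3_0, x4_0_0]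
                        · rcases d_tmzp with x41_0_0 | x41_1_0 | x41_2_0 | x41_3_0 | x41_4_0 | x41_5_0
                          · linarith only [C.f11_0, C.f33_0, C.o0, s1, x41_0_0]
                          · linarith only [x41_1_0, x4_0_0]
                          · linarith only [C.f33_4, C.o1, s2, x35_1_1, x40_4_0, x41_2_0]
                          · linarith only [e0, x41_3_0]
                          · rcases d_p13_22B with x42_0_0 | x42_1_0 | x42_2_0 | x42_3_0 | x42_4_0 | x42_5_0
                            · linarith only [C.o0, e0, x42_0_0]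
                            · linarith only [C.f11_0, C.f11_1, C.f11_2, C.f33_1, C.f33_3, C.f33_6, C.o0, e0, s1, s3, x2_4_0, x42_1_0]
                            · linarith only [C.a3, C.f11_0, C.f11_1, C.o0, e0, x35_1_1, x40_4_0, x42_2_0, x4_0_0]
                            · linarith only [C.a3, C.f11_0, C.f11_1, C.o0, x1_0_1, x35_1_1, x40_4_0, x42_3_0, x4_0_0, x7_1_1]
                            · rcases d_t12 with ⟨x43_0_0, x43_0_1⟩ | ⟨x43_1_0, x43_1_1⟩
                              · rcases d_p22_33A with x44_0_0 | x44_1_0 | x44_2_0 | x44_3_0 | x44_4_0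
                                · linarith only [C.f11_0, C.f11_1, C.o0, e0, x35_1_1, x40_4_0, x43_0_1, x44_0_0, x4_0_0]
                                · linarith only [C.f11_0, C.f33_1, C.o0, e0, s1, x44_1_0]
                                · linarith only [C.f11_1, C.f33_3, s1, s2, x35_1_1, x40_4_0, x44_2_0, x4_0_0, x7_1_1]
                                · linarith only [C.f11_0, C.f11_1, s2, x1_0_1, x22_1_1, x41_4_0, x42_4_0, x43_0_1, x44_3_0, x5_0_1]
                                · linarith only [C.f11_0, C.f11_1, C.f11_2, C.f22_6, C.f33_7, s3, x22_1_1, x41_4_0, x44_4_0]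
                              · linarith only [x41_4_0, x43_1_1]
                            · rcases d_p13_33A with x45_0_0 | x45_1_0 | x45_2_0 | x45_3_0 | x45_4_0 | x45_5_0
                              · linarith only [C.o0, e0, x45_0_0]
                              · linarith only [C.f11_0, C.f11_1, C.f11_2, C.f33_1, C.f33_3, C.f33_6, C.o0, e0, s1, s3, x2_4_0, x45_1_0]
                              · linarith only [C.f11_0, C.f33_1, C.o0, e0, s1, x45_2_0]
                              · linarith only [C.f11_0, C.o0, s1, x1_0_1, x45_3_0]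
                              · linarith only [C.a3, C.f11_0, C.f11_1, C.o0, s2, x1_0_1, x45_4_0, x5_0_1]
                              · linarith only [C.f11_0, C.f11_1, C.f11_2, C.f22_6, C.o2, s3, x22_1_1, x41_4_0, x42_5_0, x45_5_0, x6_1_1]
                          · rcases d_p13_33A with x46_0_0 | x46_1_0 | x46_2_0 | x46_3_0 | x46_4_0 | x46_5_0
                            · linarith only [C.o0, e0, x46_0_0]
                            · linarith only [C.f11_0, C.f11_1, C.f11_2, C.f33_1, C.f33_3, C.f33_6, C.o0, e0, s1, s3, x2_4_0, x46_1_0]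
                            · linarith only [C.f11_0, C.f33_1, C.o0, e0, s1, x46_2_0]
                            · linarith only [C.f11_0, C.o0, s1, x1_0_1, x46_3_0]
                            · linarith only [C.a3, C.f11_0, C.f11_1, C.o0, s2, x1_0_1, x46_4_0, x5_0_1]
                            · linarith only [C.f11_2, C.f33_7, C.o1, s3, x35_1_1, x40_4_0, x41_5_0, x46_5_0, x6_1_1]
                        · rcases d_p13_33A with x47_0_0 | x47_1_0 | x47_2_0 | x47_3_0 | x47_4_0 | x47_5_0
                          · linarith only [C.o0, e0, x47_0_0]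
                          · linarith only [C.f11_0, C.f11_1, C.f11_2, C.f33_1, C.f33_3, C.f33_6, C.o0, e0, s1, s3, x2_4_0, x47_1_0]
                          · linarith only [C.f11_0, C.f33_1, C.o0, e0, s1, x47_2_0]
                          · linarith only [C.f11_0, C.o0, s1, x1_0_1, x47_3_0]
                          · linarith only [C.a3, C.f11_0, C.f11_1, C.o0, s2, x1_0_1, x47_4_0, x5_0_1]
                          · linarith only [C.f33_7, s3, x36_1_1, x40_5_0, x47_5_0, x6_1_1]
                    · linarith only [C.f11_0, C.f11_1, C.f11_2, C.f13_4, C.f23_5, C.f33_4, C.f33_6, C.o0, s2, s3, x1_0_1, x2_4_0, x35_2_1, x5_0_1]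
                  · linarith only [C.f11_0, C.f11_1, C.f11_2, C.f13_4, C.f23_1, C.f33_4, C.f33_6, C.o0, s2, s3, x1_0_1, x23_2_1, x2_4_0, x5_0_1]
          · rcases d_f13_8 with ⟨x48_0_0, x48_0_1⟩ | ⟨x48_1_0, x48_1_1⟩
            · linarith only [C.b5, C.f11_2, C.f13_7, C.f33_4, C.o1, s2, s3, x2_4_0, x3_1_1, x48_0_1, x5_1_1]
            · rcases d_f22_2 with ⟨x49_0_0, x49_0_1⟩ | ⟨x49_1_0, x49_1_1⟩
              · rcases d_f22_5 with ⟨x50_0_0, x50_0_1⟩ | ⟨x50_1_0, x50_1_1⟩
                · linarith only [C.f11_0, C.f11_1, C.f11_2, C.f13_0, C.f13_3, C.f22_4, C.f33_0, C.f33_4, C.f33_6, C.o0, C.o1, s1, s2, s3, x2_4_0, x49_0_1, x50_0_1, x5_1_1]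
                · rcases d_p13_22A with x51_0_0 | x51_1_0 | x51_2_0 | x51_3_0 | x51_4_0 | x51_5_0
                  · linarith only [C.o0, e0, x51_0_0]
                  · linarith only [C.b5, C.f11_0, C.f11_1, C.f11_2, C.f33_1, C.f33_3, C.o0, C.o1, e0, s1, s2, s3, x2_4_0, x51_1_0]
                  · linarith only [C.f11_0, C.f22_1, C.f33_0, C.o0, e0, s1, x49_0_1, x51_2_0]
                  · linarith only [C.f11_0, C.f33_0, C.o0, s1, x1_0_1, x49_0_1, x51_3_0]
                  · rcases d_f23_3 with ⟨x52_0_0, x52_0_1⟩ | ⟨x52_1_0, x52_1_1⟩ | ⟨x52_2_0, x52_2_1⟩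
                    · rcases d_f23_7 with ⟨x53_0_0, x53_0_1⟩ | ⟨x53_1_0, x53_1_1⟩ | ⟨x53_2_0, x53_2_1⟩
                      · linarith only [C.f11_0, C.f11_1, C.f11_2, C.f13_0, C.f13_3, C.f23_5, C.f33_0, C.f33_4, C.f33_6, C.o0, s1, s2, s3, x2_4_0, x52_0_1, x53_0_1, x5_1_1]
                      · rcases d_f23_10 with ⟨x54_0_0, x54_0_1⟩ | ⟨x54_1_0, x54_1_1⟩
                        · linarith only [C.b5, C.f11_2, C.f23_9, C.f33_4, s2, s3, x2_4_0, x3_1_1, x50_1_1, x51_4_0, x53_1_1, x54_0_1, x5_1_1]
                        · rcases d_p13_23A with x55_0_0 | x55_1_0 | x55_2_0 | x55_3_0 | x55_4_0 | x55_5_0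
                          · linarith only [C.o0, e0, x55_0_0]
                          · linarith only [C.b5, C.f11_0, C.f11_1, C.f11_2, C.f33_1, C.f33_3, C.o0, C.o1, e0, s1, s2, s3, x2_4_0, x55_1_0]
                          · linarith only [C.f11_0, C.f22_1, C.f33_0, C.o0, C.o1, e0, s1, x49_0_1, x55_2_0]
                          · linarith only [C.f11_0, C.f33_0, C.o0, s1, x1_0_1, x52_0_1, x55_3_0]
                          · linarith only [C.f11_2, C.f23_8, C.f33_4, s2, s3, x2_4_0, x3_1_1, x53_1_1, x54_1_1, x55_4_0, x5_1_1]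
                          · linarith only [C.f33_7, s3, x2_4_0, x48_1_1, x54_1_1, x55_5_0]
                      · linarith only [C.b5, C.f11_2, C.f23_5, C.f33_4, C.o1, s2, s3, x2_4_0, x3_1_1, x53_2_1]
                    · linarith only [C.b5, C.f11_2, C.f22_1, C.f23_0, C.f33_4, s2, s3, x2_4_0, x3_1_1, x49_0_1, x50_1_1, x51_4_0, x52_1_1, x5_1_1]
                    · linarith only [C.b5, C.f11_2, C.f22_1, C.f23_0, C.f33_4, C.o1, s2, s3, x2_4_0, x3_1_1, x49_0_1, x52_2_1]
                  · linarith only [C.b5, C.f22_6, C.f33_7, s3, x2_4_0, x48_1_1, x50_1_1, x51_5_0]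
              · rcases d_f22_5 with ⟨x56_0_0, x56_0_1⟩ | ⟨x56_1_0, x56_1_1⟩
                · linarith only [C.f11_0, C.f11_1, C.f11_2, C.f13_0, C.f13_3, C.f22_4, C.f33_1, C.f33_3, C.f33_6, C.o0, s1, s3, x2_4_0, x49_1_1, x56_0_1, x5_1_1]
                · rcases d_f23_3 with ⟨x57_0_0, x57_0_1⟩ | ⟨x57_1_0, x57_1_1⟩ | ⟨x57_2_0, x57_2_1⟩
                  · rcases d_tmpp with x58_0_0 | x58_1_0 | x58_2_0 | x58_3_0
                    · linarith only [C.f11_0, C.f33_0, C.o0, s1, x58_0_0]
                    · linarith only [C.f11_0, C.f23_1, C.f33_0, C.o0, s1, x57_0_1, x58_1_0]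
                    · linarith only [e0, x58_2_0]
                    · rcases d_tpmz with x59_0_0 | x59_1_0 | x59_2_0 | x59_3_0 | x59_4_0 | x59_5_0
                      · linarith only [C.o0, e0, x59_0_0]
                      · linarith only [C.f11_0, C.f11_1, C.f13_0, C.f13_3, C.f33_4, C.f33_7, C.o0, s2, s3, x2_4_0, x59_1_0, x5_1_1]
                      · linarith only [C.f11_0, C.f11_1, C.f33_4, C.o1, s2, x58_3_0, x59_2_0]
                      · linarith only [C.f11_0, C.f33_0, C.o0, s1, x59_3_0]
                      · linarith only [C.f11_0, C.f11_1, C.f11_2, C.f13_0, C.f13_3, C.f23_1, C.f33_0, C.f33_4, C.f33_6, C.o0, s1, s2, s3, x2_4_0, x57_0_1, x58_3_0, x59_4_0, x5_1_1]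
                      · rcases d_p13_33A with x60_0_0 | x60_1_0 | x60_2_0 | x60_3_0 | x60_4_0 | x60_5_0
                        · linarith only [C.o0, e0, x60_0_0]
                        · linarith only [C.b2, C.b3, C.f11_0, C.f11_1, C.f11_2, C.f33_1, C.f33_4, C.f33_6, C.o0, e0, s1, s3, x2_4_0, x60_1_0]
                        · linarith only [C.f11_0, C.f33_1, C.o0, e0, s1, x60_2_0]
                        · linarith only [C.f11_0, C.o0, s1, x1_0_1, x60_3_0]
                        · linarith only [C.f11_0, C.f11_1, C.f11_2, C.f33_4, C.f33_6, C.o1, s2, s3, x2_4_0, x58_3_0, x5_1_1, x60_4_0]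
                        · linarith only [C.f11_0, C.f11_1, C.f11_2, C.f33_7, s3, x48_1_1, x58_3_0, x59_5_0, x60_5_0]
                  · rcases d_f23_7 with ⟨x61_0_0, x61_0_1⟩ | ⟨x61_1_0, x61_1_1⟩ | ⟨x61_2_0, x61_2_1⟩
                    · linarith only [C.f11_0, C.f11_2, C.f13_0, C.f13_3, C.f23_5, C.f33_1, C.f33_3, C.f33_6, C.o0, s1, s2, s3, x2_4_0, x4_0_0, x57_1_1, x5_1_1, x61_0_1]
                    · rcases d_f23_10 with ⟨x62_0_0, x62_0_1⟩ | ⟨x62_1_0, x62_1_1⟩
                      · rcases d_p11_22B with x63_0_0 | x63_1_0 | x63_2_0 | x63_3_0 | x63_4_0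
                        · linarith only [e0, x63_0_0]
                        · linarith only [C.b5, C.f23_9, C.o0, e0, x4_0_0, x61_1_1, x62_0_1, x63_1_0]
                        · linarith only [C.b5, C.f11_0, C.f23_9, C.o0, x49_1_1, x4_0_0, x61_1_1, x62_0_1, x63_2_0]
                        · rcases d_p13_33A with x64_0_0 | x64_1_0 | x64_2_0 | x64_3_0 | x64_4_0 | x64_5_0
                          · linarith only [C.o0, e0, x64_0_0]
                          · linarith only [C.b2, C.b3, C.f11_0, C.f11_1, C.f11_2, C.f33_1, C.f33_4, C.f33_6, C.o0, e0, s1, s3, x2_4_0, x64_1_0]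
                          · linarith only [C.f11_0, C.f33_1, C.o0, e0, s1, x64_2_0]
                          · linarith only [C.f11_0, C.o0, s1, x1_0_1, x64_3_0]
                          · linarith only [C.f11_2, C.f33_4, C.f33_6, C.o1, s2, s3, x2_4_0, x56_1_1, x5_1_1, x63_3_0, x64_4_0]
                          · linarith only [C.f11_2, C.f23_9, C.f33_7, C.o1, s3, x48_1_1, x56_1_1, x61_1_1, x62_0_1, x63_3_0, x64_5_0]
                        · rcases d_p13_33A with x65_0_0 | x65_1_0 | x65_2_0 | x65_3_0 | x65_4_0 | x65_5_0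
                          · linarith only [C.o0, e0, x65_0_0]
                          · linarith only [C.b5, C.f11_0, C.f11_1, C.f11_2, C.f33_1, C.f33_3, C.o0, C.o1, e0, s1, s2, s3, x2_4_0, x65_1_0]
                          · linarith only [C.f11_0, C.f33_1, C.o0, e0, s1, x65_2_0]
                          · linarith only [C.f11_0, C.o0, s1, x1_0_1, x65_3_0]
                          · linarith only [C.b5, C.f11_2, C.f22_6, C.f33_4, C.o1, s2, s3, x2_4_0, x56_1_1, x5_1_1, x63_4_0, x65_4_0]
                          · linarith only [C.b5, C.f22_6, C.f33_7, s3, x48_1_1, x56_1_1, x63_4_0, x65_5_0]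
                      · rcases d_f33_5 with ⟨x66_0_0, x66_0_1⟩ | ⟨x66_1_0, x66_1_1⟩
                        · linarith only [C.f11_0, C.f11_1, C.f11_2, C.f13_0, C.f13_3, C.f33_4, C.f33_6, C.o0, s1, s3, x2_4_0, x5_1_1, x66_0_1]
                        · rcases d_p13_23A with x67_0_0 | x67_1_0 | x67_2_0 | x67_3_0 | x67_4_0 | x67_5_0
                          · linarith only [C.o0, e0, x67_0_0]
                          · linarith only [C.b5, C.f11_0, C.f11_1, C.f11_2, C.f33_1, C.f33_3, C.o0, C.o1, e0, s1, s2, s3, x2_4_0, x67_1_0]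
                          · linarith only [C.o0, e0, x4_0_0, x67_2_0]
                          · rcases d_tmzp with x68_0_0 | x68_1_0 | x68_2_0 | x68_3_0 | x68_4_0 | x68_5_0
                            · linarith only [C.f11_0, C.f33_0, C.o0, s1, x68_0_0]
                            · linarith only [x4_0_0, x68_1_0]
                            · linarith only [C.f11_0, C.f33_1, C.o0, s1, x1_0_1, x57_1_1, x67_3_0, x68_2_0]
                            · linarith only [e0, x68_3_0]
                            · rcases d_p22_33A with x69_0_0 | x69_1_0 | x69_2_0 | x69_3_0 | x69_4_0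
                              · linarith only [C.f11_0, C.f11_1, C.f11_2, C.f13_0, C.f13_3, C.f33_1, C.f33_3, C.f33_6, C.o0, e0, s1, s3, x2_4_0, x5_1_1, x68_4_0, x69_0_0]
                              · linarith only [C.f11_0, C.f33_1, C.o0, e0, s1, x69_1_0]
                              · linarith only [C.b5, C.f11_0, C.f11_1, C.f11_2, C.f13_0, C.f13_3, C.f33_1, s1, s3, x2_4_0, x49_1_1, x5_1_1, x68_4_0, x69_2_0]
                              · linarith only [C.f11_0, C.f13_3, C.f33_1, C.f33_7, s1, s3, x1_0_1, x2_4_0, x56_1_1, x57_1_1, x5_1_1, x66_1_1, x67_3_0, x68_4_0, x69_3_0]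
                              · linarith only [C.f11_0, C.f11_1, C.f11_2, C.f22_6, C.f33_7, s3, x56_1_1, x68_4_0, x69_4_0]
                            · rcases d_p11_23B with x70_0_0 | x70_1_0 | x70_2_0 | x70_3_0 | x70_4_0 | x70_5_0
                              · linarith only [e0, x70_0_0]
                              · linarith only [C.o0, e0, x4_0_0, x70_1_0]
                              · linarith only [C.b5, C.f11_0, C.f11_1, C.f11_2, C.f33_1, C.f33_3, C.o0, C.o1, e0, s1, s2, s3, x2_4_0, x70_2_0]
                              · linarith only [C.f11_0, C.o0, x4_0_0, x57_1_1, x70_3_0]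
                              · rcases d_p13_33A with x71_0_0 | x71_1_0 | x71_2_0 | x71_3_0 | x71_4_0 | x71_5_0
                                · linarith only [C.o0, e0, x71_0_0]
                                · linarith only [C.f11_0, C.f11_1, C.f11_2, C.f33_1, C.f33_3, C.f33_6, C.o0, e0, s1, s3, x2_4_0, x71_1_0]
                                · linarith only [C.f11_0, C.f33_1, C.o0, e0, s1, x71_2_0]
                                · linarith only [C.f11_0, C.o0, s1, x1_0_1, x71_3_0]
                                · linarith only [C.f11_2, C.f33_4, C.f33_6, C.o1, s2, s3, x2_4_0, x5_1_1, x61_1_1, x70_4_0, x71_4_0]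
                                · linarith only [C.f11_2, C.f33_7, C.o1, s3, x48_1_1, x61_1_1, x68_5_0, x70_4_0, x71_5_0]
                              · rcases d_p13_33A with x72_0_0 | x72_1_0 | x72_2_0 | x72_3_0 | x72_4_0 | x72_5_0
                                · linarith only [C.o0, e0, x72_0_0]
                                · linarith only [C.b5, C.f11_0, C.f11_1, C.f11_2, C.f33_1, C.f33_3, C.o0, C.o1, e0, s1, s2, s3, x2_4_0, x72_1_0]
                                · linarith only [C.f11_0, C.f33_1, C.o0, e0, s1, x72_2_0]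
                                · linarith only [C.f11_0, C.o0, s1, x1_0_1, x72_3_0]
                                · linarith only [C.b5, C.f11_2, C.f33_4, C.o1, s2, s3, x2_4_0, x5_1_1, x62_1_1, x70_5_0, x72_4_0]
                                · linarith only [C.f33_7, s3, x48_1_1, x62_1_1, x70_5_0, x72_5_0]
                          · linarith only [C.f11_2, C.f23_8, C.f33_4, s2, s3, x2_4_0, x3_1_1, x5_1_1, x61_1_1, x62_1_1, x67_4_0]
                          · linarith only [C.f33_7, s3, x2_4_0, x48_1_1, x62_1_1, x67_5_0]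
                    · linarith only [C.b5, C.f11_2, C.f23_5, C.f33_4, C.o1, s2, s3, x2_4_0, x3_1_1, x61_2_1]
                  · linarith only [C.b5, C.f11_2, C.f23_1, C.f33_4, C.o1, s2, s3, x2_4_0, x3_1_1, x57_2_1]
        · rcases d_f13_5 with ⟨x73_0_0, x73_0_1⟩ | ⟨x73_1_0, x73_1_1⟩
          · rcases d_f13_8 with ⟨x74_0_0, x74_0_1⟩ | ⟨x74_1_0, x74_1_1⟩
            · linarith only [C.b3, C.f13_7, C.o0, x1_0_1, x4_1_1, x73_0_1, x74_0_1]
            · rcases d_f22_2 with ⟨x75_0_0, x75_0_1⟩ | ⟨x75_1_0, x75_1_1⟩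
              · rcases d_f22_5 with ⟨x76_0_0, x76_0_1⟩ | ⟨x76_1_0, x76_1_1⟩
                · linarith only [C.b3, C.f11_0, C.f22_4, C.f33_0, C.o0, s1, x75_0_1, x76_0_1]
                · rcases d_p13_22A with x77_0_0 | x77_1_0 | x77_2_0 | x77_3_0 | x77_4_0 | x77_5_0
                  · linarith only [C.o0, e0, x77_0_0]
                  · linarith only [C.f11_0, C.f11_1, C.f11_2, C.f33_1, C.f33_3, C.f33_6, C.o0, e0, s1, s3, x2_4_0, x77_1_0]
                  · linarith only [C.f11_0, C.f22_1, C.f33_0, C.o0, e0, s1, x75_0_1, x77_2_0]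
                  · linarith only [C.f11_0, C.f33_0, C.o0, s1, x1_0_1, x75_0_1, x77_3_0]
                  · rcases d_f23_3 with ⟨x78_0_0, x78_0_1⟩ | ⟨x78_1_0, x78_1_1⟩ | ⟨x78_2_0, x78_2_1⟩
                    · rcases d_f23_7 with ⟨x79_0_0, x79_0_1⟩ | ⟨x79_1_0, x79_1_1⟩ | ⟨x79_2_0, x79_2_1⟩
                      · linarith only [C.f11_0, C.f11_1, C.f23_5, C.f33_0, C.f33_3, C.o0, s1, s2, x78_0_1, x79_0_1]
                      · rcases d_f23_10 with ⟨x80_0_0, x80_0_1⟩ | ⟨x80_1_0, x80_1_1⟩
                        · linarith only [C.b3, C.f23_9, C.o0, x1_0_1, x4_1_1, x73_0_1, x76_1_1, x77_4_0, x79_1_1, x80_0_1]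
                        · rcases d_p13_23A with x81_0_0 | x81_1_0 | x81_2_0 | x81_3_0 | x81_4_0 | x81_5_0
                          · linarith only [C.o0, e0, x81_0_0]
                          · linarith only [C.b3, C.f11_0, C.f11_1, C.f11_2, C.f33_1, C.f33_4, C.f33_6, C.o0, e0, s1, s3, x2_4_0, x4_1_0, x81_1_0]
                          · linarith only [C.b3, C.o0, e0, x1_0_1, x4_1_0, x73_0_1, x76_1_1, x77_4_0, x81_2_0]
                          · linarith only [C.f11_0, C.f33_0, C.o0, s1, x1_0_1, x78_0_1, x81_3_0]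
                          · rcases d_p22_33A with x82_0_0 | x82_1_0 | x82_2_0 | x82_3_0 | x82_4_0
                            · linarith only [C.f11_0, C.f22_1, C.f33_0, C.o0, e0, s1, x75_0_1, x82_0_0]
                            · linarith only [C.f11_0, C.f33_1, C.o0, e0, s1, x82_1_0]
                            · linarith only [C.f11_0, C.f33_0, C.o0, s1, x75_0_1, x82_2_0]
                            · rcases d_tmzp with x83_0_0 | x83_1_0 | x83_2_0 | x83_3_0 | x83_4_0 | x83_5_0
                              · linarith only [C.f11_0, C.f33_0, C.o0, s1, x83_0_0]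
                              · linarith only [C.b3, C.f11_0, C.f22_1, C.f33_0, C.o0, s1, x1_0_1, x73_0_1, x75_0_1, x76_1_1, x77_4_0, x83_1_0]
                              · linarith only [C.f11_0, C.f11_1, C.f33_4, C.o0, s2, x1_0_1, x73_0_1, x79_1_1, x81_4_0, x83_2_0]
                              · linarith only [e0, x83_3_0]
                              · rcases d_t12 with ⟨x84_0_0, x84_0_1⟩ | ⟨x84_1_0, x84_1_1⟩
                                · rcases d_p11_13B with x85_0_0 | x85_1_0 | x85_2_0 | x85_3_0 | x85_4_0 | x85_5_0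
                                  · linarith only [e0, x85_0_0]
                                  · linarith only [C.o0, e0, x85_1_0]
                                  · linarith only [C.b3, C.f11_0, C.f11_1, C.f11_2, C.f33_1, C.f33_4, C.f33_6, C.o0, e0, s1, s3, x2_4_0, x4_1_0, x85_2_0]
                                  · linarith only [C.f11_1, s2, x1_0_1, x76_1_1, x82_3_0, x83_4_0, x84_0_1, x85_3_0]
                                  · linarith only [s2, x1_0_1, x73_0_1, x76_1_1, x82_3_0, x84_0_1, x85_4_0]
                                  · rcases d_p13_33A with x86_0_0 | x86_1_0 | x86_2_0 | x86_3_0 | x86_4_0 | x86_5_0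
                                    · linarith only [C.o0, e0, x86_0_0]
                                    · linarith only [C.b3, C.f11_0, C.f11_1, C.f11_2, C.f33_1, C.f33_4, C.f33_6, C.o0, e0, s1, s3, x2_4_0, x4_1_0, x86_1_0]
                                    · linarith only [C.f11_0, C.f33_1, C.o0, e0, s1, x86_2_0]
                                    · linarith only [C.f11_0, C.o0, s1, x1_0_1, x86_3_0]
                                    · linarith only [C.f11_0, C.f11_1, C.o0, s2, x1_0_1, x73_0_1, x84_0_1, x86_4_0]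
                                    · linarith only [C.f33_7, s3, x74_1_1, x85_5_0, x86_5_0]
                                · linarith only [x83_4_0, x84_1_1]
                              · linarith only [x4_1_1, x83_5_0]
                            · linarith only [C.f22_6, s3, x2_4_0, x3_1_1, x4_1_1, x76_1_1, x82_4_0]
                          · linarith only [C.f33_7, s3, x2_4_0, x74_1_1, x80_1_1, x81_5_0]
                      · linarith only [C.f11_0, C.f11_1, C.f11_2, C.f13_4, C.f23_5, C.f33_4, C.f33_6, C.o0, s2, s3, x1_0_1, x2_4_0, x73_0_1, x79_2_1]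
                    · rcases d_p22_33A with x87_0_0 | x87_1_0 | x87_2_0 | x87_3_0 | x87_4_0
                      · linarith only [e0, x4_1_0, x87_0_0]
                      · linarith only [C.f11_0, C.f33_1, C.o0, e0, s1, x87_1_0]
                      · linarith only [C.f11_0, C.f33_0, C.o0, s1, x75_0_1, x87_2_0]
                      · linarith only [C.f11_0, C.f11_1, C.f22_1, C.f23_0, C.o0, s2, x1_0_1, x73_0_1, x75_0_1, x76_1_1, x77_4_0, x78_1_1, x87_3_0]
                      · linarith only [C.f22_6, s3, x2_4_0, x3_1_1, x4_1_1, x76_1_1, x87_4_0]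
                    · linarith only [C.b3, C.f11_0, C.f11_1, C.f11_2, C.f22_1, C.f23_0, C.f33_4, C.f33_6, C.o0, s2, s3, x1_0_1, x2_4_0, x73_0_1, x75_0_1, x76_1_1, x77_4_0, x78_2_1]
                  · linarith only [C.f22_6, C.f33_7, s3, x2_4_0, x4_1_1, x74_1_1, x76_1_1, x77_5_0]
              · rcases d_f22_5 with ⟨x88_0_0, x88_0_1⟩ | ⟨x88_1_0, x88_1_1⟩
                · linarith only [C.b3, C.f22_4, x4_1_0, x75_1_1, x88_0_1]
                · rcases d_f23_3 with ⟨x89_0_0, x89_0_1⟩ | ⟨x89_1_0, x89_1_1⟩ | ⟨x89_2_0, x89_2_1⟩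
                  · rcases d_f23_7 with ⟨x90_0_0, x90_0_1⟩ | ⟨x90_1_0, x90_1_1⟩ | ⟨x90_2_0, x90_2_1⟩
                    · linarith only [C.f11_0, C.f11_1, C.f23_5, C.f33_0, C.f33_3, C.o0, s1, s2, x89_0_1, x90_0_1]
                    · rcases d_f23_10 with ⟨x91_0_0, x91_0_1⟩ | ⟨x91_1_0, x91_1_1⟩
                      · linarith only [C.f23_9, C.o1, x4_1_1, x90_1_1, x91_0_1]
                      · rcases d_p11_23B with x92_0_0 | x92_1_0 | x92_2_0 | x92_3_0 | x92_4_0 | x92_5_0
                        · linarith only [e0, x92_0_0]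
                        · linarith only [C.f11_0, C.f23_1, C.f33_0, C.o0, e0, s1, x89_0_1, x92_1_0]
                        · linarith only [C.f11_0, C.f11_1, C.f11_2, C.f33_1, C.f33_3, C.f33_6, C.o0, e0, s1, s3, x2_4_0, x92_2_0]
                        · linarith only [C.f11_0, C.f33_0, C.o0, s1, x89_0_1, x92_3_0]
                        · rcases d_p13_23A with x93_0_0 | x93_1_0 | x93_2_0 | x93_3_0 | x93_4_0 | x93_5_0
                          · linarith only [C.o0, e0, x93_0_0]
                          · linarith only [C.f11_0, C.f11_1, C.f11_2, C.f33_1, C.f33_3, C.f33_6, C.o0, e0, s1, s3, x2_4_0, x93_1_0]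
                          · linarith only [C.f11_0, C.f23_1, C.f33_0, C.o0, e0, s1, x89_0_1, x93_2_0]
                          · linarith only [C.f11_0, C.f33_0, C.o0, s1, x1_0_1, x89_0_1, x93_3_0]
                          · rcases d_tmzp with x94_0_0 | x94_1_0 | x94_2_0 | x94_3_0 | x94_4_0 | x94_5_0
                            · linarith only [C.f11_0, C.f33_0, C.o0, s1, x94_0_0]
                            · linarith only [C.f11_0, C.f23_1, C.f33_0, C.o0, s1, x89_0_1, x94_1_0]
                            · linarith only [C.f11_0, C.f11_1, C.f33_4, C.o0, s2, x1_0_1, x73_0_1, x90_1_1, x93_4_0, x94_2_0]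
                            · linarith only [e0, x94_3_0]
                            · rcases d_p13_22B with x95_0_0 | x95_1_0 | x95_2_0 | x95_3_0 | x95_4_0 | x95_5_0
                              · linarith only [C.o0, e0, x95_0_0]
                              · linarith only [C.f11_0, C.f11_1, C.f11_2, C.f33_1, C.f33_3, C.f33_6, C.o0, e0, s1, s3, x2_4_0, x95_1_0]
                              · linarith only [C.f11_1, C.f23_1, C.f33_0, C.f33_3, C.o0, e0, s1, s2, x89_0_1, x90_1_1, x92_4_0, x95_2_0]
                              · linarith only [C.f11_0, C.f23_1, C.f33_0, C.f33_3, C.o0, s1, s2, x1_0_1, x75_1_1, x89_0_1, x90_1_1, x92_4_0, x94_4_0, x95_3_0]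
                              · rcases d_p22_33A with x96_0_0 | x96_1_0 | x96_2_0 | x96_3_0 | x96_4_0
                                · linarith only [C.f11_1, C.f23_1, C.f33_0, C.f33_3, C.o0, e0, s1, s2, x89_0_1, x90_1_1, x92_4_0, x96_0_0]
                                · linarith only [C.f11_0, C.f33_1, C.o0, e0, s1, x96_1_0]
                                · linarith only [C.f11_0, C.f11_1, C.f23_1, C.f33_0, C.f33_3, C.o0, s1, s2, x75_1_1, x89_0_1, x90_1_1, x92_4_0, x96_2_0]
                                · rcases d_t12 with ⟨x97_0_0, x97_0_1⟩ | ⟨x97_1_0, x97_1_1⟩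
                                  · linarith only [C.f11_0, C.f11_1, s2, x1_0_1, x73_0_1, x88_1_1, x94_4_0, x95_4_0, x96_3_0, x97_0_1]
                                  · linarith only [x94_4_0, x97_1_1]
                                · linarith only [C.f11_0, C.f11_1, C.f11_2, C.f22_6, C.f33_7, s3, x88_1_1, x94_4_0, x96_4_0]
                              · rcases d_p13_33A with x98_0_0 | x98_1_0 | x98_2_0 | x98_3_0 | x98_4_0 | x98_5_0
                                · linarith only [C.o0, e0, x98_0_0]
                                · linarith only [C.f11_0, C.f11_1, C.f11_2, C.f33_1, C.f33_3, C.f33_6, C.o0, e0, s1, s3, x2_4_0, x98_1_0]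
                                · linarith only [C.f11_0, C.f33_1, C.o0, e0, s1, x98_2_0]
                                · linarith only [C.f11_0, C.o0, s1, x1_0_1, x98_3_0]
                                · linarith only [C.a3, C.f11_0, C.f11_1, C.o0, s2, x1_0_1, x73_0_1, x98_4_0]
                                · linarith only [C.f11_0, C.f11_1, C.f11_2, C.f22_6, C.f33_7, s3, x74_1_1, x88_1_1, x94_4_0, x95_5_0, x98_5_0]
                            · linarith only [x4_1_1, x94_5_0]
                          · linarith only [C.f33_7, s3, x2_4_0, x74_1_1, x91_1_1, x93_5_0]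
                        · rcases d_p13_33A with x99_0_0 | x99_1_0 | x99_2_0 | x99_3_0 | x99_4_0 | x99_5_0
                          · linarith only [C.o0, e0, x99_0_0]
                          · linarith only [C.f11_0, C.f11_1, C.f11_2, C.f33_1, C.f33_3, C.f33_6, C.o0, e0, s1, s3, x2_4_0, x99_1_0]
                          · linarith only [C.f11_0, C.f33_1, C.o0, e0, s1, x99_2_0]
                          · linarith only [C.f11_0, C.o0, s1, x1_0_1, x99_3_0]
                          · linarith only [C.a3, C.f11_0, C.f11_1, C.o0, s2, x1_0_1, x73_0_1, x99_4_0]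
                          · linarith only [C.f33_7, s3, x74_1_1, x91_1_1, x92_5_0, x99_5_0]
                    · linarith only [C.f11_0, C.f11_1, C.f11_2, C.f13_4, C.f23_5, C.f33_4, C.f33_6, C.o0, s2, s3, x1_0_1, x2_4_0, x73_0_1, x90_2_1]
                  · rcases d_f23_7 with ⟨x100_0_0, x100_0_1⟩ | ⟨x100_1_0, x100_1_1⟩ | ⟨x100_2_0, x100_2_1⟩
                    · linarith only [C.b3, C.f23_5, x100_0_1, x4_1_0, x89_1_1]
                    · rcases d_f23_10 with ⟨x101_0_0, x101_0_1⟩ | ⟨x101_1_0, x101_1_1⟩
                      · linarith only [C.f23_9, C.o1, x100_1_1, x101_0_1, x4_1_1]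
                      · rcases d_f33_5 with ⟨x102_0_0, x102_0_1⟩ | ⟨x102_1_0, x102_1_1⟩
                        · rcases d_p22_33A with x103_0_0 | x103_1_0 | x103_2_0 | x103_3_0 | x103_4_0
                          · linarith only [e0, x103_0_0, x4_1_0]
                          · linarith only [C.f11_0, C.f33_1, C.o0, e0, s1, x103_1_0]
                          · rcases d_p11_13B with x104_0_0 | x104_1_0 | x104_2_0 | x104_3_0 | x104_4_0 | x104_5_0
                            · linarith only [e0, x104_0_0]
                            · linarith only [C.o0, e0, x104_1_0]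
                            · linarith only [C.b3, C.f11_0, C.f11_1, C.f11_2, C.f33_1, C.f33_4, C.f33_6, C.o0, e0, s1, s3, x104_2_0, x2_4_0, x4_1_0]
                            · linarith only [s1, x103_2_0, x104_3_0, x1_0_1, x4_1_0, x75_1_1]
                            · linarith only [C.b3, C.f11_1, s1, x103_2_0, x104_4_0, x1_0_1, x4_1_0, x73_0_1, x75_1_1]
                            · rcases d_p13_33A with x105_0_0 | x105_1_0 | x105_2_0 | x105_3_0 | x105_4_0 | x105_5_0
                              · linarith only [C.o0, e0, x105_0_0]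
                              · linarith only [C.b3, C.f11_0, C.f11_1, C.f11_2, C.f33_1, C.f33_4, C.f33_6, C.o0, e0, s1, s3, x105_1_0, x2_4_0, x4_1_0]
                              · linarith only [C.f11_0, C.f33_1, C.o0, e0, s1, x105_2_0]
                              · linarith only [C.f11_0, s1, x103_2_0, x105_3_0, x1_0_1, x4_1_0, x75_1_1]
                              · linarith only [C.f11_0, C.f11_1, C.f33_3, C.o0, s2, x103_2_0, x105_4_0, x1_0_1, x4_1_0, x73_0_1, x75_1_1]
                              · linarith only [C.f33_7, s3, x104_5_0, x105_5_0, x74_1_1]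
                          · rcases d_t12 with ⟨x106_0_0, x106_0_1⟩ | ⟨x106_1_0, x106_1_1⟩
                            · rcases d_p11_23B with x107_0_0 | x107_1_0 | x107_2_0 | x107_3_0 | x107_4_0 | x107_5_0
                              · linarith only [e0, x107_0_0]
                              · linarith only [C.b3, C.f11_0, C.o0, e0, s1, x102_0_1, x103_3_0, x107_1_0, x4_1_0, x88_1_1]
                              · linarith only [C.b3, C.f11_0, C.f11_1, C.f11_2, C.f33_1, C.f33_4, C.f33_6, C.o0, e0, s1, s3, x107_2_0, x2_4_0, x4_1_0]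
                              · linarith only [C.f11_0, C.f11_1, C.o0, s1, s2, x102_0_1, x103_3_0, x107_3_0, x4_1_0, x88_1_1, x89_1_1]
                              · linarith only [C.f11_1, s1, x100_1_1, x102_0_1, x103_3_0, x106_0_1, x107_4_0, x88_1_1]
                              · rcases d_p13_33A with x108_0_0 | x108_1_0 | x108_2_0 | x108_3_0 | x108_4_0 | x108_5_0
                                · linarith only [C.o0, e0, x108_0_0]
                                · linarith only [C.b3, C.f11_0, C.f11_1, C.f11_2, C.f33_1, C.f33_4, C.f33_6, C.o0, e0, s1, s3, x108_1_0, x2_4_0, x4_1_0]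
                                · linarith only [C.f11_0, C.f33_1, C.o0, e0, s1, x108_2_0]
                                · linarith only [C.f11_1, C.f11_2, s1, x101_1_1, x102_0_1, x103_3_0, x106_0_1, x107_5_0, x108_3_0, x1_0_1, x4_1_1, x88_1_1]
                                · linarith only [C.f11_0, C.o0, s1, x102_0_1, x106_0_1, x108_4_0, x1_0_1, x73_0_1]
                                · linarith only [C.f33_7, s3, x101_1_1, x107_5_0, x108_5_0, x74_1_1]
                            · rcases d_p11_23B with x109_0_0 | x109_1_0 | x109_2_0 | x109_3_0 | x109_4_0 | x109_5_0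
                              · linarith only [e0, x109_0_0]
                              · linarith only [C.f11_0, C.o0, e0, s1, x102_0_1, x103_3_0, x106_1_1, x109_1_0, x4_1_0, x88_1_1]
                              · linarith only [C.f11_0, C.f11_1, C.f11_2, C.f33_1, C.f33_4, C.f33_6, C.o0, e0, s1, s3, x106_1_1, x109_2_0, x2_4_0, x4_1_0]
                              · linarith only [C.f11_0, C.f11_1, C.o0, s1, s2, x102_0_1, x103_3_0, x109_3_0, x4_1_0, x88_1_1, x89_1_1]
                              · linarith only [C.f11_0, C.f11_1, C.o0, s1, x100_1_1, x102_0_1, x103_3_0, x106_1_1, x109_4_0, x88_1_1]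
                              · linarith only [C.f11_0, C.f11_1, C.f11_2, x101_1_1, x106_1_1, x109_5_0, x4_1_1]
                          · linarith only [C.f22_6, s3, x103_4_0, x2_4_0, x3_1_1, x4_1_1, x88_1_1]
                        · rcases d_p22_33A with x110_0_0 | x110_1_0 | x110_2_0 | x110_3_0 | x110_4_0
                          · linarith only [e0, x110_0_0, x4_1_0]
                          · linarith only [C.f11_0, C.f33_1, C.o0, e0, s1, x110_1_0]
                          · rcases d_p11_13B with x111_0_0 | x111_1_0 | x111_2_0 | x111_3_0 | x111_4_0 | x111_5_0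
                            · linarith only [e0, x111_0_0]
                            · linarith only [C.o0, e0, x111_1_0]
                            · linarith only [C.f11_0, C.f11_1, C.f11_2, C.f33_1, C.f33_3, C.f33_6, C.o0, e0, s1, s3, x111_2_0, x2_4_0]
                            · linarith only [s1, x110_2_0, x111_3_0, x1_0_1, x4_1_0, x75_1_1]
                            · linarith only [C.b3, C.f11_1, s1, x110_2_0, x111_4_0, x1_0_1, x4_1_0, x73_0_1, x75_1_1]
                            · rcases d_p13_33A with x112_0_0 | x112_1_0 | x112_2_0 | x112_3_0 | x112_4_0 | x112_5_0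
                              · linarith only [C.o0, e0, x112_0_0]
                              · linarith only [C.f11_0, C.f11_1, C.f11_2, C.f33_1, C.f33_3, C.f33_6, C.o0, e0, s1, s3, x112_1_0, x2_4_0]
                              · linarith only [C.f11_0, C.f33_1, C.o0, e0, s1, x112_2_0]
                              · linarith only [C.f11_0, s1, x110_2_0, x112_3_0, x1_0_1, x4_1_0, x75_1_1]
                              · linarith only [C.f11_0, C.f11_1, C.f33_3, C.o0, s2, x110_2_0, x112_4_0, x1_0_1, x4_1_0, x73_0_1, x75_1_1]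
                              · linarith only [C.f33_7, s3, x111_5_0, x112_5_0, x74_1_1]
                          · rcases d_p11_23B with x113_0_0 | x113_1_0 | x113_2_0 | x113_3_0 | x113_4_0 | x113_5_0
                            · linarith only [e0, x113_0_0]
                            · linarith only [C.f11_0, C.f33_1, C.o0, e0, s1, x102_1_1, x110_3_0, x113_1_0, x4_1_0, x88_1_1]
                            · linarith only [C.f11_0, C.f11_2, C.f13_4, C.f33_1, C.f33_3, C.f33_6, C.o0, e0, s1, s2, s3, x110_3_0, x113_2_0, x1_0_1, x2_4_0, x4_1_0, x73_0_1, x88_1_1]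
                            · linarith only [C.f11_0, C.f33_1, C.o0, s1, x102_1_1, x110_3_0, x113_3_0, x4_1_0, x88_1_1, x89_1_1]
                            · rcases d_tmzp with x114_0_0 | x114_1_0 | x114_2_0 | x114_3_0 | x114_4_0 | x114_5_0
                              · linarith only [C.f11_0, C.f33_0, C.o0, s1, x114_0_0]
                              · linarith only [C.b3, C.f11_1, C.f33_1, s1, x100_1_1, x102_1_1, x110_3_0, x113_4_0, x114_1_0, x4_1_0, x88_1_1]
                              · linarith only [C.f33_4, C.o1, s2, x100_1_1, x113_4_0, x114_2_0]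
                              · linarith only [e0, x114_3_0]
                              · rcases d_p13_22B with x115_0_0 | x115_1_0 | x115_2_0 | x115_3_0 | x115_4_0 | x115_5_0
                                · linarith only [C.o0, e0, x115_0_0]
                                · linarith only [C.f11_0, C.f11_1, C.f11_2, C.f33_1, C.f33_3, C.f33_6, C.o0, e0, s1, s3, x115_1_0, x2_4_0]
                                · linarith only [e0, x115_2_0, x4_1_0]
                                · linarith only [C.o0, x115_3_0, x1_0_1, x4_1_0, x75_1_1]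
                                · rcases d_t12 with ⟨x116_0_0, x116_0_1⟩ | ⟨x116_1_0, x116_1_1⟩
                                  · linarith only [C.f11_0, C.f11_1, s2, x110_3_0, x114_4_0, x115_4_0, x116_0_1, x1_0_1, x73_0_1, x88_1_1]
                                  · linarith only [x114_4_0, x116_1_1]
                                · rcases d_p13_33A with x117_0_0 | x117_1_0 | x117_2_0 | x117_3_0 | x117_4_0 | x117_5_0
                                  · linarith only [C.o0, e0, x117_0_0]
                                  · linarith only [C.f11_0, C.f11_1, C.f11_2, C.f33_1, C.f33_3, C.f33_6, C.o0, e0, s1, s3, x117_1_0, x2_4_0]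
                                  · linarith only [C.f11_0, C.f33_1, C.o0, e0, s1, x117_2_0]
                                  · linarith only [C.f11_0, C.o0, s1, x117_3_0, x1_0_1]
                                  · linarith only [C.a3, C.f11_0, C.f11_1, C.o0, s2, x117_4_0, x1_0_1, x73_0_1]
                                  · linarith only [C.f11_0, C.f11_1, C.f11_2, C.f22_6, C.o2, s3, x114_4_0, x115_5_0, x117_5_0, x74_1_1, x88_1_1]
                              · linarith only [x114_5_0, x4_1_1]
                            · rcases d_p13_33A with x118_0_0 | x118_1_0 | x118_2_0 | x118_3_0 | x118_4_0 | x118_5_0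
                              · linarith only [C.o0, e0, x118_0_0]
                              · linarith only [C.f11_0, C.f11_2, C.f13_4, C.f33_1, C.f33_3, C.f33_6, C.o0, e0, s1, s2, s3, x110_3_0, x118_1_0, x1_0_1, x2_4_0, x4_1_0, x73_0_1, x88_1_1]
                              · linarith only [C.f11_0, C.f33_1, C.o0, e0, s1, x118_2_0]
                              · linarith only [C.f11_0, C.o0, s1, x118_3_0, x1_0_1]
                              · linarith only [C.a3, C.f11_0, C.f11_1, C.o0, s2, x118_4_0, x1_0_1, x73_0_1]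
                              · linarith only [C.f33_7, s3, x101_1_1, x113_5_0, x118_5_0, x74_1_1]
                          · linarith only [C.f22_6, s3, x110_4_0, x2_4_0, x3_1_1, x4_1_1, x88_1_1]
                    · linarith only [C.f11_0, C.f11_1, C.f11_2, C.f13_4, C.f23_5, C.f33_4, C.f33_6, C.o0, s2, s3, x100_2_1, x1_0_1, x2_4_0, x73_0_1]
                  · linarith only [C.f11_0, C.f11_1, C.f11_2, C.f13_4, C.f23_1, C.f33_4, C.f33_6, C.o0, s2, s3, x1_0_1, x2_4_0, x73_0_1, x89_2_1]
          · rcases d_f13_8 with ⟨x119_0_0, x119_0_1⟩ | ⟨x119_1_0, x119_1_1⟩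
            · linarith only [C.a4, C.b3, C.f11_0, C.f11_1, C.f11_2, C.f13_7, C.o1, s3, x119_0_1, x2_4_0, x4_1_1, x73_1_1]
            · rcases d_tpmz with x120_0_0 | x120_1_0 | x120_2_0 | x120_3_0 | x120_4_0 | x120_5_0
              · linarith only [C.o0, e0, x120_0_0]
              · linarith only [C.f11_0, C.f11_1, C.f11_2, C.f13_0, C.f13_3, C.f33_4, C.f33_6, C.o0, s2, s3, x120_1_0, x2_4_0, x73_1_1]
              · rcases d_p13_33A with x121_0_0 | x121_1_0 | x121_2_0 | x121_3_0 | x121_4_0 | x121_5_0
                · linarith only [C.o0, e0, x121_0_0]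
                · linarith only [C.f11_0, C.f11_1, C.f11_2, C.f33_1, C.f33_3, C.o0, C.o1, e0, s1, s2, s3, x121_1_0, x2_4_0, x4_1_1]
                · linarith only [C.f11_0, C.f33_1, C.o0, e0, s1, x121_2_0]
                · linarith only [C.f11_0, C.o0, s1, x121_3_0, x1_0_1]
                · linarith only [C.f11_2, C.f33_4, C.o1, s2, x121_4_0, x2_4_0, x3_1_1, x4_1_1, x73_1_1]
                · linarith only [C.f11_2, C.f33_4, C.o1, s2, x119_1_1, x120_2_0, x121_5_0, x2_4_0, x3_1_1, x4_1_1]
              · linarith only [C.f11_0, C.f33_0, C.o0, s1, x120_3_0]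
              · linarith only [C.f11_0, C.f11_1, C.f11_2, C.f13_0, C.f13_3, C.f33_1, C.o0, s1, x120_4_0, x2_4_0, x3_1_1, x4_1_1, x73_1_1]
              · linarith only [x120_5_0, x4_1_1]
  · linarith only [C.f11_0, C.f13_0, C.f33_1, C.o0, C.o2, s1, x1_1_1]

end Pool.Agent.Helper13.TQ
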