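import Pool.Agent.Helper89.TQ.Ctx

set_option autoImplicit false
set_option linter.all false
set_option maxHeartbeats 4000000

namespace Pool.Agent.Helper13.TQ

open Pool.Agent.Helper89.TQ

theorem c0_13_22_33_k3 {n1 n2 n3 A1 A2 A3 B1 B2 B3 m11_1 m11_2 m11_3 m13_1 m13_2 m13_3 m22_1 m22_2 m22_3 m23_1 m23_2 m23_3 m33_1 m33_2 m33_3 : ℤ}
    (C : Ctx0 n1 n2 n3 A1 A2 A3 B1 B2 B3 m11_1 m11_2 m11_3 m13_1 m13_2 m13_3 m22_1 m22_2 m22_3 m23_1 m23_2 m23_3 m33_1 m33_2 m33_3)
    (e0 : 0 < A1)
    (e1 : 0 < B3)
    (e2 : 0 < B2)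
    (e3 : 0 < A3)
    (s1 : 3 * A1 + 0 * B1 ≤ m13_1 + m22_1 + m33_1)
    (s2 : 3 * A2 + 0 * B2 ≤ m13_2 + m22_2 + m33_2)
    (s3 : 3 * A3 + 0 * B3 ≤ m13_3 + m22_3 + m33_3) : F1 n1 n2 n3 A1 A2 A3 B1 B2 B3 ∨ F2 n1 n2 n3 A1 A2 A3 B1 B2 B3 := by
  by_contra hG
  have hG0 : ¬ F1 n1 n2 n3 A1 A2 A3 B1 B2 B3 := fun h => hG (Or.inl h)
  unfold F1 at hG0
  have hG1 : ¬ F2 n1 n2 n3 A1 A2 A3 B1 B2 B3 := fun h => hG (Or.inr h)
  unfold F2 at hG1
  have d_t12 : (-A1 + 1 ≤ 0 ∧ -A1 + A2 - n2 + 1 ≤ 0) ∨ (-B1 + 1 ≤ 0 ∧ -B1 + B2 - n2 + 1 ≤ 0) := by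
    have h := C.t12
    omega
  have d_t23 : (A1 - A2 + 1 ≤ 0 ∧ -A2 + A3 - n3 + 1 ≤ 0) ∨ (B1 - B2 + 1 ≤ 0 ∧ -B2 + B3 - n3 + 1 ≤ 0) := by
    have h := C.t23
    omega
  have d_f13_2 : (-A1 + m13_1 + 1 ≤ 0 ∧ A1 - m13_1 - 1 ≤ 0) ∨ (-B3 + m13_1 + 1 ≤ 0 ∧ B3 - m13_1 - 1 ≤ 0) := by
    have h := C.f13_2
    omega
  have d_f13_5 : (-m13_1 + m13_2 - n2 ≤ 0 ∧ m13_1 - m13_2 + n2 ≤ 0) ∨ (-B3 + m13_2 + 1 ≤ 0 ∧ B3 - m13_2 - 1 ≤ 0) := by
    have h := C.f13_5
    omega
  have d_f13_8 : (-m13_2 + m13_3 - n3 ≤ 0 ∧ m13_2 - m13_3 + n3 ≤ 0) ∨ (-B3 + m13_3 + 1 ≤ 0 ∧ B3 - m13_3 - 1 ≤ 0) := by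
    have h := C.f13_8
    omega
  have d_f22_2 : (m22_1 - n1 ≤ 0 ∧ -m22_1 + n1 ≤ 0) ∨ (-B2 + m22_1 + 1 ≤ 0 ∧ B2 - m22_1 - 1 ≤ 0) := by
    have h := C.f22_2
    omega
  have d_f22_5 : (-m22_1 + m22_2 - n2 ≤ 0 ∧ m22_1 - m22_2 + n2 ≤ 0) ∨ (-B2 + m22_2 + 1 ≤ 0 ∧ B2 - m22_2 - 1 ≤ 0) := by
    have h := C.f22_5
    omega
  have d_f23_3 : (m23_1 - n1 ≤ 0 ∧ -m23_1 + n1 ≤ 0) ∨ (-A2 + m23_1 + 1 ≤ 0 ∧ A2 - m23_1 - 1 ≤ 0) ∨ (-B3 + m23_1 + 1 ≤ 0 ∧ B3 - m23_1 - 1 ≤ 0) := by
    have h := C.f23_3
    omega
  have d_f23_7 : (-m23_1 + m23_2 - n2 ≤ 0 ∧ m23_1 - m23_2 + n2 ≤ 0) ∨ (-A2 + m23_2 + 1 ≤ 0 ∧ A2 - m23_2 - 1 ≤ 0) ∨ (-B3 + m23_2 + 1 ≤ 0 ∧ B3 - m23_2 - 1 ≤ 0) := by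
    have h := C.f23_7
    omega
  have d_f23_10 : (-m23_2 + m23_3 - n3 ≤ 0 ∧ m23_2 - m23_3 + n3 ≤ 0) ∨ (-B3 + m23_3 + 1 ≤ 0 ∧ B3 - m23_3 - 1 ≤ 0) := by
    have h := C.f23_10
    omega
  have d_f33_2 : (m33_1 - n1 ≤ 0 ∧ -m33_1 + n1 ≤ 0) ∨ (-A3 + m33_1 + 1 ≤ 0 ∧ A3 - m33_1 - 1 ≤ 0) := by
    have h := C.f33_2
    omega
  have d_f33_5 : (-m33_1 + m33_2 - n2 ≤ 0 ∧ m33_1 - m33_2 + n2 ≤ 0) ∨ (-A3 + m33_2 + 1 ≤ 0 ∧ A3 - m33_2 - 1 ≤ 0) := by
    have h := C.f33_5
    omega
  have d_f33_8 : (-m33_2 + m33_3 - n3 ≤ 0 ∧ m33_2 - m33_3 + n3 ≤ 0) ∨ (-A3 + m33_3 + 1 ≤ 0 ∧ A3 - m33_3 - 1 ≤ 0) := by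
    have h := C.f33_8
    omega
  have d_p11_23B : B1 ≤ 0 ∨ A2 ≤ 0 ∨ B3 ≤ 0 ∨ (-2) * B1 + m11_1 + m23_1 + 1 ≤ 0 ∨ (-2) * B2 + m11_2 + m23_2 + 1 ≤ 0 ∨ (-2) * B3 + m11_3 + m23_3 + 1 ≤ 0 := by
    have h := C.p11_23B
    omega
  have d_p11_33A : B1 ≤ 0 ∨ A3 ≤ 0 ∨ (-2) * A1 + m11_1 + m33_1 + 1 ≤ 0 ∨ (-2) * A2 + m11_2 + m33_2 + 1 ≤ 0 ∨ (-2) * A3 + m11_3 + m33_3 + 1 ≤ 0 := by
    have h := C.p11_33A
    omega
  have d_p11_33B : B1 ≤ 0 ∨ A3 ≤ 0 ∨ (-2) * B1 + m11_1 + m33_1 + 1 ≤ 0 ∨ (-2) * B2 + m11_2 + m33_2 + 1 ≤ 0 ∨ (-2) * B3 + m11_3 + m33_3 + 1 ≤ 0 := by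
    have h := C.p11_33B
    omega
  have d_p13_22A : A1 ≤ 0 ∨ B3 ≤ 0 ∨ B2 ≤ 0 ∨ (-2) * A1 + m13_1 + m22_1 + 1 ≤ 0 ∨ (-2) * A2 + m13_2 + m22_2 + 1 ≤ 0 ∨ (-2) * A3 + m13_3 + m22_3 + 1 ≤ 0 := by
    have h := C.p13_22A
    omega
  have d_p13_22B : A1 ≤ 0 ∨ B3 ≤ 0 ∨ B2 ≤ 0 ∨ (-2) * B1 + m13_1 + m22_1 + 1 ≤ 0 ∨ (-2) * B2 + m13_2 + m22_2 + 1 ≤ 0 ∨ (-2) * B3 + m13_3 + m22_3 + 1 ≤ 0 := by
    have h := C.p13_22B
    omega
  have d_p13_23A : A1 ≤ 0 ∨ B3 ≤ 0 ∨ A2 ≤ 0 ∨ (-2) * A1 + m13_1 + m23_1 + 1 ≤ 0 ∨ (-2) * A2 + m13_2 + m23_2 + 1 ≤ 0 ∨ (-2) * A3 + m13_3 + m23_3 + 1 ≤ 0 := by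
    have h := C.p13_23A
    omega
  have d_p13_33A : A1 ≤ 0 ∨ B3 ≤ 0 ∨ A3 ≤ 0 ∨ (-2) * A1 + m13_1 + m33_1 + 1 ≤ 0 ∨ (-2) * A2 + m13_2 + m33_2 + 1 ≤ 0 ∨ (-2) * A3 + m13_3 + m33_3 + 1 ≤ 0 := by
    have h := C.p13_33A
    omega
  have d_p22_33A : B2 ≤ 0 ∨ A3 ≤ 0 ∨ (-2) * A1 + m22_1 + m33_1 + 1 ≤ 0 ∨ (-2) * A2 + m22_2 + m33_2 + 1 ≤ 0 ∨ (-2) * A3 + m22_3 + m33_3 + 1 ≤ 0 := by
    have h := C.p22_33A
    omega
  have d_p23_33A : A2 ≤ 0 ∨ B3 ≤ 0 ∨ A3 ≤ 0 ∨ (-2) * A1 + m23_1 + m33_1 + 1 ≤ 0 ∨ (-2) * A2 + m23_2 + m33_2 + 1 ≤ 0 ∨ (-2) * A3 + m23_3 + m33_3 + 1 ≤ 0 := by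
    have h := C.p23_33A
    omega
  have d_tzmp : A1 - A2 + n2 ≤ 0 ∨ -A2 + A3 - 1 ≤ 0 ∨ -B1 + B2 ≤ 0 ∨ B2 - B3 + n3 - 1 ≤ 0 := by
    have h := C.tzmp
    omega
  have d_tzpm : -A1 + A2 ≤ 0 ∨ A2 - A3 + n3 - 1 ≤ 0 ∨ B1 - B2 + n2 ≤ 0 ∨ -B2 + B3 - 1 ≤ 0 ∨ (-A2 + B2 + 1 ≤ 0 ∧ -A3 + B3 - 1 ≤ 0) := by
    have h := C.tzpm
    omega
  have d_tpmm : A1 ≤ 0 ∨ A1 - A2 + n2 - 1 ≤ 0 ∨ -B1 + n1 ≤ 0 ∨ -B1 + B2 - 1 ≤ 0 ∨ -A3 + B3 - 1 ≤ 0 := by
    have h := C.tpmm
    omega
  have d_tpmz : A1 ≤ 0 ∨ A1 - A2 + n2 - 1 ≤ 0 ∨ -A2 + A3 ≤ 0 ∨ -B1 + n1 ≤ 0 ∨ -B1 + B2 - 1 ≤ 0 ∨ B2 - B3 + n3 ≤ 0 := by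
    have h := C.tpmz
    omega
  have d_g1 : A1 ≤ 0 ∨ (-2) * A1 + n1 ≤ 0 ∨ n2 - 2 ≤ 0 ∨ (-2) * A1 + n3 - 2 ≤ 0 ∨ 2 * A1 - n3 + 4 ≤ 0 ∨ -A1 + A2 ≤ 0 ∨ A1 - A2 + 2 ≤ 0 ∨ -A1 - A2 + A3 ≤ 0 ∨ A1 + A2 - A3 + 2 ≤ 0 ∨ B1 + 1 ≤ 0 ∨ -B1 + 1 ≤ 0 ∨ -B1 + B2 ≤ 0 ∨ B1 - B2 + 2 ≤ 0 ∨ (-2) * A1 - B2 + B3 - 1 ≤ 0 ∨ 2 * A1 + B2 - B3 + 3 ≤ 0 := by
    have h := hG1
    omega
  rcases d_t23 with ⟨x1_0_0, x1_0_1⟩ | ⟨x1_1_0, x1_1_1⟩
  · rcases d_f13_2 with ⟨x2_0_0, x2_0_1⟩ | ⟨x2_1_0, x2_1_1⟩
    · rcases d_f22_2 with ⟨x3_0_0, x3_0_1⟩ | ⟨x3_1_0, x3_1_1⟩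
      · rcases d_p13_22A with x4_0_0 | x4_1_0 | x4_2_0 | x4_3_0 | x4_4_0 | x4_5_0
        · linarith only [C.b0, C.o0, x4_0_0]
        · linarith only [C.b0, C.f13_1, C.f13_4, C.f22_1, C.f22_4, C.f33_1, C.f33_4, C.o0, C.o1, C.o2, s1, s2, x4_1_0]
        · linarith only [C.b0, C.f13_0, C.f22_1, C.f33_0, C.o0, s1, x3_0_1, x4_2_0]
        · linarith only [C.f33_0, s1, x2_0_1, x3_0_1, x4_3_0]
        · rcases d_f23_3 with ⟨x5_0_0, x5_0_1⟩ | ⟨x5_1_0, x5_1_1⟩ | ⟨x5_2_0, x5_2_1⟩
          · rcases d_f23_7 with ⟨x6_0_0, x6_0_1⟩ | ⟨x6_1_0, x6_1_1⟩ | ⟨x6_2_0, x6_2_1⟩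
            · linarith only [C.b3, C.f13_0, C.f13_3, C.f22_0, C.f22_4, C.f23_5, C.f33_0, C.f33_3, C.o0, s1, s2, x5_0_1, x6_0_1]
            · rcases d_f23_10 with ⟨x7_0_0, x7_0_1⟩ | ⟨x7_1_0, x7_1_1⟩
              · rcases d_p23_33A with x8_0_0 | x8_1_0 | x8_2_0 | x8_3_0 | x8_4_0 | x8_5_0
                · linarith only [C.b0, C.f13_0, C.f22_1, C.f33_0, C.o0, C.o1, s1, x3_0_1, x8_0_0]
                · linarith only [C.b0, C.f13_1, C.f13_4, C.f22_1, C.f22_4, C.f33_1, C.f33_4, C.o0, C.o1, C.o2, s1, s2, x8_1_0]
                · linarith only [C.b0, C.f13_0, C.f22_1, C.f33_1, C.f33_4, C.o0, C.o1, s1, s2, x4_4_0, x8_2_0]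
                · linarith only [C.f13_0, C.f22_0, s1, x5_0_1, x8_3_0]
                · linarith only [s2, x4_4_0, x6_1_1, x8_4_0]
                · rcases d_f33_8 with ⟨x9_0_0, x9_0_1⟩ | ⟨x9_1_0, x9_1_1⟩
                  · linarith only [C.b5, C.f13_7, C.f22_4, C.f22_6, C.f33_7, C.o1, s2, s3, x4_4_0, x9_0_1]
                  · linarith only [C.b5, C.f13_7, C.f22_4, C.f22_6, C.o1, s3, x6_1_1, x7_0_1, x8_5_0, x9_1_1]
              · rcases d_p23_33A with x10_0_0 | x10_1_0 | x10_2_0 | x10_3_0 | x10_4_0 | x10_5_0
                · linarith only [C.b0, C.f13_0, C.f22_1, C.f33_0, C.o0, C.o1, s1, x10_0_0, x3_0_1]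
                · linarith only [C.b0, C.f13_1, C.f13_4, C.f22_1, C.f22_4, C.f33_1, C.f33_4, C.o0, C.o1, C.o2, s1, s2, x10_1_0]
                · linarith only [C.b0, C.f13_0, C.f22_1, C.f33_1, C.f33_4, C.o0, C.o1, s1, s2, x10_2_0, x4_4_0]
                · linarith only [C.f13_0, C.f22_0, s1, x10_3_0, x5_0_1]
                · linarith only [s2, x10_4_0, x4_4_0, x6_1_1]
                · rcases d_p22_33A with x11_0_0 | x11_1_0 | x11_2_0 | x11_3_0 | x11_4_0
                  · linarith only [C.b0, C.f13_0, C.f22_1, C.f33_0, C.o0, s1, x11_0_0, x3_0_1]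
                  · linarith only [C.b0, C.f13_0, C.f22_1, C.f33_1, C.f33_4, C.o0, C.o1, s1, s2, x11_1_0, x4_4_0]
                  · linarith only [C.f13_0, s1, x11_2_0]
                  · rcases d_p13_23A with x12_0_0 | x12_1_0 | x12_2_0 | x12_3_0 | x12_4_0 | x12_5_0
                    · linarith only [C.b0, C.o0, x12_0_0]
                    · linarith only [C.b0, C.f13_1, C.f13_4, C.f22_1, C.f22_4, C.f33_1, C.f33_4, C.o0, C.o1, C.o2, s1, s2, x12_1_0]
                    · linarith only [C.b0, C.f13_0, C.f22_1, C.f33_0, C.o0, C.o1, s1, x12_2_0, x3_0_1]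
                    · linarith only [C.f22_0, C.f33_0, s1, x12_3_0, x2_0_1, x5_0_1]
                    · linarith only [s2, x11_3_0, x12_4_0, x6_1_1]
                    · rcases d_f13_8 with ⟨x13_0_0, x13_0_1⟩ | ⟨x13_1_0, x13_1_1⟩
                      · linarith only [C.f13_7, C.f22_4, C.f22_6, C.o1, s2, s3, x10_5_0, x11_3_0, x12_5_0, x13_0_1, x7_1_1]
                      · linarith only [C.o2, x12_5_0, x13_1_1, x7_1_1]
                  · rcases d_f33_8 with ⟨x14_0_0, x14_0_1⟩ | ⟨x14_1_0, x14_1_1⟩
                    · linarith only [C.b5, C.f13_7, C.f33_7, C.o1, s2, s3, x11_4_0, x14_0_1, x4_4_0]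
                    · linarith only [C.f13_7, s3, x10_5_0, x11_4_0, x14_1_1, x7_1_1]
            · linarith only [C.f13_4, C.f22_4, C.f23_5, C.f33_4, C.o1, C.o2, s2, x6_2_1]
          · rcases d_f23_7 with ⟨x15_0_0, x15_0_1⟩ | ⟨x15_1_0, x15_1_1⟩ | ⟨x15_2_0, x15_2_1⟩
            · linarith only [C.b3, C.f13_0, C.f22_1, C.f23_5, C.f33_0, C.o0, s1, x15_0_1, x3_0_1, x5_1_1]
            · rcases d_f23_10 with ⟨x16_0_0, x16_0_1⟩ | ⟨x16_1_0, x16_1_1⟩
              · rcases d_p23_33A with x17_0_0 | x17_1_0 | x17_2_0 | x17_3_0 | x17_4_0 | x17_5_0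
                · linarith only [C.b0, C.f13_0, C.f22_1, C.f33_0, C.o0, C.o1, s1, x17_0_0, x3_0_1]
                · linarith only [C.b0, C.f13_1, C.f13_4, C.f22_1, C.f22_4, C.f33_1, C.f33_4, C.o0, C.o1, C.o2, s1, s2, x17_1_0]
                · linarith only [C.b0, C.f13_0, C.f22_1, C.f33_1, C.f33_4, C.o0, C.o1, s1, s2, x17_2_0, x4_4_0]
                · linarith only [C.f13_0, C.f22_1, C.o1, s1, x17_3_0, x5_1_1]
                · linarith only [s2, x15_1_1, x17_4_0, x4_4_0]
                · rcases d_f33_8 with ⟨x18_0_0, x18_0_1⟩ | ⟨x18_1_0, x18_1_1⟩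
                  · linarith only [C.b5, C.f13_7, C.f22_4, C.f22_6, C.f33_7, C.o1, s2, s3, x18_0_1, x4_4_0]
                  · linarith only [C.b5, C.f13_7, C.f22_4, C.f22_6, C.o1, s3, x15_1_1, x16_0_1, x17_5_0, x18_1_1]
              · rcases d_p23_33A with x19_0_0 | x19_1_0 | x19_2_0 | x19_3_0 | x19_4_0 | x19_5_0
                · linarith only [C.b0, C.f13_0, C.f22_1, C.f33_0, C.o0, C.o1, s1, x19_0_0, x3_0_1]
                · linarith only [C.b0, C.f13_1, C.f13_4, C.f22_1, C.f22_4, C.f33_1, C.f33_4, C.o0, C.o1, C.o2, s1, s2, x19_1_0]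
                · linarith only [C.b0, C.f13_0, C.f22_1, C.f33_1, C.f33_4, C.o0, C.o1, s1, s2, x19_2_0, x4_4_0]
                · linarith only [C.f13_0, C.f22_1, C.o1, s1, x19_3_0, x5_1_1]
                · linarith only [s2, x15_1_1, x19_4_0, x4_4_0]
                · rcases d_p22_33A with x20_0_0 | x20_1_0 | x20_2_0 | x20_3_0 | x20_4_0
                  · linarith only [C.b0, C.f13_0, C.f22_1, C.f33_0, C.o0, s1, x20_0_0, x3_0_1]
                  · linarith only [C.b0, C.f13_0, C.f22_1, C.f33_1, C.f33_4, C.o0, C.o1, s1, s2, x20_1_0, x4_4_0]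
                  · linarith only [C.f13_0, s1, x20_2_0]
                  · rcases d_f22_5 with ⟨x21_0_0, x21_0_1⟩ | ⟨x21_1_0, x21_1_1⟩
                    · linarith only [C.f13_0, C.f13_3, C.f33_0, s1, s2, x20_3_0, x21_0_1, x3_0_1, x4_4_0]
                    · linarith only [C.f22_1, C.f23_0, s2, x20_3_0, x21_1_1, x3_0_1, x4_4_0, x5_1_1]
                  · rcases d_f33_8 with ⟨x22_0_0, x22_0_1⟩ | ⟨x22_1_0, x22_1_1⟩
                    · linarith only [C.b5, C.f13_7, C.f33_7, C.o1, s2, s3, x20_4_0, x22_0_1, x4_4_0]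
                    · linarith only [C.f13_7, s3, x16_1_1, x19_5_0, x20_4_0, x22_1_1]
            · linarith only [C.f13_4, C.f22_4, C.f23_5, C.f33_4, C.o1, C.o2, s2, x15_2_1]
          · linarith only [C.f13_4, C.f22_1, C.f22_4, C.f23_0, C.f33_4, C.o1, C.o2, s2, x3_0_1, x5_2_1]
        · linarith only [C.f33_7, s3, x4_5_0]
      · rcases d_f23_3 with ⟨x23_0_0, x23_0_1⟩ | ⟨x23_1_0, x23_1_1⟩ | ⟨x23_2_0, x23_2_1⟩
        · rcases d_f23_7 with ⟨x24_0_0, x24_0_1⟩ | ⟨x24_1_0, x24_1_1⟩ | ⟨x24_2_0, x24_2_1⟩
          · linarith only [C.b3, C.f13_0, C.f13_3, C.f22_0, C.f22_4, C.f23_5, C.f33_0, C.f33_3, C.o0, s1, s2, x23_0_1, x24_0_1]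
          · rcases d_f23_10 with ⟨x25_0_0, x25_0_1⟩ | ⟨x25_1_0, x25_1_1⟩
            · rcases d_p13_22A with x26_0_0 | x26_1_0 | x26_2_0 | x26_3_0 | x26_4_0 | x26_5_0
              · linarith only [C.b0, C.o0, x26_0_0]
              · linarith only [C.b0, C.f13_1, C.f13_4, C.f22_1, C.f22_4, C.f33_1, C.f33_4, C.o0, C.o1, C.o2, s1, s2, x26_1_0]
              · linarith only [C.b0, C.b5, C.f13_0, C.f22_1, C.f23_1, C.f23_9, C.f33_0, C.o0, s1, x23_0_1, x24_1_1, x25_0_1, x26_2_0]
              · linarith only [C.b5, C.f23_1, C.f23_9, C.f33_0, s1, x23_0_1, x24_1_1, x25_0_1, x26_3_0, x2_0_1, x3_1_1]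
              · rcases d_p23_33A with x27_0_0 | x27_1_0 | x27_2_0 | x27_3_0 | x27_4_0 | x27_5_0
                · linarith only [C.b0, C.f13_0, C.f22_1, C.f23_1, C.f33_0, C.o0, C.o1, s1, x23_0_1, x27_0_0]
                · linarith only [C.b0, C.f13_1, C.f13_4, C.f22_1, C.f22_4, C.f33_1, C.f33_4, C.o0, C.o1, C.o2, s1, s2, x27_1_0]
                · linarith only [C.b0, C.f13_0, C.f22_1, C.f33_1, C.f33_4, C.o0, C.o1, s1, s2, x26_4_0, x27_2_0]
                · linarith only [C.f13_0, C.f22_0, s1, x23_0_1, x27_3_0]
                · linarith only [s2, x24_1_1, x26_4_0, x27_4_0]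
                · rcases d_f33_8 with ⟨x28_0_0, x28_0_1⟩ | ⟨x28_1_0, x28_1_1⟩
                  · linarith only [C.b5, C.f13_7, C.f22_4, C.f22_6, C.f33_7, C.o1, s2, s3, x26_4_0, x28_0_1]
                  · linarith only [C.b5, C.f13_7, C.f22_4, C.f22_6, C.o1, s3, x24_1_1, x25_0_1, x27_5_0, x28_1_1]
              · linarith only [C.f33_7, s3, x26_5_0]
            · rcases d_f13_8 with ⟨x29_0_0, x29_0_1⟩ | ⟨x29_1_0, x29_1_1⟩
              · rcases d_f13_5 with ⟨x30_0_0, x30_0_1⟩ | ⟨x30_1_0, x30_1_1⟩
                · linarith only [C.b3, C.b5, C.f13_7, C.o0, x29_0_1, x2_0_1, x30_0_1]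
                · linarith only [C.b5, C.f13_7, C.f22_4, C.f22_6, C.f33_4, C.f33_6, C.o1, s2, s3, x29_0_1, x30_1_1]
              · rcases d_p13_23A with x31_0_0 | x31_1_0 | x31_2_0 | x31_3_0 | x31_4_0 | x31_5_0
                · linarith only [C.b0, C.o0, x31_0_0]
                · linarith only [C.b0, C.f13_1, C.f13_4, C.f22_1, C.f22_4, C.f33_1, C.f33_4, C.o0, C.o1, C.o2, s1, s2, x31_1_0]
                · linarith only [C.b0, C.f13_0, C.f22_1, C.f23_1, C.f33_0, C.o0, C.o1, s1, x23_0_1, x31_2_0]
                · linarith only [C.f22_0, C.f33_0, s1, x23_0_1, x2_0_1, x31_3_0]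
                · rcases d_p22_33A with x32_0_0 | x32_1_0 | x32_2_0 | x32_3_0 | x32_4_0
                  · linarith only [e2, x32_0_0]
                  · linarith only [C.b0, C.f13_0, C.f22_1, C.f22_4, C.f33_1, C.f33_4, C.o0, C.o1, s1, s2, x24_1_1, x31_4_0, x32_1_0]
                  · linarith only [C.f13_0, s1, x32_2_0]
                  · linarith only [s2, x24_1_1, x31_4_0, x32_3_0]
                  · rcases d_f22_5 with ⟨x33_0_0, x33_0_1⟩ | ⟨x33_1_0, x33_1_1⟩
                    · linarith only [C.b3, C.f13_0, C.f13_3, C.f22_4, C.f23_1, C.f33_0, C.f33_3, C.o0, s1, s2, x23_0_1, x33_0_1, x3_1_1]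
                    · rcases d_f33_8 with ⟨x34_0_0, x34_0_1⟩ | ⟨x34_1_0, x34_1_1⟩
                      · linarith only [C.f13_6, C.f13_7, C.f22_6, C.f23_8, s2, s3, x25_1_1, x31_4_0, x32_4_0, x34_0_1]
                      · linarith only [C.b5, C.f13_7, C.f22_6, s3, x32_4_0, x33_1_1, x34_1_1]
                · linarith only [C.o2, x25_1_1, x29_1_1, x31_5_0]
          · linarith only [C.f13_4, C.f22_4, C.f23_5, C.f33_4, C.o1, C.o2, s2, x24_2_1]
        · rcases d_f23_7 with ⟨x35_0_0, x35_0_1⟩ | ⟨x35_1_0, x35_1_1⟩ | ⟨x35_2_0, x35_2_1⟩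
          · linarith only [C.a3, C.f23_5, x1_0_0, x23_1_1, x35_0_1]
          · rcases d_f23_10 with ⟨x36_0_0, x36_0_1⟩ | ⟨x36_1_0, x36_1_1⟩
            · rcases d_tzpm with x37_0_0 | x37_1_0 | x37_2_0 | x37_3_0 | ⟨x37_4_0, x37_4_1⟩
              · linarith only [x1_0_0, x37_0_0]
              · linarith only [C.b5, C.f13_7, C.f22_4, C.f22_6, C.f33_7, C.o1, s3, x37_1_0]
              · rcases d_tpmm with x38_0_0 | x38_1_0 | x38_2_0 | x38_3_0 | x38_4_0
                · linarith only [e0, x38_0_0]
                · rcases d_p22_33A with x39_0_0 | x39_1_0 | x39_2_0 | x39_3_0 | x39_4_0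
                  · linarith only [C.b5, C.f23_9, e0, x1_0_0, x35_1_1, x36_0_1, x39_0_0]
                  · linarith only [C.b0, C.f13_0, C.f13_3, C.f22_1, C.f22_4, C.f33_1, C.f33_4, C.o0, C.o1, s1, s2, x37_2_0, x39_1_0]
                  · linarith only [C.f13_0, s1, x39_2_0]
                  · linarith only [C.f13_0, C.f13_3, s2, x38_1_0, x39_3_0]
                  · rcases d_f33_8 with ⟨x40_0_0, x40_0_1⟩ | ⟨x40_1_0, x40_1_1⟩
                    · linarith only [C.b5, C.f13_0, C.f13_3, C.f13_7, C.f22_6, C.o1, s2, s3, x38_1_0, x39_4_0, x40_0_1]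
                    · rcases d_f22_5 with ⟨x41_0_0, x41_0_1⟩ | ⟨x41_1_0, x41_1_1⟩
                      · linarith only [C.b3, C.b5, C.f22_4, C.f23_9, C.o0, x1_0_0, x35_1_1, x36_0_1, x3_1_1, x41_0_1]
                      · linarith only [C.b5, C.f13_7, C.f22_6, s3, x39_4_0, x40_1_1, x41_1_1]
                · linarith only [C.f13_0, C.f13_3, C.f22_1, C.f22_4, C.f23_0, C.f33_0, C.f33_3, C.o1, s1, s2, x23_1_1, x37_2_0, x38_2_0]
                · linarith only [C.b5, C.f23_9, C.o0, x1_0_0, x35_1_1, x36_0_1, x38_3_0]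
                · linarith only [C.f13_7, C.f22_4, C.f22_6, C.f23_9, C.f33_7, C.o1, s3, x35_1_1, x36_0_1, x38_4_0]
              · linarith only [C.f13_4, C.f13_7, C.f22_4, C.f22_6, C.f23_9, C.f33_4, C.f33_7, C.o1, s2, s3, x35_1_1, x36_0_1, x37_3_0]
              · linarith only [C.b5, C.f23_9, x35_1_1, x36_0_1, x37_4_0]
            · rcases d_f33_5 with ⟨x42_0_0, x42_0_1⟩ | ⟨x42_1_0, x42_1_1⟩
              · rcases d_f33_2 with ⟨x43_0_0, x43_0_1⟩ | ⟨x43_1_0, x43_1_1⟩
                · rcases d_f13_5 with ⟨x44_0_0, x44_0_1⟩ | ⟨x44_1_0, x44_1_1⟩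
                  · rcases d_f22_5 with ⟨x45_0_0, x45_0_1⟩ | ⟨x45_1_0, x45_1_1⟩
                    · linarith only [C.a3, C.f22_4, x1_0_0, x3_1_1, x45_0_1]
                    · rcases d_p13_33A with x46_0_0 | x46_1_0 | x46_2_0 | x46_3_0 | x46_4_0 | x46_5_0
                      · linarith only [C.b0, C.o0, x46_0_0]
                      · linarith only [C.b0, C.b3, C.f13_1, C.f22_1, C.f33_4, C.o0, C.o2, s1, x42_0_1, x46_1_0]
                      · linarith only [C.b0, C.b3, C.f13_0, C.f22_1, C.f33_4, C.o0, s1, x42_0_1, x46_2_0]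
                      · linarith only [C.f22_0, s1, x2_0_1, x43_0_1, x46_3_0]
                      · linarith only [C.b3, C.f22_0, C.f22_4, C.o0, s1, s2, x2_0_1, x42_0_1, x43_0_1, x44_0_1, x46_4_0]
                      · rcases d_f13_8 with ⟨x47_0_0, x47_0_1⟩ | ⟨x47_1_0, x47_1_1⟩
                        · linarith only [C.b3, C.b5, C.f13_7, C.o0, x2_0_1, x44_0_1, x47_0_1]
                        · rcases d_p22_33A with x48_0_0 | x48_1_0 | x48_2_0 | x48_3_0 | x48_4_0
                          · linarith only [e2, x48_0_0]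
                          · linarith only [C.b0, C.b3, C.f13_0, C.f22_1, C.f33_4, C.o0, s1, x42_0_1, x48_1_0]
                          · linarith only [C.f13_0, s1, x48_2_0]
                          · rcases d_p13_23A with x49_0_0 | x49_1_0 | x49_2_0 | x49_3_0 | x49_4_0 | x49_5_0
                            · linarith only [C.b0, C.o0, x49_0_0]
                            · linarith only [C.b0, C.b3, C.f13_1, C.f22_1, C.f33_4, C.o0, C.o2, s1, x42_0_1, x49_1_0]
                            · linarith only [C.b0, C.b3, C.f13_0, C.f22_1, C.o0, e2, s1, x42_0_1, x45_1_1, x48_3_0, x49_2_0]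
                            · linarith only [C.f13_0, C.f13_3, C.f22_1, s1, s2, x23_1_1, x42_0_1, x45_1_1, x48_3_0, x49_3_0]
                            · linarith only [s2, x35_1_1, x48_3_0, x49_4_0]
                            · linarith only [C.o2, x36_1_1, x47_1_1, x49_5_0]
                          · rcases d_f33_8 with ⟨x50_0_0, x50_0_1⟩ | ⟨x50_1_0, x50_1_1⟩
                            · linarith only [C.b3, C.b5, C.f13_0, C.f13_7, C.f22_0, C.f22_4, C.f22_6, C.f33_7, C.o0, s1, s3, x42_0_1, x43_0_1, x50_0_1]
                            · linarith only [s3, x46_5_0, x48_4_0, x50_1_1]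
                  · linarith only [C.f13_0, C.f13_3, C.f22_0, C.f33_4, C.o2, s1, x42_0_1, x43_0_1, x44_1_1]
                · linarith only [C.a3, C.f33_4, x1_0_0, x42_0_1, x43_1_1]
              · rcases d_p13_22A with x51_0_0 | x51_1_0 | x51_2_0 | x51_3_0 | x51_4_0 | x51_5_0
                · linarith only [C.b0, C.o0, x51_0_0]
                · linarith only [C.b0, C.f13_1, C.f13_4, C.f22_1, C.f22_4, C.f33_1, C.f33_4, C.o0, C.o1, C.o2, s1, s2, x51_1_0]
                · linarith only [e2, x51_2_0]
                · rcases d_p13_33A with x52_0_0 | x52_1_0 | x52_2_0 | x52_3_0 | x52_4_0 | x52_5_0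
                  · linarith only [C.b0, C.o0, x52_0_0]
                  · linarith only [C.b0, C.f13_1, C.f13_4, C.f22_1, C.f22_4, C.f33_1, C.f33_4, C.o0, C.o1, C.o2, s1, s2, x52_1_0]
                  · linarith only [C.a4, C.b0, C.f13_0, C.f22_1, C.f33_1, C.o0, C.o1, s1, x52_2_0]
                  · linarith only [s1, x2_0_1, x51_3_0, x52_3_0]
                  · linarith only [C.f22_4, C.o1, s2, x52_4_0]
                  · rcases d_f13_8 with ⟨x53_0_0, x53_0_1⟩ | ⟨x53_1_0, x53_1_1⟩
                    · rcases d_f13_5 with ⟨x54_0_0, x54_0_1⟩ | ⟨x54_1_0, x54_1_1⟩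
                      · linarith only [C.b3, C.b5, C.f13_7, C.o0, x2_0_1, x53_0_1, x54_0_1]
                      · linarith only [C.b5, C.f13_7, C.f22_4, C.f22_6, C.f33_4, C.o1, s2, s3, x52_5_0, x53_0_1, x54_1_1]
                    · rcases d_tzpm with x55_0_0 | x55_1_0 | x55_2_0 | x55_3_0 | ⟨x55_4_0, x55_4_1⟩
                      · linarith only [x1_0_0, x55_0_0]
                      · linarith only [C.b5, C.f13_7, C.f22_4, C.f22_6, C.f33_7, C.o1, s3, x55_1_0]
                      · rcases d_tpmz with x56_0_0 | x56_1_0 | x56_2_0 | x56_3_0 | x56_4_0 | x56_5_0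
                        · linarith only [e0, x56_0_0]
                        · rcases d_p22_33A with x57_0_0 | x57_1_0 | x57_2_0 | x57_3_0 | x57_4_0
                          · linarith only [e2, x57_0_0]
                          · linarith only [C.b0, C.f13_0, C.f13_3, C.f22_1, C.f22_4, C.f33_1, C.f33_4, C.o0, C.o1, s1, s2, x55_2_0, x57_1_0]
                          · linarith only [C.f13_0, s1, x57_2_0]
                          · linarith only [C.f13_0, C.f13_3, s2, x56_1_0, x57_3_0]
                          · rcases d_f33_8 with ⟨x58_0_0, x58_0_1⟩ | ⟨x58_1_0, x58_1_1⟩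
                            · linarith only [C.b5, C.f13_4, C.f13_7, C.f22_6, C.o1, s2, s3, x42_1_1, x52_5_0, x57_4_0, x58_0_1]
                            · linarith only [s3, x52_5_0, x57_4_0, x58_1_1]
                        · rcases d_f33_8 with ⟨x59_0_0, x59_0_1⟩ | ⟨x59_1_0, x59_1_1⟩
                          · linarith only [C.f13_4, C.f22_4, C.f22_6, C.f33_7, C.o1, s2, s3, x42_1_1, x52_5_0, x53_1_1, x59_0_1]
                          · linarith only [C.f13_4, C.f22_4, C.f33_4, C.o1, s2, x52_5_0, x53_1_1, x56_2_0, x59_1_1]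
                        · linarith only [C.f13_0, C.f22_1, C.f23_0, C.f33_0, C.o0, C.o1, s1, x23_1_1, x56_3_0]
                        · rcases d_t12 with ⟨x60_0_0, x60_0_1⟩ | ⟨x60_1_0, x60_1_1⟩
                          · linarith only [x1_0_0, x55_2_0, x56_4_0, x60_0_1]
                          · linarith only [x55_2_0, x60_1_1]
                        · rcases d_f33_8 with ⟨x61_0_0, x61_0_1⟩ | ⟨x61_1_0, x61_1_1⟩
                          · linarith only [C.f13_4, C.f22_4, C.f22_6, C.o1, s2, s3, x42_1_1, x52_5_0, x53_1_1, x56_5_0, x61_0_1]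
                          · linarith only [C.f22_4, C.f22_6, s3, x52_5_0, x53_1_1, x56_5_0, x61_1_1]
                      · linarith only [C.f13_4, C.f22_4, C.f33_4, C.o1, C.o2, s2, x55_3_0]
                      · rcases d_p13_23A with x62_0_0 | x62_1_0 | x62_2_0 | x62_3_0 | x62_4_0 | x62_5_0
                        · linarith only [C.b0, C.o0, x62_0_0]
                        · linarith only [C.b0, C.f13_1, C.f13_4, C.f22_1, C.f22_4, C.f33_1, C.f33_4, C.o0, C.o2, s1, s2, x55_4_0, x62_1_0]
                        · linarith only [e2, x55_4_0, x62_2_0]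
                        · rcases d_g1 with x63_0_0 | x63_1_0 | x63_2_0 | x63_3_0 | x63_4_0 | x63_5_0 | x63_6_0 | x63_7_0 | x63_8_0 | x63_9_0 | x63_10_0 | x63_11_0 | x63_12_0 | x63_13_0 | x63_14_0
                          · linarith only [C.b0, C.o0, x63_0_0]
                          · rcases d_tpmz with x64_0_0 | x64_1_0 | x64_2_0 | x64_3_0 | x64_4_0 | x64_5_0
                            · linarith only [C.f13_0, C.f22_1, C.f23_0, C.f33_0, s1, x23_1_1, x55_4_0, x63_1_0, x64_0_0]
                            · rcases d_p22_33A with x65_0_0 | x65_1_0 | x65_2_0 | x65_3_0 | x65_4_0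
                              · linarith only [C.f13_0, C.f22_1, C.f33_0, s1, x63_1_0, x65_0_0]
                              · linarith only [C.b0, C.b1, C.f13_0, C.f13_4, C.f22_1, C.f22_4, C.f33_1, C.f33_4, s1, s2, x55_4_0, x55_4_1, x63_1_0, x65_1_0]
                              · linarith only [C.f13_0, s1, x65_2_0]
                              · linarith only [C.f13_0, C.f13_3, s2, x64_1_0, x65_3_0]
                              · linarith only [C.f13_7, s3, x55_4_1, x65_4_0]
                            · linarith only [C.f13_4, C.f22_4, C.f33_4, s2, x55_4_0, x55_4_1, x64_2_0]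
                            · linarith only [C.f13_0, C.f22_0, C.f33_0, C.o0, s1, x64_3_0]
                            · rcases d_p11_33A with x66_0_0 | x66_1_0 | x66_2_0 | x66_3_0 | x66_4_0
                              · linarith only [C.f13_0, C.f22_1, C.f33_0, s1, x63_1_0, x64_4_0, x66_0_0]
                              · linarith only [C.b0, C.b1, C.f13_0, C.f13_4, C.f22_1, C.f22_4, C.f33_1, C.f33_4, s1, s2, x55_4_0, x55_4_1, x63_1_0, x66_1_0]
                              · linarith only [C.f11_0, C.f13_0, C.f22_1, s1, x64_4_0, x66_2_0]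
                              · linarith only [C.b3, C.f11_0, C.f11_1, C.f13_0, C.f13_3, C.f22_1, C.f22_4, C.f33_1, s1, s2, x42_1_1, x64_4_0, x66_3_0]
                              · linarith only [C.b3, C.f11_0, C.f11_1, C.f11_2, C.f13_7, C.f22_4, C.f22_6, s3, x55_4_1, x66_4_0]
                            · linarith only [C.f13_7, C.f22_4, C.f22_6, C.f33_7, s3, x55_4_1, x64_5_0]
                          · rcases d_p22_33A with x67_0_0 | x67_1_0 | x67_2_0 | x67_3_0 | x67_4_0
                            · linarith only [e2, x67_0_0]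
                            · linarith only [C.b0, C.f13_0, C.f13_4, C.f22_1, C.f22_4, C.f33_1, C.f33_4, C.o0, s1, s2, x55_4_0, x55_4_1, x67_1_0]
                            · linarith only [C.f13_0, s1, x67_2_0]
                            · linarith only [C.f13_0, C.f13_3, s2, x1_0_0, x63_2_0, x67_3_0]
                            · linarith only [C.f13_7, s3, x55_4_1, x67_4_0]
                          · rcases d_p11_33B with x68_0_0 | x68_1_0 | x68_2_0 | x68_3_0 | x68_4_0
                            · rcases d_tpmz with x69_0_0 | x69_1_0 | x69_2_0 | x69_3_0 | x69_4_0 | x69_5_0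
                              · linarith only [C.b5, C.f13_4, C.f13_7, C.f22_4, C.f22_6, C.f33_4, C.f33_7, s2, s3, x55_4_0, x63_3_0, x69_0_0]
                              · rcases d_p22_33A with x70_0_0 | x70_1_0 | x70_2_0 | x70_3_0 | x70_4_0
                                · linarith only [C.b5, C.f13_0, C.f13_7, C.f22_1, C.f22_4, C.f22_6, C.f33_1, C.f33_7, s1, s3, x63_3_0, x70_0_0]
                                · linarith only [C.b5, C.f13_0, C.f13_4, C.f22_1, C.f22_4, C.f33_1, C.f33_4, s1, s2, x55_4_0, x63_3_0, x70_1_0]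
                                · linarith only [C.f13_0, s1, x70_2_0]
                                · linarith only [C.f13_0, C.f13_3, s2, x69_1_0, x70_3_0]
                                · linarith only [C.f13_7, s3, x55_4_1, x70_4_0]
                              · linarith only [C.f13_4, C.f22_4, C.f33_4, s2, x55_4_0, x55_4_1, x69_2_0]
                              · linarith only [C.f13_0, C.f22_1, C.f23_0, C.f33_0, C.o0, s1, x23_1_1, x55_4_0, x69_3_0]
                              · linarith only [C.b5, C.f13_7, C.f22_1, C.f22_4, C.f22_6, C.f33_1, C.f33_7, s1, s3, x1_0_0, x23_1_1, x62_3_0, x63_3_0, x68_0_0, x69_4_0]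
                              · linarith only [C.f13_7, C.f22_4, C.f22_6, C.f33_7, s3, x55_4_1, x69_5_0]
                            · linarith only [C.b5, C.f13_0, C.f13_4, C.f22_1, C.f22_4, C.f33_1, C.f33_4, s1, s2, x55_4_0, x63_3_0, x68_1_0]
                            · linarith only [C.f11_0, C.f22_1, C.o0, s1, x23_1_1, x55_4_0, x62_3_0, x68_2_0]
                            · linarith only [C.b3, C.f11_0, C.f11_1, C.f13_4, C.f22_4, s2, x42_1_1, x55_4_0, x55_4_1, x68_3_0]
                            · rcases d_tpmz with x71_0_0 | x71_1_0 | x71_2_0 | x71_3_0 | x71_4_0 | x71_5_0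
                              · linarith only [C.b0, C.b5, C.f11_0, C.f11_1, C.f11_2, C.f13_0, C.f13_3, C.f13_4, C.f13_7, C.f22_4, C.f22_6, C.f33_4, s2, s3, x55_4_0, x63_3_0, x68_4_0, x71_0_0]
                              · rcases d_p22_33A with x72_0_0 | x72_1_0 | x72_2_0 | x72_3_0 | x72_4_0
                                · linarith only [C.b5, C.f13_0, C.f13_7, C.f22_1, C.f22_4, C.f22_6, C.f33_1, C.f33_7, s1, s3, x63_3_0, x72_0_0]
                                · linarith only [C.b5, C.f13_0, C.f13_4, C.f22_1, C.f22_4, C.f33_1, C.f33_4, s1, s2, x55_4_0, x63_3_0, x72_1_0]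
                                · linarith only [C.f13_0, s1, x72_2_0]
                                · linarith only [C.f13_0, C.f13_3, s2, x71_1_0, x72_3_0]
                                · linarith only [C.f13_7, s3, x55_4_1, x72_4_0]
                              · linarith only [C.f13_4, C.f22_4, C.f33_4, s2, x55_4_0, x55_4_1, x71_2_0]
                              · linarith only [C.f13_0, C.f22_1, C.f23_0, C.f33_0, C.o0, s1, x23_1_1, x55_4_0, x71_3_0]
                              · rcases d_p11_33A with x73_0_0 | x73_1_0 | x73_2_0 | x73_3_0 | x73_4_0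
                                · linarith only [C.f13_0, C.f13_7, C.f22_1, C.f22_4, C.f22_6, C.f33_1, C.f33_7, s1, s3, x55_4_1, x63_3_0, x71_4_0, x73_0_0]
                                · linarith only [C.b5, C.f13_0, C.f13_4, C.f22_1, C.f22_4, C.f33_1, C.f33_4, s1, s2, x55_4_0, x63_3_0, x73_1_0]
                                · linarith only [C.f11_0, C.f13_0, C.f22_1, s1, x71_4_0, x73_2_0]
                                · linarith only [C.b3, C.f11_0, C.f11_1, C.f13_0, C.f13_3, C.f22_1, C.f22_4, C.f33_1, s1, s2, x42_1_1, x71_4_0, x73_3_0]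
                                · linarith only [C.b3, C.f11_0, C.f11_1, C.f11_2, C.f13_7, C.f22_4, C.f22_6, s3, x55_4_1, x73_4_0]
                              · linarith only [C.f13_7, C.f22_4, C.f22_6, C.f33_7, s3, x55_4_1, x71_5_0]
                          · rcases d_p13_22B with x74_0_0 | x74_1_0 | x74_2_0 | x74_3_0 | x74_4_0 | x74_5_0
                            · linarith only [C.b0, C.o0, x74_0_0]
                            · linarith only [C.b0, C.b4, C.f13_4, C.f22_4, C.f33_4, C.o0, C.o2, s2, x1_0_0, x74_1_0]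
                            · linarith only [e2, x74_2_0]
                            · rcases d_p11_23B with x75_0_0 | x75_1_0 | x75_2_0 | x75_3_0 | x75_4_0 | x75_5_0
                              · linarith only [C.o0, e2, x2_0_1, x3_1_1, x74_3_0, x75_0_0]
                              · linarith only [C.b0, C.o0, x1_0_0, x75_1_0]
                              · linarith only [C.b0, C.b4, C.f13_4, C.f22_4, C.f33_4, C.o0, C.o2, s2, x1_0_0, x75_2_0]
                              · linarith only [C.f11_0, C.o0, x1_0_0, x23_1_1, x75_3_0]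
                              · linarith only [C.a3, C.f11_0, C.f11_1, C.o0, x1_0_0, x2_0_1, x35_1_1, x3_1_1, x74_3_0, x75_4_0]
                              · linarith only [C.a3, C.f11_0, C.f11_1, C.f11_2, C.f22_4, C.f22_6, C.o0, s3, x1_0_0, x2_0_1, x36_1_1, x3_1_1, x52_5_0, x55_4_1, x74_3_0, x75_5_0]
                            · rcases d_p22_33A with x76_0_0 | x76_1_0 | x76_2_0 | x76_3_0 | x76_4_0
                              · linarith only [e2, x76_0_0]
                              · linarith only [C.b0, C.f33_4, C.o0, s2, x1_0_0, x55_4_0, x74_4_0, x76_1_0]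
                              · linarith only [C.f13_0, s1, x76_2_0]
                              · rcases d_f22_5 with ⟨x77_0_0, x77_0_1⟩ | ⟨x77_1_0, x77_1_1⟩
                                · linarith only [C.f13_3, C.f33_1, s1, s2, x1_0_0, x23_1_1, x42_1_1, x62_3_0, x76_3_0, x77_0_1]
                                · linarith only [s2, x55_4_0, x74_4_0, x76_3_0, x77_1_1]
                              · linarith only [C.f13_7, s3, x55_4_1, x76_4_0]
                            · rcases d_f22_5 with ⟨x78_0_0, x78_0_1⟩ | ⟨x78_1_0, x78_1_1⟩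
                              · linarith only [C.a3, C.f22_4, x1_0_0, x3_1_1, x78_0_1]
                              · rcases d_p22_33A with x79_0_0 | x79_1_0 | x79_2_0 | x79_3_0 | x79_4_0
                                · linarith only [e2, x79_0_0]
                                · linarith only [C.b0, C.f13_0, C.f22_1, C.f22_6, C.f33_1, C.o0, s1, x53_1_1, x55_4_1, x63_4_0, x74_5_0, x78_1_1, x79_1_0]
                                · linarith only [C.f13_0, s1, x79_2_0]
                                · linarith only [C.f22_6, e2, x23_1_1, x2_0_1, x42_1_1, x53_1_1, x55_4_1, x62_3_0, x63_4_0, x74_5_0, x78_1_1, x79_3_0]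
                                · linarith only [C.f13_7, s3, x55_4_1, x79_4_0]
                          · linarith only [x1_0_0, x63_5_0]
                          · linarith only [x23_1_1, x2_0_1, x62_3_0, x63_6_0]
                          · rcases d_p11_33B with x80_0_0 | x80_1_0 | x80_2_0 | x80_3_0 | x80_4_0
                            · rcases d_tpmz with x81_0_0 | x81_1_0 | x81_2_0 | x81_3_0 | x81_4_0 | x81_5_0
                              · linarith only [C.b0, C.o0, x81_0_0]
                              · linarith only [C.b3, C.f13_0, C.f13_3, C.f22_4, C.f33_4, s2, x63_7_0, x80_0_0, x81_1_0]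
                              · linarith only [C.f13_4, C.f22_4, C.f33_4, s2, x55_4_0, x55_4_1, x81_2_0]
                              · linarith only [C.f13_0, C.f22_1, C.f23_0, C.f33_0, C.o0, s1, x23_1_1, x55_4_0, x81_3_0]
                              · linarith only [C.f22_1, C.f33_1, s1, x23_1_1, x62_3_0, x63_7_0, x80_0_0, x81_4_0]
                              · linarith only [C.f13_7, C.f22_4, C.f22_6, C.f33_7, s3, x55_4_1, x81_5_0]
                            · linarith only [C.b0, C.f13_0, C.f13_4, C.f22_1, C.f22_4, C.f33_1, C.f33_4, C.o0, s1, s2, x55_4_0, x55_4_1, x80_1_0]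
                            · linarith only [C.f11_0, C.f22_1, C.o0, s1, x23_1_1, x55_4_0, x62_3_0, x80_2_0]
                            · linarith only [C.b3, C.f11_0, C.f11_1, C.f13_4, C.f22_4, s2, x42_1_1, x55_4_0, x55_4_1, x80_3_0]
                            · rcases d_tpmz with x82_0_0 | x82_1_0 | x82_2_0 | x82_3_0 | x82_4_0 | x82_5_0
                              · linarith only [e0, x82_0_0]
                              · rcases d_p22_33A with x83_0_0 | x83_1_0 | x83_2_0 | x83_3_0 | x83_4_0
                                · linarith only [C.f13_0, C.f13_3, C.f22_1, C.f22_4, C.f33_1, C.f33_4, s1, s2, x63_7_0, x82_1_0, x83_0_0]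
                                · linarith only [C.f13_0, C.f13_4, C.f22_1, C.f22_4, C.f33_1, C.f33_4, e0, s1, s2, x55_4_0, x55_4_1, x83_1_0]
                                · linarith only [C.f13_0, s1, x83_2_0]
                                · linarith only [C.f13_0, C.f13_3, s2, x82_1_0, x83_3_0]
                                · linarith only [C.f13_7, s3, x55_4_1, x83_4_0]
                              · linarith only [C.f13_4, C.f22_4, C.f33_4, s2, x55_4_0, x55_4_1, x82_2_0]
                              · linarith only [C.f13_0, C.f22_1, C.f23_0, C.f33_0, C.o0, s1, x23_1_1, x55_4_0, x82_3_0]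
                              · rcases d_p11_33A with x84_0_0 | x84_1_0 | x84_2_0 | x84_3_0 | x84_4_0
                                · linarith only [C.f11_0, C.f11_1, C.f11_2, C.f13_0, C.f13_3, C.f13_7, C.f22_1, C.f22_4, C.f22_6, C.f33_1, C.f33_4, s1, s2, s3, x55_4_1, x63_7_0, x80_4_0, x82_4_0, x84_0_0]
                                · linarith only [C.f13_0, C.f13_4, C.f22_1, C.f22_4, C.f33_1, C.f33_4, e0, s1, s2, x55_4_0, x55_4_1, x84_1_0]
                                · linarith only [C.f11_0, C.f13_0, C.f22_1, s1, x82_4_0, x84_2_0]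
                                · linarith only [C.b3, C.f11_0, C.f11_1, C.f13_0, C.f13_3, C.f22_1, C.f22_4, C.f33_1, s1, s2, x42_1_1, x82_4_0, x84_3_0]
                                · linarith only [C.b3, C.f11_0, C.f11_1, C.f11_2, C.f13_7, C.f22_4, C.f22_6, s3, x55_4_1, x84_4_0]
                              · linarith only [C.f13_7, C.f22_4, C.f22_6, C.f33_7, s3, x55_4_1, x82_5_0]
                          · rcases d_p22_33A with x85_0_0 | x85_1_0 | x85_2_0 | x85_3_0 | x85_4_0
                            · linarith only [e2, x85_0_0]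
                            · linarith only [C.b0, C.o0, x1_0_0, x63_8_0, x85_1_0]
                            · linarith only [C.f13_0, s1, x85_2_0]
                            · rcases d_f22_5 with ⟨x86_0_0, x86_0_1⟩ | ⟨x86_1_0, x86_1_1⟩
                              · linarith only [C.f13_3, C.f33_1, C.f33_3, e2, s2, x23_1_1, x3_1_1, x42_1_1, x62_3_0, x63_8_0, x85_3_0, x86_0_1]
                              · linarith only [e2, x23_1_1, x2_0_1, x42_1_1, x62_3_0, x63_8_0, x85_3_0, x86_1_1]
                            · linarith only [C.f13_7, s3, x55_4_1, x85_4_0]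
                          · linarith only [C.b0, x63_9_0]
                          · rcases d_p22_33A with x87_0_0 | x87_1_0 | x87_2_0 | x87_3_0 | x87_4_0
                            · linarith only [C.b2, x63_10_0, x87_0_0]
                            · linarith only [C.f22_1, C.f33_1, C.o0, s1, x23_1_1, x55_4_0, x62_3_0, x63_10_0, x87_1_0]
                            · linarith only [C.f13_0, s1, x87_2_0]
                            · rcases d_f22_5 with ⟨x88_0_0, x88_0_1⟩ | ⟨x88_1_0, x88_1_1⟩
                              · linarith only [C.f13_3, C.f33_1, s1, s2, x1_0_0, x23_1_1, x42_1_1, x62_3_0, x87_3_0, x88_0_1]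
                              · rcases d_p11_33B with x89_0_0 | x89_1_0 | x89_2_0 | x89_3_0 | x89_4_0
                                · linarith only [x63_10_0, x89_0_0]
                                · linarith only [C.f22_1, C.f33_1, C.o0, s1, x23_1_1, x55_4_0, x62_3_0, x63_10_0, x89_1_0]
                                · linarith only [C.f11_0, C.f22_1, C.o0, s1, x23_1_1, x55_4_0, x62_3_0, x89_2_0]
                                · linarith only [C.b3, C.f11_0, C.f11_1, C.f13_4, C.f22_4, s2, x42_1_1, x55_4_0, x55_4_1, x89_3_0]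
                                · rcases d_tpmz with x90_0_0 | x90_1_0 | x90_2_0 | x90_3_0 | x90_4_0 | x90_5_0
                                  · linarith only [C.o0, x63_10_0, x90_0_0]
                                  · linarith only [C.f13_3, C.f22_1, C.f33_1, s1, s2, x23_1_1, x42_1_1, x62_3_0, x87_3_0, x88_1_1, x90_1_0]
                                  · linarith only [C.f22_1, C.f33_1, s1, x23_1_1, x2_0_1, x55_4_0, x62_3_0, x90_2_0]
                                  · linarith only [C.f13_0, C.f22_1, C.f23_0, C.f33_0, C.o0, s1, x23_1_1, x55_4_0, x90_3_0]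
                                  · linarith only [C.f11_0, C.f11_1, C.f11_2, C.f13_3, C.f13_7, C.f22_1, C.f22_6, C.f33_1, s1, s2, s3, x23_1_1, x42_1_1, x55_4_1, x62_3_0, x87_3_0, x88_1_1, x89_4_0, x90_4_0]
                                  · linarith only [C.f22_1, C.f22_6, C.f33_1, s1, s3, x23_1_1, x2_0_1, x42_1_1, x52_5_0, x55_4_1, x62_3_0, x87_3_0, x90_5_0]
                            · linarith only [C.f13_7, s3, x55_4_1, x87_4_0]
                          · rcases d_p11_23B with x91_0_0 | x91_1_0 | x91_2_0 | x91_3_0 | x91_4_0 | x91_5_0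
                            · linarith only [e2, x63_11_0, x91_0_0]
                            · linarith only [e2, x55_4_0, x91_1_0]
                            · linarith only [C.b0, C.f13_1, C.f13_4, C.f22_1, C.f22_4, C.f33_1, C.f33_4, C.o0, C.o2, s1, s2, x55_4_0, x91_2_0]
                            · linarith only [C.f11_0, C.o0, x1_0_0, x23_1_1, x91_3_0]
                            · linarith only [C.a3, C.f11_0, C.f11_1, C.o0, x1_0_0, x35_1_1, x63_11_0, x91_4_0]
                            · linarith only [C.a3, C.f11_0, C.f11_1, C.f11_2, C.f13_7, C.f22_4, C.f22_6, C.f33_7, s3, x1_0_0, x36_1_1, x55_4_1, x63_11_0, x91_5_0]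
                          · rcases d_p22_33A with x92_0_0 | x92_1_0 | x92_2_0 | x92_3_0 | x92_4_0
                            · linarith only [C.b0, x63_12_0, x92_0_0]
                            · linarith only [C.b0, C.f13_4, C.f22_4, C.f33_4, s2, x55_4_0, x55_4_1, x63_12_0, x92_1_0]
                            · linarith only [C.f13_0, s1, x92_2_0]
                            · rcases d_tpmz with x93_0_0 | x93_1_0 | x93_2_0 | x93_3_0 | x93_4_0 | x93_5_0
                              · linarith only [C.b0, C.o0, x93_0_0]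
                              · linarith only [C.b3, C.f13_3, s2, x23_1_1, x62_3_0, x63_12_0, x92_3_0, x93_1_0]
                              · linarith only [C.f13_4, C.f22_4, C.f33_4, s2, x55_4_0, x55_4_1, x93_2_0]
                              · linarith only [C.f33_0, C.o0, s1, x51_3_0, x93_3_0]
                              · linarith only [x63_12_0, x93_4_0]
                              · linarith only [C.f22_4, C.f22_6, s3, x52_5_0, x55_4_1, x93_5_0]
                            · linarith only [C.f13_7, s3, x55_4_1, x92_4_0]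
                          · rcases d_p11_33B with x94_0_0 | x94_1_0 | x94_2_0 | x94_3_0 | x94_4_0
                            · rcases d_tpmz with x95_0_0 | x95_1_0 | x95_2_0 | x95_3_0 | x95_4_0 | x95_5_0
                              · linarith only [C.b0, C.o0, x95_0_0]
                              · rcases d_p22_33A with x96_0_0 | x96_1_0 | x96_2_0 | x96_3_0 | x96_4_0
                                · linarith only [C.f13_0, C.f22_1, C.f33_1, C.o2, s1, x63_13_0, x96_0_0]
                                · linarith only [C.b0, C.f13_0, C.f13_4, C.f22_1, C.f22_4, C.f33_1, C.f33_4, C.o0, s1, s2, x55_4_0, x55_4_1, x96_1_0]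
                                · linarith only [C.f13_0, s1, x96_2_0]
                                · linarith only [C.f13_0, C.f13_3, s2, x95_1_0, x96_3_0]
                                · linarith only [C.f13_7, s3, x55_4_1, x96_4_0]
                              · linarith only [C.f13_4, C.f22_4, C.f33_4, s2, x55_4_0, x55_4_1, x95_2_0]
                              · linarith only [C.f13_0, C.f22_1, C.f23_0, C.f33_0, C.o0, s1, x23_1_1, x55_4_0, x95_3_0]
                              · linarith only [C.f22_1, C.f33_1, C.o2, s1, x1_0_0, x23_1_1, x62_3_0, x63_13_0, x94_0_0, x95_4_0]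
                              · linarith only [C.f13_7, C.f22_4, C.f22_6, C.f33_7, s3, x55_4_1, x95_5_0]
                            · linarith only [C.b0, C.f13_0, C.f13_4, C.f22_1, C.f22_4, C.f33_1, C.f33_4, C.o0, s1, s2, x55_4_0, x55_4_1, x94_1_0]
                            · linarith only [C.f11_0, C.f22_1, C.o0, s1, x23_1_1, x55_4_0, x62_3_0, x94_2_0]
                            · linarith only [C.b3, C.f11_0, C.f11_1, C.f13_4, C.f22_4, s2, x42_1_1, x55_4_0, x55_4_1, x94_3_0]
                            · rcases d_tpmz with x97_0_0 | x97_1_0 | x97_2_0 | x97_3_0 | x97_4_0 | x97_5_0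
                              · linarith only [C.b0, C.f11_0, C.f11_1, C.f11_2, C.f13_0, C.f13_3, C.f13_4, C.f13_7, C.f22_4, C.f22_6, C.f33_4, s2, s3, x55_4_0, x63_13_0, x94_4_0, x97_0_0]
                              · rcases d_p22_33A with x98_0_0 | x98_1_0 | x98_2_0 | x98_3_0 | x98_4_0
                                · linarith only [C.b3, C.f11_0, C.f11_1, C.f11_2, C.f13_0, C.f13_7, C.f22_1, C.f22_4, C.f22_6, C.f33_1, s1, s3, x63_13_0, x94_4_0, x98_0_0]
                                · linarith only [C.f13_0, C.f13_4, C.f22_1, C.f22_4, C.f33_1, C.f33_4, s1, s2, x55_4_0, x63_13_0, x98_1_0]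
                                · linarith only [C.f13_0, s1, x98_2_0]
                                · linarith only [C.f13_0, C.f13_3, s2, x97_1_0, x98_3_0]
                                · linarith only [C.f13_7, s3, x55_4_1, x98_4_0]
                              · linarith only [C.f13_4, C.f22_4, C.f33_4, s2, x55_4_0, x55_4_1, x97_2_0]
                              · linarith only [C.f13_0, C.f22_1, C.f23_0, C.f33_0, C.o0, s1, x23_1_1, x55_4_0, x97_3_0]
                              · rcases d_p11_33A with x99_0_0 | x99_1_0 | x99_2_0 | x99_3_0 | x99_4_0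
                                · linarith only [C.b3, C.f11_0, C.f11_1, C.f11_2, C.f13_0, C.f13_7, C.f22_1, C.f22_4, C.f22_6, C.f33_1, s1, s3, x63_13_0, x94_4_0, x97_4_0, x99_0_0]
                                · linarith only [C.f13_0, C.f13_4, C.f22_1, C.f22_4, C.f33_1, C.f33_4, s1, s2, x55_4_0, x63_13_0, x99_1_0]
                                · linarith only [C.f11_0, C.f13_0, C.f22_1, s1, x97_4_0, x99_2_0]
                                · linarith only [C.b3, C.f11_0, C.f11_1, C.f13_0, C.f13_3, C.f22_1, C.f22_4, C.f33_1, s1, s2, x42_1_1, x97_4_0, x99_3_0]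
                                · linarith only [C.b3, C.f11_0, C.f11_1, C.f11_2, C.f13_7, C.f22_4, C.f22_6, s3, x55_4_1, x99_4_0]
                              · linarith only [C.f13_7, C.f22_4, C.f22_6, C.f33_7, s3, x55_4_1, x97_5_0]
                          · rcases d_p22_33A with x100_0_0 | x100_1_0 | x100_2_0 | x100_3_0 | x100_4_0
                            · linarith only [e2, x100_0_0]
                            · linarith only [C.b0, C.f13_0, C.f22_1, C.f33_1, C.o0, s1, x100_1_0, x55_4_1, x63_14_0]
                            · linarith only [C.f13_0, s1, x100_2_0]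
                            · rcases d_f22_5 with ⟨x101_0_0, x101_0_1⟩ | ⟨x101_1_0, x101_1_1⟩
                              · linarith only [C.f13_0, C.f13_3, C.f22_4, C.f33_1, s1, s2, x100_3_0, x101_0_1, x3_1_1, x42_1_1]
                              · linarith only [e2, x100_3_0, x101_1_1, x23_1_1, x2_0_1, x42_1_1, x55_4_1, x62_3_0, x63_14_0]
                            · linarith only [C.f13_7, s3, x100_4_0, x55_4_1]
                        · rcases d_p22_33A with x102_0_0 | x102_1_0 | x102_2_0 | x102_3_0 | x102_4_0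
                          · linarith only [e2, x102_0_0]
                          · linarith only [C.b0, C.f13_0, C.f13_4, C.f22_1, C.f22_4, C.f33_1, C.f33_4, C.o0, s1, s2, x102_1_0, x55_4_0, x55_4_1]
                          · linarith only [C.f13_0, s1, x102_2_0]
                          · linarith only [s2, x102_3_0, x35_1_1, x62_4_0]
                          · linarith only [C.f13_7, s3, x102_4_0, x55_4_1]
                        · linarith only [C.o2, x36_1_1, x53_1_1, x62_5_0]
                · rcases d_p23_33A with x103_0_0 | x103_1_0 | x103_2_0 | x103_3_0 | x103_4_0 | x103_5_0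
                  · linarith only [C.b0, C.o0, x103_0_0, x1_0_0]
                  · linarith only [C.b0, C.f13_1, C.f13_4, C.f22_1, C.f22_4, C.f33_1, C.f33_4, C.o0, C.o1, C.o2, s1, s2, x103_1_0]
                  · linarith only [C.b0, C.f13_0, C.f22_1, C.f33_1, C.f33_4, C.o0, C.o1, s1, s2, x103_2_0, x51_4_0]
                  · linarith only [C.f13_0, C.f22_1, C.o1, s1, x103_3_0, x23_1_1]
                  · linarith only [s2, x103_4_0, x35_1_1, x51_4_0]
                  · rcases d_g1 with x104_0_0 | x104_1_0 | x104_2_0 | x104_3_0 | x104_4_0 | x104_5_0 | x104_6_0 | x104_7_0 | x104_8_0 | x104_9_0 | x104_10_0 | x104_11_0 | x104_12_0 | x104_13_0 | x104_14_0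
                    · linarith only [C.b0, C.o0, x104_0_0]
                    · rcases d_p11_23B with x105_0_0 | x105_1_0 | x105_2_0 | x105_3_0 | x105_4_0 | x105_5_0
                      · rcases d_tpmz with x106_0_0 | x106_1_0 | x106_2_0 | x106_3_0 | x106_4_0 | x106_5_0
                        · linarith only [C.b0, C.o0, x106_0_0]
                        · rcases d_p22_33A with x107_0_0 | x107_1_0 | x107_2_0 | x107_3_0 | x107_4_0
                          · linarith only [C.f13_0, C.f22_1, C.f33_0, s1, x104_1_0, x107_0_0]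
                          · linarith only [C.b0, C.f13_0, C.f13_3, C.f22_1, C.f22_4, C.f33_1, C.f33_4, C.o0, C.o1, s1, s2, x106_1_0, x107_1_0]
                          · linarith only [C.f13_0, s1, x107_2_0]
                          · linarith only [C.f13_0, C.f13_3, s2, x106_1_0, x107_3_0]
                          · rcases d_f33_8 with ⟨x108_0_0, x108_0_1⟩ | ⟨x108_1_0, x108_1_1⟩
                            · linarith only [C.b5, C.f13_4, C.f13_7, C.f22_6, C.f33_7, C.o1, s2, s3, x107_4_0, x108_0_1, x42_1_1]
                            · linarith only [C.f13_7, s3, x103_5_0, x107_4_0, x108_1_1, x36_1_1]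
                        · linarith only [C.f33_4, s2, x106_2_0, x51_4_0]
                        · linarith only [C.f13_0, C.f22_1, C.f23_0, C.f33_0, C.o0, C.o1, s1, x106_3_0, x23_1_1]
                        · linarith only [C.f13_0, C.f22_1, C.f33_0, s1, x104_1_0, x105_0_0, x106_4_0]
                        · rcases d_f33_8 with ⟨x109_0_0, x109_0_1⟩ | ⟨x109_1_0, x109_1_1⟩
                          · linarith only [C.b5, C.f13_4, C.f13_7, C.f22_4, C.f22_6, C.f33_7, C.o1, s2, s3, x109_0_1, x42_1_1]
                          · linarith only [C.f13_7, C.f22_4, C.f22_6, s3, x103_5_0, x106_5_0, x109_1_1, x36_1_1]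
                      · linarith only [C.f13_0, C.f22_1, C.f33_0, C.o1, s1, x104_1_0, x105_1_0]
                      · linarith only [C.b0, C.f13_1, C.f13_4, C.f22_1, C.f22_4, C.f33_1, C.f33_4, C.o0, C.o1, C.o2, s1, s2, x105_2_0]
                      · linarith only [C.f11_0, C.o0, x105_3_0, x1_0_0, x23_1_1]
                      · rcases d_tpmz with x110_0_0 | x110_1_0 | x110_2_0 | x110_3_0 | x110_4_0 | x110_5_0
                        · linarith only [C.b0, C.o0, x110_0_0]
                        · rcases d_p22_33A with x111_0_0 | x111_1_0 | x111_2_0 | x111_3_0 | x111_4_0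
                          · linarith only [C.f13_0, C.f22_1, C.f33_0, s1, x104_1_0, x111_0_0]
                          · linarith only [C.b0, C.b3, C.f13_0, C.f22_1, C.f33_1, C.f33_4, C.o0, s1, s2, x110_1_0, x111_1_0, x51_4_0]
                          · linarith only [C.f13_0, s1, x111_2_0]
                          · linarith only [C.f13_0, C.f13_3, s2, x110_1_0, x111_3_0]
                          · rcases d_f33_8 with ⟨x112_0_0, x112_0_1⟩ | ⟨x112_1_0, x112_1_1⟩
                            · linarith only [C.f13_6, C.f13_7, C.f22_6, s2, s3, x103_5_0, x111_4_0, x112_0_1, x36_1_1, x51_4_0]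
                            · linarith only [C.f13_7, s3, x103_5_0, x111_4_0, x112_1_1, x36_1_1]
                        · linarith only [C.f33_4, s2, x110_2_0, x51_4_0]
                        · linarith only [C.f13_0, C.f22_0, C.f33_0, C.o0, s1, x110_3_0]
                        · rcases d_t12 with ⟨x113_0_0, x113_0_1⟩ | ⟨x113_1_0, x113_1_1⟩
                          · linarith only [C.f11_0, C.f11_1, C.o0, x105_4_0, x110_4_0, x113_0_1, x1_0_0, x35_1_1]
                          · linarith only [C.f11_0, C.f11_1, C.o0, x105_4_0, x110_4_0, x113_1_1, x1_0_0, x35_1_1]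
                        · rcases d_f33_8 with ⟨x114_0_0, x114_0_1⟩ | ⟨x114_1_0, x114_1_1⟩
                          · linarith only [C.f13_6, C.f22_6, C.o2, s2, s3, x103_5_0, x114_0_1, x36_1_1, x51_4_0]
                          · linarith only [C.f13_7, C.f22_4, C.f22_6, s3, x103_5_0, x110_5_0, x114_1_1, x36_1_1]
                      · rcases d_tpmz with x115_0_0 | x115_1_0 | x115_2_0 | x115_3_0 | x115_4_0 | x115_5_0
                        · linarith only [C.b0, C.o0, x115_0_0]
                        · rcases d_p22_33A with x116_0_0 | x116_1_0 | x116_2_0 | x116_3_0 | x116_4_0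
                          · linarith only [C.f13_0, C.f22_1, C.f33_0, s1, x104_1_0, x116_0_0]
                          · linarith only [C.b0, C.f13_0, C.f13_3, C.f22_1, C.f22_4, C.f33_1, C.f33_4, C.o0, C.o1, s1, s2, x115_1_0, x116_1_0]
                          · linarith only [C.f13_0, s1, x116_2_0]
                          · linarith only [C.f13_0, C.f13_3, s2, x115_1_0, x116_3_0]
                          · rcases d_f33_8 with ⟨x117_0_0, x117_0_1⟩ | ⟨x117_1_0, x117_1_1⟩
                            · linarith only [C.b5, C.f13_4, C.f13_7, C.f22_6, C.f33_7, C.o1, s2, s3, x116_4_0, x117_0_1, x42_1_1]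
                            · linarith only [C.f13_7, s3, x103_5_0, x116_4_0, x117_1_1, x36_1_1]
                        · linarith only [C.f33_4, s2, x115_2_0, x51_4_0]
                        · linarith only [C.f13_0, C.f22_1, C.f23_0, C.f33_0, C.o0, C.o1, s1, x115_3_0, x23_1_1]
                        · rcases d_f33_8 with ⟨x118_0_0, x118_0_1⟩ | ⟨x118_1_0, x118_1_1⟩
                          · linarith only [C.b5, C.f13_4, C.f13_7, C.f22_4, C.f22_6, C.f33_7, C.o1, s2, s3, x118_0_1, x42_1_1]
                          · rcases d_t12 with ⟨x119_0_0, x119_0_1⟩ | ⟨x119_1_0, x119_1_1⟩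
                            · linarith only [C.f11_0, C.f11_1, C.f11_2, C.f13_7, C.f22_4, C.f22_6, s3, x103_5_0, x105_5_0, x115_4_0, x118_1_1, x119_0_1, x1_0_0, x36_1_1]
                            · linarith only [C.f11_0, C.f11_1, C.f11_2, C.f13_7, C.f22_4, C.f22_6, s3, x103_5_0, x105_5_0, x118_1_1, x119_1_1, x36_1_1]
                        · rcases d_f33_8 with ⟨x120_0_0, x120_0_1⟩ | ⟨x120_1_0, x120_1_1⟩
                          · linarith only [C.b5, C.f13_4, C.f13_7, C.f22_4, C.f22_6, C.f33_7, C.o1, s2, s3, x120_0_1, x42_1_1]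
                          · linarith only [C.f13_7, C.f22_4, C.f22_6, s3, x103_5_0, x115_5_0, x120_1_1, x36_1_1]
                    · rcases d_p22_33A with x121_0_0 | x121_1_0 | x121_2_0 | x121_3_0 | x121_4_0
                      · linarith only [e2, x121_0_0]
                      · linarith only [C.b0, C.f13_0, C.f13_3, C.f22_1, C.f22_4, C.f33_1, C.f33_4, C.o0, C.o1, s1, s2, x104_2_0, x121_1_0]
                      · linarith only [C.f13_0, s1, x121_2_0]
                      · linarith only [C.f13_0, C.f13_3, s2, x104_2_0, x121_3_0, x1_0_0]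
                      · rcases d_f33_8 with ⟨x122_0_0, x122_0_1⟩ | ⟨x122_1_0, x122_1_1⟩
                        · linarith only [C.b5, C.f13_4, C.f13_7, C.f22_6, C.f33_7, C.o1, s2, s3, x121_4_0, x122_0_1, x42_1_1]
                        · linarith only [C.f13_7, s3, x103_5_0, x121_4_0, x122_1_1, x36_1_1]
                    · rcases d_p11_23B with x123_0_0 | x123_1_0 | x123_2_0 | x123_3_0 | x123_4_0 | x123_5_0
                      · rcases d_tpmz with x124_0_0 | x124_1_0 | x124_2_0 | x124_3_0 | x124_4_0 | x124_5_0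
                        · linarith only [C.b0, C.o0, x124_0_0]
                        · rcases d_p22_33A with x125_0_0 | x125_1_0 | x125_2_0 | x125_3_0 | x125_4_0
                          · linarith only [C.b5, C.f13_0, C.f13_7, C.f22_1, C.f22_4, C.f22_6, C.f33_1, C.f33_7, s1, s3, x104_3_0, x125_0_0]
                          · linarith only [C.b0, C.f13_0, C.f13_3, C.f22_1, C.f22_4, C.f33_1, C.f33_4, C.o0, C.o1, s1, s2, x124_1_0, x125_1_0]
                          · linarith only [C.f13_0, s1, x125_2_0]
                          · linarith only [C.f13_0, C.f13_3, s2, x124_1_0, x125_3_0]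
                          · rcases d_f33_8 with ⟨x126_0_0, x126_0_1⟩ | ⟨x126_1_0, x126_1_1⟩
                            · linarith only [C.b5, C.f13_4, C.f13_7, C.f22_6, C.f33_7, C.o1, s2, s3, x125_4_0, x126_0_1, x42_1_1]
                            · linarith only [C.f13_7, s3, x103_5_0, x125_4_0, x126_1_1, x36_1_1]
                        · linarith only [C.f33_4, s2, x124_2_0, x51_4_0]
                        · linarith only [C.f13_0, C.f22_1, C.f23_0, C.f33_0, C.o0, C.o1, s1, x124_3_0, x23_1_1]
                        · linarith only [C.f13_0, C.f13_7, C.f22_1, C.f22_4, C.f22_6, C.f33_1, s1, s3, x103_5_0, x104_3_0, x123_0_0, x124_4_0, x36_1_1]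
                        · rcases d_f33_8 with ⟨x127_0_0, x127_0_1⟩ | ⟨x127_1_0, x127_1_1⟩
                          · linarith only [C.b5, C.f13_4, C.f13_7, C.f22_4, C.f22_6, C.f33_7, C.o1, s2, s3, x127_0_1, x42_1_1]
                          · linarith only [C.f13_7, C.f22_4, C.f22_6, s3, x103_5_0, x124_5_0, x127_1_1, x36_1_1]
                      · linarith only [C.b5, C.f13_0, C.f13_7, C.f22_1, C.f22_4, C.f22_6, C.f33_1, C.f33_7, C.o1, s1, s3, x104_3_0, x123_1_0]
                      · linarith only [C.b0, C.f13_1, C.f13_4, C.f13_7, C.f22_1, C.f22_4, C.f22_6, C.f33_1, C.f33_4, C.f33_7, C.o0, C.o1, s1, s2, s3, x104_3_0, x123_2_0]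
                      · linarith only [C.f11_0, C.o0, x123_3_0, x1_0_0, x23_1_1]
                      · rcases d_f13_8 with ⟨x128_0_0, x128_0_1⟩ | ⟨x128_1_0, x128_1_1⟩
                        · rcases d_f13_5 with ⟨x129_0_0, x129_0_1⟩ | ⟨x129_1_0, x129_1_1⟩
                          · linarith only [C.b3, C.b5, C.f13_7, C.o0, x128_0_1, x129_0_1, x2_0_1]
                          · linarith only [C.b5, C.f13_7, C.f22_4, C.f22_6, C.f33_4, C.f33_6, C.o1, s2, s3, x128_0_1, x129_1_1]
                        · rcases d_p22_33A with x130_0_0 | x130_1_0 | x130_2_0 | x130_3_0 | x130_4_0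
                          · linarith only [C.b5, C.f13_0, C.f13_7, C.f22_1, C.f22_4, C.f22_6, C.f33_1, C.f33_7, s1, s3, x104_3_0, x130_0_0]
                          · linarith only [C.b0, C.f11_0, C.f11_1, C.f13_0, C.f13_3, C.f13_4, C.f13_7, C.f22_1, C.f22_4, C.f22_6, C.f23_8, C.f33_1, C.f33_4, C.f33_7, C.o1, s1, s2, s3, x104_3_0, x123_4_0, x130_1_0, x36_1_1]
                          · linarith only [C.f13_0, s1, x130_2_0]
                          · rcases d_f22_5 with ⟨x131_0_0, x131_0_1⟩ | ⟨x131_1_0, x131_1_1⟩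
                            · linarith only [C.f13_0, C.f13_3, C.f22_4, C.f33_1, s1, s2, x130_3_0, x131_0_1, x3_1_1, x42_1_1]
                            · rcases d_f33_8 with ⟨x132_0_0, x132_0_1⟩ | ⟨x132_1_0, x132_1_1⟩
                              · linarith only [C.b5, C.f13_4, C.f13_7, C.f22_4, C.f22_6, C.f33_7, C.o1, s2, s3, x132_0_1, x42_1_1]
                              · rcases d_tpmz with x133_0_0 | x133_1_0 | x133_2_0 | x133_3_0 | x133_4_0 | x133_5_0
                                · linarith only [C.b0, C.f11_0, C.f11_1, C.f13_0, C.f13_3, C.f13_4, C.f13_7, C.f22_4, C.f22_6, C.f23_8, C.f33_4, C.f33_7, C.o1, s2, s3, x104_3_0, x123_4_0, x133_0_0, x36_1_1]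
                                · linarith only [C.f13_0, C.f13_3, s2, x130_3_0, x133_1_0]
                                · linarith only [C.f33_4, s2, x133_2_0, x51_4_0]
                                · linarith only [C.f13_0, C.f22_1, C.f23_0, C.f33_0, C.o0, C.o1, s1, x133_3_0, x23_1_1]
                                · linarith only [C.f11_0, C.f11_1, C.f13_0, C.f13_3, C.f22_1, C.f33_1, C.o1, s1, s2, x123_4_0, x130_3_0, x131_1_1, x133_4_0, x35_1_1, x42_1_1]
                                · linarith only [C.f22_4, C.f22_6, s3, x103_5_0, x128_1_0, x132_1_1, x133_5_0, x36_1_1]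
                          · rcases d_f33_8 with ⟨x134_0_0, x134_0_1⟩ | ⟨x134_1_0, x134_1_1⟩
                            · linarith only [C.b5, C.f13_4, C.f13_7, C.f22_6, C.f33_7, C.o1, s2, s3, x130_4_0, x134_0_1, x42_1_1]
                            · linarith only [C.f13_7, s3, x103_5_0, x130_4_0, x134_1_1, x36_1_1]
                      · rcases d_tpmz with x135_0_0 | x135_1_0 | x135_2_0 | x135_3_0 | x135_4_0 | x135_5_0
                        · linarith only [C.b0, C.o0, x135_0_0]
                        · rcases d_p22_33A with x136_0_0 | x136_1_0 | x136_2_0 | x136_3_0 | x136_4_0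
                          · linarith only [C.b5, C.f13_0, C.f13_7, C.f22_1, C.f22_4, C.f22_6, C.f33_1, C.f33_7, s1, s3, x104_3_0, x136_0_0]
                          · linarith only [C.b0, C.f13_0, C.f13_3, C.f22_1, C.f22_4, C.f33_1, C.f33_4, C.o0, C.o1, s1, s2, x135_1_0, x136_1_0]
                          · linarith only [C.f13_0, s1, x136_2_0]
                          · linarith only [C.f13_0, C.f13_3, s2, x135_1_0, x136_3_0]
                          · rcases d_f33_8 with ⟨x137_0_0, x137_0_1⟩ | ⟨x137_1_0, x137_1_1⟩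
                            · linarith only [C.b5, C.f13_4, C.f13_7, C.f22_6, C.f33_7, C.o1, s2, s3, x136_4_0, x137_0_1, x42_1_1]
                            · linarith only [C.f13_7, s3, x103_5_0, x136_4_0, x137_1_1, x36_1_1]
                        · linarith only [C.f33_4, s2, x135_2_0, x51_4_0]
                        · linarith only [C.f13_0, C.f22_1, C.f23_0, C.f33_0, C.o0, C.o1, s1, x135_3_0, x23_1_1]
                        · rcases d_f33_8 with ⟨x138_0_0, x138_0_1⟩ | ⟨x138_1_0, x138_1_1⟩
                          · linarith only [C.b5, C.f13_4, C.f13_7, C.f22_4, C.f22_6, C.f33_7, C.o1, s2, s3, x138_0_1, x42_1_1]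
                          · rcases d_t12 with ⟨x139_0_0, x139_0_1⟩ | ⟨x139_1_0, x139_1_1⟩
                            · linarith only [C.f11_0, C.f11_1, C.f11_2, C.f13_7, C.f22_4, C.f22_6, s3, x103_5_0, x123_5_0, x135_4_0, x138_1_1, x139_0_1, x1_0_0, x36_1_1]
                            · linarith only [C.f11_0, C.f11_1, C.f11_2, C.f13_7, C.f22_4, C.f22_6, s3, x103_5_0, x123_5_0, x138_1_1, x139_1_1, x36_1_1]
                        · rcases d_f33_8 with ⟨x140_0_0, x140_0_1⟩ | ⟨x140_1_0, x140_1_1⟩
                          · linarith only [C.b5, C.f13_4, C.f13_7, C.f22_4, C.f22_6, C.f33_7, C.o1, s2, s3, x140_0_1, x42_1_1]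
                          · linarith only [C.f13_7, C.f22_4, C.f22_6, s3, x103_5_0, x135_5_0, x140_1_1, x36_1_1]
                    · rcases d_p22_33A with x141_0_0 | x141_1_0 | x141_2_0 | x141_3_0 | x141_4_0
                      · linarith only [e2, x141_0_0]
                      · linarith only [C.b0, C.f33_4, C.o0, s2, x141_1_0, x1_0_0, x51_4_0]
                      · linarith only [C.f13_0, s1, x141_2_0]
                      · rcases d_tzmp with x142_0_0 | x142_1_0 | x142_2_0 | x142_3_0
                        · linarith only [C.f13_0, C.f13_3, s2, x141_3_0, x142_0_0]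
                        · linarith only [C.f33_4, s2, x142_1_0, x51_4_0]
                        · rcases d_p11_23B with x143_0_0 | x143_1_0 | x143_2_0 | x143_3_0 | x143_4_0 | x143_5_0
                          · linarith only [e2, x142_2_0, x143_0_0]
                          · linarith only [C.b0, C.o0, x143_1_0, x1_0_0]
                          · linarith only [C.b0, C.b4, C.f13_4, C.f22_4, C.f33_4, C.o0, C.o2, s2, x143_2_0, x1_0_0]
                          · linarith only [C.f11_0, C.o0, x143_3_0, x1_0_0, x23_1_1]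
                          · linarith only [C.f11_0, C.f11_1, C.f13_0, C.f13_3, C.o0, s2, x141_3_0, x142_2_0, x143_4_0, x1_0_0, x35_1_1]
                          · linarith only [C.b5, C.f11_0, C.f11_1, C.f11_2, C.f13_0, C.f13_3, s2, x141_3_0, x142_2_0, x143_5_0, x1_0_0, x36_1_1]
                        · rcases d_f22_5 with ⟨x144_0_0, x144_0_1⟩ | ⟨x144_1_0, x144_1_1⟩
                          · linarith only [C.f13_0, C.f13_3, C.f22_4, C.f33_1, s1, s2, x141_3_0, x144_0_1, x3_1_1, x42_1_1]
                          · rcases d_p13_23A with x145_0_0 | x145_1_0 | x145_2_0 | x145_3_0 | x145_4_0 | x145_5_0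
                            · linarith only [C.b0, C.o0, x145_0_0]
                            · linarith only [C.b0, C.f13_1, C.f13_7, C.f22_1, C.f22_4, C.f22_6, C.f33_1, C.f33_7, C.o0, s1, s3, x104_4_0, x142_3_0, x145_1_0]
                            · linarith only [C.b0, C.f13_0, C.f22_1, C.f33_1, C.o0, s1, x141_3_0, x144_1_1, x145_2_0, x42_1_1]
                            · rcases d_f33_8 with ⟨x146_0_0, x146_0_1⟩ | ⟨x146_1_0, x146_1_1⟩
                              · linarith only [C.b0, C.f13_7, C.f22_4, C.f22_6, C.o0, s3, x103_5_0, x104_4_0, x142_3_0, x146_0_1, x36_1_1, x42_1_1]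
                              · linarith only [e2, x103_5_0, x104_4_0, x141_3_0, x142_3_0, x144_1_1, x145_3_0, x146_1_1, x23_1_1, x2_0_1, x36_1_1, x42_1_1]
                            · linarith only [s2, x141_3_0, x145_4_0, x35_1_1]
                            · linarith only [C.f22_4, C.f22_6, C.f33_7, s3, x142_3_0, x145_5_0, x36_1_1]
                      · rcases d_f33_8 with ⟨x147_0_0, x147_0_1⟩ | ⟨x147_1_0, x147_1_1⟩
                        · linarith only [C.b0, C.f13_7, C.o0, s3, x103_5_0, x104_4_0, x141_4_0, x147_0_1, x36_1_1, x42_1_1]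
                        · linarith only [C.f13_7, s3, x103_5_0, x141_4_0, x147_1_1, x36_1_1]
                    · linarith only [x104_5_0, x1_0_0]
                    · rcases d_f33_8 with ⟨x148_0_0, x148_0_1⟩ | ⟨x148_1_0, x148_1_1⟩
                      · linarith only [C.f13_7, C.f22_4, C.f22_6, C.o1, C.o2, s2, s3, x103_5_0, x148_0_1, x36_1_1, x51_4_0]
                      · rcases d_p22_33A with x149_0_0 | x149_1_0 | x149_2_0 | x149_3_0 | x149_4_0
                        · linarith only [e2, x149_0_0]
                        · linarith only [C.b0, C.f33_4, C.o0, s2, x104_6_0, x149_1_0, x51_4_0]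
                        · linarith only [C.f13_0, s1, x149_2_0]
                        · rcases d_p13_23A with x150_0_0 | x150_1_0 | x150_2_0 | x150_3_0 | x150_4_0 | x150_5_0
                          · linarith only [C.b0, C.o0, x150_0_0]
                          · linarith only [C.b0, C.b4, C.f13_4, C.f22_4, C.f33_4, C.o0, C.o2, s2, x104_6_0, x150_1_0]
                          · linarith only [C.b0, C.o0, x104_6_0, x150_2_0]
                          · linarith only [x104_6_0, x150_3_0, x23_1_1, x2_0_1]
                          · linarith only [s2, x149_3_0, x150_4_0, x35_1_1]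
                          · rcases d_f13_8 with ⟨x151_0_0, x151_0_1⟩ | ⟨x151_1_0, x151_1_1⟩
                            · linarith only [C.f13_7, C.f22_4, C.f22_6, C.f33_7, C.o1, s2, s3, x149_3_0, x150_5_0, x151_0_1, x36_1_1]
                            · linarith only [C.o2, x150_5_0, x151_1_1, x36_1_1]
                        · linarith only [C.f13_7, s3, x103_5_0, x148_1_1, x149_4_0, x36_1_1]
                    · rcases d_p11_23B with x152_0_0 | x152_1_0 | x152_2_0 | x152_3_0 | x152_4_0 | x152_5_0
                      · rcases d_tpmz with x153_0_0 | x153_1_0 | x153_2_0 | x153_3_0 | x153_4_0 | x153_5_0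
                        · linarith only [C.b0, C.o0, x153_0_0]
                        · linarith only [C.b3, C.f13_0, C.f13_3, C.f22_4, C.f33_4, s2, x104_7_0, x152_0_0, x153_1_0]
                        · linarith only [C.f33_4, s2, x153_2_0, x51_4_0]
                        · linarith only [C.f13_0, C.f22_1, C.f23_0, C.f33_0, C.o0, C.o1, s1, x153_3_0, x23_1_1]
                        · rcases d_p13_23A with x154_0_0 | x154_1_0 | x154_2_0 | x154_3_0 | x154_4_0 | x154_5_0
                          · linarith only [C.b0, C.o0, x154_0_0]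
                          · linarith only [C.b0, C.f13_1, C.f13_4, C.f22_1, C.f22_4, C.f33_1, C.f33_4, C.o0, C.o1, C.o2, s1, s2, x154_1_0]
                          · linarith only [C.b0, C.f13_0, C.f22_1, C.f33_1, C.o0, C.o1, s1, x104_7_0, x154_2_0]
                          · linarith only [C.f22_1, C.f33_1, s1, x104_7_0, x152_0_0, x153_4_0, x154_3_0, x23_1_1]
                          · linarith only [C.f13_0, C.f22_1, C.f22_4, C.f33_1, C.f33_4, s1, s2, x104_7_0, x152_0_0, x153_4_0, x154_4_0, x35_1_1]
                          · rcases d_f13_8 with ⟨x155_0_0, x155_0_1⟩ | ⟨x155_1_0, x155_1_1⟩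
                            · linarith only [C.f13_0, C.f13_7, C.f22_1, C.f22_4, C.f22_6, C.f33_1, C.f33_4, C.o1, s1, s2, s3, x103_5_0, x104_7_0, x152_0_0, x153_4_0, x154_5_0, x155_0_1, x36_1_1]
                            · linarith only [C.o2, x154_5_0, x155_1_1, x36_1_1]
                        · rcases d_f33_8 with ⟨x156_0_0, x156_0_1⟩ | ⟨x156_1_0, x156_1_1⟩
                          · linarith only [C.b5, C.f13_4, C.f13_7, C.f22_4, C.f22_6, C.f33_7, C.o1, s2, s3, x156_0_1, x42_1_1]
                          · linarith only [C.f13_7, C.f22_4, C.f22_6, s3, x103_5_0, x153_5_0, x156_1_1, x36_1_1]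
                      · linarith only [C.b0, C.f13_0, C.f22_1, C.f33_1, C.o0, C.o1, s1, x104_7_0, x152_1_0]
                      · linarith only [C.b0, C.f13_1, C.f13_4, C.f22_1, C.f22_4, C.f33_1, C.f33_4, C.o0, C.o1, C.o2, s1, s2, x152_2_0]
                      · linarith only [C.f11_0, C.o0, x152_3_0, x1_0_0, x23_1_1]
                      · rcases d_p22_33A with x157_0_0 | x157_1_0 | x157_2_0 | x157_3_0 | x157_4_0
                        · linarith only [C.b0, C.f11_0, C.f11_1, C.f13_0, C.f13_3, C.f22_1, C.f22_4, C.f33_1, C.f33_3, e3, s1, s2, x104_7_0, x152_4_0, x157_0_0, x35_1_1]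
                        · linarith only [C.b0, C.f11_0, C.f11_1, C.f13_0, C.f13_3, C.f22_1, C.f22_4, C.f33_1, C.f33_4, C.o1, s1, s2, x104_7_0, x152_4_0, x157_1_0, x35_1_1]
                        · linarith only [C.f13_0, s1, x157_2_0]
                        · rcases d_f22_5 with ⟨x158_0_0, x158_0_1⟩ | ⟨x158_1_0, x158_1_1⟩
                          · linarith only [C.b3, C.f11_0, C.f11_1, C.f13_0, C.f13_3, C.f33_1, s1, s2, x152_4_0, x157_3_0, x158_0_1, x35_1_1, x3_1_1, x42_1_1, x51_4_0]
                          · rcases d_tpmz with x159_0_0 | x159_1_0 | x159_2_0 | x159_3_0 | x159_4_0 | x159_5_0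
                            · linarith only [C.b0, C.f11_0, C.f11_1, C.f13_0, C.f13_3, C.f22_4, C.f33_4, C.o1, s2, x104_7_0, x152_4_0, x159_0_0, x35_1_1]
                            · linarith only [C.f13_0, C.f13_3, s2, x157_3_0, x159_1_0]
                            · linarith only [C.f33_4, s2, x159_2_0, x51_4_0]
                            · linarith only [C.f13_0, C.f22_1, C.f23_0, C.f33_0, C.o0, C.o1, s1, x159_3_0, x23_1_1]
                            · linarith only [C.f11_0, C.f11_1, C.f13_0, C.f13_3, C.f22_1, C.f33_1, C.o1, s1, s2, x152_4_0, x157_3_0, x158_1_1, x159_4_0, x35_1_1, x42_1_1]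
                            · rcases d_f33_8 with ⟨x160_0_0, x160_0_1⟩ | ⟨x160_1_0, x160_1_1⟩
                              · linarith only [C.b5, C.f13_4, C.f13_7, C.f22_4, C.f22_6, C.f33_7, C.o1, s2, s3, x160_0_1, x42_1_1]
                              · linarith only [C.f13_7, C.f22_4, C.f22_6, s3, x103_5_0, x159_5_0, x160_1_1, x36_1_1]
                        · rcases d_f33_8 with ⟨x161_0_0, x161_0_1⟩ | ⟨x161_1_0, x161_1_1⟩
                          · linarith only [C.b5, C.f13_4, C.f13_7, C.f22_6, C.f33_7, C.o1, s2, s3, x157_4_0, x161_0_1, x42_1_1]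
                          · linarith only [C.f13_7, s3, x103_5_0, x157_4_0, x161_1_1, x36_1_1]
                      · rcases d_p22_33A with x162_0_0 | x162_1_0 | x162_2_0 | x162_3_0 | x162_4_0
                        · linarith only [C.b0, C.b5, C.f11_0, C.f11_1, C.f11_2, C.f13_0, C.f13_3, C.f22_1, C.f22_4, C.f33_1, C.f33_4, s1, s2, x104_7_0, x152_5_0, x162_0_0, x36_1_1]
                        · linarith only [C.b0, C.f13_0, C.f22_1, C.f33_1, C.f33_4, C.o0, C.o1, s1, s2, x162_1_0, x51_4_0]
                        · linarith only [C.f13_0, s1, x162_2_0]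
                        · rcases d_tpmz with x163_0_0 | x163_1_0 | x163_2_0 | x163_3_0 | x163_4_0 | x163_5_0
                          · linarith only [C.f33_4, s2, x104_7_0, x163_0_0, x51_4_0]
                          · linarith only [C.f13_0, C.f13_3, s2, x162_3_0, x163_1_0]
                          · linarith only [C.f33_4, s2, x163_2_0, x51_4_0]
                          · linarith only [C.f13_0, C.f22_1, C.f23_0, C.f33_0, C.o0, C.o1, s1, x163_3_0, x23_1_1]
                          · linarith only [C.b5, C.f11_0, C.f11_1, C.f11_2, C.f13_0, C.f13_3, s2, x152_5_0, x162_3_0, x163_4_0, x1_0_0, x36_1_1]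
                          · rcases d_f33_8 with ⟨x164_0_0, x164_0_1⟩ | ⟨x164_1_0, x164_1_1⟩
                            · linarith only [C.b5, C.f13_4, C.f13_7, C.f22_4, C.f22_6, C.f33_7, C.o1, s2, s3, x164_0_1, x42_1_1]
                            · linarith only [C.f13_7, C.f22_4, C.f22_6, s3, x103_5_0, x163_5_0, x164_1_1, x36_1_1]
                        · rcases d_f33_8 with ⟨x165_0_0, x165_0_1⟩ | ⟨x165_1_0, x165_1_1⟩
                          · linarith only [C.b5, C.f13_4, C.f13_7, C.f22_6, C.f33_7, C.o1, s2, s3, x162_4_0, x165_0_1, x42_1_1]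
                          · linarith only [C.f13_7, s3, x103_5_0, x162_4_0, x165_1_1, x36_1_1]
                    · rcases d_f33_8 with ⟨x166_0_0, x166_0_1⟩ | ⟨x166_1_0, x166_1_1⟩
                      · linarith only [C.b0, C.f13_6, C.f22_6, C.f33_7, C.o0, s3, x104_8_0, x166_0_1, x42_1_1, x51_4_0]
                      · rcases d_p22_33A with x167_0_0 | x167_1_0 | x167_2_0 | x167_3_0 | x167_4_0
                        · linarith only [e2, x167_0_0]
                        · linarith only [C.b0, C.o0, x104_8_0, x167_1_0, x1_0_0]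
                        · linarith only [C.f13_0, s1, x167_2_0]
                        · rcases d_f22_5 with ⟨x168_0_0, x168_0_1⟩ | ⟨x168_1_0, x168_1_1⟩
                          · linarith only [C.f13_0, C.f13_3, C.f22_4, C.f33_1, s1, s2, x167_3_0, x168_0_1, x3_1_1, x42_1_1]
                          · rcases d_p13_23A with x169_0_0 | x169_1_0 | x169_2_0 | x169_3_0 | x169_4_0 | x169_5_0
                            · linarith only [C.b0, C.o0, x169_0_0]
                            · linarith only [C.b0, C.o0, C.o2, x104_8_0, x169_1_0, x1_0_0]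
                            · linarith only [C.b0, C.f13_0, C.f22_1, C.f33_1, C.o0, s1, x167_3_0, x168_1_1, x169_2_0, x42_1_1]
                            · linarith only [e2, x104_8_0, x167_3_0, x168_1_1, x169_3_0, x23_1_1, x2_0_1, x42_1_1]
                            · linarith only [s2, x167_3_0, x169_4_0, x35_1_1]
                            · rcases d_f13_8 with ⟨x170_0_0, x170_0_1⟩ | ⟨x170_1_0, x170_1_1⟩
                              · linarith only [C.b0, C.b5, C.f13_7, C.o0, s2, x104_8_0, x167_3_0, x168_1_1, x170_0_1, x42_1_1]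
                              · linarith only [C.o2, x169_5_0, x170_1_1, x36_1_1]
                        · linarith only [C.f13_7, s3, x103_5_0, x166_1_1, x167_4_0, x36_1_1]
                    · linarith only [C.b0, x104_9_0]
                    · rcases d_p11_23B with x171_0_0 | x171_1_0 | x171_2_0 | x171_3_0 | x171_4_0 | x171_5_0
                      · linarith only [x104_10_0, x171_0_0]
                      · linarith only [C.o0, x104_10_0, x171_1_0, x1_0_0]
                      · linarith only [C.f13_1, C.f13_4, C.f22_1, C.f22_4, C.f33_1, C.f33_4, C.o0, C.o1, C.o2, s1, s2, x104_10_0, x171_2_0]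
                      · linarith only [C.f11_0, C.o0, x171_3_0, x1_0_0, x23_1_1]
                      · rcases d_f33_8 with ⟨x172_0_0, x172_0_1⟩ | ⟨x172_1_0, x172_1_1⟩
                        · linarith only [C.f13_6, C.f22_6, C.f33_7, s2, s3, x172_0_1, x51_4_0]
                        · rcases d_tpmz with x173_0_0 | x173_1_0 | x173_2_0 | x173_3_0 | x173_4_0 | x173_5_0
                          · linarith only [C.o0, x104_10_0, x173_0_0]
                          · rcases d_p22_33A with x174_0_0 | x174_1_0 | x174_2_0 | x174_3_0 | x174_4_0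
                            · linarith only [C.a3, C.f11_0, C.f11_1, C.o0, x104_10_0, x171_4_0, x174_0_0, x1_0_0, x35_1_1]
                            · linarith only [C.f13_1, C.f22_1, C.f33_1, C.f33_4, C.o0, C.o1, s1, s2, x103_5_0, x104_10_0, x172_1_1, x174_1_0, x36_1_1, x51_4_0]
                            · linarith only [C.f13_0, s1, x174_2_0]
                            · linarith only [C.f13_0, C.f13_3, s2, x173_1_0, x174_3_0]
                            · linarith only [C.f13_7, s3, x103_5_0, x172_1_1, x174_4_0, x36_1_1]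
                          · linarith only [C.f33_4, s2, x173_2_0, x51_4_0]
                          · linarith only [C.f13_0, C.f22_1, C.f23_0, C.f33_0, C.o0, C.o1, s1, x173_3_0, x23_1_1]
                          · rcases d_t12 with ⟨x175_0_0, x175_0_1⟩ | ⟨x175_1_0, x175_1_1⟩
                            · linarith only [C.f11_0, C.f11_1, C.o0, x171_4_0, x173_4_0, x175_0_1, x1_0_0, x35_1_1]
                            · linarith only [C.f11_0, C.f11_1, C.o0, x171_4_0, x173_4_0, x175_1_1, x1_0_0, x35_1_1]
                          · linarith only [C.f13_7, C.f22_4, C.f22_6, s3, x103_5_0, x172_1_1, x173_5_0, x36_1_1]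
                      · rcases d_tpmz with x176_0_0 | x176_1_0 | x176_2_0 | x176_3_0 | x176_4_0 | x176_5_0
                        · linarith only [C.o0, x104_10_0, x176_0_0]
                        · rcases d_p22_33A with x177_0_0 | x177_1_0 | x177_2_0 | x177_3_0 | x177_4_0
                          · linarith only [C.b2, x104_10_0, x177_0_0]
                          · linarith only [C.f13_0, C.f22_1, C.f33_1, C.f33_4, C.o0, C.o1, s1, s2, x104_10_0, x177_1_0, x51_4_0]
                          · linarith only [C.f13_0, s1, x177_2_0]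
                          · linarith only [C.f13_0, C.f13_3, s2, x176_1_0, x177_3_0]
                          · rcases d_f33_8 with ⟨x178_0_0, x178_0_1⟩ | ⟨x178_1_0, x178_1_1⟩
                            · linarith only [C.f13_6, C.f13_7, C.f22_6, s2, s3, x103_5_0, x177_4_0, x178_0_1, x36_1_1, x51_4_0]
                            · linarith only [C.f13_7, s3, x103_5_0, x177_4_0, x178_1_1, x36_1_1]
                        · linarith only [C.f33_4, s2, x176_2_0, x51_4_0]
                        · linarith only [C.f13_0, C.f22_1, C.f23_0, C.f33_0, C.o0, C.o1, s1, x176_3_0, x23_1_1]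
                        · rcases d_f33_8 with ⟨x179_0_0, x179_0_1⟩ | ⟨x179_1_0, x179_1_1⟩
                          · linarith only [C.f13_6, C.f22_6, C.f33_7, s2, s3, x179_0_1, x51_4_0]
                          · rcases d_t12 with ⟨x180_0_0, x180_0_1⟩ | ⟨x180_1_0, x180_1_1⟩
                            · linarith only [C.f11_0, C.f11_1, C.f11_2, C.f13_7, C.f22_4, C.f22_6, s3, x103_5_0, x171_5_0, x176_4_0, x179_1_1, x180_0_1, x1_0_0, x36_1_1]
                            · linarith only [C.f11_0, C.f11_1, C.f11_2, C.f13_7, C.f22_4, C.f22_6, s3, x103_5_0, x171_5_0, x179_1_1, x180_1_1, x36_1_1]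
                        · rcases d_f33_8 with ⟨x181_0_0, x181_0_1⟩ | ⟨x181_1_0, x181_1_1⟩
                          · linarith only [C.f13_6, C.f22_6, C.f33_7, s2, s3, x181_0_1, x51_4_0]
                          · linarith only [C.f13_7, C.f22_4, C.f22_6, s3, x103_5_0, x176_5_0, x181_1_1, x36_1_1]
                    · rcases d_p11_23B with x182_0_0 | x182_1_0 | x182_2_0 | x182_3_0 | x182_4_0 | x182_5_0
                      · linarith only [e2, x104_11_0, x182_0_0]
                      · linarith only [C.b0, C.o0, x182_1_0, x1_0_0]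
                      · linarith only [C.b0, C.f13_1, C.f13_4, C.f22_1, C.f22_4, C.f33_1, C.f33_4, C.o0, C.o1, C.o2, s1, s2, x182_2_0]
                      · linarith only [C.f11_0, C.o0, x182_3_0, x1_0_0, x23_1_1]
                      · linarith only [C.a3, C.f11_0, C.f11_1, C.o0, x104_11_0, x182_4_0, x1_0_0, x35_1_1]
                      · rcases d_f33_8 with ⟨x183_0_0, x183_0_1⟩ | ⟨x183_1_0, x183_1_1⟩
                        · linarith only [C.b5, C.f13_4, C.f13_7, C.f22_4, C.f22_6, C.f33_7, C.o1, s2, s3, x183_0_1, x42_1_1]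
                        · linarith only [C.a3, C.f11_0, C.f11_1, C.f11_2, C.f13_7, C.f22_4, C.f22_6, s3, x103_5_0, x104_11_0, x182_5_0, x183_1_1, x1_0_0, x36_1_1]
                    · rcases d_tpmz with x184_0_0 | x184_1_0 | x184_2_0 | x184_3_0 | x184_4_0 | x184_5_0
                      · linarith only [C.b0, C.o0, x184_0_0]
                      · rcases d_p22_33A with x185_0_0 | x185_1_0 | x185_2_0 | x185_3_0 | x185_4_0
                        · linarith only [C.b0, x104_12_0, x185_0_0]
                        · linarith only [C.b0, C.f33_4, C.o1, s2, x104_12_0, x185_1_0, x51_4_0]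
                        · linarith only [C.f13_0, s1, x185_2_0]
                        · linarith only [C.f13_0, C.f13_3, s2, x184_1_0, x185_3_0]
                        · rcases d_f33_8 with ⟨x186_0_0, x186_0_1⟩ | ⟨x186_1_0, x186_1_1⟩
                          · linarith only [C.f13_4, C.f13_7, C.f22_6, C.f23_5, C.f23_8, s2, s3, x103_5_0, x185_4_0, x186_0_1, x36_1_1, x42_1_1]
                          · linarith only [C.f13_7, s3, x103_5_0, x185_4_0, x186_1_1, x36_1_1]
                      · linarith only [C.f33_4, s2, x184_2_0, x51_4_0]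
                      · linarith only [C.f13_0, C.f22_0, C.f33_0, C.o0, s1, x184_3_0]
                      · linarith only [x104_12_0, x184_4_0]
                      · rcases d_f33_8 with ⟨x187_0_0, x187_0_1⟩ | ⟨x187_1_0, x187_1_1⟩
                        · linarith only [C.f13_4, C.f13_7, C.f22_4, C.f22_6, C.f23_5, C.f23_8, C.f33_7, C.o1, s2, s3, x187_0_1, x36_1_1, x42_1_1]
                        · linarith only [C.f13_7, C.f22_4, C.f22_6, s3, x103_5_0, x184_5_0, x187_1_1, x36_1_1]
                    · rcases d_p11_23B with x188_0_0 | x188_1_0 | x188_2_0 | x188_3_0 | x188_4_0 | x188_5_0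
                      · rcases d_tpmz with x189_0_0 | x189_1_0 | x189_2_0 | x189_3_0 | x189_4_0 | x189_5_0
                        · linarith only [C.f33_4, C.o1, C.o2, s2, x104_13_0, x189_0_0, x51_4_0]
                        · rcases d_p22_33A with x190_0_0 | x190_1_0 | x190_2_0 | x190_3_0 | x190_4_0
                          · linarith only [C.f13_0, C.f22_1, C.f33_1, C.o2, s1, x104_13_0, x190_0_0]
                          · linarith only [C.b0, C.f13_0, C.f13_3, C.f22_1, C.f22_4, C.f33_1, C.f33_4, C.o0, C.o1, s1, s2, x189_1_0, x190_1_0]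
                          · linarith only [C.f13_0, s1, x190_2_0]
                          · linarith only [C.f13_0, C.f13_3, s2, x189_1_0, x190_3_0]
                          · linarith only [C.b3, C.f13_0, C.f13_3, C.f13_7, C.f22_4, C.f33_4, s2, s3, x104_13_0, x188_0_0, x189_1_0, x190_4_0]
                        · linarith only [C.f33_4, s2, x189_2_0, x51_4_0]
                        · linarith only [C.f13_0, C.f22_1, C.f23_0, C.f33_0, C.o0, C.o1, s1, x189_3_0, x23_1_1]
                        · linarith only [C.f13_0, C.f22_1, C.f33_1, C.o2, s1, x104_13_0, x188_0_0, x189_4_0]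
                        · rcases d_f33_8 with ⟨x191_0_0, x191_0_1⟩ | ⟨x191_1_0, x191_1_1⟩
                          · linarith only [C.b5, C.f13_4, C.f13_7, C.f22_4, C.f22_6, C.f33_7, C.o1, s2, s3, x191_0_1, x42_1_1]
                          · linarith only [C.f13_7, C.f22_4, C.f22_6, s3, x103_5_0, x189_5_0, x191_1_1, x36_1_1]
                      · linarith only [C.f13_0, C.f22_1, C.f33_1, C.o1, C.o2, s1, x104_13_0, x188_1_0]
                      · linarith only [C.b0, C.f13_1, C.f13_4, C.f22_1, C.f22_4, C.f33_1, C.f33_4, C.o0, C.o1, C.o2, s1, s2, x188_2_0]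
                      · linarith only [C.f11_0, C.o0, x188_3_0, x1_0_0, x23_1_1]
                      · rcases d_p22_33A with x192_0_0 | x192_1_0 | x192_2_0 | x192_3_0 | x192_4_0
                        · linarith only [C.f13_0, C.f22_1, C.f33_1, C.o2, s1, x104_13_0, x192_0_0]
                        · linarith only [C.f13_0, C.f13_4, C.f22_1, C.f22_4, C.f33_1, C.f33_4, C.o1, s1, s2, x104_13_0, x192_1_0]
                        · linarith only [C.f13_0, s1, x192_2_0]
                        · rcases d_f22_5 with ⟨x193_0_0, x193_0_1⟩ | ⟨x193_1_0, x193_1_1⟩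
                          · linarith only [C.b3, C.f11_0, C.f11_1, C.f13_0, C.f13_3, C.f33_1, s1, s2, x188_4_0, x192_3_0, x193_0_1, x35_1_1, x3_1_1, x42_1_1, x51_4_0]
                          · rcases d_f33_8 with ⟨x194_0_0, x194_0_1⟩ | ⟨x194_1_0, x194_1_1⟩
                            · linarith only [C.b5, C.f13_4, C.f13_7, C.f22_4, C.f22_6, C.f33_7, C.o1, s2, s3, x194_0_1, x42_1_1]
                            · rcases d_tpmz with x195_0_0 | x195_1_0 | x195_2_0 | x195_3_0 | x195_4_0 | x195_5_0
                              · linarith only [C.b0, C.f11_0, C.f11_1, C.f13_0, C.f13_3, C.f22_4, C.f33_4, C.o1, C.o2, s2, x104_13_0, x188_4_0, x195_0_0, x35_1_1]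
                              · linarith only [C.f13_0, C.f13_3, s2, x192_3_0, x195_1_0]
                              · linarith only [C.f33_4, s2, x195_2_0, x51_4_0]
                              · linarith only [C.f13_0, C.f22_1, C.f23_0, C.f33_0, C.o0, C.o1, s1, x195_3_0, x23_1_1]
                              · linarith only [C.f11_0, C.f11_1, C.f13_0, C.f13_3, C.f22_1, C.f33_1, C.o1, s1, s2, x188_4_0, x192_3_0, x193_1_1, x195_4_0, x35_1_1, x42_1_1]
                              · linarith only [C.f13_7, C.f22_4, C.f22_6, s3, x103_5_0, x194_1_1, x195_5_0, x36_1_1]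
                        · rcases d_f33_8 with ⟨x196_0_0, x196_0_1⟩ | ⟨x196_1_0, x196_1_1⟩
                          · linarith only [C.b5, C.f13_4, C.f13_7, C.f22_6, C.f33_7, C.o1, s2, s3, x192_4_0, x196_0_1, x42_1_1]
                          · linarith only [C.f13_7, s3, x103_5_0, x192_4_0, x196_1_1, x36_1_1]
                      · rcases d_p22_33A with x197_0_0 | x197_1_0 | x197_2_0 | x197_3_0 | x197_4_0
                        · linarith only [C.b3, C.f11_0, C.f11_1, C.f11_2, C.f13_0, C.f13_7, C.f22_1, C.f22_4, C.f22_6, C.f33_1, C.f33_7, s1, s3, x104_13_0, x188_5_0, x197_0_0, x36_1_1]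
                        · linarith only [C.b0, C.f13_0, C.f22_1, C.f33_1, C.f33_4, C.o0, C.o1, s1, s2, x197_1_0, x51_4_0]
                        · linarith only [C.f13_0, s1, x197_2_0]
                        · rcases d_f33_8 with ⟨x198_0_0, x198_0_1⟩ | ⟨x198_1_0, x198_1_1⟩
                          · linarith only [C.b5, C.f13_4, C.f13_7, C.f22_4, C.f22_6, C.f33_7, C.o1, s2, s3, x198_0_1, x42_1_1]
                          · rcases d_tpmz with x199_0_0 | x199_1_0 | x199_2_0 | x199_3_0 | x199_4_0 | x199_5_0
                            · linarith only [C.b3, C.f11_0, C.f11_1, C.f11_2, C.f13_7, C.f22_6, C.f33_4, C.f33_7, C.o1, s2, s3, x104_13_0, x188_5_0, x197_3_0, x199_0_0, x36_1_1, x51_4_0]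
                            · linarith only [C.f13_0, C.f13_3, s2, x197_3_0, x199_1_0]
                            · linarith only [C.f33_4, s2, x199_2_0, x51_4_0]
                            · linarith only [C.f13_0, C.f22_1, C.f23_0, C.f33_0, C.o0, C.o1, s1, x199_3_0, x23_1_1]
                            · linarith only [C.b5, C.f11_0, C.f11_1, C.f11_2, C.f13_0, C.f13_3, C.f13_7, C.f22_1, C.f22_6, C.f33_1, s1, s2, s3, x103_5_0, x188_5_0, x197_3_0, x198_1_1, x199_4_0, x36_1_1, x42_1_1]
                            · linarith only [C.f13_7, C.f22_4, C.f22_6, s3, x103_5_0, x198_1_1, x199_5_0, x36_1_1]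
                        · rcases d_f33_8 with ⟨x200_0_0, x200_0_1⟩ | ⟨x200_1_0, x200_1_1⟩
                          · linarith only [C.b5, C.f13_4, C.f13_7, C.f22_6, C.f33_7, C.o1, s2, s3, x197_4_0, x200_0_1, x42_1_1]
                          · linarith only [C.f13_7, s3, x103_5_0, x197_4_0, x200_1_1, x36_1_1]
                    · rcases d_p22_33A with x201_0_0 | x201_1_0 | x201_2_0 | x201_3_0 | x201_4_0
                      · linarith only [e2, x201_0_0]
                      · linarith only [C.f13_0, C.f22_1, C.f33_1, C.f33_4, C.o1, e0, s1, s2, x201_1_0, x51_4_0]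
                      · linarith only [C.f13_0, s1, x201_2_0]
                      · rcases d_f33_8 with ⟨x202_0_0, x202_0_1⟩ | ⟨x202_1_0, x202_1_1⟩
                        · linarith only [C.b0, C.b5, C.f33_7, C.o0, x104_14_0, x202_0_1, x42_1_1]
                        · rcases d_p13_23A with x203_0_0 | x203_1_0 | x203_2_0 | x203_3_0 | x203_4_0 | x203_5_0
                          · linarith only [C.b0, C.o0, x203_0_0]
                          · linarith only [C.b0, C.o0, e2, x104_14_0, x203_1_0]
                          · linarith only [C.b0, C.o0, x1_0_0, x203_2_0]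
                          · rcases d_f22_5 with ⟨x204_0_0, x204_0_1⟩ | ⟨x204_1_0, x204_1_1⟩
                            · linarith only [C.f13_0, C.f13_3, C.f22_4, s2, x1_0_0, x201_3_0, x204_0_1, x3_1_1]
                            · linarith only [e2, x103_5_0, x104_14_0, x201_3_0, x202_1_1, x203_3_0, x204_1_1, x23_1_1, x2_0_1, x36_1_1, x42_1_1]
                          · linarith only [s2, x201_3_0, x203_4_0, x35_1_1]
                          · rcases d_f13_8 with ⟨x205_0_0, x205_0_1⟩ | ⟨x205_1_0, x205_1_1⟩
                            · linarith only [C.f13_4, C.f13_7, C.f22_6, C.f33_7, s2, s3, x201_3_0, x203_5_0, x205_0_1, x36_1_1, x42_1_1]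
                            · linarith only [C.o2, x203_5_0, x205_1_1, x36_1_1]
                      · rcases d_f33_8 with ⟨x206_0_0, x206_0_1⟩ | ⟨x206_1_0, x206_1_1⟩
                        · linarith only [C.b0, C.b5, C.f33_7, C.o0, x104_14_0, x206_0_1, x42_1_1]
                        · linarith only [C.f13_7, s3, x103_5_0, x201_4_0, x206_1_1, x36_1_1]
                · linarith only [C.f33_7, s3, x51_5_0]
          · linarith only [C.f13_4, C.f22_4, C.f23_5, C.f33_4, C.o1, C.o2, s2, x35_2_1]
        · linarith only [C.f13_4, C.f22_4, C.f23_1, C.f33_4, C.o1, C.o2, s2, x23_2_1]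
    · linarith only [C.f13_0, C.f13_4, C.f22_1, C.f22_4, C.f33_1, C.f33_4, C.o1, C.o2, s1, s2, x2_1_1]
  · rcases d_f23_3 with ⟨x207_0_0, x207_0_1⟩ | ⟨x207_1_0, x207_1_1⟩ | ⟨x207_2_0, x207_2_1⟩
    · rcases d_f23_7 with ⟨x208_0_0, x208_0_1⟩ | ⟨x208_1_0, x208_1_1⟩ | ⟨x208_2_0, x208_2_1⟩
      · linarith only [C.b3, C.f13_0, C.f13_3, C.f22_0, C.f22_4, C.f23_5, C.f33_0, C.f33_3, C.o0, s1, s2, x207_0_1, x208_0_1]
      · rcases d_f23_10 with ⟨x209_0_0, x209_0_1⟩ | ⟨x209_1_0, x209_1_1⟩
        · linarith only [C.f23_9, C.o1, x1_1_1, x208_1_1, x209_0_1]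
        · rcases d_f13_8 with ⟨x210_0_0, x210_0_1⟩ | ⟨x210_1_0, x210_1_1⟩
          · rcases d_f13_5 with ⟨x211_0_0, x211_0_1⟩ | ⟨x211_1_0, x211_1_1⟩
            · rcases d_f13_2 with ⟨x212_0_0, x212_0_1⟩ | ⟨x212_1_0, x212_1_1⟩
              · linarith only [C.b3, C.f13_7, C.o0, x1_1_1, x210_0_1, x211_0_1, x212_0_1]
              · linarith only [C.b3, C.f13_7, C.f22_1, C.f22_4, C.f22_6, C.f33_1, C.f33_4, C.f33_6, C.o0, C.o1, s1, s2, s3, x1_1_1, x210_0_1, x211_0_1, x212_1_1]
            · linarith only [C.f13_7, C.f22_4, C.f22_6, C.f33_4, C.f33_7, C.o1, s2, s3, x1_1_1, x210_0_1, x211_1_1]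
          · rcases d_p13_23A with x213_0_0 | x213_1_0 | x213_2_0 | x213_3_0 | x213_4_0 | x213_5_0
            · linarith only [C.b0, C.o0, x213_0_0]
            · linarith only [C.b0, C.f13_1, C.f13_4, C.f22_1, C.f22_4, C.f33_1, C.f33_4, C.o0, C.o1, C.o2, s1, s2, x213_1_0]
            · linarith only [C.b0, C.f13_0, C.f22_1, C.f23_1, C.f33_0, C.o0, C.o1, s1, x207_0_1, x213_2_0]
            · rcases d_f13_2 with ⟨x214_0_0, x214_0_1⟩ | ⟨x214_1_0, x214_1_1⟩
              · linarith only [C.f22_0, C.f33_0, s1, x207_0_1, x213_3_0, x214_0_1]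
              · linarith only [C.f13_0, C.f13_4, C.f22_1, C.f22_4, C.f33_1, C.f33_4, C.o1, C.o2, s1, s2, x214_1_1]
            · rcases d_p22_33A with x215_0_0 | x215_1_0 | x215_2_0 | x215_3_0 | x215_4_0
              · linarith only [e2, x215_0_0]
              · linarith only [C.b0, C.f13_0, C.f22_1, C.f22_4, C.f33_1, C.f33_4, C.o0, C.o1, s1, s2, x208_1_1, x213_4_0, x215_1_0]
              · linarith only [C.f13_0, s1, x215_2_0]
              · linarith only [s2, x208_1_1, x213_4_0, x215_3_0]
              · rcases d_f33_8 with ⟨x216_0_0, x216_0_1⟩ | ⟨x216_1_0, x216_1_1⟩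
                · linarith only [C.f13_7, C.f22_6, C.o1, s2, s3, x1_1_1, x208_1_1, x213_4_0, x215_4_0, x216_0_1]
                · rcases d_p23_33A with x217_0_0 | x217_1_0 | x217_2_0 | x217_3_0 | x217_4_0 | x217_5_0
                  · linarith only [C.b0, C.f13_0, C.f22_0, C.f23_1, C.f33_0, C.o0, s1, x207_0_1, x217_0_0]
                  · linarith only [C.b0, C.f13_1, C.f13_4, C.f13_6, C.f13_7, C.f22_1, C.f22_6, C.f33_1, C.f33_4, C.o0, C.o1, s1, s2, s3, x215_4_0, x216_1_1, x217_1_0]
                  · linarith only [C.b0, C.f13_1, C.f22_1, C.f22_6, C.f33_1, C.f33_4, C.o0, C.o1, s1, s2, x1_1_1, x208_1_1, x213_4_0, x215_4_0, x216_1_1, x217_2_0]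
                  · linarith only [C.f13_0, C.f22_0, s1, x207_0_1, x217_3_0]
                  · linarith only [C.f13_7, C.f22_6, C.o1, s2, s3, x1_1_1, x208_1_1, x213_4_0, x215_4_0, x216_1_1, x217_4_0]
                  · linarith only [C.f13_7, s3, x209_1_1, x215_4_0, x216_1_1, x217_5_0]
            · linarith only [C.o2, x209_1_1, x210_1_1, x213_5_0]
      · linarith only [C.f13_4, C.f22_4, C.f23_5, C.f33_4, C.o1, C.o2, s2, x208_2_1]
    · rcases d_f23_7 with ⟨x218_0_0, x218_0_1⟩ | ⟨x218_1_0, x218_1_1⟩ | ⟨x218_2_0, x218_2_1⟩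
      · linarith only [C.b3, C.f23_5, x1_1_0, x207_1_1, x218_0_1]
      · rcases d_f23_10 with ⟨x219_0_0, x219_0_1⟩ | ⟨x219_1_0, x219_1_1⟩
        · linarith only [C.f23_9, C.o1, x1_1_1, x218_1_1, x219_0_1]
        · rcases d_tzpm with x220_0_0 | x220_1_0 | x220_2_0 | x220_3_0 | ⟨x220_4_0, x220_4_1⟩
          · rcases d_f13_5 with ⟨x221_0_0, x221_0_1⟩ | ⟨x221_1_0, x221_1_1⟩
            · rcases d_p13_33A with x222_0_0 | x222_1_0 | x222_2_0 | x222_3_0 | x222_4_0 | x222_5_0
              · linarith only [e0, x222_0_0]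
              · linarith only [C.b0, C.f13_1, C.f13_4, C.f22_1, C.f22_4, C.f33_1, C.f33_4, C.o0, C.o1, C.o2, s1, s2, x222_1_0]
              · linarith only [C.a4, C.b0, C.f13_0, C.f22_1, C.f33_1, C.o0, C.o1, s1, x222_2_0]
              · linarith only [C.f22_1, C.o1, s1, x220_0_0, x222_3_0]
              · linarith only [C.f22_4, C.o1, s2, x222_4_0]
              · rcases d_f13_8 with ⟨x223_0_0, x223_0_1⟩ | ⟨x223_1_0, x223_1_1⟩
                · rcases d_f13_2 with ⟨x224_0_0, x224_0_1⟩ | ⟨x224_1_0, x224_1_1⟩
                  · linarith only [C.b3, C.f13_7, C.o0, x1_1_1, x221_0_1, x223_0_1, x224_0_1]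
                  · linarith only [C.b3, C.b4, C.f13_7, C.f22_1, C.f22_3, C.f22_6, C.f33_1, C.o0, s1, s3, x1_1_1, x221_0_1, x222_5_0, x223_0_1, x224_1_1]
                · rcases d_f33_5 with ⟨x225_0_0, x225_0_1⟩ | ⟨x225_1_0, x225_1_1⟩
                  · rcases d_f33_8 with ⟨x226_0_0, x226_0_1⟩ | ⟨x226_1_0, x226_1_1⟩
                    · linarith only [C.b3, C.f13_0, C.f13_7, C.f22_1, C.f22_4, C.f22_6, C.f33_7, C.o0, C.o1, s1, s3, x1_1_1, x220_0_0, x225_0_1, x226_0_1]
                    · rcases d_p22_33A with x227_0_0 | x227_1_0 | x227_2_0 | x227_3_0 | x227_4_0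
                      · linarith only [e2, x227_0_0]
                      · linarith only [C.b0, C.f13_0, C.f13_3, C.f22_1, C.f22_4, C.f33_1, C.f33_4, C.o0, C.o1, s1, s2, x225_0_1, x227_1_0]
                      · linarith only [C.f13_0, s1, x227_2_0]
                      · rcases d_f22_5 with ⟨x228_0_0, x228_0_1⟩ | ⟨x228_1_0, x228_1_1⟩
                        · linarith only [C.f13_0, C.f13_3, s1, s2, x225_0_1, x227_3_0, x228_0_1]
                        · linarith only [C.f13_0, C.f13_3, C.f22_1, s1, s2, x220_0_0, x225_0_1, x227_3_0, x228_1_1]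
                      · linarith only [s3, x222_5_0, x226_1_1, x227_4_0]
                  · rcases d_f33_8 with ⟨x229_0_0, x229_0_1⟩ | ⟨x229_1_0, x229_1_1⟩
                    · linarith only [C.b3, C.f13_4, C.f13_6, C.f22_1, C.f22_4, C.f22_6, C.f33_1, C.f33_7, C.o0, C.o1, s1, s3, x1_1_1, x220_0_0, x221_0_1, x225_1_1, x229_0_1]
                    · rcases d_p22_33A with x230_0_0 | x230_1_0 | x230_2_0 | x230_3_0 | x230_4_0
                      · linarith only [e2, x230_0_0]
                      · linarith only [C.b0, C.f13_0, C.f13_4, C.f22_1, C.f22_4, C.f33_1, C.f33_4, C.o0, C.o1, s1, s2, x222_5_0, x223_1_1, x229_1_1, x230_1_0]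
                      · linarith only [C.f13_0, s1, x230_2_0]
                      · rcases d_f22_5 with ⟨x231_0_0, x231_0_1⟩ | ⟨x231_1_0, x231_1_1⟩
                        · linarith only [C.f13_0, C.f13_3, C.f33_1, s1, s2, x220_0_0, x225_1_1, x230_3_0, x231_0_1]
                        · linarith only [C.f13_0, C.f22_1, C.f33_1, s1, x220_0_0, x225_1_1, x230_3_0, x231_1_1]
                      · linarith only [s3, x222_5_0, x229_1_1, x230_4_0]
            · rcases d_f22_5 with ⟨x232_0_0, x232_0_1⟩ | ⟨x232_1_0, x232_1_1⟩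
              · linarith only [C.f13_0, C.f13_3, C.f22_4, C.f33_1, C.o1, C.o2, s1, x220_0_0, x221_1_1, x232_0_1]
              · rcases d_f33_5 with ⟨x233_0_0, x233_0_1⟩ | ⟨x233_1_0, x233_1_1⟩
                · linarith only [C.f13_0, C.f13_3, C.f22_1, C.f33_4, C.o1, C.o2, s1, x220_0_0, x221_1_1, x233_0_1]
                · rcases d_p22_33A with x234_0_0 | x234_1_0 | x234_2_0 | x234_3_0 | x234_4_0
                  · linarith only [e2, x234_0_0]
                  · linarith only [C.a4, C.b0, C.f13_0, C.f22_1, C.f33_1, C.o0, C.o1, s1, x234_1_0]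
                  · linarith only [C.f13_0, s1, x234_2_0]
                  · linarith only [C.f13_0, C.f22_1, C.f33_1, s1, x220_0_0, x232_1_1, x233_1_1, x234_3_0]
                  · rcases d_f33_8 with ⟨x235_0_0, x235_0_1⟩ | ⟨x235_1_0, x235_1_1⟩
                    · linarith only [C.f13_4, C.f13_7, C.f22_6, C.o1, s2, s3, x1_1_1, x232_1_1, x233_1_1, x234_4_0, x235_0_1]
                    · linarith only [C.f13_7, C.f22_6, s3, x1_1_1, x232_1_1, x234_4_0, x235_1_1]
          · linarith only [C.f13_7, C.f22_4, C.f22_6, C.f33_7, C.o1, s3, x1_1_1, x220_1_0]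
          · rcases d_tpmz with x236_0_0 | x236_1_0 | x236_2_0 | x236_3_0 | x236_4_0 | x236_5_0
            · linarith only [e0, x236_0_0]
            · rcases d_p22_33A with x237_0_0 | x237_1_0 | x237_2_0 | x237_3_0 | x237_4_0
              · linarith only [e2, x237_0_0]
              · linarith only [C.b0, C.f13_0, C.f13_3, C.f22_1, C.f22_4, C.f33_1, C.f33_4, C.o0, C.o1, s1, s2, x220_2_0, x237_1_0]
              · linarith only [C.f13_0, s1, x237_2_0]
              · linarith only [C.f13_0, C.f13_3, s2, x236_1_0, x237_3_0]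
              · rcases d_f33_8 with ⟨x238_0_0, x238_0_1⟩ | ⟨x238_1_0, x238_1_1⟩
                · linarith only [C.f13_0, C.f13_3, C.f13_7, C.f22_6, C.o1, s2, s3, x1_1_1, x236_1_0, x237_4_0, x238_0_1]
                · rcases d_p13_33A with x239_0_0 | x239_1_0 | x239_2_0 | x239_3_0 | x239_4_0 | x239_5_0
                  · linarith only [e0, x239_0_0]
                  · linarith only [C.b0, C.f13_1, C.f13_4, C.f13_7, C.f22_1, C.f22_4, C.f33_1, C.f33_4, C.o0, C.o1, s1, s2, s3, x237_4_0, x239_1_0]
                  · linarith only [C.b0, C.f13_0, C.f13_4, C.f22_1, C.f22_6, C.f33_1, C.f33_4, C.o0, C.o1, s1, s2, x1_1_1, x237_4_0, x238_1_1, x239_2_0]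
                  · linarith only [C.f13_3, C.f13_7, C.f22_6, C.f33_3, C.o1, s2, s3, x1_1_1, x236_1_0, x237_4_0, x238_1_1, x239_3_0]
                  · linarith only [C.f13_7, C.f22_6, C.o1, s2, s3, x1_1_1, x237_4_0, x238_1_1, x239_4_0]
                  · linarith only [s3, x237_4_0, x238_1_1, x239_5_0]
            · rcases d_tpmm with x240_0_0 | x240_1_0 | x240_2_0 | x240_3_0 | x240_4_0
              · linarith only [C.b0, C.f13_0, C.f13_3, C.f22_4, C.f33_4, C.o1, s2, x220_2_0, x236_2_0, x240_0_0]
              · linarith only [C.f13_0, C.f13_3, C.f22_4, C.f33_4, C.o1, s2, x236_2_0, x240_1_0]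
              · linarith only [C.f13_0, C.f13_3, C.f22_1, C.f22_4, C.f23_0, C.f33_0, C.f33_4, C.o1, s1, s2, x207_1_1, x220_2_0, x236_2_0, x240_2_0]
              · linarith only [C.f13_0, C.f13_3, C.f22_1, C.f22_4, C.f33_1, C.f33_4, C.o1, s1, s2, x220_2_0, x236_2_0, x240_3_0]
              · linarith only [C.f13_4, C.f22_4, C.f33_4, C.o1, s2, x236_2_0, x240_4_0]
            · linarith only [C.f13_0, C.f13_3, C.f22_1, C.f22_4, C.f23_0, C.f33_0, C.f33_3, C.o1, s1, s2, x207_1_1, x220_2_0, x236_3_0]
            · rcases d_t12 with ⟨x241_0_0, x241_0_1⟩ | ⟨x241_1_0, x241_1_1⟩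
              · rcases d_p13_33A with x242_0_0 | x242_1_0 | x242_2_0 | x242_3_0 | x242_4_0 | x242_5_0
                · linarith only [C.b0, C.o1, x220_2_0, x241_0_1, x242_0_0]
                · linarith only [C.b0, C.f13_1, C.f13_4, C.f22_1, C.f22_4, C.f33_1, C.f33_4, C.o0, C.o1, C.o2, s1, s2, x242_1_0]
                · linarith only [C.b0, C.f13_0, C.f13_3, C.f22_1, C.f22_4, C.f33_1, C.f33_4, C.o0, C.o1, s1, s2, x220_2_0, x242_2_0]
                · linarith only [C.f13_3, C.f22_1, C.f22_4, C.f33_3, C.o1, s1, s2, x220_2_0, x236_4_0, x242_3_0]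
                · linarith only [C.f22_4, C.o1, s2, x242_4_0]
                · rcases d_p22_33A with x243_0_0 | x243_1_0 | x243_2_0 | x243_3_0 | x243_4_0
                  · linarith only [e2, x243_0_0]
                  · linarith only [C.b0, C.f13_0, C.f13_3, C.f22_1, C.f22_4, C.f33_1, C.f33_4, C.o0, C.o1, s1, s2, x220_2_0, x243_1_0]
                  · linarith only [C.f13_0, s1, x243_2_0]
                  · linarith only [C.a2, C.f13_0, C.f13_3, s2, x220_2_0, x236_4_0, x243_3_0]
                  · rcases d_f33_8 with ⟨x244_0_0, x244_0_1⟩ | ⟨x244_1_0, x244_1_1⟩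
                    · linarith only [C.a2, C.f13_0, C.f13_3, C.f13_7, C.f22_6, C.o1, s2, s3, x1_1_1, x220_2_0, x236_4_0, x243_4_0, x244_0_1]
                    · linarith only [s3, x242_5_0, x243_4_0, x244_1_1]
              · linarith only [x220_2_0, x241_1_1]
            · linarith only [x1_1_1, x236_5_0]
          · linarith only [C.f13_4, C.f22_4, C.f33_4, C.o1, C.o2, s2, x220_3_0]
          · rcases d_tpmz with x245_0_0 | x245_1_0 | x245_2_0 | x245_3_0 | x245_4_0 | x245_5_0
            · linarith only [C.b0, C.o0, x245_0_0]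
            · rcases d_p22_33A with x246_0_0 | x246_1_0 | x246_2_0 | x246_3_0 | x246_4_0
              · linarith only [e2, x246_0_0]
              · linarith only [C.b0, C.f13_0, C.f13_4, C.f22_1, C.f22_4, C.f33_1, C.f33_4, C.o0, s1, s2, x220_4_0, x220_4_1, x246_1_0]
              · linarith only [C.f13_0, s1, x246_2_0]
              · linarith only [C.f13_0, C.f13_3, s2, x245_1_0, x246_3_0]
              · linarith only [C.f13_7, s3, x220_4_1, x246_4_0]
            · linarith only [C.f13_4, C.f22_4, C.f33_4, s2, x220_4_0, x220_4_1, x245_2_0]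
            · linarith only [C.f13_0, C.f22_1, C.f23_0, C.f33_0, C.o0, s1, x207_1_1, x220_4_0, x245_3_0]
            · rcases d_g1 with x247_0_0 | x247_1_0 | x247_2_0 | x247_3_0 | x247_4_0 | x247_5_0 | x247_6_0 | x247_7_0 | x247_8_0 | x247_9_0 | x247_10_0 | x247_11_0 | x247_12_0 | x247_13_0 | x247_14_0
              · linarith only [C.b0, C.o0, x247_0_0]
              · rcases d_p11_33A with x248_0_0 | x248_1_0 | x248_2_0 | x248_3_0 | x248_4_0
                · linarith only [C.f13_0, C.f22_1, C.f33_0, s1, x245_4_0, x247_1_0, x248_0_0]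
                · linarith only [C.b0, C.f13_0, C.f13_4, C.f22_1, C.f22_4, C.f33_1, C.f33_4, C.o0, s1, s2, x220_4_0, x220_4_1, x248_1_0]
                · linarith only [C.f11_0, C.f13_0, C.f22_1, s1, x245_4_0, x248_2_0]
                · linarith only [C.a2, C.f11_0, C.f11_1, C.f13_0, C.f13_3, C.f22_4, s2, x245_4_0, x248_3_0]
                · linarith only [C.b3, C.f11_0, C.f11_1, C.f11_2, C.f13_7, C.f22_4, C.f22_6, s3, x220_4_1, x248_4_0]
              · rcases d_p22_33A with x249_0_0 | x249_1_0 | x249_2_0 | x249_3_0 | x249_4_0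
                · linarith only [e2, x249_0_0]
                · linarith only [C.b0, C.f13_0, C.f13_4, C.f22_1, C.f22_4, C.f33_1, C.f33_4, C.o0, s1, s2, x220_4_0, x220_4_1, x249_1_0]
                · linarith only [C.f13_0, s1, x249_2_0]
                · rcases d_f33_5 with ⟨x250_0_0, x250_0_1⟩ | ⟨x250_1_0, x250_1_1⟩
                  · rcases d_f22_5 with ⟨x251_0_0, x251_0_1⟩ | ⟨x251_1_0, x251_1_1⟩
                    · linarith only [C.f13_0, C.f13_3, s1, s2, x249_3_0, x250_0_1, x251_0_1]
                    · linarith only [C.f13_0, C.f13_3, C.f22_1, s1, s2, x247_2_0, x249_3_0, x250_0_1, x251_1_1]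
                  · rcases d_f22_5 with ⟨x252_0_0, x252_0_1⟩ | ⟨x252_1_0, x252_1_1⟩
                    · linarith only [C.f13_0, C.f13_3, C.f33_1, s1, s2, x247_2_0, x249_3_0, x250_1_1, x252_0_1]
                    · linarith only [C.f13_0, C.f13_3, C.f22_1, C.f33_1, s1, s2, x247_2_0, x249_3_0, x250_1_1, x252_1_1]
                · linarith only [C.f13_7, s3, x220_4_1, x249_4_0]
              · rcases d_p11_33A with x253_0_0 | x253_1_0 | x253_2_0 | x253_3_0 | x253_4_0
                · linarith only [C.f13_0, C.f13_7, C.f22_1, C.f22_4, C.f22_6, C.f33_1, C.f33_7, s1, s3, x1_1_1, x245_4_0, x247_3_0, x253_0_0]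
                · linarith only [C.f13_0, C.f13_4, C.f22_1, C.f22_4, C.f33_1, C.f33_4, s1, s2, x1_1_1, x220_4_0, x247_3_0, x253_1_0]
                · linarith only [C.f11_0, C.f13_0, C.f22_1, s1, x245_4_0, x253_2_0]
                · linarith only [C.a2, C.f11_0, C.f11_1, C.f13_0, C.f13_3, C.f22_4, s2, x245_4_0, x253_3_0]
                · linarith only [C.b3, C.f11_0, C.f11_1, C.f11_2, C.f13_7, C.f22_4, C.f22_6, s3, x220_4_1, x253_4_0]
              · rcases d_f33_8 with ⟨x254_0_0, x254_0_1⟩ | ⟨x254_1_0, x254_1_1⟩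
                · rcases d_f33_5 with ⟨x255_0_0, x255_0_1⟩ | ⟨x255_1_0, x255_1_1⟩
                  · linarith only [C.f13_0, C.f13_3, C.f13_7, C.f22_1, C.f22_4, C.f22_6, C.f33_7, C.o0, s1, s2, s3, x1_1_1, x220_4_0, x245_4_0, x254_0_1, x255_0_1]
                  · linarith only [C.b0, C.f33_7, C.o0, x247_4_0, x254_0_1, x255_1_1]
                · rcases d_f13_2 with ⟨x256_0_0, x256_0_1⟩ | ⟨x256_1_0, x256_1_1⟩
                  · rcases d_f13_8 with ⟨x257_0_0, x257_0_1⟩ | ⟨x257_1_0, x257_1_1⟩
                    · rcases d_f13_5 with ⟨x258_0_0, x258_0_1⟩ | ⟨x258_1_0, x258_1_1⟩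
                      · linarith only [C.b3, C.f13_7, C.f22_4, C.f22_6, C.f33_7, C.o0, s3, x220_4_1, x256_0_1, x257_0_1, x258_0_1]
                      · linarith only [C.b0, C.f13_7, C.o0, x247_4_0, x257_0_1, x258_1_1]
                    · rcases d_f22_2 with ⟨x259_0_0, x259_0_1⟩ | ⟨x259_1_0, x259_1_1⟩
                      · linarith only [C.f13_0, C.f22_1, C.f33_0, C.o0, s1, x245_4_0, x259_0_1]
                      · rcases d_f22_5 with ⟨x260_0_0, x260_0_1⟩ | ⟨x260_1_0, x260_1_1⟩
                        · linarith only [C.b3, C.f22_4, x1_1_0, x259_1_1, x260_0_1]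
                        · rcases d_p11_33A with x261_0_0 | x261_1_0 | x261_2_0 | x261_3_0 | x261_4_0
                          · rcases d_f33_5 with ⟨x262_0_0, x262_0_1⟩ | ⟨x262_1_0, x262_1_1⟩
                            · rcases d_t12 with ⟨x263_0_0, x263_0_1⟩ | ⟨x263_1_0, x263_1_1⟩
                              · rcases d_f13_5 with ⟨x264_0_0, x264_0_1⟩ | ⟨x264_1_0, x264_1_1⟩
                                · rcases d_p22_33A with x265_0_0 | x265_1_0 | x265_2_0 | x265_3_0 | x265_4_0
                                  · linarith only [e2, x265_0_0]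
                                  · linarith only [C.b0, C.b3, C.f13_4, C.f22_1, C.f33_1, C.o0, s1, x220_4_1, x264_0_1, x265_1_0]
                                  · linarith only [C.f13_0, s1, x265_2_0]
                                  · rcases d_p13_23A with x266_0_0 | x266_1_0 | x266_2_0 | x266_3_0 | x266_4_0 | x266_5_0
                                    · linarith only [C.b0, C.o0, x266_0_0]
                                    · linarith only [C.b0, C.b4, C.f13_1, C.f22_1, C.f33_1, C.o0, C.o2, s1, x266_1_0]
                                    · linarith only [C.b0, C.f13_0, C.f13_3, C.f22_1, C.o0, s1, s2, x260_1_1, x262_0_1, x265_3_0, x266_2_0]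
                                    · linarith only [C.f22_1, s1, x207_1_1, x260_1_1, x262_0_1, x263_0_1, x265_3_0, x266_3_0]
                                    · linarith only [s2, x218_1_1, x265_3_0, x266_4_0]
                                    · linarith only [C.o2, x219_1_1, x257_1_1, x266_5_0]
                                  · linarith only [C.f13_7, C.f22_6, s3, x1_1_1, x254_1_1, x260_1_1, x265_4_0]
                                · linarith only [C.f13_0, C.f13_3, C.f22_1, C.f33_4, C.o0, C.o2, s1, x245_4_0, x262_0_1, x264_1_1]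
                              · linarith only [x261_0_0, x263_1_0]
                            · rcases d_p22_33A with x267_0_0 | x267_1_0 | x267_2_0 | x267_3_0 | x267_4_0
                              · linarith only [e2, x267_0_0]
                              · linarith only [C.b0, C.f13_0, C.f13_4, C.f22_1, C.f22_4, C.f33_1, C.f33_4, C.o0, s1, s2, x220_4_0, x220_4_1, x267_1_0]
                              · linarith only [C.f13_0, s1, x267_2_0]
                              · rcases d_p13_23A with x268_0_0 | x268_1_0 | x268_2_0 | x268_3_0 | x268_4_0 | x268_5_0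
                                · linarith only [C.b0, C.o0, x268_0_0]
                                · linarith only [C.b0, C.b4, C.f13_1, C.f22_1, C.f33_1, C.o0, C.o2, s1, x268_1_0]
                                · linarith only [C.b0, C.f13_0, C.f22_1, C.f33_1, C.o0, s1, x260_1_1, x262_1_1, x267_3_0, x268_2_0]
                                · rcases d_p13_22B with x269_0_0 | x269_1_0 | x269_2_0 | x269_3_0 | x269_4_0 | x269_5_0
                                  · linarith only [C.b0, C.o0, x269_0_0]
                                  · linarith only [C.b0, C.b4, C.f13_1, C.f22_1, C.f33_1, C.o0, C.o2, s1, x269_1_0]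
                                  · linarith only [e2, x269_2_0]
                                  · linarith only [x1_1_0, x207_1_1, x220_4_0, x256_0_1, x259_1_1, x268_3_0, x269_3_0]
                                  · linarith only [s2, x220_4_0, x260_1_1, x267_3_0, x269_4_0]
                                  · linarith only [C.f22_6, e2, x207_1_1, x220_4_1, x247_4_0, x256_0_1, x257_1_1, x260_1_1, x262_1_1, x267_3_0, x268_3_0, x269_5_0]
                                · linarith only [s2, x218_1_1, x267_3_0, x268_4_0]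
                                · linarith only [C.o2, x219_1_1, x257_1_1, x268_5_0]
                              · linarith only [C.f13_7, C.f22_6, s3, x1_1_1, x254_1_1, x260_1_1, x267_4_0]
                          · linarith only [C.b0, C.f13_0, C.f13_4, C.f22_1, C.f22_4, C.f33_1, C.f33_4, C.o0, s1, s2, x220_4_0, x220_4_1, x261_1_0]
                          · linarith only [C.f11_0, C.f13_0, C.f22_1, s1, x245_4_0, x261_2_0]
                          · linarith only [C.a2, C.f11_0, C.f11_1, C.f13_0, C.f13_3, C.f22_4, s2, x245_4_0, x261_3_0]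
                          · linarith only [C.b3, C.f11_0, C.f11_1, C.f11_2, C.f13_7, C.f22_4, C.f22_6, s3, x1_1_1, x254_1_1, x261_4_0]
                  · linarith only [C.f13_0, C.f13_4, C.f22_1, C.f22_4, C.f33_1, C.f33_4, C.o2, s1, s2, x220_4_0, x256_1_1]
              · rcases d_p22_33A with x270_0_0 | x270_1_0 | x270_2_0 | x270_3_0 | x270_4_0
                · linarith only [e2, x270_0_0]
                · linarith only [C.b0, C.f13_0, C.f13_4, C.f22_1, C.f22_4, C.f33_1, C.f33_4, C.o0, s1, s2, x220_4_0, x220_4_1, x270_1_0]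
                · linarith only [C.f13_0, s1, x270_2_0]
                · rcases d_f33_5 with ⟨x271_0_0, x271_0_1⟩ | ⟨x271_1_0, x271_1_1⟩
                  · rcases d_f22_5 with ⟨x272_0_0, x272_0_1⟩ | ⟨x272_1_0, x272_1_1⟩
                    · linarith only [C.f13_0, C.f13_3, s1, s2, x270_3_0, x271_0_1, x272_0_1]
                    · linarith only [C.f13_0, C.f13_3, C.f22_1, s1, s2, x247_5_0, x270_3_0, x271_0_1, x272_1_1]
                  · rcases d_f22_5 with ⟨x273_0_0, x273_0_1⟩ | ⟨x273_1_0, x273_1_1⟩
                    · linarith only [C.f13_0, C.f13_3, C.f33_1, s1, s2, x247_5_0, x270_3_0, x271_1_1, x273_0_1]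
                    · linarith only [C.f13_0, C.f22_1, C.f33_1, s1, x247_5_0, x270_3_0, x271_1_1, x273_1_1]
                · linarith only [C.f13_7, s3, x220_4_1, x270_4_0]
              · rcases d_p13_23A with x274_0_0 | x274_1_0 | x274_2_0 | x274_3_0 | x274_4_0 | x274_5_0
                · linarith only [C.b0, C.o0, x274_0_0]
                · linarith only [C.b0, C.f13_4, C.f22_4, C.f33_4, C.o0, C.o2, s2, x245_4_0, x247_6_0, x274_1_0]
                · linarith only [C.b0, C.o0, x247_6_0, x274_2_0]
                · rcases d_f13_2 with ⟨x275_0_0, x275_0_1⟩ | ⟨x275_1_0, x275_1_1⟩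
                  · linarith only [x207_1_1, x247_6_0, x274_3_0, x275_0_1]
                  · linarith only [C.f13_4, C.f22_4, C.f33_4, C.o2, s2, x207_1_1, x220_4_0, x247_6_0, x274_3_0, x275_1_1]
                · rcases d_p22_33A with x276_0_0 | x276_1_0 | x276_2_0 | x276_3_0 | x276_4_0
                  · linarith only [e2, x276_0_0]
                  · linarith only [C.b0, C.f13_4, C.f22_4, C.f33_4, C.o0, s2, x220_4_1, x245_4_0, x247_6_0, x276_1_0]
                  · linarith only [C.f13_0, s1, x276_2_0]
                  · linarith only [s2, x218_1_1, x274_4_0, x276_3_0]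
                  · linarith only [C.f13_7, s3, x220_4_1, x276_4_0]
                · rcases d_f13_8 with ⟨x277_0_0, x277_0_1⟩ | ⟨x277_1_0, x277_1_1⟩
                  · rcases d_p22_33A with x278_0_0 | x278_1_0 | x278_2_0 | x278_3_0 | x278_4_0
                    · linarith only [e2, x278_0_0]
                    · linarith only [C.b0, C.f13_7, C.f22_4, C.f33_4, C.o0, s2, x1_1_1, x245_4_0, x247_6_0, x277_0_1, x278_1_0]
                    · linarith only [C.f13_0, s1, x278_2_0]
                    · linarith only [C.f13_7, C.o0, s2, x1_1_1, x245_4_0, x247_6_0, x277_0_1, x278_3_0]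
                    · linarith only [C.f13_7, s3, x219_1_1, x274_5_0, x278_4_0]
                  · linarith only [C.o2, x219_1_1, x274_5_0, x277_1_1]
              · rcases d_p11_33A with x279_0_0 | x279_1_0 | x279_2_0 | x279_3_0 | x279_4_0
                · rcases d_p13_23A with x280_0_0 | x280_1_0 | x280_2_0 | x280_3_0 | x280_4_0 | x280_5_0
                  · linarith only [C.b0, C.o0, x280_0_0]
                  · linarith only [C.b0, C.f13_1, C.f13_4, C.f22_1, C.f22_4, C.f33_1, C.f33_4, C.o0, C.o2, s1, s2, x220_4_0, x280_1_0]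
                  · linarith only [C.b0, C.f13_0, C.f22_1, C.f33_1, C.o0, s1, x220_4_0, x247_7_0, x280_2_0]
                  · linarith only [C.f22_1, C.f33_1, s1, x207_1_1, x245_4_0, x247_7_0, x279_0_0, x280_3_0]
                  · linarith only [C.f13_0, C.f22_1, C.f22_4, C.f33_1, C.f33_4, s1, s2, x218_1_1, x245_4_0, x247_7_0, x279_0_0, x280_4_0]
                  · rcases d_f13_8 with ⟨x281_0_0, x281_0_1⟩ | ⟨x281_1_0, x281_1_1⟩
                    · linarith only [C.f13_0, C.f13_7, C.f22_1, C.f22_4, C.f33_1, C.f33_4, s1, s2, x1_1_1, x220_4_0, x245_4_0, x247_7_0, x279_0_0, x281_0_1]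
                    · linarith only [C.o2, x219_1_1, x280_5_0, x281_1_1]
                · linarith only [C.b0, C.f13_0, C.f13_4, C.f22_1, C.f22_4, C.f33_1, C.f33_4, C.o0, s1, s2, x220_4_0, x220_4_1, x279_1_0]
                · linarith only [C.f11_0, C.f13_0, C.f22_1, s1, x245_4_0, x279_2_0]
                · linarith only [C.a2, C.f11_0, C.f11_1, C.f13_0, C.f13_3, C.f22_4, s2, x245_4_0, x279_3_0]
                · linarith only [C.b3, C.f11_0, C.f11_1, C.f11_2, C.f13_7, C.f22_4, C.f22_6, s3, x220_4_1, x279_4_0]
              · rcases d_f22_2 with ⟨x282_0_0, x282_0_1⟩ | ⟨x282_1_0, x282_1_1⟩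
                · linarith only [C.f13_0, C.f22_1, C.f33_0, C.o0, s1, x245_4_0, x282_0_1]
                · rcases d_p11_33A with x283_0_0 | x283_1_0 | x283_2_0 | x283_3_0 | x283_4_0
                  · rcases d_t12 with ⟨x284_0_0, x284_0_1⟩ | ⟨x284_1_0, x284_1_1⟩
                    · rcases d_p22_33A with x285_0_0 | x285_1_0 | x285_2_0 | x285_3_0 | x285_4_0
                      · linarith only [C.b0, x1_1_0, x285_0_0]
                      · linarith only [C.a2, C.b0, C.o0, x247_8_0, x285_1_0]
                      · linarith only [C.f13_0, s1, x285_2_0]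
                      · rcases d_f33_5 with ⟨x286_0_0, x286_0_1⟩ | ⟨x286_1_0, x286_1_1⟩
                        · rcases d_f22_5 with ⟨x287_0_0, x287_0_1⟩ | ⟨x287_1_0, x287_1_1⟩
                          · linarith only [C.f13_0, s1, x284_0_1, x285_3_0, x286_0_1, x287_0_1]
                          · rcases d_p13_23A with x288_0_0 | x288_1_0 | x288_2_0 | x288_3_0 | x288_4_0 | x288_5_0
                            · linarith only [C.b0, C.o0, x288_0_0]
                            · linarith only [C.o0, C.o2, e2, x220_4_0, x245_4_0, x247_8_0, x288_1_0]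
                            · linarith only [e2, x220_4_0, x288_2_0]
                            · linarith only [C.f13_0, C.f13_3, C.f22_1, s1, s2, x207_1_1, x285_3_0, x286_0_1, x287_1_1, x288_3_0]
                            · linarith only [s2, x218_1_1, x285_3_0, x288_4_0]
                            · rcases d_f13_8 with ⟨x289_0_0, x289_0_1⟩ | ⟨x289_1_0, x289_1_1⟩
                              · linarith only [C.f13_7, s2, x1_1_1, x220_4_0, x285_3_0, x289_0_1]
                              · linarith only [C.o2, x219_1_1, x288_5_0, x289_1_1]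
                        · rcases d_f22_5 with ⟨x290_0_0, x290_0_1⟩ | ⟨x290_1_0, x290_1_1⟩
                          · linarith only [C.f13_0, C.f22_4, C.f33_1, s1, x282_1_1, x284_0_1, x285_3_0, x286_1_1, x290_0_1]
                          · rcases d_f13_2 with ⟨x291_0_0, x291_0_1⟩ | ⟨x291_1_0, x291_1_1⟩
                            · rcases d_p13_23A with x292_0_0 | x292_1_0 | x292_2_0 | x292_3_0 | x292_4_0 | x292_5_0
                              · linarith only [C.b0, C.o0, x292_0_0]
                              · linarith only [C.b0, C.f13_0, C.f22_1, C.f33_1, C.o0, C.o2, s1, x220_4_0, x247_8_0, x292_1_0]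
                              · linarith only [C.b0, C.f13_0, C.f22_1, C.f33_1, C.o0, s1, x285_3_0, x286_1_1, x290_1_1, x292_2_0]
                              · linarith only [e2, x207_1_1, x247_8_0, x285_3_0, x286_1_1, x290_1_1, x291_0_1, x292_3_0]
                              · linarith only [s2, x218_1_1, x285_3_0, x292_4_0]
                              · rcases d_f13_8 with ⟨x293_0_0, x293_0_1⟩ | ⟨x293_1_0, x293_1_1⟩
                                · linarith only [C.f13_7, s2, x1_1_1, x220_4_0, x285_3_0, x293_0_1]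
                                · linarith only [C.o2, x219_1_1, x292_5_0, x293_1_1]
                            · linarith only [C.b0, C.f13_0, C.f22_1, C.f33_1, C.o0, C.o2, s1, x220_4_0, x247_8_0, x291_1_1]
                      · linarith only [C.f13_7, s3, x220_4_1, x285_4_0]
                    · linarith only [x283_0_0, x284_1_0]
                  · linarith only [C.a2, C.b0, C.o0, x247_8_0, x283_1_0]
                  · linarith only [C.f11_0, C.f13_0, C.f22_1, s1, x245_4_0, x283_2_0]
                  · linarith only [C.a2, C.f11_0, C.f11_1, C.f13_0, C.f13_3, C.f22_4, s2, x245_4_0, x283_3_0]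
                  · linarith only [C.b3, C.f11_0, C.f11_1, C.f11_2, C.f13_7, C.f22_4, C.f22_6, s3, x220_4_1, x283_4_0]
              · linarith only [C.b0, x247_9_0]
              · rcases d_p11_33A with x294_0_0 | x294_1_0 | x294_2_0 | x294_3_0 | x294_4_0
                · linarith only [x247_10_0, x294_0_0]
                · linarith only [C.a4, C.f13_1, C.f22_1, C.f33_1, C.o0, s1, x220_4_0, x220_4_1, x247_10_0, x294_1_0]
                · linarith only [C.f11_0, C.f13_0, C.f22_1, s1, x245_4_0, x294_2_0]
                · linarith only [C.a2, C.f11_0, C.f11_1, C.f13_0, C.f13_3, C.f22_4, s2, x245_4_0, x294_3_0]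
                · linarith only [C.b3, C.f11_0, C.f11_1, C.f11_2, C.f13_7, C.f22_4, C.f22_6, s3, x220_4_1, x294_4_0]
              · linarith only [x1_1_0, x247_11_0]
              · linarith only [x245_4_0, x247_12_0]
              · rcases d_p11_33A with x295_0_0 | x295_1_0 | x295_2_0 | x295_3_0 | x295_4_0
                · linarith only [C.f13_0, C.f22_1, C.f33_1, C.o2, s1, x245_4_0, x247_13_0, x295_0_0]
                · linarith only [C.f13_0, C.f13_4, C.f22_1, C.f22_4, C.f33_1, C.f33_4, s1, s2, x220_4_0, x247_13_0, x295_1_0]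
                · linarith only [C.f11_0, C.f13_0, C.f22_1, s1, x245_4_0, x295_2_0]
                · linarith only [C.a2, C.f11_0, C.f11_1, C.f13_0, C.f13_3, C.f22_4, s2, x245_4_0, x295_3_0]
                · linarith only [C.b3, C.f11_0, C.f11_1, C.f11_2, C.f13_7, C.f22_4, C.f22_6, s3, x220_4_1, x295_4_0]
              · rcases d_f33_5 with ⟨x296_0_0, x296_0_1⟩ | ⟨x296_1_0, x296_1_1⟩
                · rcases d_p22_33A with x297_0_0 | x297_1_0 | x297_2_0 | x297_3_0 | x297_4_0
                  · linarith only [e2, x297_0_0]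
                  · linarith only [C.b0, C.f13_0, C.f13_3, C.f22_1, C.f22_4, C.f33_4, e0, s1, s2, x1_1_0, x220_4_0, x296_0_1, x297_1_0]
                  · linarith only [C.f13_0, s1, x297_2_0]
                  · rcases d_f22_5 with ⟨x298_0_0, x298_0_1⟩ | ⟨x298_1_0, x298_1_1⟩
                    · linarith only [C.f13_0, C.f13_3, s1, s2, x296_0_1, x297_3_0, x298_0_1]
                    · rcases d_f33_2 with ⟨x299_0_0, x299_0_1⟩ | ⟨x299_1_0, x299_1_1⟩
                      · rcases d_p13_23A with x300_0_0 | x300_1_0 | x300_2_0 | x300_3_0 | x300_4_0 | x300_5_0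
                        · linarith only [C.f13_0, C.f13_3, C.f23_0, e2, s2, x207_1_1, x296_0_1, x297_3_0, x298_1_1, x299_0_1, x300_0_0]
                        · linarith only [C.b0, C.o0, x1_1_0, x247_14_0, x300_1_0]
                        · linarith only [C.f13_0, C.f13_3, C.f22_1, e0, s1, s2, x296_0_1, x297_3_0, x298_1_1, x300_2_0]
                        · linarith only [C.f13_0, C.f13_3, C.f22_1, s1, s2, x207_1_1, x296_0_1, x297_3_0, x298_1_1, x300_3_0]
                        · linarith only [s2, x218_1_1, x297_3_0, x300_4_0]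
                        · rcases d_f13_8 with ⟨x301_0_0, x301_0_1⟩ | ⟨x301_1_0, x301_1_1⟩
                          · linarith only [C.b3, C.f13_0, C.f22_0, C.f22_6, C.f33_7, C.o0, C.o2, s1, s2, s3, x1_1_1, x219_1_1, x296_0_1, x297_3_0, x299_0_1, x300_5_0, x301_0_1]
                          · linarith only [C.o2, x219_1_1, x300_5_0, x301_1_1]
                      · linarith only [C.f13_0, C.f13_3, C.f22_1, C.f33_4, s1, s2, x296_0_1, x297_3_0, x298_1_1, x299_1_1]
                  · linarith only [C.f13_7, s3, x220_4_1, x297_4_0]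
                · rcases d_p13_23A with x302_0_0 | x302_1_0 | x302_2_0 | x302_3_0 | x302_4_0 | x302_5_0
                  · linarith only [C.b0, C.o0, x302_0_0]
                  · linarith only [C.b0, C.o0, x1_1_0, x247_14_0, x302_1_0]
                  · linarith only [C.b0, x1_1_0, x220_4_0, x302_2_0]
                  · rcases d_f22_2 with ⟨x303_0_0, x303_0_1⟩ | ⟨x303_1_0, x303_1_1⟩
                    · linarith only [C.f13_0, C.f22_1, C.f33_0, C.o0, s1, x245_4_0, x303_0_1]
                    · rcases d_f13_2 with ⟨x304_0_0, x304_0_1⟩ | ⟨x304_1_0, x304_1_1⟩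
                      · rcases d_p22_33A with x305_0_0 | x305_1_0 | x305_2_0 | x305_3_0 | x305_4_0
                        · linarith only [C.b0, x1_1_0, x305_0_0]
                        · linarith only [C.b0, C.f13_0, C.f22_1, C.f33_1, C.o0, s1, x220_4_1, x247_14_0, x305_1_0]
                        · linarith only [C.f13_0, s1, x305_2_0]
                        · rcases d_f22_5 with ⟨x306_0_0, x306_0_1⟩ | ⟨x306_1_0, x306_1_1⟩
                          · linarith only [C.f13_0, C.f13_3, C.f22_4, C.f33_1, s1, s2, x296_1_1, x303_1_1, x305_3_0, x306_0_1]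
                          · linarith only [e2, x207_1_1, x220_4_1, x247_14_0, x296_1_1, x302_3_0, x304_0_1, x305_3_0, x306_1_1]
                        · linarith only [C.f13_7, s3, x220_4_1, x305_4_0]
                      · linarith only [C.f13_0, C.f22_1, C.f33_1, C.o2, e3, s1, x247_14_0, x304_1_1]
                  · rcases d_p22_33A with x307_0_0 | x307_1_0 | x307_2_0 | x307_3_0 | x307_4_0
                    · linarith only [e2, x307_0_0]
                    · linarith only [C.b0, C.f13_4, C.f22_4, C.f33_4, s2, x1_1_0, x220_4_0, x220_4_1, x307_1_0]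
                    · linarith only [C.f13_0, s1, x307_2_0]
                    · linarith only [s2, x218_1_1, x302_4_0, x307_3_0]
                    · linarith only [C.f13_7, s3, x220_4_1, x307_4_0]
                  · rcases d_f13_8 with ⟨x308_0_0, x308_0_1⟩ | ⟨x308_1_0, x308_1_1⟩
                    · rcases d_p22_33A with x309_0_0 | x309_1_0 | x309_2_0 | x309_3_0 | x309_4_0
                      · linarith only [C.b0, x1_1_0, x309_0_0]
                      · linarith only [C.b0, C.f22_4, C.f33_4, C.o2, s2, x1_1_0, x1_1_1, x219_1_1, x220_4_0, x302_5_0, x308_0_1, x309_1_0]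
                      · linarith only [C.f13_0, s1, x309_2_0]
                      · linarith only [C.f22_6, C.f33_7, C.o0, C.o2, e3, s2, s3, x1_1_1, x219_1_1, x245_4_0, x247_14_0, x296_1_1, x302_5_0, x308_0_1, x309_3_0]
                      · linarith only [C.o2, s3, x219_1_1, x302_5_0, x309_4_0]
                    · linarith only [C.o2, x219_1_1, x302_5_0, x308_1_1]
            · linarith only [x1_1_1, x245_5_0]
      · linarith only [C.f13_4, C.f22_4, C.f23_5, C.f33_4, C.o1, C.o2, s2, x218_2_1]
    · linarith only [C.f13_4, C.f22_4, C.f23_1, C.f33_4, C.o1, C.o2, s2, x207_2_1]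

end Pool.Agent.Helper13.TQ
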