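import Pool.Agent.Helper89.TQ.Ctx

set_option autoImplicit false
set_option linter.all false
set_option maxHeartbeats 4000000

namespace Pool.Agent.Helper13.TQ

open Pool.Agent.Helper89.TQ

theorem c0_13_23_33_k2 {n1 n2 n3 A1 A2 A3 B1 B2 B3 m11_1 m11_2 m11_3 m13_1 m13_2 m13_3 m22_1 m22_2 m22_3 m23_1 m23_2 m23_3 m33_1 m33_2 m33_3 : ℤ}
    (C : Ctx0 n1 n2 n3 A1 A2 A3 B1 B2 B3 m11_1 m11_2 m11_3 m13_1 m13_2 m13_3 m22_1 m22_2 m22_3 m23_1 m23_2 m23_3 m33_1 m33_2 m33_3)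
    (e0 : 0 < A1)
    (e1 : 0 < B3)
    (e2 : 0 < A2)
    (e3 : 0 < A3)
    (s1 : 2 * A1 + 1 * B1 ≤ m13_1 + m23_1 + m33_1)
    (s2 : 2 * A2 + 1 * B2 ≤ m13_2 + m23_2 + m33_2)
    (s3 : 2 * A3 + 1 * B3 ≤ m13_3 + m23_3 + m33_3) : False := by
  have d_t12 : (-A1 + 1 ≤ 0 ∧ -A1 + A2 - n2 + 1 ≤ 0) ∨ (-B1 + 1 ≤ 0 ∧ -B1 + B2 - n2 + 1 ≤ 0) := by
    have h := C.t12
    omega
  have d_t23 : (A1 - A2 + 1 ≤ 0 ∧ -A2 + A3 - n3 + 1 ≤ 0) ∨ (B1 - B2 + 1 ≤ 0 ∧ -B2 + B3 - n3 + 1 ≤ 0) := by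
    have h := C.t23
    omega
  have d_f22_2 : (m22_1 - n1 ≤ 0 ∧ -m22_1 + n1 ≤ 0) ∨ (-B2 + m22_1 + 1 ≤ 0 ∧ B2 - m22_1 - 1 ≤ 0) := by
    have h := C.f22_2
    omega
  have d_f22_5 : (-m22_1 + m22_2 - n2 ≤ 0 ∧ m22_1 - m22_2 + n2 ≤ 0) ∨ (-B2 + m22_2 + 1 ≤ 0 ∧ B2 - m22_2 - 1 ≤ 0) := by
    have h := C.f22_5
    omega
  have d_f23_3 : (m23_1 - n1 ≤ 0 ∧ -m23_1 + n1 ≤ 0) ∨ (-A2 + m23_1 + 1 ≤ 0 ∧ A2 - m23_1 - 1 ≤ 0) ∨ (-B3 + m23_1 + 1 ≤ 0 ∧ B3 - m23_1 - 1 ≤ 0) := by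
    have h := C.f23_3
    omega
  have d_f23_7 : (-m23_1 + m23_2 - n2 ≤ 0 ∧ m23_1 - m23_2 + n2 ≤ 0) ∨ (-A2 + m23_2 + 1 ≤ 0 ∧ A2 - m23_2 - 1 ≤ 0) ∨ (-B3 + m23_2 + 1 ≤ 0 ∧ B3 - m23_2 - 1 ≤ 0) := by
    have h := C.f23_7
    omega
  have d_f33_2 : (m33_1 - n1 ≤ 0 ∧ -m33_1 + n1 ≤ 0) ∨ (-A3 + m33_1 + 1 ≤ 0 ∧ A3 - m33_1 - 1 ≤ 0) := by
    have h := C.f33_2
    omega
  have d_p13_33A : A1 ≤ 0 ∨ B3 ≤ 0 ∨ A3 ≤ 0 ∨ (-2) * A1 + m13_1 + m33_1 + 1 ≤ 0 ∨ (-2) * A2 + m13_2 + m33_2 + 1 ≤ 0 ∨ (-2) * A3 + m13_3 + m33_3 + 1 ≤ 0 := by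
    have h := C.p13_33A
    omega
  have d_p22_33A : B2 ≤ 0 ∨ A3 ≤ 0 ∨ (-2) * A1 + m22_1 + m33_1 + 1 ≤ 0 ∨ (-2) * A2 + m22_2 + m33_2 + 1 ≤ 0 ∨ (-2) * A3 + m22_3 + m33_3 + 1 ≤ 0 := by
    have h := C.p22_33A
    omega
  have d_p23_33A : A2 ≤ 0 ∨ B3 ≤ 0 ∨ A3 ≤ 0 ∨ (-2) * A1 + m23_1 + m33_1 + 1 ≤ 0 ∨ (-2) * A2 + m23_2 + m33_2 + 1 ≤ 0 ∨ (-2) * A3 + m23_3 + m33_3 + 1 ≤ 0 := by
    have h := C.p23_33A
    omega
  have d_tzpm : -A1 + A2 ≤ 0 ∨ A2 - A3 + n3 - 1 ≤ 0 ∨ B1 - B2 + n2 ≤ 0 ∨ -B2 + B3 - 1 ≤ 0 ∨ (-A2 + B2 + 1 ≤ 0 ∧ -A3 + B3 - 1 ≤ 0) := by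
    have h := C.tzpm
    omega
  have d_tpmm : A1 ≤ 0 ∨ A1 - A2 + n2 - 1 ≤ 0 ∨ -B1 + n1 ≤ 0 ∨ -B1 + B2 - 1 ≤ 0 ∨ -A3 + B3 - 1 ≤ 0 := by
    have h := C.tpmm
    omega
  have d_tpzm : A1 ≤ 0 ∨ A1 - A2 + n2 ≤ 0 ∨ A2 - A3 + n3 ≤ 0 ∨ -B1 + n1 ≤ 0 ∨ -B1 + B2 ≤ 0 ∨ -B2 + B3 ≤ 0 ∨ -A3 + B3 - 1 ≤ 0 ∨ (A1 - B1 - 1 ≤ 0 ∧ A2 - B2 ≤ 0) := by
    have h := C.tpzm
    omega
  rcases d_t23 with ⟨x1_0_0, x1_0_1⟩ | ⟨x1_1_0, x1_1_1⟩
  · rcases d_tzpm with x2_0_0 | x2_1_0 | x2_2_0 | x2_3_0 | ⟨x2_4_0, x2_4_1⟩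
    · linarith only [x1_0_0, x2_0_0]
    · linarith only [C.b5, C.f13_7, C.f23_9, C.f33_7, C.o1, s3, x2_1_0]
    · rcases d_f33_2 with ⟨x3_0_0, x3_0_1⟩ | ⟨x3_1_0, x3_1_1⟩
      · rcases d_f23_3 with ⟨x4_0_0, x4_0_1⟩ | ⟨x4_1_0, x4_1_1⟩ | ⟨x4_2_0, x4_2_1⟩
        · rcases d_p23_33A with x5_0_0 | x5_1_0 | x5_2_0 | x5_3_0 | x5_4_0 | x5_5_0
          · linarith only [C.b0, C.o0, x1_0_0, x5_0_0]
          · linarith only [C.a3, C.b0, C.f13_4, C.f23_6, C.f33_4, C.o0, C.o2, s2, x1_0_0, x2_2_0, x5_1_0]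
          · linarith only [C.b0, C.f13_0, C.f13_3, C.f23_5, C.f33_4, s2, x1_0_0, x2_2_0, x5_2_0]
          · linarith only [C.a1, x3_0_1, x4_0_1, x5_3_0]
          · rcases d_t12 with ⟨x6_0_0, x6_0_1⟩ | ⟨x6_1_0, x6_1_1⟩
            · rcases d_tpzm with x7_0_0 | x7_1_0 | x7_2_0 | x7_3_0 | x7_4_0 | x7_5_0 | x7_6_0 | ⟨x7_7_0, x7_7_1⟩
              · linarith only [C.b0, C.f13_0, C.f13_3, s2, x2_2_0, x5_4_0, x7_0_0]
              · linarith only [x6_0_1, x7_1_0]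
              · linarith only [C.b5, C.f13_7, C.f23_9, C.f33_7, C.o1, s3, x7_2_0]
              · linarith only [C.f13_0, C.f23_0, C.f33_0, C.o0, s1, x7_3_0]
              · linarith only [x1_0_0, x2_2_0, x6_0_1, x7_4_0]
              · linarith only [C.f13_4, C.f13_7, C.f23_5, C.f23_9, C.f33_4, C.f33_7, C.o1, s2, s3, x7_5_0]
              · linarith only [C.f13_7, C.f23_9, C.f33_7, s3, x7_6_0]
              · linarith only [C.f13_0, C.f13_3, s2, x2_2_0, x5_4_0, x7_7_0]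
            · linarith only [x2_2_0, x6_1_1]
          · linarith only [C.f13_7, s3, x5_5_0]
        · rcases d_p23_33A with x8_0_0 | x8_1_0 | x8_2_0 | x8_3_0 | x8_4_0 | x8_5_0
          · linarith only [C.b0, C.o0, x1_0_0, x8_0_0]
          · linarith only [C.a3, C.b0, C.f13_4, C.f23_6, C.f33_4, C.o0, C.o2, s2, x1_0_0, x2_2_0, x8_1_0]
          · linarith only [C.a4, C.b0, C.f13_0, C.f13_3, C.f23_5, C.f33_1, C.f33_3, C.o1, s2, x1_0_0, x2_2_0, x8_2_0]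
          · linarith only [C.a1, x1_0_0, x3_0_1, x4_1_1, x8_3_0]
          · rcases d_tpzm with x9_0_0 | x9_1_0 | x9_2_0 | x9_3_0 | x9_4_0 | x9_5_0 | x9_6_0 | ⟨x9_7_0, x9_7_1⟩
            · linarith only [C.b0, C.f13_0, C.f13_3, s2, x2_2_0, x8_4_0, x9_0_0]
            · rcases d_t12 with ⟨x10_0_0, x10_0_1⟩ | ⟨x10_1_0, x10_1_1⟩
              · linarith only [x10_0_1, x9_1_0]
              · linarith only [x10_1_1, x2_2_0]
            · linarith only [C.b5, C.f13_7, C.f23_9, C.f33_7, C.o1, s3, x9_2_0]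
            · linarith only [C.f13_0, C.f23_0, C.f33_0, C.o0, s1, x9_3_0]
            · linarith only [C.a3, x1_0_0, x2_2_0, x9_4_0]
            · linarith only [C.f13_4, C.f13_7, C.f23_6, C.f23_9, C.f33_4, C.f33_7, C.o1, s2, s3, x9_5_0]
            · linarith only [C.f13_7, C.f23_9, C.f33_7, s3, x9_6_0]
            · linarith only [C.f13_0, C.f13_3, s2, x2_2_0, x8_4_0, x9_7_0]
          · linarith only [C.f13_7, s3, x8_5_0]
        · linarith only [C.f13_7, C.f23_0, C.f23_9, C.f33_1, C.f33_7, s3, x3_0_1, x4_2_1]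
      · rcases d_f23_3 with ⟨x11_0_0, x11_0_1⟩ | ⟨x11_1_0, x11_1_1⟩ | ⟨x11_2_0, x11_2_1⟩
        · rcases d_t12 with ⟨x12_0_0, x12_0_1⟩ | ⟨x12_1_0, x12_1_1⟩
          · rcases d_tpzm with x13_0_0 | x13_1_0 | x13_2_0 | x13_3_0 | x13_4_0 | x13_5_0 | x13_6_0 | ⟨x13_7_0, x13_7_1⟩
            · linarith only [C.b0, C.f13_0, C.f13_3, C.f23_1, C.f23_5, C.f33_0, C.f33_4, s2, x11_0_1, x13_0_0, x2_2_0, x3_1_1]
            · linarith only [x12_0_1, x13_1_0]
            · linarith only [C.b5, C.f13_7, C.f23_9, C.f33_7, C.o1, s3, x13_2_0]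
            · linarith only [C.f13_0, C.f13_3, C.f23_5, C.f33_0, C.f33_4, s2, x13_3_0, x1_0_0, x2_2_0, x3_1_1]
            · linarith only [x12_0_1, x13_4_0, x1_0_0, x2_2_0]
            · linarith only [C.f13_4, C.f13_7, C.f23_5, C.f23_9, C.f33_4, C.f33_7, C.o1, s2, s3, x13_5_0]
            · linarith only [C.f13_7, C.f23_9, C.f33_7, s3, x13_6_0]
            · linarith only [C.f13_0, C.f13_3, C.f23_1, C.f23_5, C.f33_0, C.f33_4, s2, x11_0_1, x13_7_0, x2_2_0, x3_1_1]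
          · linarith only [x12_1_1, x2_2_0]
        · rcases d_tpmm with x14_0_0 | x14_1_0 | x14_2_0 | x14_3_0 | x14_4_0
          · linarith only [C.b0, C.o0, x14_0_0]
          · rcases d_p23_33A with x15_0_0 | x15_1_0 | x15_2_0 | x15_3_0 | x15_4_0 | x15_5_0
            · linarith only [C.b0, C.o0, x15_0_0, x1_0_0]
            · linarith only [C.a3, C.b0, C.f13_4, C.f23_6, C.f33_4, C.o0, C.o2, s2, x15_1_0, x1_0_0, x2_2_0]
            · linarith only [C.b0, C.f13_0, C.f13_3, C.f23_5, C.f33_4, s2, x15_2_0, x1_0_0, x2_2_0]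
            · linarith only [C.a4, x11_1_1, x15_3_0, x1_0_0, x3_1_1]
            · rcases d_tpzm with x16_0_0 | x16_1_0 | x16_2_0 | x16_3_0 | x16_4_0 | x16_5_0 | x16_6_0 | ⟨x16_7_0, x16_7_1⟩
              · linarith only [C.b0, C.f13_0, C.f13_3, s2, x15_4_0, x16_0_0, x2_2_0]
              · rcases d_t12 with ⟨x17_0_0, x17_0_1⟩ | ⟨x17_1_0, x17_1_1⟩
                · linarith only [x16_1_0, x17_0_1]
                · linarith only [x17_1_1, x2_2_0]
              · linarith only [C.b5, C.f13_7, C.f23_9, C.f33_7, C.o1, s3, x16_2_0]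
              · linarith only [C.f13_0, C.f13_3, C.f23_5, C.f33_0, C.f33_4, s2, x16_3_0, x1_0_0, x2_2_0, x3_1_1]
              · linarith only [C.a3, x16_4_0, x1_0_0, x2_2_0]
              · linarith only [C.f13_4, C.f13_7, C.f23_6, C.f23_9, C.f33_4, C.f33_7, C.o1, s2, s3, x16_5_0]
              · linarith only [C.f13_7, C.f23_9, C.f33_7, s3, x16_6_0]
              · linarith only [C.f13_0, C.f13_3, s2, x14_1_0, x15_4_0, x16_7_1]
            · linarith only [C.f13_7, s3, x15_5_0]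
          · linarith only [C.f13_0, C.f13_3, C.f23_5, C.f33_0, C.f33_4, s2, x14_2_0, x1_0_0, x2_2_0, x3_1_1]
          · rcases d_t12 with ⟨x18_0_0, x18_0_1⟩ | ⟨x18_1_0, x18_1_1⟩
            · linarith only [x14_3_0, x18_0_1, x1_0_0, x2_2_0]
            · linarith only [x18_1_1, x2_2_0]
          · linarith only [C.f13_7, C.f23_9, C.f33_7, s3, x14_4_0]
        · linarith only [C.a4, C.f13_7, C.f23_1, C.f23_9, C.f33_7, s3, x11_2_1]
    · linarith only [C.a4, C.f13_7, C.f23_9, C.f33_7, C.o1, s3, x2_3_0]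
    · linarith only [C.f13_7, C.f23_9, C.f33_7, s3, x2_4_1]
  · rcases d_f22_5 with ⟨x19_0_0, x19_0_1⟩ | ⟨x19_1_0, x19_1_1⟩
    · rcases d_f22_2 with ⟨x20_0_0, x20_0_1⟩ | ⟨x20_1_0, x20_1_1⟩
      · linarith only [C.a1, C.f13_0, C.f13_3, C.f22_4, C.f23_5, C.f33_0, C.f33_3, C.o1, s2, x19_0_1, x20_0_1]
      · linarith only [C.b3, C.f22_4, x19_0_1, x1_1_0, x20_1_1]
    · rcases d_f23_3 with ⟨x21_0_0, x21_0_1⟩ | ⟨x21_1_0, x21_1_1⟩ | ⟨x21_2_0, x21_2_1⟩
      · rcases d_tzpm with x22_0_0 | x22_1_0 | x22_2_0 | x22_3_0 | ⟨x22_4_0, x22_4_1⟩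
        · linarith only [C.a1, C.f23_1, x21_0_1, x22_0_0]
        · linarith only [C.f13_7, C.f23_5, C.f23_8, C.f33_7, s3, x22_1_0]
        · rcases d_f22_2 with ⟨x23_0_0, x23_0_1⟩ | ⟨x23_1_0, x23_1_1⟩
          · rcases d_p22_33A with x24_0_0 | x24_1_0 | x24_2_0 | x24_3_0 | x24_4_0
            · linarith only [C.b0, C.f13_0, C.f13_3, C.f22_1, C.f23_1, C.f23_5, C.f33_0, C.f33_3, s1, s2, x22_2_0, x23_0_1, x24_0_0]
            · linarith only [C.b0, C.f13_0, C.f13_3, C.f23_1, C.f23_5, C.f33_1, C.f33_4, s1, s2, x22_2_0, x24_1_0]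
            · rcases d_f33_2 with ⟨x25_0_0, x25_0_1⟩ | ⟨x25_1_0, x25_1_1⟩
              · linarith only [C.a1, x23_0_1, x24_2_0, x25_0_1]
              · linarith only [C.a1, C.a4, C.f23_1, x21_0_1, x23_0_1, x24_2_0, x25_1_1]
            · rcases d_tpzm with x26_0_0 | x26_1_0 | x26_2_0 | x26_3_0 | x26_4_0 | x26_5_0 | x26_6_0 | ⟨x26_7_0, x26_7_1⟩
              · linarith only [e0, x26_0_0]
              · rcases d_t12 with ⟨x27_0_0, x27_0_1⟩ | ⟨x27_1_0, x27_1_1⟩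
                · linarith only [x26_1_0, x27_0_1]
                · linarith only [x22_2_0, x27_1_1]
              · linarith only [C.f13_7, C.f23_5, C.f23_8, C.f33_6, C.o2, s3, x19_1_1, x1_1_1, x24_3_0, x26_2_0]
              · linarith only [C.f13_0, C.f23_0, C.f33_0, C.o0, s1, x26_3_0]
              · linarith only [C.f13_0, C.f13_3, C.f22_1, C.f23_1, C.f23_4, C.f33_0, C.f33_3, s1, s2, x22_2_0, x23_0_1, x26_4_0]
              · linarith only [C.f13_4, C.f23_5, C.f33_4, C.o2, s2, x19_1_1, x24_3_0, x26_5_0]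
              · linarith only [C.f13_7, C.f23_9, C.f33_7, s3, x26_6_0]
              · linarith only [C.f13_0, C.f13_3, C.f23_5, s2, x19_1_1, x22_2_0, x24_3_0, x26_7_0, x26_7_1]
            · linarith only [C.f13_7, C.f22_6, C.f23_9, s3, x19_1_1, x1_1_1, x24_4_0]
          · rcases d_p22_33A with x28_0_0 | x28_1_0 | x28_2_0 | x28_3_0 | x28_4_0
            · linarith only [C.a1, C.a3, C.b0, C.f23_1, x21_0_1, x22_2_0, x28_0_0]
            · linarith only [C.b0, C.f13_0, C.f13_3, C.f23_1, C.f23_5, C.f33_1, C.f33_4, s1, s2, x22_2_0, x28_1_0]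
            · rcases d_tpzm with x29_0_0 | x29_1_0 | x29_2_0 | x29_3_0 | x29_4_0 | x29_5_0 | x29_6_0 | ⟨x29_7_0, x29_7_1⟩
              · linarith only [C.b0, C.f13_0, C.f13_3, C.f23_1, C.f23_4, C.f33_3, s1, s2, x22_2_0, x23_1_1, x28_2_0, x29_0_0]
              · rcases d_t12 with ⟨x30_0_0, x30_0_1⟩ | ⟨x30_1_0, x30_1_1⟩
                · linarith only [x29_1_0, x30_0_1]
                · linarith only [x22_2_0, x30_1_1]
              · linarith only [C.f13_7, C.f23_5, C.f23_8, C.f33_7, s3, x29_2_0]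
              · linarith only [C.f13_0, C.f13_3, C.f23_0, C.f23_1, C.f23_4, C.f33_0, C.f33_3, s1, s2, x22_2_0, x23_1_1, x28_2_0, x29_3_0]
              · linarith only [C.a1, C.a3, C.f23_1, x21_0_1, x22_2_0, x29_4_0]
              · linarith only [C.f13_4, C.f23_5, C.f33_4, C.o1, C.o2, s2, x29_5_0]
              · linarith only [C.f13_7, C.f23_9, C.f33_7, s3, x29_6_0]
              · linarith only [C.f13_0, C.f23_1, s1, x23_1_1, x28_2_0, x29_7_0, x29_7_1]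
            · rcases d_tpzm with x31_0_0 | x31_1_0 | x31_2_0 | x31_3_0 | x31_4_0 | x31_5_0 | x31_6_0 | ⟨x31_7_0, x31_7_1⟩
              · linarith only [e0, x31_0_0]
              · rcases d_t12 with ⟨x32_0_0, x32_0_1⟩ | ⟨x32_1_0, x32_1_1⟩
                · linarith only [x31_1_0, x32_0_1]
                · linarith only [x22_2_0, x32_1_1]
              · linarith only [C.f13_7, C.f23_5, C.f23_8, C.f33_6, C.o2, s3, x19_1_1, x1_1_1, x28_3_0, x31_2_0]
              · linarith only [C.f13_0, C.f23_0, C.f33_0, C.o0, s1, x31_3_0]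
              · linarith only [x1_1_0, x31_4_0]
              · linarith only [C.f13_4, C.f23_5, C.f33_4, C.o2, s2, x19_1_1, x28_3_0, x31_5_0]
              · linarith only [C.f13_7, C.f23_9, C.f33_7, s3, x31_6_0]
              · linarith only [C.f13_0, C.f13_3, C.f23_5, s2, x19_1_1, x22_2_0, x28_3_0, x31_7_0, x31_7_1]
            · linarith only [C.f13_7, C.f22_6, C.f23_9, s3, x19_1_1, x1_1_1, x28_4_0]
        · linarith only [C.f13_4, C.f23_5, C.f33_4, C.o1, C.o2, s2, x22_3_0]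
        · linarith only [C.f13_7, C.f23_9, C.f33_7, s3, x22_4_1]
      · rcases d_f23_7 with ⟨x33_0_0, x33_0_1⟩ | ⟨x33_1_0, x33_1_1⟩ | ⟨x33_2_0, x33_2_1⟩
        · linarith only [C.b3, C.f23_5, x1_1_0, x21_1_1, x33_0_1]
        · rcases d_p13_33A with x34_0_0 | x34_1_0 | x34_2_0 | x34_3_0 | x34_4_0 | x34_5_0
          · linarith only [e0, x34_0_0]
          · linarith only [C.b0, C.f13_4, C.f23_5, C.f33_4, C.o2, e2, s2, x1_1_0, x34_1_0]
          · linarith only [C.a4, C.b0, C.f13_0, C.f23_1, C.f33_1, e0, s1, x34_2_0]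
          · rcases d_f22_2 with ⟨x35_0_0, x35_0_1⟩ | ⟨x35_1_0, x35_1_1⟩
            · rcases d_tzpm with x36_0_0 | x36_1_0 | x36_2_0 | x36_3_0 | ⟨x36_4_0, x36_4_1⟩
              · linarith only [C.a1, C.f22_1, C.o1, x35_0_1, x36_0_0]
              · linarith only [C.f13_7, C.f23_5, C.f23_8, C.f33_7, s3, x36_1_0]
              · rcases d_p22_33A with x37_0_0 | x37_1_0 | x37_2_0 | x37_3_0 | x37_4_0
                · linarith only [C.b0, C.f13_0, C.f13_3, C.f22_1, C.f23_1, C.f33_0, C.f33_3, s1, s2, x33_1_0, x35_0_1, x36_2_0, x37_0_0]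
                · linarith only [C.b0, C.f13_0, C.f13_3, C.f23_1, C.f23_5, C.f33_1, C.f33_4, s1, s2, x36_2_0, x37_1_0]
                · rcases d_f33_2 with ⟨x38_0_0, x38_0_1⟩ | ⟨x38_1_0, x38_1_1⟩
                  · linarith only [C.a1, x35_0_1, x37_2_0, x38_0_1]
                  · linarith only [C.a1, C.a4, C.f22_1, C.o1, x35_0_1, x37_2_0, x38_1_1]
                · rcases d_tpmm with x39_0_0 | x39_1_0 | x39_2_0 | x39_3_0 | x39_4_0
                  · linarith only [C.b0, C.f13_0, C.f13_3, C.f23_5, C.f33_3, s2, x19_1_1, x34_3_0, x36_2_0, x37_3_0, x39_0_0]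
                  · linarith only [C.f13_0, C.f13_3, C.f22_1, C.f23_0, C.f23_5, s2, x19_1_1, x21_1_1, x35_0_1, x37_3_0, x39_1_0]
                  · linarith only [C.f13_0, C.f13_3, C.f23_0, C.f23_5, C.f33_0, C.f33_3, s1, s2, x19_1_1, x36_2_0, x37_3_0, x39_2_0]
                  · linarith only [C.f13_0, C.f13_3, C.f22_1, C.f23_1, C.f23_5, C.f33_0, C.f33_3, s1, s2, x35_0_1, x36_2_0, x39_3_0]
                  · linarith only [C.f13_7, C.f23_9, C.f33_7, s3, x39_4_0]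
                · linarith only [C.f13_7, C.f22_6, C.f23_9, s3, x19_1_1, x1_1_1, x37_4_0]
              · linarith only [C.f13_4, C.f13_7, C.f23_5, C.f23_9, C.f33_4, C.f33_7, C.o1, s2, s3, x36_3_0]
              · linarith only [C.f13_7, C.f23_9, C.f33_7, s3, x36_4_1]
            · rcases d_tzpm with x40_0_0 | x40_1_0 | x40_2_0 | x40_3_0 | ⟨x40_4_0, x40_4_1⟩
              · rcases d_tpzm with x41_0_0 | x41_1_0 | x41_2_0 | x41_3_0 | x41_4_0 | x41_5_0 | x41_6_0 | ⟨x41_7_0, x41_7_1⟩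
                · linarith only [e0, x41_0_0]
                · linarith only [C.b3, x1_1_0, x40_0_0, x41_1_0]
                · linarith only [C.f13_7, C.f23_5, C.f23_8, C.f33_7, s3, x41_2_0]
                · linarith only [C.f13_0, C.f23_1, C.f33_0, s1, x40_0_0, x41_3_0]
                · linarith only [x1_1_0, x41_4_0]
                · linarith only [C.f13_4, C.f23_5, C.f33_4, C.o1, C.o2, s2, x41_5_0]
                · linarith only [C.f13_7, C.f23_9, C.f33_7, s3, x41_6_0]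
                · linarith only [C.f23_1, s1, x34_3_0, x40_0_0, x41_7_0]
              · linarith only [C.f13_7, C.f23_5, C.f23_8, C.f33_7, s3, x40_1_0]
              · rcases d_tpmm with x42_0_0 | x42_1_0 | x42_2_0 | x42_3_0 | x42_4_0
                · linarith only [C.b0, C.f13_3, C.f23_5, C.f33_3, C.o1, s2, x34_3_0, x40_2_0, x42_0_0]
                · rcases d_tpzm with x43_0_0 | x43_1_0 | x43_2_0 | x43_3_0 | x43_4_0 | x43_5_0 | x43_6_0 | ⟨x43_7_0, x43_7_1⟩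
                  · linarith only [C.b0, C.f13_3, C.f23_5, C.f33_3, s2, x34_3_0, x40_2_0, x42_1_0, x43_0_0]
                  · rcases d_t12 with ⟨x44_0_0, x44_0_1⟩ | ⟨x44_1_0, x44_1_1⟩
                    · linarith only [x43_1_0, x44_0_1]
                    · linarith only [x40_2_0, x44_1_1]
                  · linarith only [C.f13_7, C.f23_5, C.f23_8, C.f33_7, s3, x43_2_0]
                  · linarith only [C.f13_0, C.f23_0, C.f33_0, C.o0, s1, x43_3_0]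
                  · linarith only [x1_1_0, x43_4_0]
                  · linarith only [C.f13_4, C.f23_5, C.f33_4, C.o1, C.o2, s2, x43_5_0]
                  · linarith only [C.f13_7, C.f23_9, C.f33_7, s3, x43_6_0]
                  · rcases d_p22_33A with x45_0_0 | x45_1_0 | x45_2_0 | x45_3_0 | x45_4_0
                    · linarith only [C.b0, C.f23_1, s1, x34_3_0, x43_7_1, x45_0_0]
                    · linarith only [C.b0, C.f13_0, C.f13_3, C.f23_1, C.f23_5, C.f33_1, C.f33_4, s1, s2, x40_2_0, x45_1_0]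
                    · linarith only [C.f13_0, C.f23_1, s1, x35_1_1, x43_7_0, x43_7_1, x45_2_0]
                    · linarith only [C.f13_0, C.f13_3, C.f23_5, s2, x19_1_1, x40_2_0, x43_7_0, x43_7_1, x45_3_0]
                    · linarith only [C.f13_7, C.f22_6, C.f23_9, s3, x19_1_1, x1_1_1, x45_4_0]
                · linarith only [C.f13_0, C.f13_3, C.f22_0, C.f23_1, C.f23_5, C.f33_0, C.f33_3, s1, s2, x35_1_1, x40_2_0, x42_2_0]
                · rcases d_tpzm with x46_0_0 | x46_1_0 | x46_2_0 | x46_3_0 | x46_4_0 | x46_5_0 | x46_6_0 | ⟨x46_7_0, x46_7_1⟩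
                  · linarith only [C.b0, C.f13_3, C.f23_1, C.f33_3, s1, s2, x33_1_0, x34_3_0, x40_2_0, x42_3_0, x46_0_0]
                  · rcases d_t12 with ⟨x47_0_0, x47_0_1⟩ | ⟨x47_1_0, x47_1_1⟩
                    · linarith only [x46_1_0, x47_0_1]
                    · linarith only [x40_2_0, x47_1_1]
                  · linarith only [C.f13_7, C.f23_5, C.f23_8, C.f33_7, s3, x46_2_0]
                  · linarith only [C.f13_0, C.f13_3, C.f23_1, C.f33_0, C.f33_3, s1, s2, x33_1_0, x40_2_0, x42_3_0, x46_3_0]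
                  · linarith only [x1_1_0, x46_4_0]
                  · linarith only [C.f13_4, C.f23_5, C.f33_4, C.o1, C.o2, s2, x46_5_0]
                  · linarith only [C.f13_7, C.f23_9, C.f33_7, s3, x46_6_0]
                  · linarith only [C.f23_1, s1, x34_3_0, x42_3_0, x46_7_1]
                · linarith only [C.f13_7, C.f23_9, C.f33_7, s3, x42_4_0]
              · linarith only [C.f13_4, C.f13_7, C.f23_5, C.f23_9, C.f33_4, C.f33_7, C.o1, s2, s3, x40_3_0]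
              · linarith only [C.f13_7, C.f23_9, C.f33_7, s3, x40_4_1]
          · rcases d_tpzm with x48_0_0 | x48_1_0 | x48_2_0 | x48_3_0 | x48_4_0 | x48_5_0 | x48_6_0 | ⟨x48_7_0, x48_7_1⟩
            · linarith only [C.b0, C.o0, x48_0_0]
            · rcases d_t12 with ⟨x49_0_0, x49_0_1⟩ | ⟨x49_1_0, x49_1_1⟩
              · linarith only [x48_1_0, x49_0_1]
              · rcases d_tzpm with x50_0_0 | x50_1_0 | x50_2_0 | x50_3_0 | ⟨x50_4_0, x50_4_1⟩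
                · linarith only [x1_1_0, x48_1_0, x49_1_1, x50_0_0]
                · linarith only [C.f13_7, C.f23_9, C.f33_7, C.o0, s3, x1_1_1, x48_1_0, x49_1_1, x50_1_0]
                · linarith only [x49_1_1, x50_2_0]
                · linarith only [C.f13_4, C.f23_6, C.f33_4, C.o0, C.o2, s2, x48_1_0, x49_1_1, x50_3_0]
                · linarith only [C.f13_7, C.f23_9, C.f33_7, s3, x50_4_1]
            · linarith only [C.f23_5, C.o2, s2, x1_1_1, x34_4_0, x48_2_0]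
            · linarith only [C.f23_0, C.f23_5, s2, x1_1_0, x21_1_1, x34_4_0, x48_3_0]
            · linarith only [x1_1_0, x48_4_0]
            · linarith only [C.f13_4, C.f23_5, C.f33_4, C.o2, s2, x34_4_0, x48_5_0]
            · linarith only [C.f13_7, C.f23_9, C.f33_7, s3, x48_6_0]
            · linarith only [C.f23_5, s2, x34_4_0, x48_7_1]
          · linarith only [C.f23_9, s3, x34_5_0]
        · linarith only [C.a4, C.f13_7, C.f23_5, C.f23_9, C.f33_7, s3, x33_2_1]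
      · linarith only [C.a4, C.f13_7, C.f23_1, C.f23_9, C.f33_7, s3, x21_2_1]

end Pool.Agent.Helper13.TQ
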