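import Pool.Agent.Helper89.TQ.Ctx

set_option autoImplicit false
set_option linter.all false
set_option maxHeartbeats 4000000

namespace Pool.Agent.Helper13.TQ

open Pool.Agent.Helper89.TQ

theorem c2_11_33_33_k3 {n1 n2 n3 A1 A2 A3 B1 B2 B3 m11_1 m11_2 m11_3 m12_1 m12_2 m12_3 m13_1 m13_2 m13_3 m22_1 m22_2 m22_3 m33_1 m33_2 m33_3 : ℤ}
    (C : Ctx2 n1 n2 n3 A1 A2 A3 B1 B2 B3 m11_1 m11_2 m11_3 m12_1 m12_2 m12_3 m13_1 m13_2 m13_3 m22_1 m22_2 m22_3 m33_1 m33_2 m33_3)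
    (e0 : 0 < B1)
    (e1 : 0 < A3)
    (s1 : 3 * A1 + 0 * B1 ≤ m11_1 + m33_1 + m33_1)
    (s2 : 3 * A2 + 0 * B2 ≤ m11_2 + m33_2 + m33_2)
    (s3 : 3 * A3 + 0 * B3 ≤ m11_3 + m33_3 + m33_3) : False := by
  have d_t23 : (A1 - A2 + 1 ≤ 0 ∧ -A2 + A3 - n3 + 1 ≤ 0) ∨ (B1 - B2 + 1 ≤ 0 ∧ -B2 + B3 - n3 + 1 ≤ 0) := by
    have h := C.t23
    omega
  have d_f12_2 : (-A1 + m12_1 + 1 ≤ 0 ∧ A1 - m12_1 - 1 ≤ 0) ∨ (-B2 + m12_1 + 1 ≤ 0 ∧ B2 - m12_1 - 1 ≤ 0) := by
    have h := C.f12_2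
    omega
  have d_f12_5 : (-m12_1 + m12_2 - n2 ≤ 0 ∧ m12_1 - m12_2 + n2 ≤ 0) ∨ (-B2 + m12_2 + 1 ≤ 0 ∧ B2 - m12_2 - 1 ≤ 0) := by
    have h := C.f12_5
    omega
  have d_f13_2 : (-A1 + m13_1 + 1 ≤ 0 ∧ A1 - m13_1 - 1 ≤ 0) ∨ (-B3 + m13_1 + 1 ≤ 0 ∧ B3 - m13_1 - 1 ≤ 0) := by
    have h := C.f13_2
    omega
  have d_f13_5 : (-m13_1 + m13_2 - n2 ≤ 0 ∧ m13_1 - m13_2 + n2 ≤ 0) ∨ (-B3 + m13_2 + 1 ≤ 0 ∧ B3 - m13_2 - 1 ≤ 0) := by
    have h := C.f13_5
    omega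
  have d_f13_8 : (-m13_2 + m13_3 - n3 ≤ 0 ∧ m13_2 - m13_3 + n3 ≤ 0) ∨ (-B3 + m13_3 + 1 ≤ 0 ∧ B3 - m13_3 - 1 ≤ 0) := by
    have h := C.f13_8
    omega
  have d_f22_2 : (m22_1 - n1 ≤ 0 ∧ -m22_1 + n1 ≤ 0) ∨ (-A2 + m22_1 + 1 ≤ 0 ∧ A2 - m22_1 - 1 ≤ 0) := by
    have h := C.f22_2
    omega
  have d_f22_5 : (-m22_1 + m22_2 - n2 ≤ 0 ∧ m22_1 - m22_2 + n2 ≤ 0) ∨ (-A2 + m22_2 + 1 ≤ 0 ∧ A2 - m22_2 - 1 ≤ 0) := by
    have h := C.f22_5
    omega
  have d_f33_5 : (-m33_1 + m33_2 - n2 ≤ 0 ∧ m33_1 - m33_2 + n2 ≤ 0) ∨ (-A3 + m33_2 + 1 ≤ 0 ∧ A3 - m33_2 - 1 ≤ 0) := by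
    have h := C.f33_5
    omega
  have d_f33_8 : (-m33_2 + m33_3 - n3 ≤ 0 ∧ m33_2 - m33_3 + n3 ≤ 0) ∨ (-A3 + m33_3 + 1 ≤ 0 ∧ A3 - m33_3 - 1 ≤ 0) := by
    have h := C.f33_8
    omega
  have d_p11_22B : B1 ≤ 0 ∨ A2 ≤ 0 ∨ (-2) * B1 + m11_1 + m22_1 + 1 ≤ 0 ∨ (-2) * B2 + m11_2 + m22_2 + 1 ≤ 0 ∨ (-2) * B3 + m11_3 + m22_3 + 1 ≤ 0 := by
    have h := C.p11_22B
    omega
  have d_p12_33A : A1 ≤ 0 ∨ B2 ≤ 0 ∨ A3 ≤ 0 ∨ (-2) * A1 + m12_1 + m33_1 + 1 ≤ 0 ∨ (-2) * A2 + m12_2 + m33_2 + 1 ≤ 0 ∨ (-2) * A3 + m12_3 + m33_3 + 1 ≤ 0 := by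
    have h := C.p12_33A
    omega
  have d_p13_22A : A1 ≤ 0 ∨ B3 ≤ 0 ∨ A2 ≤ 0 ∨ (-2) * A1 + m13_1 + m22_1 + 1 ≤ 0 ∨ (-2) * A2 + m13_2 + m22_2 + 1 ≤ 0 ∨ (-2) * A3 + m13_3 + m22_3 + 1 ≤ 0 := by
    have h := C.p13_22A
    omega
  have d_p13_33A : A1 ≤ 0 ∨ B3 ≤ 0 ∨ A3 ≤ 0 ∨ (-2) * A1 + m13_1 + m33_1 + 1 ≤ 0 ∨ (-2) * A2 + m13_2 + m33_2 + 1 ≤ 0 ∨ (-2) * A3 + m13_3 + m33_3 + 1 ≤ 0 := by
    have h := C.p13_33A
    omega
  have d_tmpp : -A1 + n1 ≤ 0 ∨ -A1 + A2 - 1 ≤ 0 ∨ B1 ≤ 0 ∨ B1 - B2 + n2 - 1 ≤ 0 := by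
    have h := C.tmpp
    omega
  rcases d_f12_2 with ⟨x1_0_0, x1_0_1⟩ | ⟨x1_1_0, x1_1_1⟩
  · rcases d_f12_5 with ⟨x2_0_0, x2_0_1⟩ | ⟨x2_1_0, x2_1_1⟩
    · linarith only [C.b3, C.f12_4, C.o0, x1_0_1, x2_0_1]
    · rcases d_f13_2 with ⟨x3_0_0, x3_0_1⟩ | ⟨x3_1_0, x3_1_1⟩
      · rcases d_t23 with ⟨x4_0_0, x4_0_1⟩ | ⟨x4_1_0, x4_1_1⟩
        · rcases d_f13_5 with ⟨x5_0_0, x5_0_1⟩ | ⟨x5_1_0, x5_1_1⟩
          · rcases d_f13_8 with ⟨x6_0_0, x6_0_1⟩ | ⟨x6_1_0, x6_1_1⟩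
            · linarith only [C.b3, C.b5, C.f13_7, C.o0, x3_0_1, x5_0_1, x6_0_1]
            · rcases d_p13_33A with x7_0_0 | x7_1_0 | x7_2_0 | x7_3_0 | x7_4_0 | x7_5_0
              · linarith only [C.o0, e0, x7_0_0]
              · linarith only [C.f11_0, C.f33_1, C.o0, C.o2, e0, s1, x7_1_0]
              · linarith only [C.f11_0, C.f33_1, C.o0, e0, s1, x7_2_0]
              · linarith only [C.f11_0, C.o0, s1, x3_0_1, x7_3_0]
              · linarith only [C.b3, C.f11_0, C.f11_1, C.o0, C.o1, s2, x3_0_1, x5_0_1, x7_4_0]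
              · rcases d_f22_2 with ⟨x8_0_0, x8_0_1⟩ | ⟨x8_1_0, x8_1_1⟩
                · rcases d_f22_5 with ⟨x9_0_0, x9_0_1⟩ | ⟨x9_1_0, x9_1_1⟩
                  · linarith only [C.b3, C.f11_0, C.f22_4, C.f33_0, C.o0, C.o1, s1, x8_0_1, x9_0_1]
                  · rcases d_p13_22A with x10_0_0 | x10_1_0 | x10_2_0 | x10_3_0 | x10_4_0 | x10_5_0
                    · linarith only [C.o0, e0, x10_0_0]
                    · linarith only [C.f11_0, C.f33_1, C.o0, C.o2, e0, s1, x10_1_0]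
                    · linarith only [C.o0, e0, x10_2_0, x4_0_0]
                    · linarith only [C.f11_0, C.f33_0, C.o0, s1, x10_3_0, x3_0_1, x8_0_1]
                    · linarith only [C.b3, C.o0, C.o1, x10_4_0, x3_0_1, x5_0_1, x9_1_1]
                    · linarith only [C.f22_6, C.o2, x10_5_0, x4_0_1, x6_1_1, x9_1_1]
                · rcases d_f22_5 with ⟨x11_0_0, x11_0_1⟩ | ⟨x11_1_0, x11_1_1⟩
                  · linarith only [C.b3, C.f22_4, C.o0, C.o1, x11_0_1, x4_0_0, x8_1_1]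
                  · rcases d_p11_22B with x12_0_0 | x12_1_0 | x12_2_0 | x12_3_0 | x12_4_0
                    · linarith only [e0, x12_0_0]
                    · linarith only [C.o0, e0, x12_1_0, x4_0_0]
                    · linarith only [C.f11_0, C.o0, x12_2_0, x4_0_0, x8_1_1]
                    · rcases d_f33_5 with ⟨x13_0_0, x13_0_1⟩ | ⟨x13_1_0, x13_1_1⟩
                      · rcases d_p12_33A with x14_0_0 | x14_1_0 | x14_2_0 | x14_3_0 | x14_4_0 | x14_5_0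
                        · linarith only [C.o0, e0, x14_0_0]
                        · linarith only [C.o0, C.o1, e0, x14_1_0, x4_0_0]
                        · linarith only [C.f11_0, C.f33_1, C.o0, e0, s1, x14_2_0]
                        · linarith only [C.f11_0, C.o0, s1, x14_3_0, x1_0_1]
                        · linarith only [C.f11_0, C.f11_1, C.o0, C.o1, s1, s2, x13_0_1, x14_4_0, x2_1_1]
                        · linarith only [C.f11_2, C.f12_6, s3, x11_1_1, x12_3_0, x14_5_0, x2_1_1, x4_0_1]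
                      · rcases d_f33_8 with ⟨x15_0_0, x15_0_1⟩ | ⟨x15_1_0, x15_1_1⟩
                        · linarith only [C.f11_0, C.f11_1, C.f13_4, C.f33_7, C.o0, s2, x13_1_1, x15_0_1, x3_0_1, x4_0_1, x5_0_1, x6_1_1, x7_5_0]
                        · rcases d_p12_33A with x16_0_0 | x16_1_0 | x16_2_0 | x16_3_0 | x16_4_0 | x16_5_0
                          · linarith only [C.o0, e0, x16_0_0]
                          · linarith only [C.a3, C.f11_0, C.f11_1, C.o0, e0, x11_1_1, x12_3_0, x16_1_0, x4_0_0]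
                          · linarith only [C.f11_0, C.f33_1, C.o0, e0, s1, x16_2_0]
                          · linarith only [C.f11_0, C.o0, s1, x16_3_0, x1_0_1]
                          · linarith only [C.f11_0, C.f11_1, C.f13_4, C.o0, C.o1, s2, x13_1_1, x15_1_1, x16_4_0, x2_1_1, x3_0_1, x5_0_1, x6_1_1, x7_5_0]
                          · linarith only [C.f12_6, C.o1, x15_1_1, x16_5_0, x2_1_1, x4_0_1]
                    · linarith only [C.f22_6, s3, x11_1_1, x12_4_0, x4_0_1, x6_1_1, x7_5_0]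
          · rcases d_f33_5 with ⟨x17_0_0, x17_0_1⟩ | ⟨x17_1_0, x17_1_1⟩
            · linarith only [C.f11_0, C.f13_0, C.f13_3, C.f33_4, C.o0, C.o2, s1, x17_0_1, x5_1_1]
            · rcases d_f33_8 with ⟨x18_0_0, x18_0_1⟩ | ⟨x18_1_0, x18_1_1⟩
              · linarith only [C.a4, C.f33_7, x17_1_1, x18_0_1, x4_0_1]
              · rcases d_p12_33A with x19_0_0 | x19_1_0 | x19_2_0 | x19_3_0 | x19_4_0 | x19_5_0
                · linarith only [C.o0, e0, x19_0_0]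
                · linarith only [C.o0, C.o1, e0, x19_1_0, x4_0_0]
                · linarith only [C.f11_0, C.f33_1, C.o0, e0, s1, x19_2_0]
                · linarith only [C.f11_0, C.o0, s1, x19_3_0, x1_0_1]
                · rcases d_tmpp with x20_0_0 | x20_1_0 | x20_2_0 | x20_3_0
                  · linarith only [C.f11_0, C.f33_0, C.o0, s1, x20_0_0]
                  · linarith only [C.f11_0, C.f33_1, C.o0, C.o1, s1, x17_1_1, x19_4_0, x20_1_0, x2_1_1]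
                  · linarith only [e0, x20_2_0]
                  · linarith only [C.f11_0, C.f11_1, C.o1, s2, x19_4_0, x20_3_0, x2_1_1]
                · linarith only [C.f12_6, C.o1, x18_1_1, x19_5_0, x2_1_1, x4_0_1]
        · rcases d_f13_5 with ⟨x21_0_0, x21_0_1⟩ | ⟨x21_1_0, x21_1_1⟩
          · rcases d_f13_8 with ⟨x22_0_0, x22_0_1⟩ | ⟨x22_1_0, x22_1_1⟩
            · linarith only [C.b3, C.f13_7, C.o0, x21_0_1, x22_0_1, x3_0_1, x4_1_1]
            · rcases d_p13_33A with x23_0_0 | x23_1_0 | x23_2_0 | x23_3_0 | x23_4_0 | x23_5_0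
              · linarith only [C.o0, e0, x23_0_0]
              · linarith only [C.f11_0, C.f33_1, C.o0, C.o2, e0, s1, x23_1_0]
              · linarith only [C.f11_0, C.f33_1, C.o0, e0, s1, x23_2_0]
              · linarith only [C.f11_0, C.o0, s1, x23_3_0, x3_0_1]
              · linarith only [C.b3, C.f11_0, C.f11_1, C.o0, C.o1, s2, x21_0_1, x23_4_0, x3_0_1]
              · rcases d_f33_5 with ⟨x24_0_0, x24_0_1⟩ | ⟨x24_1_0, x24_1_1⟩
                · rcases d_f33_8 with ⟨x25_0_0, x25_0_1⟩ | ⟨x25_1_0, x25_1_1⟩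
                  · linarith only [C.b3, C.f11_0, C.f33_7, C.o0, C.o2, s1, x24_0_1, x25_0_1, x4_1_1]
                  · rcases d_p12_33A with x26_0_0 | x26_1_0 | x26_2_0 | x26_3_0 | x26_4_0 | x26_5_0
                    · linarith only [C.o0, e0, x26_0_0]
                    · linarith only [e0, x26_1_0, x4_1_0]
                    · linarith only [C.f11_0, C.f33_1, C.o0, e0, s1, x26_2_0]
                    · linarith only [C.f11_0, C.o0, s1, x1_0_1, x26_3_0]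
                    · linarith only [C.f11_0, C.f11_1, C.o0, C.o1, s1, s2, x24_0_1, x26_4_0, x2_1_1]
                    · linarith only [C.f12_6, C.o2, x25_1_1, x26_5_0, x2_1_1, x4_1_1]
                · rcases d_f33_8 with ⟨x27_0_0, x27_0_1⟩ | ⟨x27_1_0, x27_1_1⟩
                  · linarith only [C.f11_0, C.f11_1, C.f11_2, C.f13_4, C.o0, C.o2, s3, x21_0_1, x22_1_1, x23_5_0, x24_1_1, x27_0_1, x3_0_1]
                  · rcases d_p12_33A with x28_0_0 | x28_1_0 | x28_2_0 | x28_3_0 | x28_4_0 | x28_5_0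
                    · linarith only [C.o0, e0, x28_0_0]
                    · linarith only [C.a2, C.o0, C.o1, e0, x28_1_0]
                    · linarith only [C.f11_0, C.f33_1, C.o0, e0, s1, x28_2_0]
                    · linarith only [C.f11_0, C.o0, s1, x1_0_1, x28_3_0]
                    · linarith only [C.f11_0, C.f11_1, C.f13_4, C.o0, C.o1, s2, x21_0_1, x22_1_1, x23_5_0, x24_1_1, x27_1_1, x28_4_0, x2_1_1, x3_0_1]
                    · linarith only [C.f12_6, C.o2, x27_1_1, x28_5_0, x2_1_1, x4_1_1]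
          · rcases d_f33_5 with ⟨x29_0_0, x29_0_1⟩ | ⟨x29_1_0, x29_1_1⟩
            · linarith only [C.f11_0, C.f13_0, C.f13_3, C.f33_4, C.o0, C.o2, s1, x21_1_1, x29_0_1]
            · rcases d_f33_8 with ⟨x30_0_0, x30_0_1⟩ | ⟨x30_1_0, x30_1_1⟩
              · linarith only [C.b4, C.f33_7, x29_1_1, x30_0_1, x4_1_1]
              · rcases d_p12_33A with x31_0_0 | x31_1_0 | x31_2_0 | x31_3_0 | x31_4_0 | x31_5_0
                · linarith only [C.o0, e0, x31_0_0]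
                · linarith only [C.a2, C.o0, C.o1, e0, x31_1_0]
                · linarith only [C.f11_0, C.f33_1, C.o0, e0, s1, x31_2_0]
                · linarith only [C.f11_0, C.o0, s1, x1_0_1, x31_3_0]
                · rcases d_tmpp with x32_0_0 | x32_1_0 | x32_2_0 | x32_3_0
                  · linarith only [C.f11_0, C.f33_0, C.o0, s1, x32_0_0]
                  · linarith only [C.f11_0, C.f33_1, C.o0, C.o1, s1, x29_1_1, x2_1_1, x31_4_0, x32_1_0]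
                  · linarith only [e0, x32_2_0]
                  · linarith only [C.f11_0, C.f11_1, C.o1, s2, x2_1_1, x31_4_0, x32_3_0]
                · linarith only [C.f12_6, C.o2, x2_1_1, x30_1_1, x31_5_0, x4_1_1]
      · linarith only [C.f11_0, C.f13_0, C.f33_1, C.o0, C.o2, s1, x3_1_1]
  · linarith only [C.a2, C.f12_0, C.o1, x1_1_1]

end Pool.Agent.Helper13.TQ
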