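import Pool.Agent.Helper89.TQ.Ctx

set_option autoImplicit false
set_option linter.all false
set_option maxHeartbeats 4000000

namespace Pool.Agent.Helper13.TQ

open Pool.Agent.Helper89.TQ

theorem c3_22_22_33_k0 {n1 n2 n3 A1 A2 A3 B1 B2 B3 m11_1 m11_2 m11_3 m22_1 m22_2 m22_3 m23_1 m23_2 m23_3 m33_1 m33_2 m33_3 : ℤ}
    (C : Ctx3 n1 n2 n3 A1 A2 A3 B1 B2 B3 m11_1 m11_2 m11_3 m22_1 m22_2 m22_3 m23_1 m23_2 m23_3 m33_1 m33_2 m33_3)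
    (e0 : 0 < B2)
    (e1 : 0 < A3)
    (s1 : 0 * A1 + 3 * B1 ≤ m22_1 + m22_1 + m33_1)
    (s2 : 0 * A2 + 3 * B2 ≤ m22_2 + m22_2 + m33_2)
    (s3 : 0 * A3 + 3 * B3 ≤ m22_3 + m22_3 + m33_3) : False := by
  have d_t12 : (-A1 + 1 ≤ 0 ∧ -A1 + A2 - n2 + 1 ≤ 0) ∨ (-B1 + 1 ≤ 0 ∧ -B1 + B2 - n2 + 1 ≤ 0) := by
    have h := C.t12
    omega
  have d_f23_3 : (m23_1 - n1 ≤ 0 ∧ -m23_1 + n1 ≤ 0) ∨ (-A2 + m23_1 + 1 ≤ 0 ∧ A2 - m23_1 - 1 ≤ 0) ∨ (-B3 + m23_1 + 1 ≤ 0 ∧ B3 - m23_1 - 1 ≤ 0) := by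
    have h := C.f23_3
    omega
  have d_f23_7 : (-m23_1 + m23_2 - n2 ≤ 0 ∧ m23_1 - m23_2 + n2 ≤ 0) ∨ (-A2 + m23_2 + 1 ≤ 0 ∧ A2 - m23_2 - 1 ≤ 0) ∨ (-B3 + m23_2 + 1 ≤ 0 ∧ B3 - m23_2 - 1 ≤ 0) := by
    have h := C.f23_7
    omega
  have d_f23_10 : (-m23_2 + m23_3 - n3 ≤ 0 ∧ m23_2 - m23_3 + n3 ≤ 0) ∨ (-B3 + m23_3 + 1 ≤ 0 ∧ B3 - m23_3 - 1 ≤ 0) := by
    have h := C.f23_10
    omega
  have d_p11_23B : B1 ≤ 0 ∨ A2 ≤ 0 ∨ B3 ≤ 0 ∨ (-2) * B1 + m11_1 + m23_1 + 1 ≤ 0 ∨ (-2) * B2 + m11_2 + m23_2 + 1 ≤ 0 ∨ (-2) * B3 + m11_3 + m23_3 + 1 ≤ 0 := by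
    have h := C.p11_23B
    omega
  have d_p22_23B : B2 ≤ 0 ∨ A2 ≤ 0 ∨ B3 ≤ 0 ∨ (-2) * B1 + m22_1 + m23_1 + 1 ≤ 0 ∨ (-2) * B2 + m22_2 + m23_2 + 1 ≤ 0 ∨ (-2) * B3 + m22_3 + m23_3 + 1 ≤ 0 := by
    have h := C.p22_23B
    omega
  have d_tmzp : -A1 + n1 ≤ 0 ∨ -A1 + A2 ≤ 0 ∨ -A2 + A3 ≤ 0 ∨ B1 ≤ 0 ∨ B1 - B2 + n2 ≤ 0 ∨ B2 - B3 + n3 ≤ 0 := by
    have h := C.tmzp
    omega
  have d_tmpp : -A1 + n1 ≤ 0 ∨ -A1 + A2 - 1 ≤ 0 ∨ B1 ≤ 0 ∨ B1 - B2 + n2 - 1 ≤ 0 := by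
    have h := C.tmpp
    omega
  have d_tzmp : A1 - A2 + n2 ≤ 0 ∨ -A2 + A3 - 1 ≤ 0 ∨ -B1 + B2 ≤ 0 ∨ B2 - B3 + n3 - 1 ≤ 0 := by
    have h := C.tzmp
    omega
  rcases d_t12 with ⟨x1_0_0, x1_0_1⟩ | ⟨x1_1_0, x1_1_1⟩
  · rcases d_f23_3 with ⟨x2_0_0, x2_0_1⟩ | ⟨x2_1_0, x2_1_1⟩ | ⟨x2_2_0, x2_2_1⟩
    · rcases d_f23_7 with ⟨x3_0_0, x3_0_1⟩ | ⟨x3_1_0, x3_1_1⟩ | ⟨x3_2_0, x3_2_1⟩
      · linarith only [C.a1, C.f23_5, x1_0_1, x2_0_1, x3_0_1]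
      · rcases d_tmpp with x4_0_0 | x4_1_0 | x4_2_0 | x4_3_0
        · rcases d_tzmp with x5_0_0 | x5_1_0 | x5_2_0 | x5_3_0
          · linarith only [x1_0_1, x5_0_0]
          · rcases d_p22_23B with x6_0_0 | x6_1_0 | x6_2_0 | x6_3_0 | x6_4_0 | x6_5_0
            · linarith only [C.f22_1, C.f33_0, C.o0, s1, x1_0_0, x4_0_0, x6_0_0]
            · linarith only [C.f22_1, C.f33_1, C.o0, C.o1, s1, x1_0_0, x5_1_0, x6_1_0]
            · linarith only [C.a4, C.f22_1, C.f33_1, C.o0, C.o1, C.o2, s1, x1_0_0, x6_2_0]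
            · linarith only [C.f22_0, C.f33_0, s1, x2_0_1, x6_3_0]
            · linarith only [C.f33_4, C.o1, s2, x3_1_1, x5_1_0, x6_4_0]
            · rcases d_f23_10 with ⟨x7_0_0, x7_0_1⟩ | ⟨x7_1_0, x7_1_1⟩
              · linarith only [C.f22_4, C.f22_6, C.f33_7, C.o1, C.o2, s3, x3_1_1, x6_5_0, x7_0_1]
              · linarith only [C.f33_7, C.o2, s3, x6_5_0, x7_1_1]
          · linarith only [C.f22_1, C.f33_0, C.o0, s1, x4_0_0, x5_2_0]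
          · linarith only [C.f22_4, C.f22_6, C.f33_7, C.o2, s3, x5_3_0]
        · linarith only [C.f22_1, C.f23_1, C.f33_0, C.o0, C.o1, s1, x2_0_1, x4_1_0]
        · linarith only [C.o0, x1_0_0, x4_2_0]
        · linarith only [C.o0, C.o1, x1_0_1, x4_3_0]
      · linarith only [C.a4, C.f23_5, C.o2, x3_2_1]
    · rcases d_tmzp with x8_0_0 | x8_1_0 | x8_2_0 | x8_3_0 | x8_4_0 | x8_5_0
      · linarith only [C.f22_1, C.f23_0, C.f33_0, C.o0, C.o1, s1, x2_1_1, x8_0_0]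
      · linarith only [C.b2, C.o0, C.o1, x8_1_0]
      · rcases d_tmpp with x9_0_0 | x9_1_0 | x9_2_0 | x9_3_0
        · linarith only [C.f22_1, C.f22_4, C.f23_0, C.f33_0, C.f33_4, C.o0, s1, s2, x2_1_1, x8_2_0, x9_0_0]
        · linarith only [C.f22_1, C.f22_4, C.f33_1, C.f33_4, C.o0, s1, s2, x8_2_0, x9_1_0]
        · linarith only [C.o0, x1_0_0, x9_2_0]
        · linarith only [C.f22_4, C.f33_4, C.o0, s2, x1_0_1, x8_2_0, x9_3_0]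
      · linarith only [C.o0, x1_0_0, x8_3_0]
      · linarith only [C.o0, C.o1, x1_0_1, x8_4_0]
      · linarith only [C.f22_4, C.f22_6, C.f33_7, C.o2, s3, x8_5_0]
    · linarith only [C.a4, C.f23_1, C.o2, x2_2_1]
  · rcases d_f23_3 with ⟨x10_0_0, x10_0_1⟩ | ⟨x10_1_0, x10_1_1⟩ | ⟨x10_2_0, x10_2_1⟩
    · rcases d_f23_7 with ⟨x11_0_0, x11_0_1⟩ | ⟨x11_1_0, x11_1_1⟩ | ⟨x11_2_0, x11_2_1⟩
      · linarith only [C.a3, C.f22_0, C.f23_5, C.f33_0, C.o0, s1, x10_0_1, x11_0_1]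
      · rcases d_f23_10 with ⟨x12_0_0, x12_0_1⟩ | ⟨x12_1_0, x12_1_1⟩
        · linarith only [C.f22_4, C.f22_6, C.f23_9, C.f33_7, C.o1, C.o2, s3, x11_1_1, x12_0_1]
        · rcases d_p11_23B with x13_0_0 | x13_1_0 | x13_2_0 | x13_3_0 | x13_4_0 | x13_5_0
          · linarith only [x13_0_0, x1_1_0]
          · linarith only [C.f22_0, C.f23_1, C.f33_0, s1, x10_0_1, x13_1_0, x1_1_0]
          · linarith only [C.a4, C.o1, C.o2, e0, x13_2_0]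
          · rcases d_tzmp with x14_0_0 | x14_1_0 | x14_2_0 | x14_3_0
            · rcases d_p22_23B with x15_0_0 | x15_1_0 | x15_2_0 | x15_3_0 | x15_4_0 | x15_5_0
              · linarith only [C.f11_0, C.f22_1, C.f33_0, s1, x10_0_1, x13_3_0, x15_0_0, x1_1_0]
              · linarith only [C.o1, e0, x15_1_0]
              · linarith only [C.a4, C.o1, C.o2, e0, x15_2_0]
              · linarith only [C.f22_0, C.f33_0, s1, x10_0_1, x15_3_0]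
              · linarith only [C.f11_0, C.f22_4, C.f33_0, C.f33_3, C.o0, s2, x10_0_1, x11_1_1, x13_3_0, x14_0_0, x15_4_0]
              · linarith only [C.f33_7, C.o2, s3, x12_1_1, x15_5_0]
            · rcases d_p22_23B with x16_0_0 | x16_1_0 | x16_2_0 | x16_3_0 | x16_4_0 | x16_5_0
              · linarith only [C.f11_0, C.f22_1, C.f33_0, s1, x10_0_1, x13_3_0, x16_0_0, x1_1_0]
              · linarith only [C.o1, e0, x16_1_0]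
              · linarith only [C.a4, C.o1, C.o2, e0, x16_2_0]
              · linarith only [C.f22_0, C.f33_0, s1, x10_0_1, x16_3_0]
              · linarith only [C.f22_4, C.f33_4, s2, x11_1_1, x14_1_0, x16_4_0]
              · linarith only [C.f33_7, C.o2, s3, x12_1_1, x16_5_0]
            · linarith only [C.f11_0, C.f22_1, C.f33_0, s1, x10_0_1, x13_3_0, x14_2_0]
            · linarith only [C.f22_4, C.f22_6, C.f33_7, C.o2, s3, x14_3_0]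
          · linarith only [C.a3, C.f11_0, C.f11_1, C.o0, C.o1, x11_1_1, x13_4_0]
          · linarith only [C.a3, C.f11_0, C.f11_1, C.f11_2, C.f22_4, C.f22_6, C.f33_7, C.o0, C.o1, C.o2, s3, x12_1_1, x13_5_0]
      · linarith only [C.a4, C.f23_5, C.o2, x11_2_1]
    · rcases d_f23_7 with ⟨x17_0_0, x17_0_1⟩ | ⟨x17_1_0, x17_1_1⟩ | ⟨x17_2_0, x17_2_1⟩
      · linarith only [C.a3, C.b2, C.f23_5, C.o0, C.o1, x10_1_1, x17_0_1]
      · rcases d_f23_10 with ⟨x18_0_0, x18_0_1⟩ | ⟨x18_1_0, x18_1_1⟩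
        · linarith only [C.f22_4, C.f22_6, C.f23_9, C.f33_7, C.o1, C.o2, s3, x17_1_1, x18_0_1]
        · rcases d_tmzp with x19_0_0 | x19_1_0 | x19_2_0 | x19_3_0 | x19_4_0 | x19_5_0
          · linarith only [C.f22_1, C.f23_0, C.f33_0, C.o0, C.o1, s1, x10_1_1, x19_0_0]
          · linarith only [C.b2, C.o0, C.o1, x19_1_0]
          · rcases d_p11_23B with x20_0_0 | x20_1_0 | x20_2_0 | x20_3_0 | x20_4_0 | x20_5_0
            · linarith only [x1_1_0, x20_0_0]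
            · linarith only [C.f22_4, C.f33_4, e0, s2, x19_2_0, x20_1_0]
            · linarith only [C.a4, C.o1, C.o2, e0, x20_2_0]
            · linarith only [C.f11_0, C.f22_1, C.f22_4, C.f33_1, C.f33_4, s1, s2, x10_1_1, x19_2_0, x20_3_0]
            · linarith only [C.a3, C.f11_0, C.f11_1, C.f22_4, C.f33_4, C.o0, s2, x17_1_1, x19_2_0, x20_4_0]
            · linarith only [C.a3, C.f11_0, C.f11_1, C.f11_2, C.f22_4, C.f22_6, C.f33_4, C.f33_7, C.o0, C.o2, s2, s3, x18_1_1, x19_2_0, x20_5_0]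
          · linarith only [x19_3_0, x1_1_0]
          · linarith only [C.a3, C.o0, C.o1, x19_4_0]
          · linarith only [C.f22_4, C.f22_6, C.f33_7, C.o2, s3, x19_5_0]
      · linarith only [C.a4, C.f23_5, C.o2, x17_2_1]
    · linarith only [C.a4, C.f23_1, C.o2, x10_2_1]

end Pool.Agent.Helper13.TQ
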