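import Pool.Agent.Helper13.TQ.c0_11_11_33_k0
import Pool.Agent.Helper13.TQ.c0_11_11_33_k1
import Pool.Agent.Helper13.TQ.c0_11_13_23_k0
import Pool.Agent.Helper13.TQ.c0_11_13_23_k3
import Pool.Agent.Helper13.TQ.c0_11_13_33_k2
import Pool.Agent.Helper13.TQ.c0_11_22_23_k3
import Pool.Agent.Helper13.TQ.c0_11_22_33_k0
import Pool.Agent.Helper13.TQ.c0_11_22_33_k1
import Pool.Agent.Helper13.TQ.c0_11_22_33_k3
import Pool.Agent.Helper13.TQ.c0_11_23_33_k1
import Pool.Agent.Helper13.TQ.c0_11_23_33_k2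
import Pool.Agent.Helper13.TQ.c0_11_23_33_k3
import Pool.Agent.Helper13.TQ.c0_11_33_33_k2
import Pool.Agent.Helper13.TQ.c0_11_33_33_k3
import Pool.Agent.Helper13.TQ.c0_13_22_33_k2
import Pool.Agent.Helper13.TQ.c0_13_22_33_k3
import Pool.Agent.Helper13.TQ.c0_13_23_33_k2
import Pool.Agent.Helper13.TQ.c0_22_23_33_k3
import Pool.Agent.Helper13.TQ.c2_11_11_33_k0
import Pool.Agent.Helper13.TQ.c2_11_13_22_k0
import Pool.Agent.Helper13.TQ.c2_11_22_33_k0
import Pool.Agent.Helper13.TQ.c2_11_22_33_k2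
import Pool.Agent.Helper13.TQ.c2_11_22_33_k3
import Pool.Agent.Helper13.TQ.c2_11_33_33_k3
import Pool.Agent.Helper13.TQ.c2_13_22_33_k3
import Pool.Agent.Helper13.TQ.c3_22_22_33_k0
import Pool.Agent.Helper13.TQ.c3_22_33_33_k3

/-! MP_5465ec_co, Q2: all hard integer lemmas (case trees found by an LP based search). -/
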