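import Pool.Agent.Helper89.TQ.Spec

/-!
MP_5465ec_co, Q2, part BRIDGE: from the game to the rows.
-/

set_option autoImplicit false

namespace Pool.Agent.Helper13.TQ.BRIDGE

open Finset Pool.Agent.R6.Trade Pool.Agent.Helper89.TQ

section
variable {N : Type} [DecidableEq N]

lemma vec_insert (τ : N → Fin 3) {S : Finset N} {v : N} (hv : v ∉ S) (i : Fin 3) :
    vec τ (insert v S) i = vec τ S i + if τ v = i then 1 else 0 := by
  unfold vec
  rw [filter_insert]
  split_ifs with h
  · rw [card_insert_of_notMem]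
    simp [hv]
  · rfl

lemma exists_notMem [Fintype N] (τ : N → Fin 3) {S : Finset N} {i : Fin 3}
    (h : vec τ S i < nn τ i) : ∃ v, v ∉ S ∧ τ v = i := by
  by_contra hcon
  push Not at hcon
  have : univ.filter (fun v => τ v = i) ⊆ S.filter (fun v => τ v = i) := by
    intro v hv
    rw [mem_filter] at hv ⊢
    refine ⟨?_, hv.2⟩
    by_contra hS
    exact hcon v hS hv.2
  have := card_le_card this
  unfold vec nn at h
  omega

lemma exists_mem (τ : N → Fin 3) {S : Finset N} {i : Fin 3}
    (h : 0 < vec τ S i) : ∃ v, v ∈ S ∧ τ v = i := by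
  unfold vec at h
  obtain ⟨v, hv⟩ := card_pos.1 h
  exact ⟨v, (mem_filter.1 hv).1, (mem_filter.1 hv).2⟩

variable [Fintype N]

/-- `x` is the vector of a winning coalition -/
def V (W : Finset N → Prop) (τ : N → Fin 3) (x : Fin 3 → ℕ) : Prop := ∃ S, W S ∧ vec τ S = x

lemma V_add {W : Finset N → Prop} {τ : N → Fin 3} (hmono : ∀ S T : Finset N, S ⊆ T → W S → W T)
    {x y : Fin 3 → ℕ} (i : Fin 3) (hx : V W τ x) (hi : x i < nn τ i)
    (hy : ∀ k, y k = x k + if i = k then 1 else 0) : V W τ y := by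
  obtain ⟨S, hS, rfl⟩ := hx
  obtain ⟨v, hv, hvi⟩ := exists_notMem τ hi
  refine ⟨insert v S, hmono _ _ (subset_insert _ _) hS, ?_⟩
  funext k
  rw [vec_insert τ hv, hy, hvi]

lemma V_swap {W : Finset N → Prop} {τ : N → Fin 3}
    (hτ : ∀ u v, AtLeast W u v ↔ τ u ≤ τ v)
    {x y : Fin 3 → ℕ} (i j : Fin 3) (hij : i < j) (hx : V W τ x) (hi : x i < nn τ i) (hj : 0 < x j)
    (hy : ∀ k, y k + (if j = k then 1 else 0) = x k + if i = k then 1 else 0) : V W τ y := by
  obtain ⟨S, hS, rfl⟩ := hx
  obtain ⟨u, hu, hui⟩ := exists_notMem τ hi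
  obtain ⟨v, hv, hvj⟩ := exists_mem τ hj
  have hle : AtLeast W u v := (hτ u v).2 (by rw [hui, hvj]; exact hij.le)
  have hu' : u ∉ S.erase v := fun h => hu (mem_of_mem_erase h)
  refine ⟨insert u (S.erase v), hle (S.erase v) hu' (notMem_erase v S) (by rwa [insert_erase hv]), ?_⟩
  funext k
  have h1 := vec_insert τ hu' k
  have h2 := vec_insert τ (notMem_erase v S) k
  rw [insert_erase hv] at h2
  have h3 := hy k
  rw [hui] at h1
  rw [hvj] at h2
  omega

lemma V_mono {W : Finset N → Prop} {τ : N → Fin 3}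
    (hmono : ∀ S T : Finset N, S ⊆ T → W S → W T)
    (hτ : ∀ u v, AtLeast W u v ↔ τ u ≤ τ v) (m : ℕ) :
    ∀ x y : Fin 3 → ℕ, (∀ i, y i ≤ nn τ i) → GE y x →
      (y 0 + (y 0 + y 1) + (y 0 + y 1 + y 2)) - (x 0 + (x 0 + x 1) + (x 0 + x 1 + x 2)) = m →
      V W τ x → V W τ y := by
  induction m using Nat.strong_induction_on with
  | _ m ih =>
    intro x y hy hge hm hx
    obtain ⟨h0, h1, h2⟩ := hge
    have hy0 := hy 0
    have hy1 := hy 1
    have hy2 := hy 2
    have step : ∀ z : Fin 3 → ℕ, V W τ z → GE y z →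
        (x 0 + (x 0 + x 1) + (x 0 + x 1 + x 2)) < (z 0 + (z 0 + z 1) + (z 0 + z 1 + z 2)) →
        V W τ y := by
      intro z hz hyz hlt
      have hyz' := hyz
      obtain ⟨g0, g1, g2⟩ := hyz'
      exact ih _ (by omega) z y hy hyz rfl hz
    by_cases c0 : x 0 < y 0
    · by_cases c1 : x 0 + x 1 = y 0 + y 1
      · refine step ![x 0 + 1, x 1 - 1, x 2] (V_swap hτ 0 1 (by decide) hx (by omega) (by omega) ?_) ?_ ?_
        · intro k; fin_cases k <;> simp <;> omega
        · refine ⟨?_, ?_, ?_⟩ <;> simp <;> omega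
        · simp; omega
      · by_cases c2 : x 0 + x 1 + x 2 = y 0 + y 1 + y 2
        · refine step ![x 0 + 1, x 1, x 2 - 1] (V_swap hτ 0 2 (by decide) hx (by omega) (by omega) ?_) ?_ ?_
          · intro k; fin_cases k <;> simp <;> omega
          · refine ⟨?_, ?_, ?_⟩ <;> simp <;> omega
          · simp; omega
        · refine step ![x 0 + 1, x 1, x 2] (V_add hmono 0 hx (by omega) ?_) ?_ ?_
          · intro k; fin_cases k <;> simp
          · refine ⟨?_, ?_, ?_⟩ <;> simp <;> omega
          · simp; omega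
    · by_cases c1 : x 1 < y 1
      · by_cases c2 : x 0 + x 1 + x 2 = y 0 + y 1 + y 2
        · refine step ![x 0, x 1 + 1, x 2 - 1] (V_swap hτ 1 2 (by decide) hx (by omega) (by omega) ?_) ?_ ?_
          · intro k; fin_cases k <;> simp <;> omega
          · refine ⟨?_, ?_, ?_⟩ <;> simp <;> omega
          · simp; omega
        · refine step ![x 0, x 1 + 1, x 2] (V_add hmono 1 hx (by omega) ?_) ?_ ?_
          · intro k; fin_cases k <;> simp
          · refine ⟨?_, ?_, ?_⟩ <;> simp <;> omega
          · simp; omega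
      · by_cases c2 : x 2 < y 2
        · refine step ![x 0, x 1, x 2 + 1] (V_add hmono 2 hx (by omega) ?_) ?_ ?_
          · intro k; fin_cases k <;> simp
          · refine ⟨?_, ?_, ?_⟩ <;> simp <;> omega
          · simp
        · have : x = y := by
            funext k
            fin_cases k
            · show x 0 = y 0; omega
            · show x 1 = y 1; omega
            · show x 2 = y 2; omega
          rwa [← this]

lemma above_min {W : Finset N → Prop} {τ : N → Fin 3} {a b : Fin 3 → ℕ}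
    (hab : ∀ v, MinWin W τ v ↔ v = a ∨ v = b) (m : ℕ) :
    ∀ S, W S → (vec τ S 0 + (vec τ S 0 + vec τ S 1) + (vec τ S 0 + vec τ S 1 + vec τ S 2)) = m →
      Win a b (vec τ S) := by
  induction m using Nat.strong_induction_on with
  | _ m ih =>
    intro S hS hm
    by_cases hmin : MinWin W τ (vec τ S)
    · rcases (hab _).1 hmin with h | h
      · left; rw [h]; exact ⟨le_rfl, le_rfl, le_rfl⟩
      · right; rw [h]; exact ⟨le_rfl, le_rfl, le_rfl⟩
    · have : ∃ S', W S' ∧ GE (vec τ S) (vec τ S') ∧ vec τ S' ≠ vec τ S := by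
        by_contra hcon
        push Not at hcon
        exact hmin ⟨⟨S, hS, rfl⟩, fun S' h1 h2 => hcon S' h1 h2⟩
      obtain ⟨S', hS', hge, hne⟩ := this
      have hge' := hge
      obtain ⟨g0, g1, g2⟩ := hge'
      have hlt : (vec τ S' 0 + (vec τ S' 0 + vec τ S' 1) + (vec τ S' 0 + vec τ S' 1 + vec τ S' 2))
          < m := by
        by_contra hge2
        apply hne
        funext k
        fin_cases k
        · show vec τ S' 0 = vec τ S 0; omega
        · show vec τ S' 1 = vec τ S 1; omega
        · show vec τ S' 2 = vec τ S 2; omega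
      rcases ih _ hlt S' hS' rfl with h | h
      · left
        obtain ⟨k0, k1, k2⟩ := h
        exact ⟨by omega, by omega, by omega⟩
      · right
        obtain ⟨k0, k1, k2⟩ := h
        exact ⟨by omega, by omega, by omega⟩

end

theorem main : S_BRIDGE := by
  intro N _ _ W τ a b hS hsurj hτ hne hab
  obtain ⟨-, -, hmono⟩ := hS
  have ha : MinWin W τ a := (hab a).2 (Or.inl rfl)
  have hb : MinWin W τ b := (hab b).2 (Or.inr rfl)
  obtain ⟨⟨Sa, hSa, hva⟩, hmina⟩ := ha
  obtain ⟨⟨Sb, hSb, hvb⟩, hminb⟩ := hb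
  have hle : ∀ S i, vec τ S i ≤ nn τ i := fun S i => vec_le τ S i
  have hiff : ∀ S, W S ↔ Win a b (vec τ S) := by
    intro S
    constructor
    · intro h
      exact above_min hab _ S h rfl
    · intro h
      have hV : V W τ (vec τ S) := by
        rcases h with h | h
        · exact V_mono hmono hτ _ a _ (hle S) h rfl ⟨Sa, hSa, hva⟩
        · exact V_mono hmono hτ _ b _ (hle S) h rfl ⟨Sb, hSb, hvb⟩
      obtain ⟨T, hT, hTS⟩ := hV
      exact win_of_vec_eq hmono τ (fun u v huv => (hτ u v).2 huv.le) _ T S rfl hTS hT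
  have differ : ∀ i j : Fin 3, i < j → ∃ S : Finset N, ∃ x : Fin 3 → ℕ, x = vec τ S ∧
      x j + 1 ≤ nn τ j ∧
      Win a b (fun k => x k + if i = k then 1 else 0) ∧
      ¬ Win a b (fun k => x k + if j = k then 1 else 0) := by
    intro i j hij
    obtain ⟨u, hu⟩ := hsurj i
    obtain ⟨v, hv⟩ := hsurj j
    have hnot : ¬ AtLeast W v u := by
      rw [hτ, hu, hv]
      exact not_le.2 hij
    unfold AtLeast at hnot
    push Not at hnot
    obtain ⟨S, hvS, huS, hw, hnw⟩ := hnot
    have e1 : vec τ (insert u S) = fun k => vec τ S k + if i = k then 1 else 0 := by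
      funext k
      rw [vec_insert τ huS, hu]
    have e2 : vec τ (insert v S) = fun k => vec τ S k + if j = k then 1 else 0 := by
      funext k
      rw [vec_insert τ hvS, hv]
    refine ⟨S, vec τ S, rfl, ?_, ?_, ?_⟩
    · have := hle (insert v S) j
      rw [e2] at this
      simpa using this
    · rw [← e1]
      exact (hiff _).1 hw
    · rw [← e2]
      exact fun h => hnw ((hiff _).2 h)
  refine ⟨fun i => hva ▸ hle Sa i, fun i => hvb ▸ hle Sb i, ?_, ?_, ?_, ?_, hiff⟩
  · intro h
    apply hne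
    have := hmina Sb hSb (by rw [hvb]; exact h)
    rw [← this, hvb]
  · intro h
    apply hne
    have := hminb Sa hSa (by rw [hva]; exact h)
    rw [← this, hva]
  · obtain ⟨S, x, -, hxn, h1, h2⟩ := differ 0 1 (by decide)
    unfold Win GE at h1 h2
    simp at h1 h2
    rcases h1 with h1 | h1
    · left
      have := h2.1
      omega
    · right
      have := h2.2
      omega
  · obtain ⟨S, x, -, hxn, h1, h2⟩ := differ 1 2 (by decide)
    unfold Win GE at h1 h2
    simp at h1 h2
    rcases h1 with h1 | h1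
    · left
      have := h2.1
      omega
    · right
      have := h2.2
      omega

end Pool.Agent.Helper13.TQ.BRIDGE
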